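import Mathlib

/-!
Definitions for MP_425ce8_an: interpolation sets for the analytic Zygmund class.
-/

namespace ZygInt

open Complex Metric Set

/-- The Zygmund class of the plane. -/
def ZygmundPlane (φ : ℂ → ℂ) : Prop :=
  Continuous φ ∧ ∃ C : ℝ, ∀ z h : ℂ, ‖φ (z + h) + φ (z - h) - 2 * φ z‖ ≤ C * ‖h‖

/-- The Zygmund class of the unit circle (for the restriction of `g` to the circle). -/
def ZygmundCircle (g : ℂ → ℂ) : Prop :=
  ContinuousOn g (sphere (0 : ℂ) 1) ∧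
  ∃ C : ℝ, ∀ t h : ℝ,
    ‖g (exp ((t + h : ℝ) * I)) + g (exp ((t - h : ℝ) * I)) - 2 * g (exp (t * I))‖ ≤ C * |h|

/-- The analytic Zygmund class `Λ_*`; `f` is the continuous extension to the closed disc of a
holomorphic function on the open disc (its values off the closed disc are irrelevant). -/
def AnalyticZygmund (f : ℂ → ℂ) : Prop :=
  DifferentiableOn ℂ f (ball (0 : ℂ) 1) ∧ ContinuousOn f (closedBall (0 : ℂ) 1) ∧ ZygmundCircle f

/-- `X` is an interpolation set for `Λ_*`. -/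
def InterpolationSet (X : Set ℂ) : Prop :=
  ∀ φ : ℂ → ℂ, ZygmundPlane φ → ∃ f : ℂ → ℂ, AnalyticZygmund f ∧ ∀ x ∈ X, f x = φ x

/-- Condition (K) with a given constant. -/
def CondKWith (c : ℝ) (X : Set ℂ) : Prop :=
  ∀ α β : ℝ, α < β → β ≤ α + 2 * Real.pi →
    ∃ θ ∈ Icc α β, ∀ x ∈ X, c * (β - α) ≤ ‖exp (θ * I) - x‖

/-- Condition (K): every arc `I` of the circle contains a point whose distance to `X` is at
least `c |I|`. -/
def CondK (X : Set ℂ) : Prop := ∃ c > 0, CondKWith c X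

/-- quantitative form of `Λ_*`: `D` is the derivative of `f` -/
def ZClass (M : ℝ) (f D : ℂ → ℂ) : Prop :=
  ∀ p ∈ ball (0 : ℂ) 1, ∀ z ∈ closedBall (0 : ℂ) 1,
    ‖f z - f p - D p * (z - p)‖ ≤ M * ‖z - p‖ ^ 2 / (1 - ‖p‖)

/-- slope of `φ` between `a` and `b` -/
noncomputable def sl (φ : ℂ → ℂ) (a b : ℂ) : ℂ := (φ b - φ a) / (b - a)

/-- absolute value of the sine of the angle at `a` of the triangle `a b c` -/
noncomputable def sn (a b c : ℂ) : ℝ :=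
  |((b - a) * (starRingEnd ℂ) (c - a)).im| / (‖b - a‖ * ‖c - a‖)

/-- scale of a pair -/
noncomputable def rr (a b : ℂ) : ℝ := max ‖a - b‖ (max (1 - ‖a‖) (1 - ‖b‖))

/-- hyperbolic type distance of the points `(u, r)`, `(v, s)` of `ℂ × (0, ∞)` -/
noncomputable def EE (u : ℂ) (r : ℝ) (v : ℂ) (s : ℝ) : ℝ := Real.log ((r + s + ‖u - v‖) ^ 2 / (r * s))

/-- Condition (T1) -/
def CondT1 (X : Set ℂ) : Prop :=
  ∃ C : ℝ, ∀ a ∈ X, ∀ b ∈ X, ∀ c ∈ X, a ≠ b → a ≠ c → b ≠ c → ‖a - b‖ ≤ ‖a - c‖ →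
    1 - ‖a‖ ≤ C * ‖a - c‖

/-- Condition (T2) -/
def CondT2 (X : Set ℂ) : Prop :=
  ∃ C : ℝ, ∀ a ∈ X, ∀ b ∈ X, ∀ c ∈ X, a ≠ b → a ≠ c → b ≠ c → ‖a - b‖ ≤ ‖a - c‖ →
    Real.log (‖a - c‖ / ‖a - b‖) + sn a b c * Real.log (2 / ‖a - c‖) ≤
      C * (1 + max 0 (Real.log (‖a - c‖ / max ‖a - b‖ (1 - ‖a‖))))

end ZygInt
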