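import Mathlib
import Pool.Agent.ZygInt.Defs

namespace ZygInt

open Complex Metric Set Filter Topology

/-- Taylor estimate along segments from the bound `|f''| ≤ M / (1 - |z|)`. -/
theorem taylor_of_second_deriv {f : ℂ → ℂ} {M : ℝ} (hM : 0 ≤ M)
    (hf : DifferentiableOn ℂ f (ball 0 1)) (hc : ContinuousOn f (closedBall 0 1))
    (h2 : ∀ z ∈ ball (0 : ℂ) 1, ‖deriv (deriv f) z‖ ≤ M / (1 - ‖z‖)) :
    ZClass M f (deriv f) := by
  intro p hp z hz
  have hp1 : ‖p‖ < 1 := by simpa using hp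
  have hz1 : ‖z‖ ≤ 1 := by simpa using hz
  set v := z - p with hv
  set t := 1 - ‖p‖ with ht
  have ht0 : 0 < t := by rw [ht]; linarith
  set γ : ℝ → ℂ := fun s => p + s * v with hγ
  have hγn : ∀ s, 0 ≤ s → s ≤ 1 → (1 - s) * t ≤ 1 - ‖γ s‖ := by
    intro s h0 h1
    have : γ s = (1 - s : ℝ) * p + (s : ℝ) * z := by
      simp only [hγ, hv]; push_cast; ring
    rw [this]
    have h3 : ‖((1 - s : ℝ) : ℂ) * p + (s : ℝ) * z‖ ≤ (1 - s) * ‖p‖ + s * ‖z‖ := by
      refine (norm_add_le _ _).trans ?_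
      rw [norm_mul, norm_mul, Complex.norm_real, Complex.norm_real, Real.norm_of_nonneg (by linarith),
        Real.norm_of_nonneg h0]
    rw [ht]
    nlinarith
  have hγb : ∀ s, 0 ≤ s → s < 1 → γ s ∈ ball (0 : ℂ) 1 := by
    intro s h0 h1
    have := hγn s h0 h1.le
    have h3 : 0 < (1 - s) * t := mul_pos (by linarith) ht0
    simp only [mem_ball_zero_iff]
    linarith
  have hdf : DifferentiableOn ℂ (deriv f) (ball 0 1) := hf.deriv isOpen_ball
  have hdiff : ∀ w ∈ ball (0 : ℂ) 1, HasDerivAt f (deriv f w) w := fun w hw =>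
    (hf.differentiableAt (isOpen_ball.mem_nhds hw)).hasDerivAt
  have hdiff2 : ∀ w ∈ ball (0 : ℂ) 1, HasDerivAt (deriv f) (deriv (deriv f) w) w := fun w hw =>
    (hdf.differentiableAt (isOpen_ball.mem_nhds hw)).hasDerivAt
  have hγd : ∀ s, HasDerivAt γ v s := by
    intro s
    have h1 : HasDerivAt (fun s : ℝ => (s : ℂ)) 1 s := Complex.ofRealCLM.hasDerivAt
    have h2 := (h1.mul_const v).const_add p
    simpa [hγ] using h2
  set K := M * ‖v‖ / t with hK
  have hK0 : 0 ≤ K := by positivity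
  -- step A
  have stepA : ∀ s₀, 0 ≤ s₀ → s₀ < 1 → ‖deriv f (γ s₀) - deriv f p‖ ≤ K * (-Real.log (1 - s₀)) := by
    intro s₀ h0 h1
    have hder : ∀ x ∈ Icc 0 s₀, HasDerivAt (fun s => deriv f (γ s) - deriv f p)
        (deriv (deriv f) (γ x) * v) x := by
      intro x hx
      have h3 := (hdiff2 (γ x) (hγb x hx.1 (lt_of_le_of_lt hx.2 h1))).comp_of_eq x (hγd x) rfl
      exact (h3.sub_const _)
    have hB : ∀ x ∈ Icc 0 s₀, HasDerivAt (fun s => K * (-Real.log (1 - s))) (K * (1 / (1 - x))) x := by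
      intro x hx
      have hx1 : (1 : ℝ) - x ≠ 0 := by linarith [hx.2]
      have h3 : HasDerivAt (fun s : ℝ => 1 - s) (-1) x := by
        simpa using (hasDerivAt_id x).const_sub 1
      have h4 := (h3.log hx1).neg.const_mul K
      refine HasDerivAt.congr_deriv h4 ?_
      field_simp
    have := image_norm_le_of_norm_deriv_right_le_deriv_boundary' (f := fun s => deriv f (γ s) - deriv f p)
      (f' := fun x => deriv (deriv f) (γ x) * v) (a := 0) (b := s₀)
      (B := fun s => K * (-Real.log (1 - s))) (B' := fun x => K * (1 / (1 - x)))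
      (fun x hx => (hder x hx).continuousAt.continuousWithinAt)
      (fun x hx => (hder x ⟨hx.1, hx.2.le⟩).hasDerivWithinAt)
      (by simp [hγ])
      (fun x hx => (hB x hx).continuousAt.continuousWithinAt)
      (fun x hx => (hB x ⟨hx.1, hx.2.le⟩).hasDerivWithinAt)
      (by
        intro x hx
        rw [norm_mul]
        have hx1 : x < 1 := lt_trans hx.2 h1
        have h3 := h2 (γ x) (hγb x hx.1 hx1)
        have h4 := hγn x hx.1 hx1.le
        have h5 : 0 < (1 - x) * t := mul_pos (by linarith) ht0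
        have h6 : M / (1 - ‖γ x‖) ≤ M / ((1 - x) * t) := div_le_div_of_nonneg_left hM h5 h4
        calc ‖deriv (deriv f) (γ x)‖ * ‖v‖ ≤ M / ((1 - x) * t) * ‖v‖ := by
              gcongr; exact h3.trans h6
          _ = K * (1 / (1 - x)) := by
              rw [hK]; field_simp)
    exact this (right_mem_Icc.2 h0)
  -- step B
  have stepB : ∀ s₀, 0 ≤ s₀ → s₀ < 1 → ‖f (γ s₀) - f p - deriv f p * (s₀ * v)‖ ≤ K * ‖v‖ := by
    intro s₀ h0 h1
    have hder : ∀ x ∈ Icc 0 s₀, HasDerivAt (fun s : ℝ => f (γ s) - f p - deriv f p * (s * v))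
        (deriv f (γ x) * v - deriv f p * v) x := by
      intro x hx
      have h3 := (hdiff (γ x) (hγb x hx.1 (lt_of_le_of_lt hx.2 h1))).comp_of_eq x (hγd x) rfl
      have h4 : HasDerivAt (fun s : ℝ => (s : ℂ)) 1 x := Complex.ofRealCLM.hasDerivAt
      have h5 := (h4.mul_const v).const_mul (deriv f p)
      have h6 := (h3.sub_const (f p)).sub h5
      refine HasDerivAt.congr_deriv h6 ?_
      simp
    have hB : ∀ x ∈ Icc 0 s₀, HasDerivAt (fun s => K * ‖v‖ * ((1 - s) * Real.log (1 - s) + s))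
        (K * ‖v‖ * (-Real.log (1 - x))) x := by
      intro x hx
      have hx1 : (1 : ℝ) - x ≠ 0 := by linarith [hx.2]
      have h3 : HasDerivAt (fun s : ℝ => 1 - s) (-1) x := by
        simpa using (hasDerivAt_id x).const_sub 1
      have h4 := ((h3.mul (h3.log hx1)).add (hasDerivAt_id x)).const_mul (K * ‖v‖)
      refine HasDerivAt.congr_deriv h4 ?_
      field_simp
      ring
    have := image_norm_le_of_norm_deriv_right_le_deriv_boundary'
      (f := fun s : ℝ => f (γ s) - f p - deriv f p * (s * v))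
      (f' := fun x => deriv f (γ x) * v - deriv f p * v) (a := 0) (b := s₀)
      (B := fun s => K * ‖v‖ * ((1 - s) * Real.log (1 - s) + s))
      (B' := fun x => K * ‖v‖ * (-Real.log (1 - x)))
      (fun x hx => (hder x hx).continuousAt.continuousWithinAt)
      (fun x hx => (hder x ⟨hx.1, hx.2.le⟩).hasDerivWithinAt)
      (by simp [hγ])
      (fun x hx => (hB x hx).continuousAt.continuousWithinAt)
      (fun x hx => (hB x ⟨hx.1, hx.2.le⟩).hasDerivWithinAt)
      (by
        intro x hx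
        have hx1 : x < 1 := lt_trans hx.2 h1
        have h3 := stepA x hx.1 hx1
        rw [← sub_mul, norm_mul]
        nlinarith [norm_nonneg v])
    have h3 := this (right_mem_Icc.2 h0)
    refine h3.trans ?_
    have h4 : Real.log (1 - s₀) ≤ 0 := Real.log_nonpos (by linarith) (by linarith)
    have h5 : (1 - s₀) * Real.log (1 - s₀) + s₀ ≤ 1 := by nlinarith
    have h6 : 0 ≤ K * ‖v‖ := by positivity
    nlinarith
  -- step C: the limit s → 1
  have hlim : Tendsto (fun s : ℝ => ‖f (γ s) - f p - deriv f p * (s * v)‖) (𝓝[<] 1)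
      (𝓝 ‖f z - f p - deriv f p * v‖) := by
    have hγ1 : γ 1 = z := by simp [hγ, hv]
    have h3 : Tendsto γ (𝓝[<] 1) (𝓝[closedBall 0 1] z) := by
      rw [tendsto_nhdsWithin_iff]
      constructor
      · have : Tendsto γ (𝓝 1) (𝓝 (γ 1)) := (hγd 1).continuousAt.tendsto
        rw [hγ1] at this
        exact this.mono_left nhdsWithin_le_nhds
      · filter_upwards [Ioo_mem_nhdsLT (show (0 : ℝ) < 1 by norm_num)] with s hs
        exact ball_subset_closedBall (hγb s hs.1.le hs.2)
    have h4 : Tendsto (fun s => f (γ s)) (𝓝[<] 1) (𝓝 (f z)) := (hc z hz).tendsto.comp h3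
    have h5 : Tendsto (fun s : ℝ => (s : ℂ)) (𝓝[<] 1) (𝓝 (1 : ℂ)) := by
      have : Tendsto (fun s : ℝ => (s : ℂ)) (𝓝 1) (𝓝 ((1 : ℝ) : ℂ)) :=
        Complex.continuous_ofReal.tendsto 1
      simpa using this.mono_left nhdsWithin_le_nhds
    have h6 := ((h4.sub_const (f p)).sub ((h5.mul_const v).const_mul (deriv f p))).norm
    simpa using h6
  have hle : ‖f z - f p - deriv f p * v‖ ≤ K * ‖v‖ := by
    refine le_of_tendsto hlim ?_
    filter_upwards [Ioo_mem_nhdsLT (show (0 : ℝ) < 1 by norm_num)] with s hs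
    exact stepB s hs.1.le hs.2
  calc ‖f z - f p - deriv f p * v‖ ≤ K * ‖v‖ := hle
    _ = M * ‖v‖ ^ 2 / t := by rw [hK]; ring

end ZygInt
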