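import Mathlib
import Pool.Agent.ZygInt.Taylor

namespace ZygInt

open Complex Metric Set Filter Topology

theorem ZClass.mono {M M' : ℝ} {f D : ℂ → ℂ} (h : ZClass M f D) (hM : M ≤ M') : ZClass M' f D := by
  intro p hp z hz
  have hp1 : ‖p‖ < 1 := by simpa using hp
  refine (h p hp z hz).trans ?_
  have : 0 < 1 - ‖p‖ := by linarith
  gcongr

theorem ZClass.hasDerivAt {M : ℝ} {f D : ℂ → ℂ} (h : ZClass M f D) {p : ℂ}
    (hp : p ∈ ball (0 : ℂ) 1) : HasDerivAt f (D p) p := by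
  have hp1 : ‖p‖ < 1 := by simpa using hp
  rw [hasDerivAt_iff_isLittleO]
  have hO : (fun x' => f x' - f p - (x' - p) • D p) =O[𝓝 p] fun x' => (x' - p) ^ 2 := by
    refine Asymptotics.IsBigO.of_bound (M / (1 - ‖p‖)) ?_
    filter_upwards [isOpen_ball.mem_nhds hp] with z hz
    have := h p hp z (ball_subset_closedBall hz)
    rw [norm_pow]
    calc ‖f z - f p - (z - p) • D p‖ = ‖f z - f p - D p * (z - p)‖ := by
          rw [smul_eq_mul, mul_comm]
      _ ≤ _ := this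
      _ = M / (1 - ‖p‖) * ‖z - p‖ ^ 2 := by ring
  have ho : (fun x' : ℂ => (x' - p) ^ 2) =o[𝓝 p] fun x' => x' - p := by
    have : Tendsto (fun x' : ℂ => x' - p) (𝓝 p) (𝓝 0) := by
      have : Tendsto (fun x' : ℂ => x' - p) (𝓝 p) (𝓝 (p - p)) :=
        (continuous_id.sub continuous_const).tendsto p
      simpa using this
    have h2 := (Asymptotics.isLittleO_pow_id (𝕜 := ℂ) (n := 2) (by norm_num)).comp_tendsto this
    simpa [Function.comp_def] using h2
  exact hO.trans_isLittleO ho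

theorem ZClass.differentiableOn {M : ℝ} {f D : ℂ → ℂ} (h : ZClass M f D) :
    DifferentiableOn ℂ f (ball 0 1) := fun _ hp =>
  (h.hasDerivAt hp).differentiableAt.differentiableWithinAt

/-- bound for `f` -/
theorem ZClass.norm_le {M : ℝ} {f D : ℂ → ℂ} (h : ZClass M f D) (h0 : ‖f 0‖ ≤ M) (h1 : ‖D 0‖ ≤ M)
    {z : ℂ} (hz : z ∈ closedBall (0 : ℂ) 1) : ‖f z‖ ≤ 3 * M := by
  have hz1 : ‖z‖ ≤ 1 := by simpa using hz
  have hM : 0 ≤ M := (norm_nonneg _).trans h0
  have h2 := h 0 (by simp) z hz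
  simp only [sub_zero, norm_zero, div_one] at h2
  have h3 : ‖f z‖ ≤ ‖f z - f 0 - D 0 * z‖ + ‖f 0‖ + ‖D 0‖ * ‖z‖ := by
    calc ‖f z‖ = ‖(f z - f 0 - D 0 * z) + f 0 + D 0 * z‖ := by congr 1; ring
      _ ≤ _ := by
        refine (norm_add_le _ _).trans ?_
        rw [norm_mul]
        gcongr
        exact norm_add_le _ _
  have h4 : ‖z‖ ^ 2 ≤ 1 := by nlinarith [norm_nonneg z]
  have h5 : ‖D 0‖ * ‖z‖ ≤ M := by nlinarith [norm_nonneg z, norm_nonneg (D 0)]
  nlinarith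

/-- bound for the derivative -/
theorem ZClass.norm_deriv_le {M : ℝ} {f D : ℂ → ℂ} (h : ZClass M f D) (h0 : ‖f 0‖ ≤ M)
    (h1 : ‖D 0‖ ≤ M) {p : ℂ} (hp : p ∈ ball (0 : ℂ) 1) : ‖D p‖ ≤ 10 * M / (1 - ‖p‖) := by
  have hp1 : ‖p‖ < 1 := by simpa using hp
  have hM : 0 ≤ M := (norm_nonneg _).trans h0
  have ht : 0 < 1 - ‖p‖ := by linarith
  obtain ⟨z, hz, hzp⟩ : ∃ z ∈ closedBall (0 : ℂ) 1, 1 ≤ ‖z - p‖ := by
    by_cases hp0 : p = 0
    · exact ⟨1, by simp, by simp [hp0]⟩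
    · have hpn : 0 < ‖p‖ := norm_pos_iff.2 hp0
      refine ⟨-(p / ‖p‖), ?_, ?_⟩
      · simp [hp0]
      · have : -(p / ‖p‖) - p = -(((1 / ‖p‖ + 1 : ℝ) : ℂ) * p) := by
          push_cast; ring
        rw [this, norm_neg, norm_mul, Complex.norm_real, Real.norm_of_nonneg (by positivity)]
        have : (1 / ‖p‖ + 1) * ‖p‖ = 1 + ‖p‖ := by field_simp
        rw [this]; linarith
  have hz1 : ‖z‖ ≤ 1 := by simpa using hz
  have h2 := h p hp z hz
  have h3 := h.norm_le h0 h1 hz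
  have h4 := h.norm_le h0 h1 (ball_subset_closedBall hp)
  have h5 : ‖z - p‖ ≤ 2 := (norm_sub_le _ _).trans (by linarith)
  have h6 : ‖D p‖ * ‖z - p‖ ≤ ‖f z - f p - D p * (z - p)‖ + ‖f z‖ + ‖f p‖ := by
    rw [← norm_mul]
    calc ‖D p * (z - p)‖ = ‖f z - f p - (f z - f p - D p * (z - p))‖ := by congr 1; ring
      _ ≤ ‖f z - f p‖ + ‖f z - f p - D p * (z - p)‖ := norm_sub_le _ _
      _ ≤ _ := by linarith [norm_sub_le (f z) (f p)]
  have h7 : M * ‖z - p‖ ^ 2 / (1 - ‖p‖) ≤ 4 * M / (1 - ‖p‖) := by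
    rw [div_le_div_iff_of_pos_right ht]
    have : ‖z - p‖ ^ 2 ≤ 2 ^ 2 := by gcongr
    nlinarith
  have h8 : 6 * M ≤ 6 * M / (1 - ‖p‖) := by
    rw [le_div_iff₀ ht]
    nlinarith [norm_nonneg p]
  have h9 : ‖D p‖ ≤ ‖D p‖ * ‖z - p‖ := by nlinarith [norm_nonneg (D p)]
  have h10 : 10 * M / (1 - ‖p‖) = 4 * M / (1 - ‖p‖) + 6 * M / (1 - ‖p‖) := by ring
  linarith

/-- local expansions at a closed-disc point `a` and scale `r` -/
theorem ZClass.local_exp {M : ℝ} {f D : ℂ → ℂ} (hM : 0 ≤ M) (h : ZClass M f D) {a b : ℂ}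
    (ha : a ∈ closedBall (0 : ℂ) 1) (hb : b ∈ closedBall (0 : ℂ) 1) {r : ℝ} (hr : 0 < r)
    (hr2 : r ≤ 2) (hab : ‖b - a‖ ≤ r) :
    ‖f b - f a - D ((1 - r / 2 : ℝ) * a) * (b - a)‖ ≤ 5 * M * r := by
  have ha1 : ‖a‖ ≤ 1 := by simpa using ha
  set p : ℂ := (1 - r / 2 : ℝ) * a with hp
  have hpn : ‖p‖ = (1 - r / 2) * ‖a‖ := by
    rw [hp, norm_mul, Complex.norm_real, Real.norm_of_nonneg (by linarith)]
  have hpb : p ∈ ball (0 : ℂ) 1 := by
    rw [mem_ball_zero_iff, hpn]; nlinarith [norm_nonneg a]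
  have ht : r / 2 ≤ 1 - ‖p‖ := by rw [hpn]; nlinarith [norm_nonneg a]
  have hap : ‖a - p‖ ≤ r / 2 := by
    have : a - p = (r / 2 : ℝ) * a := by rw [hp]; push_cast; ring
    rw [this, norm_mul, Complex.norm_real, Real.norm_of_nonneg (by linarith)]
    nlinarith [norm_nonneg a]
  have hbp : ‖b - p‖ ≤ 3 * r / 2 := by
    calc ‖b - p‖ = ‖(b - a) + (a - p)‖ := by congr 1; ring
      _ ≤ ‖b - a‖ + ‖a - p‖ := norm_add_le _ _
      _ ≤ _ := by linarith
  have h1 := h p hpb a ha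
  have h2 := h p hpb b hb
  have hr2' : 0 < r / 2 := by linarith
  have h3 : M * ‖a - p‖ ^ 2 / (1 - ‖p‖) ≤ M * (r / 2) ^ 2 / (r / 2) := by
    gcongr
  have h4 : M * ‖b - p‖ ^ 2 / (1 - ‖p‖) ≤ M * (3 * r / 2) ^ 2 / (r / 2) := by
    gcongr
  have h5 : M * (r / 2) ^ 2 / (r / 2) = M * r / 2 := by field_simp
  have h6 : M * (3 * r / 2) ^ 2 / (r / 2) = 9 * M * r / 2 := by field_simp; ring
  calc ‖f b - f a - D p * (b - a)‖
      = ‖(f b - f p - D p * (b - p)) - (f a - f p - D p * (a - p))‖ := by congr 1; ring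
    _ ≤ ‖f b - f p - D p * (b - p)‖ + ‖f a - f p - D p * (a - p)‖ := norm_sub_le _ _
    _ ≤ 5 * M * r := by linarith

/-- Hölder modulus of continuity -/
theorem ZClass.modulus {M : ℝ} {f D : ℂ → ℂ} (h : ZClass M f D) (h0 : ‖f 0‖ ≤ M) (h1 : ‖D 0‖ ≤ M)
    {a b : ℂ} (ha : a ∈ closedBall (0 : ℂ) 1) (hb : b ∈ closedBall (0 : ℂ) 1) :
    ‖f a - f b‖ ≤ 30 * M * Real.sqrt ‖a - b‖ := by
  have hM : 0 ≤ M := (norm_nonneg _).trans h0
  have ha1 : ‖a‖ ≤ 1 := by simpa using ha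
  have hb1 : ‖b‖ ≤ 1 := by simpa using hb
  rcases eq_or_ne a b with rfl | hne
  · simp
  have hρ : 0 < ‖a - b‖ := norm_pos_iff.2 (sub_ne_zero.2 hne)
  have hρ2 : ‖a - b‖ ≤ 2 := (norm_sub_le _ _).trans (by linarith)
  set ρ := ‖a - b‖ with hρd
  set s := Real.sqrt (2 * ρ) with hs
  have hs2 : s ^ 2 = 2 * ρ := Real.sq_sqrt (by positivity)
  have hs0 : 0 < s := Real.sqrt_pos.2 (by positivity)
  have hsle : s ≤ 2 := by nlinarith
  have hρs : ρ ≤ s := by nlinarith
  have e1 := h.local_exp hM ha hb hs0 hsle (by rw [norm_sub_rev]; exact hρs)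
  set p : ℂ := (1 - s / 2 : ℝ) * a with hp
  have hpn : ‖p‖ = (1 - s / 2) * ‖a‖ := by
    rw [hp, norm_mul, Complex.norm_real, Real.norm_of_nonneg (by linarith)]
  have hpb : p ∈ ball (0 : ℂ) 1 := by
    rw [mem_ball_zero_iff, hpn]; nlinarith [norm_nonneg a]
  have ht : s / 2 ≤ 1 - ‖p‖ := by rw [hpn]; nlinarith [norm_nonneg a]
  have e2 := h.norm_deriv_le h0 h1 hpb
  have e3 : ‖D p‖ ≤ 10 * M / (s / 2) := e2.trans (by gcongr)
  have e4 : ‖D p * (b - a)‖ ≤ 10 * M * s := by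
    rw [norm_mul, norm_sub_rev b a, ← hρd]
    calc ‖D p‖ * ρ ≤ 10 * M / (s / 2) * ρ := by gcongr
      _ = 10 * M / (s / 2) * (s ^ 2 / 2) := by rw [hs2]; ring
      _ = 10 * M * s := by field_simp
  have e5 : ‖f b - f a‖ ≤ 15 * M * s := by
    calc ‖f b - f a‖ = ‖(f b - f a - D p * (b - a)) + D p * (b - a)‖ := by congr 1; ring
      _ ≤ ‖f b - f a - D p * (b - a)‖ + ‖D p * (b - a)‖ := norm_add_le _ _
      _ ≤ 15 * M * s := by linarith
  have e6 : s ≤ 2 * Real.sqrt ρ := by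
    rw [hs, Real.sqrt_le_left (by positivity), mul_pow, Real.sq_sqrt hρ.le]
    linarith
  rw [norm_sub_rev]
  calc ‖f b - f a‖ ≤ 15 * M * s := e5
    _ ≤ 15 * M * (2 * Real.sqrt ρ) := by gcongr
    _ = 30 * M * Real.sqrt ρ := by ring

theorem ZClass.exists_norm {M : ℝ} {f D : ℂ → ℂ} (h : ZClass M f D) :
    ∃ M', ZClass M' f D ∧ ‖f 0‖ ≤ M' ∧ ‖D 0‖ ≤ M' := by
  refine ⟨max M (max ‖f 0‖ ‖D 0‖), h.mono (le_max_left _ _), ?_, ?_⟩
  · exact (le_max_left _ _).trans (le_max_right _ _)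
  · exact (le_max_right _ _).trans (le_max_right _ _)

theorem ZClass.continuousOn {M : ℝ} {f D : ℂ → ℂ} (h : ZClass M f D) :
    ContinuousOn f (closedBall 0 1) := by
  obtain ⟨M', h', h0, h1⟩ := h.exists_norm
  intro a ha
  rw [ContinuousWithinAt, tendsto_iff_norm_sub_tendsto_zero]
  have h2 : Tendsto (fun z => 30 * M' * Real.sqrt ‖z - a‖) (𝓝[closedBall 0 1] a) (𝓝 0) := by
    have : Continuous (fun z : ℂ => 30 * M' * Real.sqrt ‖z - a‖) := by fun_prop
    have h3 := this.tendsto a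
    simp only [sub_self, norm_zero, Real.sqrt_zero, mul_zero] at h3
    exact h3.mono_left nhdsWithin_le_nhds
  refine tendsto_of_tendsto_of_tendsto_of_le_of_le' tendsto_const_nhds h2 ?_ ?_
  · exact Eventually.of_forall fun z => norm_nonneg _
  · filter_upwards [self_mem_nhdsWithin] with z hz
    exact h'.modulus h0 h1 hz ha

/-- `ZClass` functions are in the analytic Zygmund class. -/
theorem ZClass.analyticZygmund {M : ℝ} {f D : ℂ → ℂ} (h : ZClass M f D) : AnalyticZygmund f := by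
  refine ⟨h.differentiableOn, h.continuousOn, h.continuousOn.mono sphere_subset_closedBall, ?_⟩
  obtain ⟨M', h', h0, h1⟩ := h.exists_norm
  have hM : 0 ≤ M' := (norm_nonneg _).trans h0
  refine ⟨20 * M', ?_⟩
  have hmem : ∀ s : ℝ, exp (s * I) ∈ closedBall (0 : ℂ) 1 := by
    intro s; simp [Complex.norm_exp_ofReal_mul_I]
  -- symmetric in h
  have key : ∀ t h : ℝ, 0 ≤ h → ‖f (exp ((t + h : ℝ) * I)) + f (exp ((t - h : ℝ) * I))
      - 2 * f (exp (t * I))‖ ≤ 20 * M' * h := by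
    intro t s hs
    rcases eq_or_lt_of_le hs with rfl | hs0
    · simp; ring_nf
    rcases le_total s 1 with hs1 | hs1
    · set u : ℂ := exp (t * I) with hu
      have hun : ‖u‖ = 1 := by simp [hu, Complex.norm_exp_ofReal_mul_I]
      set p : ℂ := (1 - s : ℝ) * u with hp
      have hpn : ‖p‖ = 1 - s := by
        rw [hp, norm_mul, Complex.norm_real, Real.norm_of_nonneg (by linarith), hun, mul_one]
      have hpb : p ∈ ball (0 : ℂ) 1 := by rw [mem_ball_zero_iff, hpn]; linarith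
      have hup : ‖u - p‖ ≤ s := by
        have : u - p = (s : ℝ) * u := by rw [hp]; push_cast; ring
        rw [this, norm_mul, Complex.norm_real, Real.norm_of_nonneg hs, hun, mul_one]
      have hdist : ∀ r : ℝ, |r| ≤ s → ‖exp ((t + r : ℝ) * I) - p‖ ≤ 2 * s := by
        intro r hr
        have e1 : exp ((t + r : ℝ) * I) - u = u * (exp (r * I) - 1) := by
          rw [hu]; push_cast; rw [add_mul, Complex.exp_add]; ring
        have e2 : ‖exp (r * I) - 1‖ ≤ |r| := by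
          have := Real.norm_exp_I_mul_ofReal_sub_one_le (x := r)
          simpa [mul_comm] using this
        calc ‖exp ((t + r : ℝ) * I) - p‖ = ‖(exp ((t + r : ℝ) * I) - u) + (u - p)‖ := by
              congr 1; ring
          _ ≤ ‖exp ((t + r : ℝ) * I) - u‖ + ‖u - p‖ := norm_add_le _ _
          _ ≤ s + s := by
              gcongr
              rw [e1, norm_mul, hun, one_mul]
              exact e2.trans hr
          _ = 2 * s := by ring
      have ha := h' p hpb _ (hmem (t + s))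
      have hb := h' p hpb _ (hmem (t - s))
      have hc := h' p hpb _ (hmem t)
      have da := hdist s (by rw [abs_of_nonneg hs])
      have db := hdist (-s) (by rw [abs_neg, abs_of_nonneg hs])
      rw [← sub_eq_add_neg] at db
      have hs' : (1 : ℝ) - ‖p‖ = s := by rw [hpn]; ring
      rw [hs'] at ha hb hc
      have ha' : M' * ‖exp ((t + s : ℝ) * I) - p‖ ^ 2 / s ≤ 4 * M' * s := by
        rw [div_le_iff₀ hs0]
        have : ‖exp ((t + s : ℝ) * I) - p‖ ^ 2 ≤ (2 * s) ^ 2 := by gcongr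
        nlinarith
      have hb' : M' * ‖exp ((t - s : ℝ) * I) - p‖ ^ 2 / s ≤ 4 * M' * s := by
        rw [div_le_iff₀ hs0]
        have : ‖exp ((t - s : ℝ) * I) - p‖ ^ 2 ≤ (2 * s) ^ 2 := by gcongr
        nlinarith
      have hc' : M' * ‖u - p‖ ^ 2 / s ≤ M' * s := by
        rw [div_le_iff₀ hs0]
        have : ‖u - p‖ ^ 2 ≤ s ^ 2 := by gcongr
        nlinarith
      have e3 : exp ((t + s : ℝ) * I) + exp ((t - s : ℝ) * I) - 2 * u
          = u * ((2 * (Real.cos s - 1) : ℝ) : ℂ) := by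
        have c1 : exp ((t + s : ℝ) * I) = u * exp (s * I) := by
          rw [hu, ← Complex.exp_add]; congr 1; push_cast; ring
        have c2 : exp ((t - s : ℝ) * I) = u * exp (-s * I) := by
          rw [hu, ← Complex.exp_add]; congr 1; push_cast; ring
        rw [c1, c2]; push_cast; rw [Complex.cos]; ring
      have e4 : ‖exp ((t + s : ℝ) * I) + exp ((t - s : ℝ) * I) - 2 * u‖ ≤ s ^ 2 := by
        rw [e3, norm_mul, hun, one_mul, Complex.norm_real, Real.norm_eq_abs]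
        have h9 := Real.one_sub_sq_div_two_le_cos (x := s)
        have h10 := Real.cos_le_one s
        rw [abs_of_nonpos (by linarith)]
        nlinarith
      have e5 := h'.norm_deriv_le h0 h1 hpb
      rw [hs'] at e5
      have e6 : ‖D p * (exp ((t + s : ℝ) * I) + exp ((t - s : ℝ) * I) - 2 * u)‖ ≤ 10 * M' * s := by
        rw [norm_mul]
        calc ‖D p‖ * _ ≤ 10 * M' / s * s ^ 2 := by gcongr
          _ = 10 * M' * s := by field_simp
      calc ‖f (exp ((t + s : ℝ) * I)) + f (exp ((t - s : ℝ) * I)) - 2 * f u‖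
          = ‖(f (exp ((t + s : ℝ) * I)) - f p - D p * (exp ((t + s : ℝ) * I) - p))
            + (f (exp ((t - s : ℝ) * I)) - f p - D p * (exp ((t - s : ℝ) * I) - p))
            - 2 * (f u - f p - D p * (u - p))
            + D p * (exp ((t + s : ℝ) * I) + exp ((t - s : ℝ) * I) - 2 * u)‖ := by
              congr 1; ring
        _ ≤ ‖f (exp ((t + s : ℝ) * I)) - f p - D p * (exp ((t + s : ℝ) * I) - p)‖
            + ‖f (exp ((t - s : ℝ) * I)) - f p - D p * (exp ((t - s : ℝ) * I) - p)‖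
            + ‖2 * (f u - f p - D p * (u - p))‖
            + ‖D p * (exp ((t + s : ℝ) * I) + exp ((t - s : ℝ) * I) - 2 * u)‖ := by
              refine (norm_add_le _ _).trans ?_
              gcongr
              refine (norm_sub_le _ _).trans ?_
              gcongr
              exact norm_add_le _ _
        _ ≤ 20 * M' * s := by
              rw [norm_mul (2 : ℂ), Complex.norm_ofNat]
              linarith
    · have ha := h'.norm_le h0 h1 (hmem (t + s))
      have hb := h'.norm_le h0 h1 (hmem (t - s))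
      have hc := h'.norm_le h0 h1 (hmem t)
      calc ‖f (exp ((t + s : ℝ) * I)) + f (exp ((t - s : ℝ) * I)) - 2 * f (exp (t * I))‖
          ≤ ‖f (exp ((t + s : ℝ) * I))‖ + ‖f (exp ((t - s : ℝ) * I))‖ + ‖2 * f (exp (t * I))‖ := by
            refine (norm_sub_le _ _).trans ?_
            gcongr
            exact norm_add_le _ _
        _ ≤ 3 * M' + 3 * M' + 2 * (3 * M') := by
            rw [norm_mul, Complex.norm_ofNat]; gcongr
        _ ≤ 20 * M' * s := by nlinarith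
  intro t s
  rcases le_total 0 s with hs | hs
  · rw [abs_of_nonneg hs]; exact key t s hs
  · rw [abs_of_nonpos hs]
    have := key t (-s) (by linarith)
    rw [sub_neg_eq_add, ← sub_eq_add_neg] at this
    rwa [add_comm (f (exp ((t - s : ℝ) * I)))] at this

end ZygInt
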