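import Mathlib
import Pool.Agent.ZygInt.Defs

namespace ZygInt.J15

open Complex Metric Set Filter Topology

/-- Blaschke factor -/
noncomputable def bf (x z : ℂ) : ℂ := (z - x) / (1 - (starRingEnd ℂ) x * z)

theorem bf_id (x z : ℂ) :
    ‖1 - (starRingEnd ℂ) x * z‖ ^ 2 - ‖z - x‖ ^ 2 = (1 - ‖z‖ ^ 2) * (1 - ‖x‖ ^ 2) := by
  rw [Complex.sq_norm, Complex.sq_norm, Complex.sq_norm, Complex.sq_norm]
  simp only [Complex.normSq_apply, Complex.sub_re, Complex.sub_im, Complex.mul_re, Complex.mul_im,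
    Complex.one_re, Complex.one_im, Complex.conj_re, Complex.conj_im]
  ring

theorem den_ge {x z z₀ : ℂ} {d η : ℝ} (hx : ‖x‖ < 1) (hη : 0 < η) (hη8 : η ≤ 1 / 8)
    (hd : 0 < d) (hd2 : d ≤ 2 * ‖1 - (starRingEnd ℂ) x * z₀‖) (hz : ‖z - z₀‖ ≤ η * d) :
    3 / 4 * ‖1 - (starRingEnd ℂ) x * z₀‖ ≤ ‖1 - (starRingEnd ℂ) x * z‖ := by
  have h1 : ‖1 - (starRingEnd ℂ) x * z₀‖ ≤ ‖1 - (starRingEnd ℂ) x * z‖ + ‖z - z₀‖ := by
    have e : 1 - (starRingEnd ℂ) x * z₀ = (1 - (starRingEnd ℂ) x * z) + (starRingEnd ℂ) x * (z - z₀) := by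
      ring
    rw [e]
    refine (norm_add_le _ _).trans ?_
    have h2 : ‖(starRingEnd ℂ) x * (z - z₀)‖ ≤ ‖z - z₀‖ := by
      rw [norm_mul, RCLike.norm_conj]
      have := norm_nonneg (z - z₀)
      nlinarith
    linarith
  nlinarith [norm_nonneg (1 - (starRingEnd ℂ) x * z₀)]

theorem bf_sq {x z : ℂ} (h : 1 - (starRingEnd ℂ) x * z ≠ 0) :
    ‖bf x z‖ ^ 2 = 1 - (1 - ‖z‖ ^ 2) * (1 - ‖x‖ ^ 2) / ‖1 - (starRingEnd ℂ) x * z‖ ^ 2 := by
  have h1 := bf_id x z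
  have h2 : (0:ℝ) < ‖1 - (starRingEnd ℂ) x * z‖ ^ 2 := by positivity
  unfold bf
  rw [norm_div, div_pow, ← h1, sub_div, div_self h2.ne']
  ring

/-- upper bound of one factor slightly outside the disc -/
theorem bf_le {x z z₀ : ℂ} {d η : ℝ} (hx : ‖x‖ < 1) (hη : 0 < η) (hη8 : η ≤ 1 / 8)
    (hz₀ : ‖z₀‖ ≤ 1)
    (hd : 0 < d) (hd2 : d ≤ 2 * ‖1 - (starRingEnd ℂ) x * z₀‖) (hz : ‖z - z₀‖ ≤ η * d) :
    ‖bf x z‖ ^ 2 ≤ Real.exp (4 / 3 * d * ((1 - ‖x‖) / ‖1 - (starRingEnd ℂ) x * z₀‖ ^ 2)) := by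
  have hden := den_ge hx hη hη8 hd hd2 hz
  have hpos : 0 < ‖1 - (starRingEnd ℂ) x * z₀‖ := by linarith
  have hpos' : 0 < ‖1 - (starRingEnd ℂ) x * z‖ := by linarith
  have hne : 1 - (starRingEnd ℂ) x * z ≠ 0 := norm_pos_iff.mp hpos'
  set A := ‖1 - (starRingEnd ℂ) x * z₀‖ with hA
  set A' := ‖1 - (starRingEnd ℂ) x * z‖ with hA'
  rw [bf_sq hne, ← hA']
  have hA2 : A ≤ 2 := by
    rw [hA]
    refine (norm_sub_le _ _).trans ?_
    rw [norm_mul, RCLike.norm_conj, norm_one]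
    nlinarith [norm_nonneg x, norm_nonneg z₀]
  have hd4 : d ≤ 4 := by linarith
  have hnz : ‖z‖ ≤ 1 + η * d := by
    have : ‖z‖ ≤ ‖z₀‖ + ‖z - z₀‖ := by
      have := norm_add_le z₀ (z - z₀)
      simpa using this
    linarith
  have hz2 : ‖z‖ ^ 2 - 1 ≤ 3 * (η * d) := by
    have h0 : 0 ≤ η * d := by positivity
    have h1 : η * d ≤ 1 := by nlinarith
    nlinarith [norm_nonneg z]
  have hx2 : 1 - ‖x‖ ^ 2 ≤ 2 * (1 - ‖x‖) := by nlinarith [norm_nonneg x]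
  have hx3 : 0 ≤ 1 - ‖x‖ ^ 2 := by nlinarith [norm_nonneg x]
  have hAA : 9 / 16 * A ^ 2 ≤ A' ^ 2 := by nlinarith
  have h3 : (‖z‖ ^ 2 - 1) * (1 - ‖x‖ ^ 2) ≤ 6 * (η * d) * (1 - ‖x‖) := by
    have h0 : 0 ≤ η * d := by positivity
    calc (‖z‖ ^ 2 - 1) * (1 - ‖x‖ ^ 2) ≤ (3 * (η * d)) * (1 - ‖x‖ ^ 2) := by
          apply mul_le_mul_of_nonneg_right hz2 hx3
      _ ≤ (3 * (η * d)) * (2 * (1 - ‖x‖)) := by
          apply mul_le_mul_of_nonneg_left hx2; positivity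
      _ = _ := by ring
  have h4 : (‖z‖ ^ 2 - 1) * (1 - ‖x‖ ^ 2) / A' ^ 2 ≤ 4 / 3 * d * ((1 - ‖x‖) / A ^ 2) := by
    rw [div_le_iff₀ (by positivity)]
    have hx0 : 0 ≤ 1 - ‖x‖ := by linarith
    have h5 : 4 / 3 * d * ((1 - ‖x‖) / A ^ 2) * (9 / 16 * A ^ 2) ≤ 4 / 3 * d * ((1 - ‖x‖) / A ^ 2) * A' ^ 2 := by
      apply mul_le_mul_of_nonneg_left hAA
      positivity
    have h6 : 4 / 3 * d * ((1 - ‖x‖) / A ^ 2) * (9 / 16 * A ^ 2) = 3 / 4 * d * (1 - ‖x‖) := by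
      field_simp
      ring
    have h7 : 6 * (η * d) * (1 - ‖x‖) ≤ 3 / 4 * d * (1 - ‖x‖) := by
      apply mul_le_mul_of_nonneg_right _ hx0
      nlinarith
    linarith
  have h8 : 1 - (1 - ‖z‖ ^ 2) * (1 - ‖x‖ ^ 2) / A' ^ 2 = 1 + (‖z‖ ^ 2 - 1) * (1 - ‖x‖ ^ 2) / A' ^ 2 := by
    ring
  rw [h8]
  refine le_trans ?_ (Real.add_one_le_exp _)
  linarith

theorem le_of_sq_le_sq' {a b : ℝ} (h : a ^ 2 ≤ b ^ 2) (hb : 0 ≤ b) : a ≤ b :=
  le_of_sq_le_sq h hb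

theorem bf_diff {x z : ℂ} (h : 1 - (starRingEnd ℂ) x * z ≠ 0) : DifferentiableAt ℂ (bf x) z := by
  unfold bf
  exact DifferentiableAt.div (by fun_prop) (by fun_prop) h

/-- bound of products over subsets -/
theorem prod_le {S T : Finset ℂ} (hTS : T ⊆ S) {z z₀ : ℂ} {d η Cs : ℝ} (hS : ∀ x ∈ S, ‖x‖ < 1)
    (hη : 0 < η) (hη8 : η ≤ 1 / 8) (hz₀ : ‖z₀‖ ≤ 1) (hd : 0 < d)
    (hd2 : ∀ x ∈ S, d ≤ 2 * ‖1 - (starRingEnd ℂ) x * z₀‖)
    (hsum : ∑ x ∈ S, (1 - ‖x‖) / ‖1 - (starRingEnd ℂ) x * z₀‖ ^ 2 ≤ Cs / d)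
    (hz : ‖z - z₀‖ ≤ η * d) :
    ‖∏ x ∈ T, bf x z‖ ≤ Real.exp Cs := by
  have h1 : ‖∏ x ∈ T, bf x z‖ ^ 2 ≤ Real.exp (4 / 3 * Cs) := by
    rw [norm_prod, ← Finset.prod_pow]
    calc ∏ x ∈ T, ‖bf x z‖ ^ 2 ≤ ∏ x ∈ T, Real.exp (4 / 3 * d * ((1 - ‖x‖) / ‖1 - (starRingEnd ℂ) x * z₀‖ ^ 2)) := by
          apply Finset.prod_le_prod
          · intro x _; positivity
          · intro x hx
            exact bf_le (hS x (hTS hx)) hη hη8 hz₀ hd (hd2 x (hTS hx)) hz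
      _ = Real.exp (∑ x ∈ T, 4 / 3 * d * ((1 - ‖x‖) / ‖1 - (starRingEnd ℂ) x * z₀‖ ^ 2)) := by
          rw [Real.exp_sum]
      _ ≤ Real.exp (4 / 3 * Cs) := by
          apply Real.exp_le_exp.mpr
          rw [← Finset.mul_sum]
          have h2 : ∑ x ∈ T, (1 - ‖x‖) / ‖1 - (starRingEnd ℂ) x * z₀‖ ^ 2 ≤ Cs / d := by
            refine le_trans ?_ hsum
            apply Finset.sum_le_sum_of_subset_of_nonneg hTS
            intro x hx _
            have := hS x hx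
            apply div_nonneg (by linarith) (by positivity)
          calc 4 / 3 * d * ∑ x ∈ T, (1 - ‖x‖) / ‖1 - (starRingEnd ℂ) x * z₀‖ ^ 2 ≤ 4 / 3 * d * (Cs / d) := by
                apply mul_le_mul_of_nonneg_left h2; positivity
            _ = 4 / 3 * Cs := by field_simp
  have hCs : 0 ≤ Cs := by
    have : 0 ≤ Cs / d := by
      refine le_trans ?_ hsum
      apply Finset.sum_nonneg
      intro x hx
      have := hS x hx
      apply div_nonneg (by linarith) (by positivity)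
    by_contra hcon
    push Not at hcon
    have := div_neg_of_neg_of_pos hcon hd
    linarith
  have h3 : Real.exp (4 / 3 * Cs) ≤ Real.exp Cs ^ 2 := by
    rw [← Real.exp_nat_mul]
    apply Real.exp_le_exp.mpr
    push_cast
    linarith
  exact le_of_sq_le_sq' (h1.trans h3) (Real.exp_pos _).le

/-- lower bound -/
theorem prod_ge {S T : Finset ℂ} (hTS : T ⊆ S) {x' : ℂ} {d c₂ Cs : ℝ} (hc₂ : 0 < c₂) (hS : ∀ x ∈ S, ‖x‖ < 1)
    (hx' : ‖x'‖ < 1) (hd : 0 < d) (hdx : 1 - ‖x'‖ ≤ d)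
    (hsum : ∑ x ∈ S, (1 - ‖x‖) / ‖1 - (starRingEnd ℂ) x * x'‖ ^ 2 ≤ Cs / d)
    (hsep : ∀ x ∈ T, c₂ * (1 - ‖x'‖) ≤ ‖x' - x‖) :
    Real.exp (-(2 * ((c₂ + 2) / c₂) ^ 2 * Cs)) ≤ ‖∏ x ∈ T, bf x x'‖ := by
  set K := ((c₂ + 2) / c₂) ^ 2 with hK
  have hKpos : 0 < K := by positivity
  have hCs : 0 ≤ Cs := by
    have : 0 ≤ Cs / d := by
      refine le_trans ?_ hsum
      apply Finset.sum_nonneg
      intro x hx
      have := hS x hx
      apply div_nonneg (by linarith) (by positivity)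
    by_contra hcon
    push Not at hcon
    have := div_neg_of_neg_of_pos hcon hd
    linarith
  have hfac : ∀ x ∈ T, Real.exp (-(K * (4 * (1 - ‖x'‖) * ((1 - ‖x‖) / ‖1 - (starRingEnd ℂ) x * x'‖ ^ 2)))) ≤
      ‖bf x x'‖ ^ 2 := by
    intro x hx
    have hxS := hS x (hTS hx)
    have hpos : 0 < 1 - ‖x'‖ := by linarith
    have hsx := hsep x hx
    have hdpos : 0 < ‖x' - x‖ := lt_of_lt_of_le (by positivity) hsx
    have hA1 : ‖1 - (starRingEnd ℂ) x * x'‖ ≤ 2 * (1 - ‖x'‖) + ‖x' - x‖ := by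
      have e : 1 - (starRingEnd ℂ) x * x' = ((1 - ‖x'‖ ^ 2 : ℝ) : ℂ) + (starRingEnd ℂ) (x' - x) * x' := by
        have : (starRingEnd ℂ) x' * x' = ((‖x'‖ ^ 2 : ℝ) : ℂ) := by
          rw [← Complex.normSq_eq_conj_mul_self, Complex.sq_norm]
        rw [map_sub, sub_mul, this]
        push_cast
        ring
      rw [e]
      refine (norm_add_le _ _).trans ?_
      have h1 : ‖((1 - ‖x'‖ ^ 2 : ℝ) : ℂ)‖ ≤ 2 * (1 - ‖x'‖) := by
        rw [Complex.norm_real, Real.norm_eq_abs, abs_of_nonneg (by nlinarith [norm_nonneg x'])]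
        nlinarith [norm_nonneg x']
      have h2 : ‖(starRingEnd ℂ) (x' - x) * x'‖ ≤ ‖x' - x‖ := by
        rw [norm_mul, RCLike.norm_conj]
        nlinarith [norm_nonneg (x' - x)]
      linarith
    have hApos : 0 < ‖1 - (starRingEnd ℂ) x * x'‖ := by
      have : ‖(starRingEnd ℂ) x * x'‖ < 1 := by
        rw [norm_mul, RCLike.norm_conj]
        nlinarith [norm_nonneg x, norm_nonneg x']
      have h2 := norm_sub_norm_le (1 : ℂ) ((starRingEnd ℂ) x * x')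
      rw [norm_one] at h2
      linarith
    have hne : 1 - (starRingEnd ℂ) x * x' ≠ 0 := norm_pos_iff.mp hApos
    have hlow : 1 ≤ (c₂ + 2) / c₂ * ‖bf x x'‖ := by
      unfold bf
      rw [norm_div, div_mul_div_comm, le_div_iff₀ (by positivity)]
      nlinarith
    have hbpos : 0 < ‖bf x x'‖ := by
      by_contra hcon
      have : ‖bf x x'‖ = 0 := le_antisymm (not_lt.mp hcon) (norm_nonneg _)
      rw [this] at hlow
      linarith
    set u := ‖bf x x'‖ ^ 2 with hu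
    have hupos : 0 < u := by positivity
    have hKu : 1 ≤ K * u := by
      have : K * u = ((c₂ + 2) / c₂ * ‖bf x x'‖) ^ 2 := by rw [hK, hu]; ring
      rw [this]
      nlinarith
    have h1u : 1 - u ≤ 4 * (1 - ‖x'‖) * ((1 - ‖x‖) / ‖1 - (starRingEnd ℂ) x * x'‖ ^ 2) := by
      rw [hu, bf_sq hne]
      have h3 : (1 - ‖x'‖ ^ 2) * (1 - ‖x‖ ^ 2) ≤ 4 * (1 - ‖x'‖) * (1 - ‖x‖) := by
        have a1 : 1 - ‖x'‖ ^ 2 ≤ 2 * (1 - ‖x'‖) := by nlinarith [norm_nonneg x']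
        have a2 : 1 - ‖x‖ ^ 2 ≤ 2 * (1 - ‖x‖) := by nlinarith [norm_nonneg x]
        have a3 : 0 ≤ 1 - ‖x‖ ^ 2 := by nlinarith [norm_nonneg x]
        calc (1 - ‖x'‖ ^ 2) * (1 - ‖x‖ ^ 2) ≤ (2 * (1 - ‖x'‖)) * (1 - ‖x‖ ^ 2) :=
              mul_le_mul_of_nonneg_right a1 a3
          _ ≤ (2 * (1 - ‖x'‖)) * (2 * (1 - ‖x‖)) := by
              apply mul_le_mul_of_nonneg_left a2; linarith
          _ = _ := by ring
      have h4 : (1 - ‖x'‖ ^ 2) * (1 - ‖x‖ ^ 2) / ‖1 - (starRingEnd ℂ) x * x'‖ ^ 2 ≤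
          4 * (1 - ‖x'‖) * (1 - ‖x‖) / ‖1 - (starRingEnd ℂ) x * x'‖ ^ 2 :=
        div_le_div_of_nonneg_right h3 (by positivity)
      have h5 : 4 * (1 - ‖x'‖) * (1 - ‖x‖) / ‖1 - (starRingEnd ℂ) x * x'‖ ^ 2 =
          4 * (1 - ‖x'‖) * ((1 - ‖x‖) / ‖1 - (starRingEnd ℂ) x * x'‖ ^ 2) := by ring
      linarith
    set w := 4 * (1 - ‖x'‖) * ((1 - ‖x‖) / ‖1 - (starRingEnd ℂ) x * x'‖ ^ 2) with hw
    have hlog : -(K * w) ≤ Real.log u := by
      have h6 : 1 - u⁻¹ ≤ Real.log u := Real.one_sub_inv_le_log_of_pos hupos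
      have h7 : u⁻¹ ≤ K := by
        rw [inv_le_iff_one_le_mul₀ hupos]; exact hKu
      have h8 : 1 - u⁻¹ = -(u⁻¹ * (1 - u)) := by field_simp; ring
      have h9 : u⁻¹ * (1 - u) ≤ K * w := by
        have hw0 : 0 ≤ w := by
          rw [hw]
          have : 0 ≤ 1 - ‖x‖ := by linarith
          positivity
        rcases le_total 0 (1 - u) with h | h
        · exact mul_le_mul h7 h1u h hKpos.le
        · have : u⁻¹ * (1 - u) ≤ 0 := mul_nonpos_of_nonneg_of_nonpos (by positivity) h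
          have : 0 ≤ K * w := by positivity
          linarith
      linarith
    calc Real.exp (-(K * w)) ≤ Real.exp (Real.log u) := Real.exp_le_exp.mpr hlog
      _ = u := Real.exp_log hupos
  have h1 : Real.exp (-(4 * K * Cs)) ≤ ‖∏ x ∈ T, bf x x'‖ ^ 2 := by
    rw [norm_prod, ← Finset.prod_pow]
    refine le_trans ?_ (Finset.prod_le_prod (fun x _ => (Real.exp_pos _).le) hfac)
    rw [← Real.exp_sum]
    apply Real.exp_le_exp.mpr
    rw [Finset.sum_neg_distrib, neg_le_neg_iff]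
    have e : ∑ x ∈ T, K * (4 * (1 - ‖x'‖) * ((1 - ‖x‖) / ‖1 - (starRingEnd ℂ) x * x'‖ ^ 2)) =
        4 * K * ((1 - ‖x'‖) * ∑ x ∈ T, (1 - ‖x‖) / ‖1 - (starRingEnd ℂ) x * x'‖ ^ 2) := by
      rw [Finset.mul_sum, Finset.mul_sum]
      apply Finset.sum_congr rfl
      intro x _
      ring
    rw [e]
    apply mul_le_mul_of_nonneg_left _ (by positivity)
    have h2 : ∑ x ∈ T, (1 - ‖x‖) / ‖1 - (starRingEnd ℂ) x * x'‖ ^ 2 ≤ Cs / d := by
      refine le_trans ?_ hsum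
      apply Finset.sum_le_sum_of_subset_of_nonneg hTS
      intro x hx _
      have := hS x hx
      apply div_nonneg (by linarith) (by positivity)
    calc (1 - ‖x'‖) * ∑ x ∈ T, (1 - ‖x‖) / ‖1 - (starRingEnd ℂ) x * x'‖ ^ 2 ≤ (1 - ‖x'‖) * (Cs / d) := by
          apply mul_le_mul_of_nonneg_left h2; linarith
      _ ≤ d * (Cs / d) := by
          apply mul_le_mul_of_nonneg_right hdx; positivity
      _ = Cs := by field_simp
  have h3 : Real.exp (-(2 * K * Cs)) ^ 2 = Real.exp (-(4 * K * Cs)) := by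
    rw [← Real.exp_nat_mul]
    congr 1
    push_cast
    ring
  apply le_of_sq_le_sq' _ (norm_nonneg _)
  rw [h3]
  exact h1

theorem den_ne {S : Finset ℂ} {z z₀ : ℂ} {d η : ℝ} (hS : ∀ x ∈ S, ‖x‖ < 1)
    (hη : 0 < η) (hη8 : η ≤ 1 / 8) (hd : 0 < d)
    (hd2 : ∀ x ∈ S, d ≤ 2 * ‖1 - (starRingEnd ℂ) x * z₀‖)
    (hz : ‖z - z₀‖ ≤ η * d) : ∀ x ∈ S, 1 - (starRingEnd ℂ) x * z ≠ 0 := by
  intro x hx h0
  have h := den_ge (hS x hx) hη hη8 hd (hd2 x hx) hz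
  rw [h0, norm_zero] at h
  have := hd2 x hx
  linarith

theorem prod_diff {T : Finset ℂ} {z : ℂ} (h : ∀ x ∈ T, 1 - (starRingEnd ℂ) x * z ≠ 0) :
    DifferentiableAt ℂ (fun w => ∏ x ∈ T, bf x w) z := by
  classical
  induction T using Finset.induction_on with
  | empty => simp
  | insert a s ha ih =>
    simp only [Finset.prod_insert ha]
    apply DifferentiableAt.mul
    · exact bf_diff (h a (Finset.mem_insert_self a s))
    · exact ih (fun x hx => h x (Finset.mem_insert_of_mem hx))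

/-- J15a: Blaschke product of a finite separated set, with bounds slightly beyond the disc. -/
theorem blaschke_bounds (c₂ Cs : ℝ) (hc₂ : 0 < c₂) (hCs : 0 ≤ Cs) :
    ∃ C η : ℝ, 0 < C ∧ 0 < η ∧ ∀ (S : Finset ℂ) (δ : ℂ → ℝ),
      (∀ x ∈ S, ‖x‖ < 1) →
      (∀ z ∈ closedBall (0 : ℂ) 1, 0 < δ z ∧ 1 - ‖z‖ ≤ δ z) →
      (∀ z ∈ closedBall (0 : ℂ) 1, ∀ x ∈ S, δ z ≤ 2 * ‖1 - (starRingEnd ℂ) x * z‖) →
      (∀ z ∈ closedBall (0 : ℂ) 1,
        ∑ x ∈ S, (1 - ‖x‖) / ‖1 - (starRingEnd ℂ) x * z‖ ^ 2 ≤ Cs / δ z) →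
      ∃ B : ℂ → ℂ,
        (∀ z₀ ∈ closedBall (0 : ℂ) 1, ∀ z, ‖z - z₀‖ ≤ η * δ z₀ →
          DifferentiableAt ℂ B z ∧ ‖B z‖ ≤ C) ∧
        (∀ x ∈ S, B x = 0) ∧
        (∀ x' ∈ ball (0 : ℂ) 1, (∀ x ∈ S, c₂ * (1 - ‖x'‖) ≤ ‖x' - x‖) → 1 ≤ C * ‖B x'‖) ∧
        (∀ x' ∈ ball (0 : ℂ) 1, ∀ y ∈ S, (∀ x ∈ S, x ≠ y → c₂ * (1 - ‖x'‖) ≤ ‖x' - x‖) →
          ‖x' - y‖ ≤ C * ‖B x'‖ * (1 - ‖x'‖) + C * ‖B x'‖ * ‖x' - y‖) := by
  classical
  set K := 2 * ((c₂ + 2) / c₂) ^ 2 * Cs with hK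
  have hK0 : 0 ≤ K := by positivity
  refine ⟨Real.exp Cs + 2 * Real.exp K, 1 / 8, by positivity, by norm_num, ?_⟩
  intro S δ hS hδ hδ2 hsum
  refine ⟨fun w => ∏ x ∈ S, bf x w, ?_, ?_, ?_, ?_⟩
  · intro z₀ hz₀ z hz
    have hz₀' : ‖z₀‖ ≤ 1 := by simpa using hz₀
    refine ⟨prod_diff (den_ne hS (by norm_num) le_rfl (hδ z₀ hz₀).1 (hδ2 z₀ hz₀) hz), ?_⟩
    have := prod_le (Finset.Subset.refl S) hS (by norm_num) le_rfl hz₀' (hδ z₀ hz₀).1 (hδ2 z₀ hz₀)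
      (hsum z₀ hz₀) hz
    have h2 : 0 ≤ 2 * Real.exp K := by positivity
    linarith
  · intro x hx
    apply Finset.prod_eq_zero hx
    simp [bf]
  · intro x' hx' hsep
    have hx'1 : ‖x'‖ < 1 := by simpa using hx'
    have hxc : x' ∈ closedBall (0:ℂ) 1 := ball_subset_closedBall hx'
    have h1 := prod_ge (Finset.Subset.refl S) hc₂ hS hx'1 (hδ x' hxc).1 (hδ x' hxc).2 (hsum x' hxc) hsep
    rw [← hK] at h1
    have h2 : Real.exp K * Real.exp (-K) = 1 := by rw [← Real.exp_add]; simp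
    have h3 : Real.exp K * Real.exp (-K) ≤ Real.exp K * ‖∏ x ∈ S, bf x x'‖ :=
      mul_le_mul_of_nonneg_left h1 (Real.exp_pos _).le
    have h4 : 0 ≤ Real.exp Cs * ‖∏ x ∈ S, bf x x'‖ := by positivity
    have h5 : 0 ≤ Real.exp K * ‖∏ x ∈ S, bf x x'‖ := by positivity
    nlinarith
  · intro x' hx' y hy hsep
    have hx'1 : ‖x'‖ < 1 := by simpa using hx'
    have hxc : x' ∈ closedBall (0:ℂ) 1 := ball_subset_closedBall hx'
    have h1 := prod_ge (T := S.erase y) (Finset.erase_subset y S) hc₂ hS hx'1 (hδ x' hxc).1 (hδ x' hxc).2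
      (hsum x' hxc) (fun x hx => hsep x (Finset.mem_of_mem_erase hx) (Finset.ne_of_mem_erase hx))
    rw [← hK] at h1
    have hprod : ‖∏ x ∈ S, bf x x'‖ = ‖bf y x'‖ * ‖∏ x ∈ S.erase y, bf x x'‖ := by
      rw [← Finset.mul_prod_erase S _ hy, norm_mul]
    have hA1 : ‖1 - (starRingEnd ℂ) y * x'‖ ≤ 2 * (1 - ‖x'‖) + ‖x' - y‖ := by
      have e : 1 - (starRingEnd ℂ) y * x' = ((1 - ‖x'‖ ^ 2 : ℝ) : ℂ) + (starRingEnd ℂ) (x' - y) * x' := by
        have : (starRingEnd ℂ) x' * x' = ((‖x'‖ ^ 2 : ℝ) : ℂ) := by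
          rw [← Complex.normSq_eq_conj_mul_self, Complex.sq_norm]
        rw [map_sub, sub_mul, this]
        push_cast
        ring
      rw [e]
      refine (norm_add_le _ _).trans ?_
      have h1 : ‖((1 - ‖x'‖ ^ 2 : ℝ) : ℂ)‖ ≤ 2 * (1 - ‖x'‖) := by
        rw [Complex.norm_real, Real.norm_eq_abs, abs_of_nonneg (by nlinarith [norm_nonneg x'])]
        nlinarith [norm_nonneg x']
      have h2 : ‖(starRingEnd ℂ) (x' - y) * x'‖ ≤ ‖x' - y‖ := by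
        rw [norm_mul, RCLike.norm_conj]
        nlinarith [norm_nonneg (x' - y)]
      linarith
    have hApos : 0 < ‖1 - (starRingEnd ℂ) y * x'‖ := by
      have : ‖(starRingEnd ℂ) y * x'‖ < 1 := by
        have := hS y hy
        rw [norm_mul, RCLike.norm_conj]
        nlinarith [norm_nonneg y, norm_nonneg x']
      have h2 := norm_sub_norm_le (1 : ℂ) ((starRingEnd ℂ) y * x')
      rw [norm_one] at h2
      linarith
    have hb : ‖x' - y‖ = ‖bf y x'‖ * ‖1 - (starRingEnd ℂ) y * x'‖ := by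
      unfold bf
      rw [norm_div, div_mul_cancel₀ _ hApos.ne']
    set P := ‖∏ x ∈ S, bf x x'‖ with hP
    -- ‖bf y x'‖ ≤ exp K * P
    have h6 : ‖bf y x'‖ ≤ Real.exp K * P := by
      have h2 : Real.exp K * Real.exp (-K) = 1 := by rw [← Real.exp_add]; simp
      calc ‖bf y x'‖ = Real.exp K * (‖bf y x'‖ * Real.exp (-K)) := by
            rw [mul_comm ‖bf y x'‖, ← mul_assoc, h2, one_mul]
        _ ≤ Real.exp K * (‖bf y x'‖ * ‖∏ x ∈ S.erase y, bf x x'‖) := by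
            apply mul_le_mul_of_nonneg_left _ (Real.exp_pos _).le
            exact mul_le_mul_of_nonneg_left h1 (norm_nonneg _)
        _ = Real.exp K * P := by rw [hprod]
    have hP0 : 0 ≤ P := norm_nonneg _
    have h7 : ‖x' - y‖ ≤ Real.exp K * P * (2 * (1 - ‖x'‖) + ‖x' - y‖) := by
      calc ‖x' - y‖ = ‖bf y x'‖ * ‖1 - (starRingEnd ℂ) y * x'‖ := hb
        _ ≤ (Real.exp K * P) * (2 * (1 - ‖x'‖) + ‖x' - y‖) := by
            apply mul_le_mul h6 hA1 (norm_nonneg _)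
            positivity
    have h8 : 0 ≤ Real.exp Cs * P * (1 - ‖x'‖) := by
      have : 0 ≤ 1 - ‖x'‖ := by linarith
      positivity
    have h9 : 0 ≤ (Real.exp Cs + Real.exp K) * P * ‖x' - y‖ := by positivity
    show ‖x' - y‖ ≤ (Real.exp Cs + 2 * Real.exp K) * P * (1 - ‖x'‖) +
      (Real.exp Cs + 2 * Real.exp K) * P * ‖x' - y‖
    nlinarith

/-- J15b: interpolation of `O(1 - |x|)` data on a finite separated set. -/
theorem corrections (c₂ Cs CE η₀ : ℝ) (hc₂ : 0 < c₂) (hCs : 0 ≤ Cs) (hCE : 0 < CE) (hη₀ : 0 < η₀) :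
    ∃ C η : ℝ, 0 < C ∧ 0 < η ∧ ∀ (S : Finset ℂ) (δ : ℂ → ℝ) (E : ℂ → ℂ),
      (∀ x ∈ S, ‖x‖ < 1) →
      (∀ z ∈ closedBall (0 : ℂ) 1, 0 < δ z ∧ 1 - ‖z‖ ≤ δ z) →
      (∀ x ∈ S, δ x ≤ 2 * (1 - ‖x‖)) →
      (∀ z ∈ closedBall (0 : ℂ) 1, ∀ x ∈ S, δ z ≤ 2 * ‖1 - (starRingEnd ℂ) x * z‖) →
      (∀ z ∈ closedBall (0 : ℂ) 1,
        ∑ x ∈ S, (1 - ‖x‖) / ‖1 - (starRingEnd ℂ) x * z‖ ^ 2 ≤ Cs / δ z) →
      (∀ x ∈ S, ∀ x' ∈ S, x ≠ x' → c₂ * (1 - ‖x‖) ≤ ‖x - x'‖) →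
      (∀ z₀ ∈ closedBall (0 : ℂ) 1, ∀ z, ‖z - z₀‖ ≤ η₀ * δ z₀ →
        DifferentiableAt ℂ E z ∧ δ z₀ ≤ CE * ‖E z‖ ∧ ‖E z‖ ≤ CE * δ z₀) →
      ∀ e : ℂ → ℂ, (∀ x ∈ S, ‖e x‖ ≤ 1 - ‖x‖) →
      ∃ F : ℂ → ℂ,
        (∀ z₀ ∈ closedBall (0 : ℂ) 1, ∀ z, ‖z - z₀‖ ≤ η * δ z₀ →
          DifferentiableAt ℂ F z ∧ ‖F z‖ ≤ C * δ z₀) ∧
        (∀ x ∈ S, F x = e x) := by
  classical
  set K := 2 * ((c₂ + 2) / c₂) ^ 2 * Cs with hK
  set M := Real.exp Cs * Real.exp K * (CE ^ 4 * (64 / 9)) with hM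
  have hMpos : 0 < M := by positivity
  refine ⟨M * Cs + 1, min η₀ (1 / 8), by positivity, by positivity, ?_⟩
  intro S δ E hS hδ hδx hδ2 hsum hsep hE e he
  -- facts at points of S
  have hSc : ∀ x ∈ S, x ∈ closedBall (0:ℂ) 1 := fun x hx => by
    simpa using (hS x hx).le
  have hEx : ∀ x ∈ S, 1 - ‖x‖ ≤ CE * ‖E x‖ := by
    intro x hx
    have h1 := (hE x (hSc x hx) x (by simpa using mul_nonneg hη₀.le (hδ x (hSc x hx)).1.le)).2.1
    exact ((hδ x (hSc x hx)).2).trans h1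
  have hEx0 : ∀ x ∈ S, E x ≠ 0 := by
    intro x hx h0
    have h1 := hEx x hx
    rw [h0, norm_zero, mul_zero] at h1
    have := hS x hx
    linarith
  have hPx : ∀ x ∈ S, Real.exp (-K) ≤ ‖∏ x' ∈ S.erase x, bf x' x‖ := by
    intro x hx
    have := prod_ge (T := S.erase x) (Finset.erase_subset x S) hc₂ hS (hS x hx) (hδ x (hSc x hx)).1
      (hδ x (hSc x hx)).2 (hsum x (hSc x hx))
      (fun x' hx' => hsep x hx x' (Finset.mem_of_mem_erase hx') (Finset.ne_of_mem_erase hx').symm)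
    rwa [← hK] at this
  have hPx0 : ∀ x ∈ S, ∏ x' ∈ S.erase x, bf x' x ≠ 0 := by
    intro x hx h0
    have h1 := hPx x hx
    rw [h0, norm_zero] at h1
    have := Real.exp_pos (-K)
    linarith
  set term : ℂ → ℂ → ℂ := fun x z => e x * ((∏ x' ∈ S.erase x, bf x' z) / (∏ x' ∈ S.erase x, bf x' x)) *
    (E z / E x) ^ 2 * (((1 - ‖x‖ ^ 2 : ℝ) : ℂ) / (1 - (starRingEnd ℂ) x * z)) ^ 2 with hterm
  refine ⟨fun z => ∑ x ∈ S, term x z, ?_, ?_⟩
  · intro z₀ hz₀ z hz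
    have hd := (hδ z₀ hz₀).1
    have hz1 : ‖z - z₀‖ ≤ η₀ * δ z₀ := hz.trans (mul_le_mul_of_nonneg_right (min_le_left _ _) hd.le)
    have hz2 : ‖z - z₀‖ ≤ 1 / 8 * δ z₀ := hz.trans (mul_le_mul_of_nonneg_right (min_le_right _ _) hd.le)
    have hz₀' : ‖z₀‖ ≤ 1 := by simpa using hz₀
    have hne := den_ne hS (by norm_num) le_rfl hd (hδ2 z₀ hz₀) hz2
    obtain ⟨hEd, _, hEu⟩ := hE z₀ hz₀ z hz1
    constructor
    · have : (fun z => ∑ x ∈ S, term x z) = ∑ x ∈ S, term x := by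
        funext w; rw [Finset.sum_apply]
      rw [this]
      apply DifferentiableAt.sum
      intro x hx
      have h1 : DifferentiableAt ℂ (fun w => ∏ x' ∈ S.erase x, bf x' w) z :=
        prod_diff (fun x' hx' => hne x' (Finset.mem_of_mem_erase hx'))
      have h2 : DifferentiableAt ℂ (fun w => ((1 - ‖x‖ ^ 2 : ℝ) : ℂ) / (1 - (starRingEnd ℂ) x * w)) z :=
        DifferentiableAt.div (by fun_prop) (by fun_prop) (hne x hx)
      exact (((h1.div_const _).const_mul _).mul ((hEd.div_const _).pow 2)).mul (h2.pow 2)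
    · -- bound
      have hbound : ∀ x ∈ S, ‖term x z‖ ≤ M * δ z₀ ^ 2 * ((1 - ‖x‖) / ‖1 - (starRingEnd ℂ) x * z₀‖ ^ 2) := by
        intro x hx
        have hxs := hS x hx
        have hx0 : 0 < 1 - ‖x‖ := by linarith
        have hA := den_ge hxs (by norm_num) le_rfl hd (hδ2 z₀ hz₀ x hx) hz2
        have hA0 : 0 < ‖1 - (starRingEnd ℂ) x * z₀‖ := by
          have := hδ2 z₀ hz₀ x hx
          linarith
        set A := ‖1 - (starRingEnd ℂ) x * z₀‖ with hAdef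
        set A' := ‖1 - (starRingEnd ℂ) x * z‖ with hA'def
        have hA'0 : 0 < A' := by linarith
        have hP1 : ‖∏ x' ∈ S.erase x, bf x' z‖ ≤ Real.exp Cs :=
          prod_le (Finset.erase_subset x S) hS (by norm_num) le_rfl hz₀' hd (hδ2 z₀ hz₀) (hsum z₀ hz₀) hz2
        have hP2 := hPx x hx
        have f1 : ‖(∏ x' ∈ S.erase x, bf x' z) / (∏ x' ∈ S.erase x, bf x' x)‖ ≤ Real.exp Cs * Real.exp K := by
          rw [norm_div, div_le_iff₀ (lt_of_lt_of_le (Real.exp_pos _) hP2)]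
          have h2 : Real.exp K * Real.exp (-K) = 1 := by rw [← Real.exp_add]; simp
          calc ‖∏ x' ∈ S.erase x, bf x' z‖ ≤ Real.exp Cs := hP1
            _ = Real.exp Cs * (Real.exp K * Real.exp (-K)) := by rw [h2, mul_one]
            _ ≤ Real.exp Cs * (Real.exp K * ‖∏ x' ∈ S.erase x, bf x' x‖) := by
                apply mul_le_mul_of_nonneg_left _ (Real.exp_pos _).le
                exact mul_le_mul_of_nonneg_left hP2 (Real.exp_pos _).le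
            _ = _ := by ring
        have hEx1 := hEx x hx
        have hEpos : 0 < ‖E x‖ := norm_pos_iff.mpr (hEx0 x hx)
        have f2 : ‖(E z / E x) ^ 2‖ ≤ CE ^ 4 * δ z₀ ^ 2 / (1 - ‖x‖) ^ 2 := by
          rw [norm_pow, norm_div]
          have : ‖E z‖ / ‖E x‖ ≤ CE ^ 2 * δ z₀ / (1 - ‖x‖) := by
            rw [div_le_div_iff₀ hEpos hx0]
            calc ‖E z‖ * (1 - ‖x‖) ≤ (CE * δ z₀) * (CE * ‖E x‖) := by
                  apply mul_le_mul hEu hEx1 hx0.le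
                  positivity
              _ = _ := by ring
          calc (‖E z‖ / ‖E x‖) ^ 2 ≤ (CE ^ 2 * δ z₀ / (1 - ‖x‖)) ^ 2 := by
                apply pow_le_pow_left₀ (by positivity) this
            _ = _ := by rw [div_pow]; ring
        have f3 : ‖(((1 - ‖x‖ ^ 2 : ℝ) : ℂ) / (1 - (starRingEnd ℂ) x * z)) ^ 2‖ ≤
            64 / 9 * (1 - ‖x‖) ^ 2 / A ^ 2 := by
          rw [norm_pow, norm_div, Complex.norm_real, Real.norm_eq_abs,
            abs_of_nonneg (by nlinarith [norm_nonneg x]), ← hA'def]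
          have : (1 - ‖x‖ ^ 2) / A' ≤ 8 / 3 * (1 - ‖x‖) / A := by
            rw [div_le_div_iff₀ hA'0 hA0]
            have a2 : 1 - ‖x‖ ^ 2 ≤ 2 * (1 - ‖x‖) := by nlinarith [norm_nonneg x]
            calc (1 - ‖x‖ ^ 2) * A ≤ (2 * (1 - ‖x‖)) * (4 / 3 * A') := by
                  apply mul_le_mul a2 (by linarith) hA0.le
                  positivity
              _ = _ := by ring
          calc ((1 - ‖x‖ ^ 2) / A') ^ 2 ≤ (8 / 3 * (1 - ‖x‖) / A) ^ 2 := by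
                apply pow_le_pow_left₀ _ this
                apply div_nonneg _ hA'0.le
                nlinarith [norm_nonneg x]
            _ = _ := by rw [div_pow]; ring
        have he1 := he x hx
        rw [hterm]
        simp only
        rw [norm_mul, norm_mul, norm_mul]
        calc ‖e x‖ * ‖(∏ x' ∈ S.erase x, bf x' z) / (∏ x' ∈ S.erase x, bf x' x)‖ * ‖(E z / E x) ^ 2‖ *
              ‖(((1 - ‖x‖ ^ 2 : ℝ) : ℂ) / (1 - (starRingEnd ℂ) x * z)) ^ 2‖ ≤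
            (1 - ‖x‖) * (Real.exp Cs * Real.exp K) * (CE ^ 4 * δ z₀ ^ 2 / (1 - ‖x‖) ^ 2) *
              (64 / 9 * (1 - ‖x‖) ^ 2 / A ^ 2) := by
              apply mul_le_mul _ f3 (norm_nonneg _) (by positivity)
              apply mul_le_mul _ f2 (norm_nonneg _) (by positivity)
              apply mul_le_mul he1 f1 (norm_nonneg _) hx0.le
          _ = M * δ z₀ ^ 2 * ((1 - ‖x‖) / A ^ 2) := by
              rw [hM]
              field_simp
      have h1 : ‖∑ x ∈ S, term x z‖ ≤ M * δ z₀ ^ 2 * (Cs / δ z₀) := by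
        refine (norm_sum_le _ _).trans ((Finset.sum_le_sum hbound).trans ?_)
        rw [← Finset.mul_sum]
        exact mul_le_mul_of_nonneg_left (hsum z₀ hz₀) (by positivity)
      have h2 : M * δ z₀ ^ 2 * (Cs / δ z₀) = M * Cs * δ z₀ := by field_simp
      calc ‖∑ x ∈ S, term x z‖ ≤ M * Cs * δ z₀ := by rw [← h2]; exact h1
        _ ≤ (M * Cs + 1) * δ z₀ := by nlinarith
  · intro x hx
    show ∑ y ∈ S, term y x = e x
    rw [Finset.sum_eq_single x]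
    · rw [hterm]
      simp only
      have h1 : (1 - (starRingEnd ℂ) x * x) = ((1 - ‖x‖ ^ 2 : ℝ) : ℂ) := by
        have : (starRingEnd ℂ) x * x = ((‖x‖ ^ 2 : ℝ) : ℂ) := by
          rw [← Complex.normSq_eq_conj_mul_self, Complex.sq_norm]
        rw [this]; push_cast; ring
      have h2 : ((1 - ‖x‖ ^ 2 : ℝ) : ℂ) ≠ 0 := by
        have := hS x hx
        have h3 : 0 < 1 - ‖x‖ ^ 2 := by nlinarith [norm_nonneg x]
        exact_mod_cast h3.ne'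
      rw [h1, div_self (hPx0 x hx), div_self (hEx0 x hx), div_self h2]
      ring
    · intro y hy hyx
      rw [hterm]
      simp only
      have : ∏ x' ∈ S.erase y, bf x' x = 0 := by
        apply Finset.prod_eq_zero (Finset.mem_erase.mpr ⟨hyx.symm, hx⟩)
        simp [bf]
      rw [this]
      simp
    · intro h; exact absurd hx h

end ZygInt.J15
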