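import Mathlib
import Pool.Agent.ZygInt.Defs

namespace ZygInt

open Complex Metric Set Filter Topology

/-- the point of the circle attached to the dyadic node `y = (j, k)`, `0 ≤ k < 2 ^ j` -/
noncomputable def zn (y : ℕ × ℕ) : ℂ := exp ((2 * Real.pi * ((y.2 : ℝ) / 2 ^ y.1) : ℝ) * I)

/-- the size of the dyadic node `y = (j, k)` -/
noncomputable def rn (y : ℕ × ℕ) : ℝ := (1 / 2) ^ y.1

noncomputable def wn (y : ℕ × ℕ) (z : ℂ) : ℂ := 1 + rn y - (starRingEnd ℂ) (zn y) * z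

theorem rn_pos (y : ℕ × ℕ) : 0 < rn y := by unfold rn; positivity

theorem rn_le_one (y : ℕ × ℕ) : rn y ≤ 1 := by
  unfold rn; exact pow_le_one₀ (by norm_num) (by norm_num)

theorem norm_zn (y : ℕ × ℕ) : ‖zn y‖ = 1 := by
  unfold zn; exact Complex.norm_exp_ofReal_mul_I _

theorem norm_one_sub_conj_mul {u z : ℂ} (hu : ‖u‖ = 1) :
    ‖1 - (starRingEnd ℂ) u * z‖ = ‖u - z‖ := by
  have h1 : (starRingEnd ℂ) u * u = 1 := by
    rw [mul_comm, Complex.mul_conj, Complex.normSq_eq_norm_sq, hu]; simp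
  have : 1 - (starRingEnd ℂ) u * z = (starRingEnd ℂ) u * (u - z) := by
    rw [mul_sub, h1]
  rw [this, norm_mul, RCLike.norm_conj, hu, one_mul]

theorem re_one_sub_conj_mul {u z : ℂ} (hu : ‖u‖ = 1) (hz : ‖z‖ ≤ 1) :
    0 ≤ (1 - (starRingEnd ℂ) u * z).re := by
  have h1 : ((starRingEnd ℂ) u * z).re ≤ ‖(starRingEnd ℂ) u * z‖ := Complex.re_le_norm _
  rw [norm_mul, RCLike.norm_conj, hu, one_mul] at h1
  rw [Complex.sub_re, Complex.one_re]
  linarith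

theorem wn_eq (y : ℕ × ℕ) (z : ℂ) : wn y z = (rn y : ℂ) + (1 - (starRingEnd ℂ) (zn y) * z) := by
  unfold wn; ring

theorem wn_re {y : ℕ × ℕ} {z : ℂ} (hz : ‖z‖ ≤ 1) : rn y ≤ (wn y z).re := by
  rw [wn_eq, Complex.add_re, Complex.ofReal_re]
  linarith [re_one_sub_conj_mul (norm_zn y) hz]

theorem rn_le_wn {y : ℕ × ℕ} {z : ℂ} (hz : ‖z‖ ≤ 1) : rn y ≤ ‖wn y z‖ :=
  (wn_re hz).trans (Complex.re_le_norm _)

theorem wn_pos {y : ℕ × ℕ} {z : ℂ} (hz : ‖z‖ ≤ 1) : 0 < ‖wn y z‖ :=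
  (rn_pos y).trans_le (rn_le_wn hz)

theorem zn_sub_le_wn {y : ℕ × ℕ} {z : ℂ} (hz : ‖z‖ ≤ 1) : ‖zn y - z‖ ≤ ‖wn y z‖ := by
  rw [← norm_one_sub_conj_mul (norm_zn y), wn_eq]
  have h0 := re_one_sub_conj_mul (norm_zn y) hz
  set v := 1 - (starRingEnd ℂ) (zn y) * z
  have hr := rn_pos y
  rw [← Real.sqrt_sq (norm_nonneg v), ← Real.sqrt_sq (norm_nonneg ((rn y : ℂ) + v))]
  apply Real.sqrt_le_sqrt
  rw [← Complex.normSq_eq_norm_sq, ← Complex.normSq_eq_norm_sq, Complex.normSq_apply,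
    Complex.normSq_apply]
  simp only [Complex.add_re, Complex.ofReal_re, Complex.add_im, Complex.ofReal_im, zero_add]
  nlinarith

theorem wn_le {y : ℕ × ℕ} {z : ℂ} : ‖wn y z‖ ≤ rn y + ‖zn y - z‖ := by
  rw [wn_eq, ← norm_one_sub_conj_mul (norm_zn y)]
  refine (norm_add_le _ _).trans ?_
  rw [Complex.norm_real, Real.norm_of_nonneg (rn_pos y).le]

theorem wn_sub (y : ℕ × ℕ) (z z₀ : ℂ) : ‖wn y z - wn y z₀‖ = ‖z - z₀‖ := by
  have : wn y z - wn y z₀ = -((starRingEnd ℂ) (zn y) * (z - z₀)) := by unfold wn; ring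
  rw [this, norm_neg, norm_mul, RCLike.norm_conj, norm_zn, one_mul]

/-- distance function -/
noncomputable def dl (X : Finset ℂ) (z : ℂ) : ℝ := 1 - ‖z‖ + infDist z (X : Set ℂ)

theorem dl_pos {X : Finset ℂ} (hX : ∀ x ∈ X, ‖x‖ < 1) (hne : X.Nonempty) {z : ℂ} (hz : ‖z‖ ≤ 1) :
    0 < dl X z := by
  unfold dl
  have h0 : 0 ≤ infDist z (X : Set ℂ) := infDist_nonneg
  rcases lt_or_eq_of_le hz with h | h
  · linarith
  · have hne' : (X : Set ℂ).Nonempty := by exact_mod_cast hne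
    have : 0 < infDist z (X : Set ℂ) := by
      rw [← X.finite_toSet.isClosed.notMem_iff_infDist_pos hne']
      intro hzX
      have := hX z (by exact_mod_cast hzX)
      linarith
    linarith

theorem dl_ge {X : Finset ℂ} {z : ℂ} : 1 - ‖z‖ ≤ dl X z := by
  unfold dl; linarith [infDist_nonneg (x := z) (s := (X : Set ℂ))]

theorem dl_le {X : Finset ℂ} {z x : ℂ} (hx : x ∈ X) : dl X z ≤ 1 - ‖z‖ + ‖z - x‖ := by
  unfold dl
  have : infDist z (X : Set ℂ) ≤ dist z x := infDist_le_dist_of_mem (by exact_mod_cast hx)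
  rw [dist_eq_norm] at this
  linarith

theorem dl_mem {X : Finset ℂ} {x : ℂ} (hx : x ∈ X) : dl X x = 1 - ‖x‖ := by
  unfold dl
  rw [infDist_zero_of_mem (by exact_mod_cast hx)]; ring

theorem exists_near {X : Finset ℂ} (hne : X.Nonempty) (z : ℂ) :
    ∃ x ∈ X, dl X z = 1 - ‖z‖ + ‖z - x‖ := by
  have hne' : (X : Set ℂ).Nonempty := by exact_mod_cast hne
  obtain ⟨x, hx, h⟩ := X.finite_toSet.isCompact.exists_infDist_eq_dist hne' z
  refine ⟨x, by exact_mod_cast hx, ?_⟩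
  unfold dl
  rw [h, dist_eq_norm]

/-- nodes near `X` -/
def NearNode (X : Finset ℂ) (y : ℕ × ℕ) : Prop := y.2 < 2 ^ y.1 ∧ ∃ x ∈ X, ‖zn y - x‖ ≤ 10 * rn y

theorem dl_le_wn {X : Finset ℂ} {y : ℕ × ℕ} (hy : NearNode X y) {z : ℂ} (hz : ‖z‖ ≤ 1) :
    dl X z ≤ 12 * ‖wn y z‖ := by
  obtain ⟨-, x, hx, hxy⟩ := hy
  have h1 := dl_le (z := z) hx
  have h2 := zn_sub_le_wn (y := y) hz
  have h3 := rn_le_wn (y := y) hz
  have h4 : 1 - ‖z‖ ≤ ‖zn y - z‖ := by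
    have := norm_sub_norm_le (zn y) z
    rw [norm_zn] at this; exact this
  have h5 : ‖z - x‖ ≤ ‖zn y - z‖ + ‖zn y - x‖ := by
    calc ‖z - x‖ = ‖(zn y - x) - (zn y - z)‖ := by congr 1; ring
      _ ≤ ‖zn y - x‖ + ‖zn y - z‖ := norm_sub_le _ _
      _ = _ := by ring
  linarith

/-- Every complex number is close to a node direction. -/
theorem exists_zn (x : ℂ) (j : ℕ) : ∃ k : ℕ, k < 2 ^ j ∧
    ‖zn (j, k) - x‖ ≤ 7 * rn (j, k) + |1 - ‖x‖| := by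
  set θ : ℝ := Int.fract (arg x / (2 * Real.pi)) with hθ
  have hθ0 : 0 ≤ θ := Int.fract_nonneg _
  have hθ1 : θ < 1 := Int.fract_lt_one _
  have hpi := Real.pi_pos
  have h2j : (0 : ℝ) < 2 ^ j := by positivity
  set k : ℕ := ⌊θ * 2 ^ j⌋₊ with hk
  have hk1 : (k : ℝ) ≤ θ * 2 ^ j := Nat.floor_le (by positivity)
  have hk2 : θ * 2 ^ j < k + 1 := Nat.lt_floor_add_one _
  refine ⟨k, ?_, ?_⟩
  · have : (k : ℝ) < 2 ^ j := by nlinarith
    exact_mod_cast this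
  · have hexp : exp ((2 * Real.pi * θ : ℝ) * I) = exp (arg x * I) := by
      have e1 : (2 * Real.pi * θ : ℝ) = arg x - ⌊arg x / (2 * Real.pi)⌋ * (2 * Real.pi) := by
        rw [hθ, Int.fract]; field_simp
      rw [e1]; push_cast
      rw [sub_mul, Complex.exp_sub]
      have : (⌊arg x / (2 * Real.pi)⌋ : ℂ) * (2 * Real.pi) * I
          = ⌊arg x / (2 * Real.pi)⌋ * (2 * Real.pi * I) := by ring
      rw [this, Complex.exp_int_mul_two_pi_mul_I, div_one]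
    have hx : x = ‖x‖ * exp (arg x * I) := (Complex.norm_mul_exp_arg_mul_I x).symm
    set e := exp (arg x * I) with he
    have hen : ‖e‖ = 1 := by rw [he]; exact Complex.norm_exp_ofReal_mul_I _
    have h1 : ‖zn (j, k) - e‖ ≤ 2 * Real.pi * (1 / 2) ^ j := by
      rw [← hexp]
      unfold zn
      simp only
      have e1 : exp ((2 * Real.pi * ((k : ℝ) / 2 ^ j) : ℝ) * I) - exp ((2 * Real.pi * θ : ℝ) * I)
          = exp ((2 * Real.pi * θ : ℝ) * I) *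
            (exp ((2 * Real.pi * ((k : ℝ) / 2 ^ j - θ) : ℝ) * I) - 1) := by
        rw [mul_sub, ← Complex.exp_add, mul_one]
        congr 2; push_cast; ring
      rw [e1, norm_mul, Complex.norm_exp_ofReal_mul_I, one_mul]
      have e2 := Real.norm_exp_I_mul_ofReal_sub_one_le (x := 2 * Real.pi * ((k : ℝ) / 2 ^ j - θ))
      rw [mul_comm I] at e2
      refine e2.trans ?_
      rw [Real.norm_eq_abs, abs_mul, abs_of_pos (by positivity : (0 : ℝ) < 2 * Real.pi)]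
      gcongr
      rw [abs_le, one_div, inv_pow, ← one_div]
      constructor
      · rw [neg_le_sub_iff_le_add, ← add_div, le_div_iff₀ h2j]; linarith
      · have : (k : ℝ) / 2 ^ j ≤ θ := by rw [div_le_iff₀ h2j]; exact hk1
        have h9 : 0 < 1 / (2 : ℝ) ^ j := by positivity
        linarith
    have h2 : ‖e - x‖ = |1 - ‖x‖| := by
      have : e - x = ((1 - ‖x‖ : ℝ) : ℂ) * e := by
        conv_lhs => rw [hx]
        push_cast; ring
      rw [this, norm_mul, hen, mul_one, Complex.norm_real, Real.norm_eq_abs]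
    have h3 : 2 * Real.pi * (1 / 2 : ℝ) ^ j ≤ 7 * (1 / 2) ^ j := by
      gcongr
      linarith [Real.pi_lt_d2]
    have h4 : rn (j, k) = (1 / 2) ^ j := rfl
    calc ‖zn (j, k) - x‖ = ‖(zn (j, k) - e) + (e - x)‖ := by congr 1; ring
      _ ≤ ‖zn (j, k) - e‖ + ‖e - x‖ := norm_add_le _ _
      _ ≤ 7 * rn (j, k) + |1 - ‖x‖| := by rw [h2, h4]; linarith

/-- the node at `z` -/
theorem exists_node {X : Finset ℂ} (hX : ∀ x ∈ X, ‖x‖ < 1) (hne : X.Nonempty) {z : ℂ}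
    (hz : ‖z‖ ≤ 1) : ∃ y : ℕ × ℕ, NearNode X y ∧ dl X z ≤ 3 * rn y ∧ 3 * rn y ≤ 2 * dl X z ∧
      ‖wn y z‖ ≤ 10 * dl X z := by
  obtain ⟨x, hx, hdl⟩ := exists_near hne z
  have hpos := dl_pos hX hne hz
  have hx1 := hX x hx
  have hdl3 : dl X z ≤ 3 := by
    rw [hdl]
    have : ‖z - x‖ ≤ ‖z‖ + ‖x‖ := norm_sub_le _ _
    linarith
  obtain ⟨j, hj1, hj2⟩ := exists_nat_pow_near_of_lt_one (x := dl X z / 3) (y := (1 / 2 : ℝ))
    (by positivity) (by linarith) (by norm_num) (by norm_num)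
  obtain ⟨k, hk, hkz⟩ := exists_zn x j
  have hrn : rn (j, k) = (1 / 2) ^ j := rfl
  have hr1 : dl X z ≤ 3 * rn (j, k) := by rw [hrn]; linarith
  have hr2 : 3 * rn (j, k) ≤ 2 * dl X z := by
    rw [hrn]; rw [pow_succ] at hj1; linarith
  have htx : 1 - ‖x‖ ≤ dl X z := by
    rw [hdl]
    have : ‖z‖ - ‖x‖ ≤ ‖z - x‖ := norm_sub_norm_le z x
    linarith
  rw [abs_of_nonneg (by linarith)] at hkz
  have hnear : ‖zn (j, k) - x‖ ≤ 10 * rn (j, k) := by linarith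
  refine ⟨(j, k), ⟨hk, x, hx, hnear⟩, hr1, hr2, ?_⟩
  have h1 := wn_le (y := (j, k)) (z := z)
  have h2 : ‖zn (j, k) - z‖ ≤ ‖zn (j, k) - x‖ + ‖z - x‖ := by
    calc ‖zn (j, k) - z‖ = ‖(zn (j, k) - x) - (z - x)‖ := by congr 1; ring
      _ ≤ _ := norm_sub_le _ _
  have h3 : ‖z - x‖ ≤ dl X z := by rw [hdl]; linarith
  linarith

end ZygInt
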