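import Mathlib
import Pool.Agent.ZygInt.Nodes

namespace ZygInt.J18

open Complex Metric Set Filter Topology

theorem exists_card_bound (r : ℝ) (hr : 0 < r) : ∃ m : ℕ, ∀ T : Finset ℂ,
    (∀ x ∈ T, ‖x‖ ≤ 8) → (∀ x ∈ T, ∀ x' ∈ T, x ≠ x' → r ≤ ‖x - x'‖) → T.card ≤ m := by
  classical
  obtain ⟨t, -, htf, hcov⟩ := (isCompact_closedBall (0 : ℂ) 8).finite_cover_balls
    (e := r / 2) (by positivity)
  refine ⟨htf.toFinset.card, fun T hT hsep => ?_⟩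
  have hex : ∀ x ∈ T, ∃ y ∈ htf.toFinset, dist x y < r / 2 := by
    intro x hx
    have : x ∈ ⋃ y ∈ t, ball y (r / 2) := hcov (by simpa using hT x hx)
    simp only [mem_iUnion, exists_prop] at this
    obtain ⟨y, hy, hxy⟩ := this
    exact ⟨y, htf.mem_toFinset.2 hy, hxy⟩
  choose! f hf using hex
  refine Finset.card_le_card_of_injOn f (fun x hx => (hf x hx).1) ?_
  intro x hx x' hx' hxx'
  by_contra hne
  have h1 := hsep x hx x' hx' hne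
  have h2 := (hf x hx).2
  have h3 := (hf x' hx').2
  have hxx2 : f x = f x' := hxx'
  rw [← hxx2] at h3
  have h4 : dist x x' ≤ dist x (f x) + dist x' (f x) := dist_triangle_right _ _ _
  rw [dist_eq_norm x x'] at h4
  linarith

theorem exists_ynode (x : ℂ) (hx : ‖x‖ < 1) : ∃ y : ℕ × ℕ, y.2 < 2 ^ y.1 ∧
    ‖zn y - x‖ ≤ 8 * rn y ∧ 1 - ‖x‖ ≤ rn y ∧ rn y ≤ 2 * (1 - ‖x‖) := by
  have hx0 := norm_nonneg x
  obtain ⟨j, hj1, hj2⟩ := exists_nat_pow_near_of_lt_one (x := 1 - ‖x‖) (y := (1 / 2 : ℝ))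
    (by linarith) (by linarith) (by norm_num) (by norm_num)
  obtain ⟨k, hk, hkx⟩ := exists_zn x j
  have hrn : rn (j, k) = (1 / 2) ^ j := rfl
  rw [abs_of_nonneg (by linarith)] at hkx
  refine ⟨(j, k), hk, ?_, ?_, ?_⟩
  · rw [← hrn] at hj2; linarith
  · rw [hrn]; exact hj2
  · rw [hrn]; rw [pow_succ] at hj1; linarith

theorem norm_sub_le_one_sub {x z : ℂ} (hx : ‖x‖ ≤ 1) (hz : ‖z‖ ≤ 1) :
    ‖x - z‖ ≤ ‖1 - (starRingEnd ℂ) x * z‖ := by
  have e1 : ‖1 - (starRingEnd ℂ) x * z‖ ^ 2 - ‖x - z‖ ^ 2 = (1 - ‖x‖ ^ 2) * (1 - ‖z‖ ^ 2) := by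
    rw [← Complex.normSq_eq_norm_sq, ← Complex.normSq_eq_norm_sq, ← Complex.normSq_eq_norm_sq,
      ← Complex.normSq_eq_norm_sq]
    simp only [Complex.normSq_apply, Complex.sub_re, Complex.sub_im, Complex.mul_re,
      Complex.mul_im, Complex.one_re, Complex.one_im, Complex.conj_re, Complex.conj_im]
    ring
  have e2 : 0 ≤ (1 - ‖x‖ ^ 2) * (1 - ‖z‖ ^ 2) := by
    have h1 : ‖x‖ ^ 2 ≤ 1 := pow_le_one₀ (norm_nonneg _) hx
    have h2 : ‖z‖ ^ 2 ≤ 1 := pow_le_one₀ (norm_nonneg _) hz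
    exact mul_nonneg (by linarith) (by linarith)
  exact le_of_sq_le_sq (by linarith) (norm_nonneg _)

theorem one_sub_norm_le {x z : ℂ} (hz : ‖z‖ ≤ 1) :
    1 - ‖x‖ ≤ ‖1 - (starRingEnd ℂ) x * z‖ := by
  have h1 : ‖(1 : ℂ)‖ - ‖(starRingEnd ℂ) x * z‖ ≤ ‖1 - (starRingEnd ℂ) x * z‖ :=
    norm_sub_norm_le _ _
  rw [norm_one, norm_mul, RCLike.norm_conj] at h1
  have h2 : ‖x‖ * ‖z‖ ≤ ‖x‖ * 1 := mul_le_mul_of_nonneg_left hz (norm_nonneg _)
  linarith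

theorem term_le {x z : ℂ} (hx : ‖x‖ < 1) (hz : ‖z‖ ≤ 1) {y : ℕ × ℕ}
    (h1 : ‖zn y - x‖ ≤ 8 * rn y) (h2 : 1 - ‖x‖ ≤ rn y) (h3 : rn y ≤ 2 * (1 - ‖x‖)) :
    (1 - ‖x‖) / ‖1 - (starRingEnd ℂ) x * z‖ ^ 2 ≤ 361 * (rn y * (‖wn y z‖ ^ 2)⁻¹) := by
  have ha := norm_sub_le_one_sub hx.le hz
  have hb := one_sub_norm_le (x := x) hz
  set q := ‖1 - (starRingEnd ℂ) x * z‖ with hq
  have hq0 : 0 < q := by linarith
  have hw : ‖wn y z‖ ≤ 19 * q := by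
    have := wn_le (y := y) (z := z)
    have h4 : ‖zn y - z‖ ≤ ‖zn y - x‖ + ‖x - z‖ := by
      calc ‖zn y - z‖ = ‖(zn y - x) + (x - z)‖ := by congr 1; ring
        _ ≤ _ := norm_add_le _ _
    linarith
  have hw0 := wn_pos (y := y) hz
  have hw2 : ‖wn y z‖ ^ 2 ≤ 361 * q ^ 2 := by
    have := pow_le_pow_left₀ hw0.le hw 2
    nlinarith
  rw [← div_eq_mul_inv, ← mul_div_assoc, div_le_div_iff₀ (by positivity) (by positivity)]
  have hr := rn_pos y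
  calc (1 - ‖x‖) * ‖wn y z‖ ^ 2 ≤ rn y * (361 * q ^ 2) := by
        apply mul_le_mul h2 hw2 (by positivity) hr.le
    _ = 361 * rn y * q ^ 2 := by ring

/-- J18: Carleson sum over a separated subset. `hsum` (the case `τ = σ = 1` of the tree sum
lemma) is proved elsewhere. -/
theorem carleson_sum (c c₃ C₃ : ℝ) (hc : 0 < c) (hc₃ : 0 < c₃)
    (hsum : ∀ X : Set ℂ, CondKWith c X → ∀ Y : Finset (ℕ × ℕ),
      (∀ y ∈ Y, y.2 < 2 ^ y.1 ∧ ∃ x ∈ X, ‖zn y - x‖ ≤ 10 * rn y) →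
      ∀ z ∈ closedBall (0 : ℂ) 1, ∀ δ : ℝ, 0 < δ → (∀ y ∈ Y, δ ≤ ‖wn y z‖) →
        ∑ y ∈ Y, rn y ^ (1 : ℝ) * ‖wn y z‖ ^ (-((1 : ℝ) + 1)) ≤ C₃ * δ ^ (-(1 : ℝ))) :
    ∃ Cs : ℝ, 0 ≤ Cs ∧ ∀ X S : Finset ℂ, (∀ x ∈ X, ‖x‖ < 1) → CondKWith c (X : Set ℂ) → S ⊆ X →
      (∀ x ∈ S, ∀ x' ∈ S, x ≠ x' → c₃ * (1 - ‖x‖) ≤ ‖x - x'‖) →
      ∀ z ∈ closedBall (0 : ℂ) 1,
        ∑ x ∈ S, (1 - ‖x‖) / ‖1 - (starRingEnd ℂ) x * z‖ ^ 2 ≤ Cs / dl X z := by
  classical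
  obtain ⟨m0, hm0⟩ := exists_card_bound (c₃ / 2) (by positivity)
  have hex : ∀ x : ℂ, ∃ y : ℕ × ℕ, ‖x‖ < 1 → y.2 < 2 ^ y.1 ∧
      ‖zn y - x‖ ≤ 8 * rn y ∧ 1 - ‖x‖ ≤ rn y ∧ rn y ≤ 2 * (1 - ‖x‖) := by
    intro x
    by_cases hx : ‖x‖ < 1
    · obtain ⟨y, hy⟩ := exists_ynode x hx
      exact ⟨y, fun _ => hy⟩
    · exact ⟨(0, 0), fun h => absurd h hx⟩
  choose nd hnd using hex
  refine ⟨361 * m0 * 12 * max C₃ 0, by positivity, ?_⟩
  intro X S hX hcond hSX hsep z hz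
  have hz' : ‖z‖ ≤ 1 := by simpa using hz
  rcases S.eq_empty_or_nonempty with rfl | hS
  · simp only [Finset.sum_empty]
    apply div_nonneg (by positivity)
    have := dl_ge (X := X) (z := z)
    linarith
  have hXne : X.Nonempty := hS.mono hSX
  have hdl := dl_pos hX hXne hz'
  set Y := S.image nd with hY
  have hnear : ∀ y ∈ Y, NearNode X y := by
    intro y hy
    obtain ⟨x, hx, rfl⟩ := Finset.mem_image.1 hy
    obtain ⟨h1, h2, h3, h4⟩ := hnd x (hX x (hSX hx))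
    exact ⟨h1, x, hSX hx, by have := rn_pos (nd x); linarith⟩
  have hmain := hsum (X : Set ℂ) hcond Y (fun y hy => by
      obtain ⟨h1, x, hx, h2⟩ := hnear y hy
      exact ⟨h1, x, by exact_mod_cast hx, h2⟩) z hz (dl X z / 12) (by positivity)
      (fun y hy => by have := dl_le_wn (hnear y hy) hz'; linarith)
  have hsimp : ∑ y ∈ Y, rn y ^ (1 : ℝ) * ‖wn y z‖ ^ (-((1 : ℝ) + 1)) =
      ∑ y ∈ Y, rn y * (‖wn y z‖ ^ 2)⁻¹ := by
    refine Finset.sum_congr rfl fun y _ => ?_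
    rw [Real.rpow_one, Real.rpow_neg (norm_nonneg _)]
    congr 2
    rw [show ((1 : ℝ) + 1) = ((2 : ℕ) : ℝ) by norm_num, Real.rpow_natCast]
  rw [hsimp] at hmain
  have hδ : C₃ * (dl X z / 12) ^ (-(1 : ℝ)) ≤ max C₃ 0 * (12 / dl X z) := by
    rw [Real.rpow_neg (by positivity), Real.rpow_one, inv_div]
    exact mul_le_mul_of_nonneg_right (le_max_left _ _) (by positivity)
  -- fibre count
  have hfib : ∀ y ∈ Y, ((S.filter (fun x => nd x = y)).card : ℝ) ≤ m0 := by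
    intro y _
    have hr := rn_pos y
    have hr' : (rn y : ℂ) ≠ 0 := by exact_mod_cast hr.ne'
    set φ : ℂ → ℂ := fun x => (x - zn y) / (rn y : ℂ) with hφ
    have hinj : Function.Injective φ := by
      intro a b hab
      simp only [hφ] at hab
      rw [div_left_inj' hr'] at hab
      exact sub_left_injective hab
    have h1 := hm0 ((S.filter (fun x => nd x = y)).image φ) (by
      intro u hu
      obtain ⟨x, hx, rfl⟩ := Finset.mem_image.1 hu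
      obtain ⟨hxS, hxy⟩ := Finset.mem_filter.1 hx
      obtain ⟨-, h2, -, -⟩ := hnd x (hX x (hSX hxS))
      rw [hxy] at h2
      simp only [hφ]
      rw [norm_div, Complex.norm_real, Real.norm_of_nonneg hr.le, div_le_iff₀ hr, norm_sub_rev]
      exact h2) (by
      intro u hu u' hu' hne
      obtain ⟨x, hx, rfl⟩ := Finset.mem_image.1 hu
      obtain ⟨x', hx', rfl⟩ := Finset.mem_image.1 hu'
      obtain ⟨hxS, hxy⟩ := Finset.mem_filter.1 hx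
      obtain ⟨hxS', hxy'⟩ := Finset.mem_filter.1 hx'
      have hne' : x ≠ x' := fun h => hne (by rw [h])
      have h3 := hsep x hxS x' hxS' hne'
      obtain ⟨-, -, -, h4⟩ := hnd x (hX x (hSX hxS))
      rw [hxy] at h4
      have : φ x - φ x' = (x - x') / (rn y : ℂ) := by
        simp only [hφ]; rw [← sub_div]; congr 1; ring
      rw [this, norm_div, Complex.norm_real, Real.norm_of_nonneg hr.le, le_div_iff₀ hr]
      nlinarith)
    rw [Finset.card_image_of_injective _ hinj] at h1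
    exact_mod_cast h1
  calc ∑ x ∈ S, (1 - ‖x‖) / ‖1 - (starRingEnd ℂ) x * z‖ ^ 2
      ≤ ∑ x ∈ S, 361 * (rn (nd x) * (‖wn (nd x) z‖ ^ 2)⁻¹) := by
        refine Finset.sum_le_sum fun x hx => ?_
        obtain ⟨-, h1, h2, h3⟩ := hnd x (hX x (hSX hx))
        exact term_le (hX x (hSX hx)) hz' h1 h2 h3
    _ = ∑ y ∈ Y, ∑ x ∈ S.filter (fun x => nd x = y),
          361 * (rn (nd x) * (‖wn (nd x) z‖ ^ 2)⁻¹) := by
        rw [Finset.sum_fiberwise_of_maps_to (fun x hx => Finset.mem_image_of_mem nd hx)]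
    _ ≤ ∑ y ∈ Y, m0 * (361 * (rn y * (‖wn y z‖ ^ 2)⁻¹)) := by
        refine Finset.sum_le_sum fun y hy => ?_
        have e : ∑ x ∈ S.filter (fun x => nd x = y), 361 * (rn (nd x) * (‖wn (nd x) z‖ ^ 2)⁻¹)
            = ((S.filter (fun x => nd x = y)).card : ℝ) * (361 * (rn y * (‖wn y z‖ ^ 2)⁻¹)) := by
          rw [Finset.sum_congr rfl (g := fun _ => 361 * (rn y * (‖wn y z‖ ^ 2)⁻¹))
            (fun x hx => by rw [(Finset.mem_filter.1 hx).2]), Finset.sum_const, nsmul_eq_mul]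
        rw [e]
        have := rn_pos y
        exact mul_le_mul_of_nonneg_right (hfib y hy) (by positivity)
    _ = 361 * m0 * ∑ y ∈ Y, rn y * (‖wn y z‖ ^ 2)⁻¹ := by
        rw [Finset.mul_sum]; exact Finset.sum_congr rfl fun y _ => by ring
    _ ≤ 361 * m0 * (max C₃ 0 * (12 / dl X z)) :=
        mul_le_mul_of_nonneg_left (hmain.trans hδ) (by positivity)
    _ = 361 * m0 * 12 * max C₃ 0 / dl X z := by ring


end ZygInt.J18
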