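import Mathlib

namespace ZygInt

open Complex Metric Set Filter Topology

theorem deriv_bound {g : ℂ → ℂ} {x : ℂ} {ρ Bd : ℝ} (hρ : 0 < ρ)
    (hd : ∀ z, ‖z - x‖ ≤ ρ → DifferentiableAt ℂ g z) (hb : ∀ z, ‖z - x‖ ≤ ρ → ‖g z‖ ≤ Bd) :
    ‖deriv g x‖ ≤ Bd / ρ := by
  refine Complex.norm_deriv_le_of_forall_mem_sphere_norm_le hρ ?_ ?_
  · refine DifferentiableOn.diffContOnCl fun z hz => ?_
    rw [closure_ball x hρ.ne'] at hz
    exact (hd z (by simpa [dist_eq_norm] using hz)).differentiableWithinAt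
  · intro z hz
    exact hb z (by rw [mem_sphere, dist_eq_norm] at hz; exact hz.le)

theorem deriv_bound_half {g : ℂ → ℂ} {x : ℂ} {ρ Bd : ℝ} (hρ : 0 < ρ)
    (hd : ∀ z, ‖z - x‖ ≤ ρ → DifferentiableAt ℂ g z) (hb : ∀ z, ‖z - x‖ ≤ ρ → ‖g z‖ ≤ Bd)
    {w : ℂ} (hw : ‖w - x‖ ≤ ρ / 2) : ‖deriv g w‖ ≤ 2 * Bd / ρ := by
  have h1 : ∀ z, ‖z - w‖ ≤ ρ / 2 → ‖z - x‖ ≤ ρ := by
    intro z hz
    calc ‖z - x‖ = ‖(z - w) + (w - x)‖ := by congr 1; ring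
      _ ≤ ‖z - w‖ + ‖w - x‖ := norm_add_le _ _
      _ ≤ ρ := by linarith
  have := deriv_bound (g := g) (x := w) (ρ := ρ / 2) (Bd := Bd) (by positivity)
    (fun z hz => hd z (h1 z hz)) (fun z hz => hb z (h1 z hz))
  calc ‖deriv g w‖ ≤ Bd / (ρ / 2) := this
    _ = 2 * Bd / ρ := by field_simp

theorem lip_of_bound {g : ℂ → ℂ} {x x' : ℂ} {ρ Bd : ℝ} (hρ : 0 < ρ)
    (hd : ∀ z, ‖z - x‖ ≤ ρ → DifferentiableAt ℂ g z) (hb : ∀ z, ‖z - x‖ ≤ ρ → ‖g z‖ ≤ Bd)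
    (hx : ‖x' - x‖ ≤ ρ / 2) : ‖g x' - g x‖ ≤ 2 * Bd / ρ * ‖x' - x‖ := by
  refine Convex.norm_image_sub_le_of_norm_deriv_le (s := closedBall x (ρ / 2)) (f := g)
    (fun z hz => hd z ?_) (fun z hz => ?_) (convex_closedBall _ _) (mem_closedBall_self (by positivity))
    ?_
  · rw [mem_closedBall, dist_eq_norm] at hz; linarith
  · exact deriv_bound_half hρ hd hb (by rw [mem_closedBall, dist_eq_norm] at hz; exact hz)
  · rw [mem_closedBall, dist_eq_norm]; exact hx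

theorem deriv2_bound {g : ℂ → ℂ} {x : ℂ} {ρ Bd : ℝ} (hρ : 0 < ρ)
    (hd : ∀ z, ‖z - x‖ ≤ ρ → DifferentiableAt ℂ g z) (hb : ∀ z, ‖z - x‖ ≤ ρ → ‖g z‖ ≤ Bd) :
    ‖deriv (deriv g) x‖ ≤ 4 * Bd / ρ ^ 2 := by
  have hdo : DifferentiableOn ℂ (deriv g) (ball x ρ) := by
    have : DifferentiableOn ℂ g (ball x ρ) := fun z hz =>
      (hd z (by rw [mem_ball, dist_eq_norm] at hz; exact hz.le)).differentiableWithinAt
    exact this.deriv isOpen_ball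
  have := deriv_bound (g := deriv g) (x := x) (ρ := ρ / 2) (Bd := 2 * Bd / ρ) (by positivity)
    (fun z hz => hdo.differentiableAt (isOpen_ball.mem_nhds (by
      rw [mem_ball, dist_eq_norm]; linarith)))
    (fun z hz => deriv_bound_half hρ hd hb hz)
  calc _ ≤ 2 * Bd / ρ / (ρ / 2) := this
    _ = 4 * Bd / ρ ^ 2 := by field_simp; ring

end ZygInt
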