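import Mathlib
import Pool.Agent.ZygInt.Defs

namespace ZygInt.J14

open Complex Metric Set Filter Topology

theorem EE_eq (u : ℂ) (r : ℝ) (v : ℂ) (s : ℝ) (hr : 0 < r) (hs : 0 < s) :
    EE u r v s = 2 * Real.log (r + s + ‖u - v‖) - Real.log r - Real.log s := by
  have h : 0 < r + s + ‖u - v‖ := by positivity
  unfold EE
  rw [Real.log_div (by positivity) (by positivity), Real.log_pow, Real.log_mul hr.ne' hs.ne']
  push_cast
  ring

theorem EE_comm (u : ℂ) (r : ℝ) (v : ℂ) (s : ℝ) : EE u r v s = EE v s u r := by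
  unfold EE
  rw [norm_sub_rev u v, add_comm r s, mul_comm r s]

theorem EE_triangle (u : ℂ) (r : ℝ) (v : ℂ) (s : ℝ) (x : ℂ) (w : ℝ) (hr : 0 < r) (hs : 0 < s)
    (hw : 0 < w) : EE u r x w ≤ EE u r v s + EE v s x w := by
  rw [EE_eq u r x w hr hw, EE_eq u r v s hr hs, EE_eq v s x w hs hw]
  have h1 : (r + w + ‖u - x‖) * s ≤ (r + s + ‖u - v‖) * (s + w + ‖v - x‖) := by
    have h2 : ‖u - x‖ ≤ ‖u - v‖ + ‖v - x‖ := norm_sub_le_norm_sub_add_norm_sub u v x
    have h3 := norm_nonneg (u - v)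
    have h4 := norm_nonneg (v - x)
    nlinarith [mul_nonneg h3 h4, mul_nonneg h3 hw.le, mul_nonneg h4 hr.le, mul_pos hr hw,
      mul_pos hs hs, mul_le_mul_of_nonneg_right h2 hs.le]
  have h5 : Real.log ((r + w + ‖u - x‖) * s) ≤
      Real.log ((r + s + ‖u - v‖) * (s + w + ‖v - x‖)) := Real.log_le_log (by positivity) h1
  rw [Real.log_mul (by positivity) hs.ne', Real.log_mul (by positivity) (by positivity)] at h5
  linarith

theorem EE_ge (u : ℂ) (r : ℝ) (v : ℂ) (s : ℝ) (hr : 0 < r) (hs : 0 < s) :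
    Real.log 4 ≤ EE u r v s := by
  unfold EE
  apply Real.log_le_log (by norm_num)
  rw [le_div_iff₀ (by positivity)]
  have := norm_nonneg (u - v)
  nlinarith [sq_nonneg (r - s), mul_nonneg this (add_pos hr hs).le, sq_nonneg ‖u - v‖]

theorem one_le_log_four : 1 ≤ Real.log 4 := by
  rw [show (4 : ℝ) = 2 ^ 2 by norm_num, Real.log_pow]
  have := Real.log_two_gt_d9
  push_cast
  linarith

theorem mcshane {ι : Type*} [Finite ι] [Nonempty ι] (P : ι → ℂ) (R : ι → ℝ) (hR : ∀ i, 0 < R i)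
    (v : ι → ℝ) (C₁ : ℝ) (hC₁ : 0 ≤ C₁)
    (h : ∀ i j, |v i - v j| ≤ C₁ * EE (P i) (R i) (P j) (R j)) :
    ∃ b : ℂ → ℝ → ℝ,
      (∀ u r w s, 0 < r → 0 < s → |b u r - b w s| ≤ C₁ * EE u r w s) ∧
      ∀ i u r, 0 < r → |b u r - v i| ≤ C₁ * EE u r (P i) (R i) := by
  have hbdd : ∀ u r, BddBelow (Set.range fun i => v i + C₁ * EE u r (P i) (R i)) :=
    fun u r => (Set.finite_range _).bddBelow
  refine ⟨fun u r => ⨅ i, (v i + C₁ * EE u r (P i) (R i)), ?_, ?_⟩
  · have key : ∀ u r w s, 0 < r → 0 < s → (⨅ i, (v i + C₁ * EE u r (P i) (R i))) ≤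
        (⨅ i, (v i + C₁ * EE w s (P i) (R i))) + C₁ * EE u r w s := by
      intro u r w s hr hs
      rw [← sub_le_iff_le_add]
      refine le_ciInf fun i => ?_
      have h1 := ciInf_le (hbdd u r) i
      have h2 := mul_le_mul_of_nonneg_left (EE_triangle u r w s (P i) (R i) hr hs (hR i)) hC₁
      linarith
    intro u r w s hr hs
    rw [abs_le]
    have h1 := key u r w s hr hs
    have h2 := key w s u r hs hr
    rw [EE_comm w s u r] at h2
    constructor <;> linarith
  · intro i u r hr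
    have h1 := ciInf_le (hbdd u r) i
    have h2 : v i - C₁ * EE u r (P i) (R i) ≤ ⨅ i, (v i + C₁ * EE u r (P i) (R i)) := by
      refine le_ciInf fun j => ?_
      have h3 := (abs_le.1 (h i j)).2
      have h4 := mul_le_mul_of_nonneg_left
        (EE_triangle (P i) (R i) u r (P j) (R j) (hR i) hr (hR j)) hC₁
      rw [EE_comm (P i) (R i) u r] at h4
      linarith
    rw [abs_le]
    constructor <;> linarith

theorem sl_comm (φ : ℂ → ℂ) (a b : ℂ) : sl φ a b = sl φ b a := by
  unfold sl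
  rw [← neg_sub (φ a) (φ b), ← neg_sub a b, neg_div_neg_eq]

theorem rr_comm (a b : ℂ) : rr a b = rr b a := by
  unfold rr
  rw [norm_sub_rev a b, max_comm (1 - ‖a‖) (1 - ‖b‖)]

theorem abs_log_div_le {x y M : ℝ} (hx : 0 < x) (hy : 0 < y) (h1 : Real.log x - Real.log y ≤ M)
    (h2 : Real.log y - Real.log x ≤ M) : |Real.log (x / y)| ≤ M := by
  rw [Real.log_div hx.ne' hy.ne', abs_le]
  constructor <;> linarith

theorem compat_aux (C : ℝ) (hC : 0 ≤ C) (X : Finset ℂ) (φ : ℂ → ℂ) (hX : ∀ x ∈ X, ‖x‖ < 1)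
    (WT : ∀ a ∈ X, ∀ b ∈ X, ∀ d ∈ X, a ≠ b → a ≠ d →
      ‖sl φ a b - sl φ a d‖ ≤ C * (1 + |Real.log (rr a b / rr a d)|))
    {a b c d : ℂ} (ha : a ∈ X) (hb : b ∈ X) (hc : c ∈ X) (hd : d ∈ X) (hab : a ≠ b) (hcd : c ≠ d)
    (hr : rr c d ≤ rr a b) :
    ‖sl φ a b - sl φ c d‖ ≤ (6 * C) * EE a (rr a b) c (rr c d) := by
  have hta : 0 < 1 - ‖a‖ := by linarith [hX a ha]
  have htc : 0 < 1 - ‖c‖ := by linarith [hX c hc]
  have htd : 0 < 1 - ‖d‖ := by linarith [hX d hd]
  have rrpos : ∀ x y : ℂ, 0 < 1 - ‖x‖ → 0 < rr x y := fun x y h =>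
    h.trans_le ((le_max_left _ _).trans (le_max_right _ _))
  have r1 : 0 < rr a b := rrpos a b hta
  have r2 : 0 < rr c d := rrpos c d htc
  have e1 : 1 - ‖a‖ ≤ rr a b := (le_max_left _ _).trans (le_max_right _ _)
  have e2 : 1 - ‖c‖ ≤ rr c d := (le_max_left _ _).trans (le_max_right _ _)
  have e3 : 1 - ‖d‖ ≤ rr c d := (le_max_right _ _).trans (le_max_right _ _)
  have e4 : ‖c - d‖ ≤ rr c d := le_max_left _ _
  have hL := EE_ge a (rr a b) c (rr c d) r1 r2
  have hLeq := EE_eq a (rr a b) c (rr c d) r1 r2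
  set L := EE a (rr a b) c (rr c d) with hLdef
  have hac0 := norm_nonneg (a - c)
  have l1 : Real.log (rr a b) ≤ Real.log (rr a b + rr c d + ‖a - c‖) :=
    Real.log_le_log r1 (by linarith)
  have l2 : Real.log (rr c d) ≤ Real.log (rr a b + rr c d + ‖a - c‖) :=
    Real.log_le_log r2 (by linarith)
  have l12 : Real.log (rr c d) ≤ Real.log (rr a b) := Real.log_le_log r2 hr
  have h4 := one_le_log_four
  have hquad : Real.log (4 * rr c d) = Real.log 4 + Real.log (rr c d) :=
    Real.log_mul (by norm_num) r2.ne'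
  have hquart : Real.log (rr c d / 4) = Real.log (rr c d) - Real.log 4 :=
    Real.log_div r2.ne' (by norm_num)
  have tac : 1 - ‖a‖ ≤ 1 - ‖c‖ + ‖a - c‖ := by
    have := norm_sub_norm_le c a
    rw [norm_sub_rev] at this
    linarith
  -- final step
  have fin : ∀ (x y z : ℂ) (A B : ℝ), ‖x - y‖ ≤ C * (1 + A) → ‖y - z‖ ≤ C * (1 + B) →
      2 + A + B ≤ 6 * L → ‖x - z‖ ≤ (6 * C) * L := by
    intro x y z A B h1 h2 h3
    calc ‖x - z‖ ≤ ‖x - y‖ + ‖y - z‖ := norm_sub_le_norm_sub_add_norm_sub _ _ _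
      _ ≤ C * (2 + A + B) := by linarith
      _ ≤ C * (6 * L) := mul_le_mul_of_nonneg_left h3 hC
      _ = _ := by ring
  rcases le_or_gt (rr c d / 4) ‖a - c‖ with hcase | hcase
  · -- case 1
    have hne : a ≠ c := by
      rintro rfl
      rw [sub_self, norm_zero] at hcase
      linarith
    have r3 : 0 < rr a c := rrpos a c hta
    have hup : rr a c ≤ rr a b + rr c d + ‖a - c‖ :=
      max_le (by linarith) (max_le (by linarith) (by linarith))
    have hlo : rr c d / 4 ≤ rr a c := hcase.trans (le_max_left _ _)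
    have l3 := Real.log_le_log r3 hup
    have l4 := Real.log_le_log (by positivity) hlo
    rw [hquart] at l4
    have w1 := WT a ha b hb c hc hab hne
    have w2 := WT c hc a ha d hd hne.symm hcd
    rw [sl_comm φ c a, rr_comm c a] at w2
    have k1 : |Real.log (rr a b / rr a c)| ≤ L + Real.log 4 :=
      abs_log_div_le r1 r3 (by linarith) (by linarith)
    have k2 : |Real.log (rr a c / rr c d)| ≤ L + Real.log 4 :=
      abs_log_div_le r3 r2 (by linarith) (by linarith)
    exact fin _ _ _ _ _ w1 w2 (by linarith)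
  · -- case 2: `a` close to `c`
    -- a generic estimate for a point `e` with `rr c d / 4 ≤ rr a e ≤ 4 rr c d`
    have gen : ∀ r3 : ℝ, 0 < r3 → rr c d / 4 ≤ r3 → r3 ≤ 4 * rr c d →
        |Real.log (rr a b / r3)| ≤ L + Real.log 4 ∧ |Real.log (r3 / rr c d)| ≤ Real.log 4 := by
      intro r3 h3 hlo hup
      have l3 := Real.log_le_log h3 hup
      have l4 := Real.log_le_log (by positivity) hlo
      rw [hquart] at l4
      rw [hquad] at l3
      exact ⟨abs_log_div_le r1 h3 (by linarith) (by linarith),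
        abs_log_div_le h3 r2 (by linarith) (by linarith)⟩
    rcases le_or_gt (rr c d / 2) ‖c - d‖ with hcd2 | hcd2
    · have had : rr c d / 4 ≤ ‖a - d‖ := by
        have := norm_sub_le_norm_sub_add_norm_sub c a d
        rw [norm_sub_rev c a] at this
        linarith
      have hne : a ≠ d := by
        rintro rfl
        rw [sub_self, norm_zero] at had
        linarith
      have r3 : 0 < rr a d := rrpos a d hta
      have hup : rr a d ≤ 4 * rr c d := by
        have := norm_sub_le_norm_sub_add_norm_sub a c d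
        exact max_le (by linarith) (max_le (by linarith) (by linarith))
      obtain ⟨k1, k2⟩ := gen (rr a d) r3 (had.trans (le_max_left _ _)) hup
      have w1 := WT a ha b hb d hd hab hne
      have w2 := WT d hd a ha c hc hne.symm hcd.symm
      rw [sl_comm φ d a, rr_comm d a, sl_comm φ d c, rr_comm d c] at w2
      refine fin _ _ _ _ _ w1 w2 (by linarith)
    · have htc2 : rr c d / 2 ≤ 1 - ‖c‖ := by
        rcases le_total (1 - ‖c‖) (1 - ‖d‖) with h | h
        · have e5 : rr c d = max ‖c - d‖ (1 - ‖d‖) := by unfold rr; rw [max_eq_right h]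
          rcases le_total ‖c - d‖ (1 - ‖d‖) with h' | h'
          · rw [max_eq_right h'] at e5
            have := norm_sub_norm_le c d
            linarith
          · rw [max_eq_left h'] at e5
            linarith
        · have e5 : rr c d = max ‖c - d‖ (1 - ‖c‖) := by unfold rr; rw [max_eq_left h]
          rcases le_total ‖c - d‖ (1 - ‖c‖) with h' | h'
          · rw [max_eq_right h'] at e5
            linarith
          · rw [max_eq_left h'] at e5
            linarith
      by_cases hne : a = c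
      · have w1 := WT a ha b hb d hd hab (by rw [hne]; exact hcd)
        obtain ⟨k1, k2⟩ := gen (rr c d) r2 (by linarith) (by linarith)
        have w1' : ‖sl φ a b - sl φ c d‖ ≤ C * (1 + |Real.log (rr a b / rr c d)|) := by
          rw [← hne]; exact w1
        have w2 : ‖sl φ c d - sl φ c d‖ ≤ C * (1 + 0) := by
          rw [sub_self, norm_zero]; positivity
        exact fin _ _ _ _ _ w1' w2 (by linarith)
      · have r3 : 0 < rr a c := rrpos a c hta
        have hlo : rr c d / 4 ≤ rr a c := by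
          have : 1 - ‖c‖ ≤ rr a c := (le_max_right _ _).trans (le_max_right _ _)
          linarith
        have hup : rr a c ≤ 4 * rr c d := max_le (by linarith) (max_le (by linarith) (by linarith))
        obtain ⟨k1, k2⟩ := gen (rr a c) r3 hlo hup
        have w1 := WT a ha b hb c hc hab hne
        have w2 := WT c hc a ha d hd (Ne.symm hne) hcd
        rw [sl_comm φ c a, rr_comm c a] at w2
        exact fin _ _ _ _ _ w1 w2 (by linarith)

/-- J14: a choice of slopes at all places and scales (McShane type extension). -/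
theorem slopes_exist (C : ℝ) (hC : 0 ≤ C) : ∃ C' : ℝ, 0 ≤ C' ∧ ∀ (X : Finset ℂ) (φ : ℂ → ℂ),
    (∀ x ∈ X, ‖x‖ < 1) →
    (∀ a ∈ X, ∀ b ∈ X, a ≠ b → ‖sl φ a b‖ ≤ C * (1 + Real.log (2 / rr a b))) →
    (∀ a ∈ X, ∀ b ∈ X, ∀ d ∈ X, a ≠ b → a ≠ d → b ≠ d →
      ‖sl φ a b - sl φ a d‖ ≤ C * (1 + |Real.log (rr a b / rr a d)|)) →
    ∃ B : ℂ → ℝ → ℂ,
      (∀ u v : ℂ, ∀ r s : ℝ, 0 < r → 0 < s → ‖B u r - B v s‖ ≤ C' * EE u r v s) ∧
      (∀ a ∈ X, ∀ b ∈ X, a ≠ b → ∀ (u : ℂ) (r : ℝ), 0 < r →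
        ‖B u r - sl φ a b‖ ≤ C' * EE u r a (rr a b)) ∧
      (∀ (u : ℂ) (r : ℝ), 0 < r → ‖B u r‖ ≤ C' * EE u r 0 1) := by
  classical
  refine ⟨12 * C, by positivity, ?_⟩
  intro X φ hX H1 H2
  have rrpos : ∀ x ∈ X, ∀ y : ℂ, 0 < rr x y := fun x hx y => by
    have : 0 < 1 - ‖x‖ := by linarith [hX x hx]
    exact this.trans_le ((le_max_left _ _).trans (le_max_right _ _))
  have WT : ∀ a ∈ X, ∀ b ∈ X, ∀ d ∈ X, a ≠ b → a ≠ d →
      ‖sl φ a b - sl φ a d‖ ≤ C * (1 + |Real.log (rr a b / rr a d)|) := by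
    intro a ha b hb d hd hab had
    by_cases hbd : b = d
    · rw [hbd, sub_self, norm_zero]; positivity
    · exact H2 a ha b hb d hd hab had hbd
  -- data
  let ι := Option {p : X × X // p.1 ≠ p.2}
  let P : ι → ℂ := fun i => i.elim 0 fun p => (p.1.1 : ℂ)
  let R : ι → ℝ := fun i => i.elim 1 fun p => rr (p.1.1 : ℂ) (p.1.2 : ℂ)
  let v : ι → ℂ := fun i => i.elim 0 fun p => sl φ (p.1.1 : ℂ) (p.1.2 : ℂ)
  have hR : ∀ i, 0 < R i := by
    rintro (_ | ⟨⟨a, b⟩, hab⟩)
    · exact one_pos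
    · exact rrpos a a.2 b
  have h4 := one_le_log_four
  have hzero : ∀ a ∈ X, ∀ b ∈ X, a ≠ b → ‖sl φ a b‖ ≤ (6 * C) * EE a (rr a b) 0 1 := by
    intro a ha b hb hab
    have r1 := rrpos a ha b
    have h1 := H1 a ha b hb hab
    have hge := EE_ge a (rr a b) 0 1 r1 one_pos
    have heq := EE_eq a (rr a b) 0 1 r1 one_pos
    rw [Real.log_one] at heq
    have h2 : 0 ≤ Real.log (rr a b + 1 + ‖a - 0‖) := by
      apply Real.log_nonneg
      have := norm_nonneg (a - 0)
      linarith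
    rw [Real.log_div (by norm_num) r1.ne'] at h1
    have h3 : Real.log 2 ≤ Real.log 4 := Real.log_le_log (by norm_num) (by norm_num)
    calc ‖sl φ a b‖ ≤ C * (1 + (Real.log 2 - Real.log (rr a b))) := h1
      _ ≤ C * (6 * EE a (rr a b) 0 1) := mul_le_mul_of_nonneg_left (by linarith) hC
      _ = _ := by ring
  have hcompat : ∀ i j, ‖v i - v j‖ ≤ (6 * C) * EE (P i) (R i) (P j) (R j) := by
    rintro (_ | ⟨⟨a, b⟩, hab⟩) (_ | ⟨⟨c, d⟩, hcd⟩)
    · have := EE_ge 0 1 0 1 one_pos one_pos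
      simp only [v, P, R, Option.elim_none, sub_self, norm_zero]
      have h0 : 0 ≤ EE 0 1 0 1 := by linarith
      positivity
    · simp only [v, P, R, Option.elim_none, Option.elim_some, zero_sub, norm_neg]
      rw [EE_comm]
      exact hzero c c.2 d d.2 (fun h => hcd (Subtype.ext h))
    · simp only [v, P, R, Option.elim_none, Option.elim_some, sub_zero]
      exact hzero a a.2 b b.2 (fun h => hab (Subtype.ext h))
    · simp only [v, P, R, Option.elim_some]
      have hab' : (a : ℂ) ≠ b := fun h => hab (Subtype.ext h)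
      have hcd' : (c : ℂ) ≠ d := fun h => hcd (Subtype.ext h)
      rcases le_total (rr (c : ℂ) d) (rr (a : ℂ) b) with h | h
      · exact compat_aux C hC X φ hX WT a.2 b.2 c.2 d.2 hab' hcd' h
      · rw [norm_sub_rev, EE_comm]
        exact compat_aux C hC X φ hX WT c.2 d.2 a.2 b.2 hcd' hab' h
  have hC6 : 0 ≤ 6 * C := by positivity
  obtain ⟨b1, hb1, hb1'⟩ := mcshane P R hR (fun i => (v i).re) (6 * C) hC6 (fun i j => by
    rw [← Complex.sub_re]
    exact (Complex.abs_re_le_norm _).trans (hcompat i j))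
  obtain ⟨b2, hb2, hb2'⟩ := mcshane P R hR (fun i => (v i).im) (6 * C) hC6 (fun i j => by
    rw [← Complex.sub_im]
    exact (Complex.abs_im_le_norm _).trans (hcompat i j))
  have hnorm : ∀ (x y : ℝ) (w : ℂ) (M : ℝ), |x - w.re| ≤ M → |y - w.im| ≤ M →
      ‖((x : ℂ) + y * I) - w‖ ≤ 2 * M := by
    intro x y w M h1 h2
    refine (Complex.norm_le_abs_re_add_abs_im _).trans ?_
    simp only [sub_re, add_re, ofReal_re, mul_re, I_re, mul_zero, ofReal_im, I_im, mul_one,
      sub_self, add_zero, sub_im, add_im, mul_im, zero_add]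
    linarith
  have hmain : ∀ i u r, 0 < r → ‖((b1 u r : ℂ) + b2 u r * I) - v i‖ ≤
      (12 * C) * EE u r (P i) (R i) := by
    intro i u r hr
    refine (hnorm _ _ _ _ (hb1' i u r hr) (hb2' i u r hr)).trans (le_of_eq (by ring))
  refine ⟨fun u r => (b1 u r : ℂ) + b2 u r * I, ?_, ?_, ?_⟩
  · intro u w r s hr hs
    have h1 := hb1 u r w s hr hs
    have h2 := hb2 u r w s hr hs
    have h3 := hnorm (b1 u r) (b2 u r) ((b1 w s : ℂ) + b2 w s * I) ((6 * C) * EE u r w s)
      (by simpa using h1) (by simpa using h2)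
    exact h3.trans (le_of_eq (by ring))
  · intro a ha b hb hab u r hr
    exact hmain (some ⟨⟨⟨a, ha⟩, ⟨b, hb⟩⟩, fun h => hab (congrArg Subtype.val h)⟩) u r hr
  · intro u r hr
    have := hmain none u r hr
    simpa only [v, P, R, Option.elim_none, sub_zero] using this

end ZygInt.J14
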