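import Mathlib
import Pool.Agent.ZygInt.Nodes

namespace ZygInt.J19

open Complex Metric Set Filter Topology

lemma J19_EE_le {u v : ℂ} {r s A Q : ℝ} (hr : 0 < r) (hs : 0 < s) (hA : r + s + ‖u - v‖ ≤ A)
    (hQ : A ^ 2 ≤ Q * (r * s)) : EE u r v s ≤ Real.log Q := by
  unfold EE
  have h0 : 0 < r + s + ‖u - v‖ := by have := norm_nonneg (u - v); linarith
  apply Real.log_le_log (by positivity)
  rw [div_le_iff₀ (by positivity)]
  have : (r + s + ‖u - v‖) ^ 2 ≤ A ^ 2 := by gcongr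
  linarith

lemma J19_log_num : Real.log 7596 ≤ 9 ∧ Real.log 4225 ≤ 9 ∧ Real.log 2028 ≤ 8 := by
  have h2 := Real.log_two_lt_d9
  refine ⟨?_, ?_, ?_⟩
  · -- 7596 < 2 ^ 12.9
    have h3 : Real.log 7596 ≤ Real.log 8000 := Real.log_le_log (by norm_num) (by norm_num)
    have h4 : Real.log 8000 = 3 * Real.log 20 := by
      have : (8000:ℝ) = 20 ^ 3 := by norm_num
      rw [this, Real.log_pow]; norm_num
    have h5 : Real.log 20 < 3 := by
      rw [Real.log_lt_iff_lt_exp (by norm_num)]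
      have := Real.exp_one_gt_d9
      have e : Real.exp 3 = Real.exp 1 ^ 3 := by rw [← Real.exp_nat_mul]; norm_num
      rw [e]
      have : (2.718:ℝ) ^ 3 < Real.exp 1 ^ 3 := by gcongr; linarith
      linarith [this, (by norm_num : (20:ℝ) < 2.718 ^ 3)]
    linarith
  · have h3 : Real.log 4225 ≤ Real.log 8000 := Real.log_le_log (by norm_num) (by norm_num)
    have h4 : Real.log 8000 = 3 * Real.log 20 := by
      have : (8000:ℝ) = 20 ^ 3 := by norm_num
      rw [this, Real.log_pow]; norm_num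
    have h5 : Real.log 20 < 3 := by
      rw [Real.log_lt_iff_lt_exp (by norm_num)]
      have := Real.exp_one_gt_d9
      have e : Real.exp 3 = Real.exp 1 ^ 3 := by rw [← Real.exp_nat_mul]; norm_num
      rw [e]
      have : (2.718:ℝ) ^ 3 < Real.exp 1 ^ 3 := by gcongr; linarith
      linarith [this, (by norm_num : (20:ℝ) < 2.718 ^ 3)]
    linarith
  · have h3 : Real.log 2028 ≤ Real.log (2 ^ 11) := Real.log_le_log (by norm_num) (by norm_num)
    rw [Real.log_pow] at h3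
    norm_num at h3
    linarith

/-- J19: consistency of the affine pieces. -/
theorem consistency (C' κ : ℝ) (hC' : 0 ≤ C') (hκ : 0 < κ) (hκ1 : κ ≤ 1) :
    ∃ CA : ℝ, 0 ≤ CA ∧ ∀ (X : Finset ℂ) (φ : ℂ → ℂ) (B : ℂ → ℝ → ℂ),
      (∀ x ∈ X, ‖x‖ < 1) →
      (∀ u v : ℂ, ∀ r s : ℝ, 0 < r → 0 < s → ‖B u r - B v s‖ ≤ C' * EE u r v s) →
      (∀ a ∈ X, ∀ b ∈ X, a ≠ b → ∀ (u : ℂ) (r : ℝ), 0 < r →
        ‖B u r - sl φ a b‖ ≤ C' * EE u r a (rr a b)) →
      ∀ (y y₀ : ℕ × ℕ) (x x₀ : ℂ), x ∈ X → x₀ ∈ X → ‖zn y - x‖ ≤ 10 * rn y →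
        ‖zn y₀ - x₀‖ ≤ 10 * rn y₀ →
      ∀ (z₀ z : ℂ) (d : ℝ), ‖z₀‖ ≤ 1 → 0 < d → d ≤ 3 * rn y₀ → 3 * rn y₀ ≤ 2 * d →
        ‖wn y₀ z₀‖ ≤ 10 * d → d ≤ 12 * ‖wn y z₀‖ → ‖z - z₀‖ ≤ d →
        ‖(φ x + B (zn y) (rn y) * (z - x)) - (φ x₀ + B (zn y₀) (rn y₀) * (z - x₀))‖ ≤
          CA * d * ((‖wn y z₀‖ / (d / 12)) ^ (2 : ℝ) * (‖wn y z₀‖ / rn y) ^ κ) := by
  refine ⟨C' * (300 + 2 * (10 + 1 / κ)), by positivity, ?_⟩
  intro X φ B hX hB hBs y y₀ x x₀ hx hx₀ hyx hyx₀ z₀ z d hz₀ hd hd1 hd2 hw₀ hdw hzz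
  set w := ‖wn y z₀‖ with hw
  set r := rn y with hr
  set r₀ := rn y₀ with hr₀
  have hrpos : 0 < r := rn_pos y
  have hr₀pos : 0 < r₀ := rn_pos y₀
  have hrw : r ≤ w := rn_le_wn hz₀
  have hwpos : 0 < w := hrpos.trans_le hrw
  have hznz : ‖zn y - z₀‖ ≤ w := zn_sub_le_wn hz₀
  have hznz₀ : ‖zn y₀ - z₀‖ ≤ 10 * d := (zn_sub_le_wn hz₀).trans hw₀
  set ρ := w / (d / 12) with hρ
  set τ := w / r with hτ
  have hρ1 : 1 ≤ ρ := (one_le_div (by positivity)).2 (by linarith)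
  have hτ1 : 1 ≤ τ := (one_le_div hrpos).2 hrw
  have hτκ : 1 ≤ τ ^ κ := Real.one_le_rpow hτ1 hκ.le
  have hwρ : w = ρ * (d / 12) := by rw [hρ]; field_simp
  have hwτ : w = τ * r := by rw [hτ]; field_simp
  rw [Real.rpow_two]
  have hnum := J19_log_num
  -- first bracket
  have hb1 : ‖φ x - φ x₀ - B (zn y₀) r₀ * (x - x₀)‖ ≤ C' * 272 * (d * (ρ ^ 2 * τ ^ κ)) := by
    have hpr : 1 ≤ ρ ^ 2 * τ ^ κ := by
      have : 1 ≤ ρ ^ 2 := one_le_pow₀ hρ1
      nlinarith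
    by_cases hxx : x = x₀
    · subst hxx
      simp
      positivity
    · have hne : x - x₀ ≠ 0 := sub_ne_zero.2 hxx
      have e : φ x - φ x₀ - B (zn y₀) r₀ * (x - x₀) =
          -((B (zn y₀) r₀ - sl φ x₀ x) * (x - x₀)) := by
        unfold sl
        field_simp
        ring
      rw [e, norm_neg, norm_mul]
      have hs := hBs x₀ hx₀ x hx (Ne.symm hxx) (zn y₀) r₀ hr₀pos
      set R := rr x₀ x with hR
      have hRx : ‖x - x₀‖ ≤ R := by rw [hR]; unfold rr; rw [norm_sub_rev]; exact le_max_left _ _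
      have hRpos : 0 < R := (norm_pos_iff.2 hne).trans_le hRx
      have hdist : ‖x - x₀‖ ≤ 211 * w := by
        have e1 : x - x₀ = (zn y₀ - x₀) - (zn y - x) + ((zn y - z₀) - (zn y₀ - z₀)) := by ring
        rw [e1]
        have i1 := norm_add_le ((zn y₀ - x₀) - (zn y - x)) ((zn y - z₀) - (zn y₀ - z₀))
        have i2 := norm_sub_le (zn y₀ - x₀) (zn y - x)
        have i3 := norm_sub_le (zn y - z₀) (zn y₀ - z₀)
        linarith
      have ht0 : 1 - ‖x₀‖ ≤ 10 * r₀ := by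
        have := norm_sub_norm_le (zn y₀) x₀
        rw [norm_zn] at this; linarith
      have ht : 1 - ‖x‖ ≤ 10 * r := by
        have := norm_sub_norm_le (zn y) x
        rw [norm_zn] at this; linarith
      have hRle : R ≤ 211 * w := by
        rw [hR]; unfold rr
        refine max_le (by rw [norm_sub_rev]; exact hdist) (max_le (by linarith) (by linarith))
      rcases le_total r₀ R with hc | hc
      · have hEE : EE (zn y₀) r₀ x₀ R ≤ Real.log (7596 * ρ) := by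
          refine J19_EE_le (A := 12 * R) hr₀pos hRpos (by linarith) ?_
          have : R ≤ 211 * (ρ * (d / 12)) := by rw [← hwρ]; exact hRle
          have h3 : 144 * R ≤ 7596 * ρ * r₀ := by nlinarith
          nlinarith
        have hlog : Real.log (7596 * ρ) ≤ 10 * ρ := by
          rw [Real.log_mul (by norm_num) (by positivity)]
          have := Real.log_le_sub_one_of_pos (by positivity : 0 < ρ)
          linarith [hnum.1]
        have h4 : ‖B (zn y₀) r₀ - sl φ x₀ x‖ ≤ C' * (10 * ρ) :=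
          hs.trans (mul_le_mul_of_nonneg_left (hEE.trans hlog) hC')
        calc ‖B (zn y₀) r₀ - sl φ x₀ x‖ * ‖x - x₀‖ ≤ C' * (10 * ρ) * (211 * (ρ * (d / 12))) := by
              gcongr
              rw [← hwρ]; exact hdist
          _ = C' * (2110 / 12) * (d * (ρ ^ 2 * 1)) := by ring
          _ ≤ C' * 272 * (d * (ρ ^ 2 * τ ^ κ)) := by
              gcongr
              norm_num
      · have hEE : EE (zn y₀) r₀ x₀ R ≤ Real.log (144 * r₀ / R) := by
          refine J19_EE_le (A := 12 * r₀) hr₀pos hRpos (by linarith) ?_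
          rw [div_mul_eq_mul_div, le_div_iff₀ hRpos]
          apply le_of_eq; ring
        have hlog : Real.log (144 * r₀ / R) ≤ 144 * r₀ / R := by
          have := Real.log_le_sub_one_of_pos (by positivity : 0 < 144 * r₀ / R)
          linarith
        have h4 : ‖B (zn y₀) r₀ - sl φ x₀ x‖ ≤ C' * (144 * r₀ / R) :=
          hs.trans (mul_le_mul_of_nonneg_left (hEE.trans hlog) hC')
        calc ‖B (zn y₀) r₀ - sl φ x₀ x‖ * ‖x - x₀‖ ≤ C' * (144 * r₀ / R) * R := by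
              gcongr
          _ = C' * (144 * r₀) := by field_simp
          _ ≤ C' * (96 * d) := by
              gcongr ?_ * ?_
              linarith
          _ = C' * 96 * (d * 1) := by ring
          _ ≤ C' * 272 * (d * (ρ ^ 2 * τ ^ κ)) := by
              gcongr
              norm_num
  -- second
  have hb2 : ‖(B (zn y) r - B (zn y₀) r₀) * (z - x)‖ ≤
      C' * (2 * (10 + 1 / κ)) * (d * (ρ ^ 2 * τ ^ κ)) := by
    rw [norm_mul]
    have hzx : ‖z - x‖ ≤ 23 * w := by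
      have e1 : z - x = (z - z₀) - (zn y - z₀) + (zn y - x) := by ring
      rw [e1]
      have i1 := norm_add_le ((z - z₀) - (zn y - z₀)) (zn y - x)
      have i2 := norm_sub_le (z - z₀) (zn y - z₀)
      linarith
    have hzz' : ‖zn y - zn y₀‖ ≤ 121 * w := by
      have e1 : zn y - zn y₀ = (zn y - z₀) - (zn y₀ - z₀) := by ring
      rw [e1]
      have i1 := norm_sub_le (zn y - z₀) (zn y₀ - z₀)
      linarith
    have hEE : EE (zn y) r (zn y₀) r₀ ≤ Real.log (4225 * (τ * ρ)) := by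
      refine J19_EE_le (A := 130 * w) hrpos hr₀pos (by linarith) ?_
      have h1 : (130 * w) ^ 2 = 16900 * (τ * r) * (ρ * (d / 12)) := by
        rw [← hwτ, ← hwρ]; ring
      rw [h1]
      have h2 : d / 3 ≤ r₀ := by linarith
      have h3 : 0 ≤ τ * r * ρ := by positivity
      nlinarith
    have hlog : Real.log (4225 * (τ * ρ)) ≤ (10 + 1 / κ) * (ρ * τ ^ κ) := by
      rw [Real.log_mul (by norm_num) (by positivity), Real.log_mul (by positivity) (by positivity)]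
      have i1 := Real.log_le_sub_one_of_pos (by positivity : 0 < ρ)
      have i2 := Real.log_le_rpow_div (by positivity : 0 ≤ τ) hκ
      have i3 := hnum.2.1
      have i4 : 1 ≤ ρ * τ ^ κ := by nlinarith
      have i5 : ρ ≤ ρ * τ ^ κ := le_mul_of_one_le_right (by positivity) hτκ
      have i6 : τ ^ κ ≤ ρ * τ ^ κ := le_mul_of_one_le_left (by positivity) hρ1
      have i7 : τ ^ κ / κ ≤ 1 / κ * (ρ * τ ^ κ) := by
        rw [div_eq_mul_inv, one_div, mul_comm]
        exact mul_le_mul_of_nonneg_left i6 (by positivity)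
      linarith
    have h4 : ‖B (zn y) r - B (zn y₀) r₀‖ ≤ C' * ((10 + 1 / κ) * (ρ * τ ^ κ)) :=
      (hB _ _ _ _ hrpos hr₀pos).trans (mul_le_mul_of_nonneg_left (hEE.trans hlog) hC')
    calc ‖B (zn y) r - B (zn y₀) r₀‖ * ‖z - x‖ ≤
          C' * ((10 + 1 / κ) * (ρ * τ ^ κ)) * (23 * (ρ * (d / 12))) := by
            gcongr
            rw [← hwρ]; exact hzx
      _ = C' * ((23 / 12) * (10 + 1 / κ)) * (d * (ρ ^ 2 * τ ^ κ)) := by ring
      _ ≤ C' * (2 * (10 + 1 / κ)) * (d * (ρ ^ 2 * τ ^ κ)) := by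
            gcongr
            norm_num
  have e : (φ x + B (zn y) r * (z - x)) - (φ x₀ + B (zn y₀) r₀ * (z - x₀)) =
      (φ x - φ x₀ - B (zn y₀) r₀ * (x - x₀)) + (B (zn y) r - B (zn y₀) r₀) * (z - x) := by ring
  rw [e]
  refine (norm_add_le _ _).trans ?_
  have hnn : 0 ≤ C' * (d * (ρ ^ 2 * τ ^ κ)) := by positivity
  have : C' * (300 + 2 * (10 + 1 / κ)) * d * (ρ ^ 2 * τ ^ κ) =
      C' * 272 * (d * (ρ ^ 2 * τ ^ κ)) + C' * (2 * (10 + 1 / κ)) * (d * (ρ ^ 2 * τ ^ κ)) +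
        28 * (C' * (d * (ρ ^ 2 * τ ^ κ))) := by ring
  rw [this]
  linarith

/-- J20: error of the affine piece at the points of `X`. -/
theorem error_at (C' : ℝ) (hC' : 0 ≤ C') :
    ∃ CA : ℝ, 0 ≤ CA ∧ ∀ (X : Finset ℂ) (φ : ℂ → ℂ) (B : ℂ → ℝ → ℂ),
      (∀ x ∈ X, ‖x‖ < 1) →
      (∀ a ∈ X, ∀ b ∈ X, a ≠ b → ∀ (u : ℂ) (r : ℝ), 0 < r →
        ‖B u r - sl φ a b‖ ≤ C' * EE u r a (rr a b)) →
      ∀ (y₀ : ℕ × ℕ) (x x₀ : ℂ), x ∈ X → x₀ ∈ X → ‖zn y₀ - x₀‖ ≤ 10 * rn y₀ →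
        (1 - ‖x‖) ≤ 3 * rn y₀ → 3 * rn y₀ ≤ 2 * (1 - ‖x‖) → ‖wn y₀ x‖ ≤ 10 * (1 - ‖x‖) →
        ‖φ x - (φ x₀ + B (zn y₀) (rn y₀) * (x - x₀))‖ ≤ CA * (1 - ‖x‖) ∧
        (∀ x' ∈ X, x ≠ x' → ‖x - x'‖ ≤ 1 - ‖x‖ → ‖sl φ x x' - B (zn y₀) (rn y₀)‖ ≤ CA) := by
  refine ⟨C' * 136, by positivity, ?_⟩
  intro X φ B hX hBs y₀ x x₀ hx hx₀ hyx₀ h1 h2 hw
  set d := 1 - ‖x‖ with hd
  have hdpos : 0 < d := by have := hX x hx; linarith
  set r₀ := rn y₀ with hr₀
  have hr₀pos : 0 < r₀ := rn_pos y₀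
  have hx1 : ‖x‖ ≤ 1 := (hX x hx).le
  have hznx : ‖zn y₀ - x‖ ≤ 10 * d := (zn_sub_le_wn hx1).trans hw
  have hnum := J19_log_num
  have hdist : ‖x - x₀‖ ≤ 17 * d := by
    have e1 : x - x₀ = (zn y₀ - x₀) - (zn y₀ - x) := by ring
    rw [e1]
    have i1 := norm_sub_le (zn y₀ - x₀) (zn y₀ - x)
    linarith
  constructor
  · by_cases hxx : x = x₀
    · subst hxx
      simp
      positivity
    · have hne : x - x₀ ≠ 0 := sub_ne_zero.2 hxx
      have e : φ x - (φ x₀ + B (zn y₀) r₀ * (x - x₀)) =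
          -((B (zn y₀) r₀ - sl φ x₀ x) * (x - x₀)) := by
        unfold sl
        field_simp
        ring
      rw [e, norm_neg, norm_mul]
      have hs := hBs x₀ hx₀ x hx (Ne.symm hxx) (zn y₀) r₀ hr₀pos
      set R := rr x₀ x with hR
      have hRd : d ≤ R := by
        rw [hR]; unfold rr; exact (le_max_right _ _).trans (le_max_right _ _)
      have hRle : R ≤ 18 * d := by
        rw [hR]; unfold rr
        have i1 : ‖x‖ - ‖x₀‖ ≤ ‖x - x₀‖ := norm_sub_norm_le x x₀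
        refine max_le (by rw [norm_sub_rev]; linarith) (max_le (by linarith) (by linarith))
      have hEE : EE (zn y₀) r₀ x₀ R ≤ Real.log 2028 := by
        refine J19_EE_le (A := 26 * d) hr₀pos (by linarith) (by linarith) ?_
        have : d / 3 * d ≤ r₀ * R := by
          apply mul_le_mul (by linarith) hRd hdpos.le hr₀pos.le
        nlinarith
      have h4 : ‖B (zn y₀) r₀ - sl φ x₀ x‖ ≤ C' * 8 :=
        hs.trans (mul_le_mul_of_nonneg_left (hEE.trans hnum.2.2) hC')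
      calc ‖B (zn y₀) r₀ - sl φ x₀ x‖ * ‖x - x₀‖ ≤ C' * 8 * (17 * d) := by gcongr
        _ = C' * 136 * d := by ring
  · intro x' hx' hne hxx'
    have hs := hBs x hx x' hx' hne (zn y₀) r₀ hr₀pos
    rw [norm_sub_rev] at hs
    refine hs.trans ?_
    set R := rr x x' with hR
    have hRd : d ≤ R := by
      rw [hR]; unfold rr; exact (le_max_left _ _).trans (le_max_right _ _)
    have hRle : R ≤ 2 * d := by
      rw [hR]; unfold rr
      have i1 : ‖x‖ - ‖x'‖ ≤ ‖x - x'‖ := norm_sub_norm_le x x'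
      refine max_le (by linarith) (max_le (by linarith) (by linarith))
    have hEE : EE (zn y₀) r₀ x R ≤ Real.log 2028 := by
      refine J19_EE_le (A := 26 * d) hr₀pos (by linarith) (by linarith) ?_
      have : d / 3 * d ≤ r₀ * R := by
        apply mul_le_mul (by linarith) hRd hdpos.le hr₀pos.le
      nlinarith
    refine mul_le_mul_of_nonneg_left ((hEE.trans hnum.2.2).trans (by norm_num)) hC'

end ZygInt.J19
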