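import Mathlib

namespace ZygInt.J12

open Complex Metric Set Filter Topology

/-- J12: bounds for the kernel `w ↦ w ^ (-(1 - σ))` slightly beyond the right half plane. -/
theorem kernel_bounds {σ : ℝ} (h0 : 0 < σ) (h1 : σ < 1) {w₀ w : ℂ} (hw₀ : w₀ ≠ 0)
    (hre : 0 ≤ w₀.re) (hw : ‖w - w₀‖ ≤ σ / 4 * ‖w₀‖) :
    w ∈ slitPlane ∧ ‖w ^ ((-(1 - σ) : ℝ) : ℂ)‖ ≤ 2 * ‖w₀‖ ^ (-(1 - σ)) ∧
      σ / 4 * ‖w₀‖ ^ (-(1 - σ)) ≤ (w ^ ((-(1 - σ) : ℝ) : ℂ)).re := by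
  have hR : 0 < ‖w₀‖ := norm_pos_iff.2 hw₀
  have hpi := Real.pi_pos
  have hr1 : (1 - σ / 4) * ‖w₀‖ ≤ ‖w‖ := by
    have h := norm_sub_norm_le w₀ w
    rw [norm_sub_rev] at h
    linarith
  have hr2 : ‖w‖ ≤ (1 + σ / 4) * ‖w₀‖ := by
    have h := norm_sub_norm_le w w₀
    linarith
  have hr1' : 3 / 4 * ‖w₀‖ ≤ ‖w‖ := by nlinarith
  have hr2' : ‖w‖ ≤ 5 / 4 * ‖w₀‖ := by nlinarith
  have hrp : 0 < ‖w‖ := by linarith
  have hw0 : w ≠ 0 := norm_pos_iff.1 hrp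
  have hrew : -(σ / 3 * ‖w‖) ≤ w.re := by
    have h2 : |(w - w₀).re| ≤ ‖w - w₀‖ := Complex.abs_re_le_norm _
    have h3 := (abs_le.1 (h2.trans hw)).1
    rw [Complex.sub_re] at h3
    nlinarith
  have hcos : -(σ / 3) ≤ Real.cos (arg w) := by
    rw [Complex.cos_arg hw0, le_div_iff₀ hrp]
    linarith
  have hθ : |arg w| ≤ Real.pi / 2 + σ * Real.pi / 4 := by
    by_contra hc
    push Not at hc
    have h2 : Real.cos |arg w| ≤ Real.cos (Real.pi / 2 + σ * Real.pi / 4) := by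
      apply Real.cos_le_cos_of_nonneg_of_le_pi
      · positivity
      · exact Complex.abs_arg_le_pi w
      · exact hc.le
    have e : Real.pi / 2 + σ * Real.pi / 4 = σ * Real.pi / 4 + Real.pi / 2 := by ring
    rw [Real.cos_abs, e, Real.cos_add_pi_div_two] at h2
    have h3 : 2 / Real.pi * (σ * Real.pi / 4) ≤ Real.sin (σ * Real.pi / 4) := by
      apply Real.mul_le_sin
      · positivity
      · nlinarith
    have e2 : 2 / Real.pi * (σ * Real.pi / 4) = σ / 2 := by field_simp; norm_num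
    rw [e2] at h3
    linarith
  have hy : -(1 - σ) ≤ 0 := by linarith
  refine ⟨?_, ?_, ?_⟩
  · rw [Complex.mem_slitPlane_iff_arg]
    refine ⟨?_, hw0⟩
    intro h
    rw [h, abs_of_pos hpi] at hθ
    nlinarith
  · rw [Complex.norm_cpow_real]
    have h2 : ‖w‖ ^ (-(1 - σ)) ≤ (3 / 4 * ‖w₀‖) ^ (-(1 - σ)) :=
      Real.rpow_le_rpow_of_nonpos (by positivity) hr1' hy
    rw [Real.mul_rpow (by norm_num) hR.le] at h2
    have h3 : (3 / 4 : ℝ) ^ (-(1 - σ)) ≤ (3 / 4 : ℝ) ^ (-1 : ℝ) :=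
      Real.rpow_le_rpow_of_exponent_ge (by norm_num) (by norm_num) (by linarith)
    have h4 : (3 / 4 : ℝ) ^ (-1 : ℝ) = 4 / 3 := by
      rw [Real.rpow_neg_one]; norm_num
    have h5 : 0 ≤ ‖w₀‖ ^ (-(1 - σ)) := by positivity
    calc ‖w‖ ^ (-(1 - σ)) ≤ (3 / 4 : ℝ) ^ (-(1 - σ)) * ‖w₀‖ ^ (-(1 - σ)) := h2
      _ ≤ 2 * ‖w₀‖ ^ (-(1 - σ)) := by
          apply mul_le_mul_of_nonneg_right _ h5
          rw [h4] at h3; linarith
  · rw [Complex.cpow_ofReal_re]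
    have h2 : (5 / 4 * ‖w₀‖) ^ (-(1 - σ)) ≤ ‖w‖ ^ (-(1 - σ)) :=
      Real.rpow_le_rpow_of_nonpos hrp hr2' hy
    rw [Real.mul_rpow (by norm_num) hR.le] at h2
    have h3 : (5 / 4 : ℝ) ^ (-1 : ℝ) ≤ (5 / 4 : ℝ) ^ (-(1 - σ)) :=
      Real.rpow_le_rpow_of_exponent_le (by norm_num) (by linarith)
    have h4 : (5 / 4 : ℝ) ^ (-1 : ℝ) = 4 / 5 := by
      rw [Real.rpow_neg_one]; norm_num
    have h5 : 0 ≤ ‖w₀‖ ^ (-(1 - σ)) := by positivity
    have h6 : 1 / 2 * ‖w₀‖ ^ (-(1 - σ)) ≤ ‖w‖ ^ (-(1 - σ)) := by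
      refine le_trans ?_ h2
      apply mul_le_mul_of_nonneg_right _ h5
      rw [h4] at h3; linarith
    have h7 : σ / 2 ≤ Real.cos (arg w * -(1 - σ)) := by
      have e : Real.cos (arg w * -(1 - σ)) = Real.cos ((1 - σ) * |arg w|) := by
        rw [← Real.cos_abs (arg w * -(1 - σ)), abs_mul, abs_neg, abs_of_pos (by linarith : 0 < 1 - σ),
          mul_comm]
      rw [e]
      have h8 : (1 - σ) * |arg w| ≤ Real.pi / 2 - σ * Real.pi / 4 := by
        calc (1 - σ) * |arg w| ≤ (1 - σ) * (Real.pi / 2 + σ * Real.pi / 4) :=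
              mul_le_mul_of_nonneg_left hθ (by linarith)
          _ = (Real.pi / 2 - σ * Real.pi / 4) - σ ^ 2 * Real.pi / 4 := by ring
          _ ≤ Real.pi / 2 - σ * Real.pi / 4 := by
              have : 0 ≤ σ ^ 2 * Real.pi / 4 := by positivity
              linarith
      have h9 : Real.cos (Real.pi / 2 - σ * Real.pi / 4) ≤ Real.cos ((1 - σ) * |arg w|) := by
        apply Real.cos_le_cos_of_nonneg_of_le_pi _ _ h8
        · have := abs_nonneg (arg w)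
          have h10 : 0 < 1 - σ := by linarith
          positivity
        · nlinarith
      rw [Real.cos_pi_div_two_sub] at h9
      have h3 : 2 / Real.pi * (σ * Real.pi / 4) ≤ Real.sin (σ * Real.pi / 4) := by
        apply Real.mul_le_sin
        · positivity
        · nlinarith
      have e2 : 2 / Real.pi * (σ * Real.pi / 4) = σ / 2 := by field_simp; norm_num
      rw [e2] at h3
      linarith
    calc σ / 4 * ‖w₀‖ ^ (-(1 - σ)) = (1 / 2 * ‖w₀‖ ^ (-(1 - σ))) * (σ / 2) := by ring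
      _ ≤ ‖w‖ ^ (-(1 - σ)) * Real.cos (arg w * -(1 - σ)) :=
          mul_le_mul h6 h7 (by positivity) (by positivity)

/-- J13a: abstract Shepard estimate. -/
theorem shepard_abstract {ι : Type*} [Fintype ι] (N : ℕ) (m : (Fin N → ι) → ι)
    (k : ι → ℂ) (A : ι → ℂ) (A₀ : ℂ) (a h g : ι → ℝ) {c₁ C₂ C₃ C₄ : ℝ}
    (ha : ∀ i, 0 ≤ a i) (hh0 : ∀ i, 0 ≤ h i) (hC₂ : 0 ≤ C₂) (hC₃ : 0 ≤ C₃) (hC₄ : 0 ≤ C₄)
    (hc₁ : 0 < c₁) (hpos : 0 < ∑ i, a i)
    (hk : ∀ i, ‖k i‖ ≤ 2 * a i) (hK : c₁ * ∑ i, a i ≤ ‖∑ i, k i‖)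
    (hA : ∀ i, ‖A i - A₀‖ ≤ C₂ * g i)
    (hm : ∀ y : Fin N → ι, g (m y) ≤ C₃ * ∏ j, h (y j))
    (hh : ∑ i, a i * h i ≤ C₄ * ∑ i, a i) :
    ‖(∑ y : Fin N → ι, A (m y) * ∏ j, k (y j)) / (∑ i, k i) ^ N - A₀‖
      ≤ C₂ * C₃ * (2 * C₄ / c₁) ^ N := by
  classical
  have hKp : 0 < ‖∑ i, k i‖ := lt_of_lt_of_le (by positivity) hK
  have hK0 : (∑ i, k i) ≠ 0 := norm_pos_iff.1 hKp
  have hKN : (∑ i, k i) ^ N ≠ 0 := pow_ne_zero _ hK0
  have hpow : (∑ i, k i) ^ N = ∑ y : Fin N → ι, ∏ j, k (y j) := Fintype.sum_pow k N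
  have e : (∑ y : Fin N → ι, A (m y) * ∏ j, k (y j)) / (∑ i, k i) ^ N - A₀ =
      (∑ y : Fin N → ι, (A (m y) - A₀) * ∏ j, k (y j)) / (∑ i, k i) ^ N := by
    rw [eq_div_iff hKN, sub_mul, div_mul_cancel₀ _ hKN, hpow, Finset.mul_sum,
      ← Finset.sum_sub_distrib]
    apply Finset.sum_congr rfl
    intro y _
    ring
  rw [e, norm_div, norm_pow, div_le_iff₀ (by positivity)]
  have h1 : ‖∑ y : Fin N → ι, (A (m y) - A₀) * ∏ j, k (y j)‖ ≤
      C₂ * C₃ * (∑ i, 2 * (a i * h i)) ^ N := by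
    rw [Fintype.sum_pow (fun i => 2 * (a i * h i)) N, Finset.mul_sum]
    refine (norm_sum_le _ _).trans (Finset.sum_le_sum fun y _ => ?_)
    rw [norm_mul]
    have h2 : ‖A (m y) - A₀‖ ≤ C₂ * (C₃ * ∏ j, h (y j)) :=
      (hA _).trans (mul_le_mul_of_nonneg_left (hm y) hC₂)
    have h3 : ‖∏ j, k (y j)‖ ≤ ∏ j, (2 * a (y j)) := by
      rw [norm_prod]
      exact Finset.prod_le_prod (fun j _ => norm_nonneg _) (fun j _ => hk _)
    have h4 : 0 ≤ C₂ * (C₃ * ∏ j, h (y j)) :=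
      mul_nonneg hC₂ (mul_nonneg hC₃ (Finset.prod_nonneg fun j _ => hh0 _))
    calc ‖A (m y) - A₀‖ * ‖∏ j, k (y j)‖ ≤ (C₂ * (C₃ * ∏ j, h (y j))) * ∏ j, (2 * a (y j)) :=
          mul_le_mul h2 h3 (norm_nonneg _) h4
      _ = C₂ * C₃ * ((∏ j, h (y j)) * ∏ j, (2 * a (y j))) := by ring
      _ = C₂ * C₃ * ∏ j, (2 * (a (y j) * h (y j))) := by
          rw [← Finset.prod_mul_distrib]
          congr 1
          apply Finset.prod_congr rfl
          intro j _; ring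
  have h5 : ∑ i, 2 * (a i * h i) ≤ 2 * C₄ / c₁ * ‖∑ i, k i‖ := by
    rw [← Finset.mul_sum]
    have h6 : (∑ i, a i) ≤ ‖∑ i, k i‖ / c₁ := by
      rw [le_div_iff₀ hc₁, mul_comm]; exact hK
    calc 2 * ∑ i, a i * h i ≤ 2 * (C₄ * ∑ i, a i) := by linarith
      _ ≤ 2 * (C₄ * (‖∑ i, k i‖ / c₁)) := by
          have := mul_le_mul_of_nonneg_left h6 hC₄
          linarith
      _ = _ := by ring
  have h7 : 0 ≤ ∑ i, 2 * (a i * h i) :=
    Finset.sum_nonneg fun i _ => by have := mul_nonneg (ha i) (hh0 i); linarith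
  calc ‖∑ y : Fin N → ι, (A (m y) - A₀) * ∏ j, k (y j)‖
      ≤ C₂ * C₃ * (∑ i, 2 * (a i * h i)) ^ N := h1
    _ ≤ C₂ * C₃ * (2 * C₄ / c₁ * ‖∑ i, k i‖) ^ N := by
        apply mul_le_mul_of_nonneg_left _ (mul_nonneg hC₂ hC₃)
        exact pow_le_pow_left₀ h7 h5 N
    _ = C₂ * C₃ * (2 * C₄ / c₁) ^ N * ‖∑ i, k i‖ ^ N := by rw [mul_pow]; ring

/-- J13b: a robust median of an `N`-tuple for a quasi-distance `dd`. -/
theorem exists_median {ι : Type*} {N : ℕ} (hN : 0 < N) (dd : ι → ι → ℝ) (y : Fin N → ι) :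
    ∃ m : Fin N, ∀ ρ : ι → ℝ, (∀ i j, ρ i ≤ dd i j + 2 * ρ j) →
      (∀ i j, dd i j ≤ 2 * ρ i + 2 * ρ j) → 0 < ρ (y m) →
      N ≤ 2 * (Finset.univ.filter fun j => ρ (y m) ≤ 6 * ρ (y j)).card := by
  classical
  have : Nonempty (Fin N) := ⟨⟨0, hN⟩⟩
  let V : Finset ℝ := Finset.univ.image (fun p : Fin N × Fin N => dd (y p.1) (y p.2))
  let P : ℝ → Prop := fun t => ∃ S : Finset (Fin N), N < 2 * S.card ∧
    ∀ i ∈ S, ∀ j ∈ S, dd (y i) (y j) ≤ t
  have hPV : ∀ S : Finset (Fin N), N < 2 * S.card → ∃ t ∈ V, P t ∧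
      ∃ i ∈ S, ∃ j ∈ S, t = dd (y i) (y j) := by
    intro S hS
    have hne : S.Nonempty := by
      rw [← Finset.card_pos]; omega
    obtain ⟨p, hp, hmax⟩ := Finset.exists_max_image (S ×ˢ S)
      (fun p : Fin N × Fin N => dd (y p.1) (y p.2)) (hne.product hne)
    rw [Finset.mem_product] at hp
    refine ⟨dd (y p.1) (y p.2), Finset.mem_image_of_mem _ (Finset.mem_univ p), ⟨S, hS, ?_⟩,
      p.1, hp.1, p.2, hp.2, rfl⟩
    intro i hi j hj
    exact hmax (i, j) (Finset.mem_product.2 ⟨hi, hj⟩)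
  have hWne : (V.filter P).Nonempty := by
    obtain ⟨t, ht, hPt, -⟩ := hPV Finset.univ (by rw [Finset.card_univ, Fintype.card_fin]; omega)
    exact ⟨t, Finset.mem_filter.2 ⟨ht, hPt⟩⟩
  obtain ⟨t, ht, hmin⟩ := Finset.exists_min_image (V.filter P) (fun x => x) hWne
  obtain ⟨-, S, hS, hSt⟩ := Finset.mem_filter.1 ht
  have hSne : S.Nonempty := by
    rw [← Finset.card_pos]; omega
  obtain ⟨m, hmS⟩ := hSne
  refine ⟨m, fun ρ h1 h2 hpos => ?_⟩
  by_contra hc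
  push Not at hc
  let G : Finset (Fin N) := Finset.univ.filter fun j => ¬ ρ (y m) ≤ 6 * ρ (y j)
  have hG : N < 2 * G.card := by
    have h3 := Finset.card_filter_add_card_filter_not (s := (Finset.univ : Finset (Fin N)))
      (fun j => ρ (y m) ≤ 6 * ρ (y j))
    rw [Finset.card_univ, Fintype.card_fin] at h3
    show N < 2 * (Finset.univ.filter fun j => ¬ ρ (y m) ≤ 6 * ρ (y j)).card
    omega
  have hGmem : ∀ j ∈ G, 6 * ρ (y j) < ρ (y m) := by
    intro j hj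
    exact not_le.1 (Finset.mem_filter.1 hj).2
  obtain ⟨t', ht', hPt', i, hi, j, hj, htij⟩ := hPV G hG
  have htt : t ≤ t' := hmin t' (Finset.mem_filter.2 ⟨ht', hPt'⟩)
  have h4 : t' < 2 / 3 * ρ (y m) := by
    rw [htij]
    have h5 := h2 (y i) (y j)
    have h6 := hGmem i hi
    have h7 := hGmem j hj
    linarith
  have hint : (S ∩ G).Nonempty := by
    apply Finset.inter_nonempty_of_card_lt_card_add_card (Finset.subset_univ S)
      (Finset.subset_univ G)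
    rw [Finset.card_univ, Fintype.card_fin]
    omega
  obtain ⟨l, hl⟩ := hint
  rw [Finset.mem_inter] at hl
  have h8 := h1 (y m) (y l)
  have h9 := hSt m hmS l hl.1
  have h10 := hGmem l hl.2
  linarith

/-- J13c: product bound at the median. -/
theorem median_product {N : ℕ} (ρ r : Fin N → ℝ) (m : Fin N) {δ α κ : ℝ} (hδ : 0 < δ)
    (hr : ∀ j, 0 < r j) (hρδ : ∀ j, δ ≤ ρ j) (hρr : ∀ j, r j ≤ ρ j) (hα : 0 < α) (hκ : 0 < κ)
    (hN : 4 ≤ α * N)
    (hcard : N ≤ 2 * (Finset.univ.filter fun j => ρ m ≤ 6 * ρ j).card) :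
    (ρ m / δ) ^ (2 : ℝ) * (ρ m / r m) ^ κ ≤ 36 * ∏ j, ((ρ j / δ) ^ α * (ρ j / r j) ^ κ) := by
  classical
  have hρ : ∀ j, 0 < ρ j := fun j => lt_of_lt_of_le hδ (hρδ j)
  have hA1 : ∀ j, 1 ≤ (ρ j / δ) ^ α := fun j =>
    Real.one_le_rpow ((one_le_div hδ).2 (hρδ j)) hα.le
  have hB1 : ∀ j, 1 ≤ (ρ j / r j) ^ κ := fun j =>
    Real.one_le_rpow ((one_le_div (hr j)).2 (hρr j)) hκ.le
  rw [Finset.prod_mul_distrib]
  have hB : (ρ m / r m) ^ κ ≤ ∏ j, (ρ j / r j) ^ κ := by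
    calc (ρ m / r m) ^ κ = ∏ j, (if j = m then (ρ m / r m) ^ κ else 1) := by
          rw [Finset.prod_ite_eq']; simp
      _ ≤ ∏ j, (ρ j / r j) ^ κ := by
          apply Finset.prod_le_prod
          · intro j _
            split_ifs
            · linarith [hB1 m]
            · exact zero_le_one
          · intro j _
            split_ifs with h
            · rw [h]
            · exact hB1 j
  have hA0 : 1 ≤ ∏ j, (ρ j / δ) ^ α := by
    calc (1 : ℝ) = ∏ _j : Fin N, (1 : ℝ) := by rw [Finset.prod_const_one]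
      _ ≤ _ := Finset.prod_le_prod (fun _ _ => zero_le_one) (fun j _ => hA1 j)
  have hA : (ρ m / δ) ^ (2 : ℝ) ≤ 36 * ∏ j, (ρ j / δ) ^ α := by
    rcases le_or_gt (ρ m) (6 * δ) with h | h
    · have h2 : ρ m / δ ≤ 6 := by rw [div_le_iff₀ hδ]; exact h
      have h3 : (ρ m / δ) ^ (2 : ℝ) ≤ (6 : ℝ) ^ (2 : ℝ) :=
        Real.rpow_le_rpow (div_nonneg (hρ m).le hδ.le) h2 (by norm_num)
      have h4 : (6 : ℝ) ^ (2 : ℝ) = 36 := by norm_num
      rw [h4] at h3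
      linarith
    · have hb : 1 ≤ ρ m / (6 * δ) := (one_le_div (by positivity)).2 h.le
      let H : Finset (Fin N) := Finset.univ.filter fun j => ρ m ≤ 6 * ρ j
      have h1 : ((ρ m / (6 * δ)) ^ α) ^ H.card ≤ ∏ j, (ρ j / δ) ^ α := by
        calc ((ρ m / (6 * δ)) ^ α) ^ H.card
            = ∏ j, (if j ∈ H then (ρ m / (6 * δ)) ^ α else 1) := by
              rw [Finset.prod_ite_mem, Finset.univ_inter, Finset.prod_const]
          _ ≤ ∏ j, (ρ j / δ) ^ α := by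
              apply Finset.prod_le_prod
              · intro j _
                split_ifs
                · exact Real.rpow_nonneg (by linarith) _
                · exact zero_le_one
              · intro j _
                split_ifs with hj
                · have hj' : ρ m ≤ 6 * ρ j := (Finset.mem_filter.1 hj).2
                  apply Real.rpow_le_rpow (by linarith) _ hα.le
                  rw [div_le_div_iff₀ (by positivity) hδ]
                  nlinarith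
                · exact hA1 j
      have h2 : ((ρ m / (6 * δ)) ^ α) ^ H.card = (ρ m / (6 * δ)) ^ (α * H.card) := by
        rw [← Real.rpow_natCast, ← Real.rpow_mul (by linarith)]
      have h3 : (2 : ℝ) ≤ α * H.card := by
        have h4 : (N : ℝ) ≤ 2 * (H.card : ℝ) := by exact_mod_cast hcard
        have h5 := mul_le_mul_of_nonneg_left h4 hα.le
        linarith
      have h4 : (ρ m / (6 * δ)) ^ (2 : ℝ) ≤ (ρ m / (6 * δ)) ^ (α * H.card) :=
        Real.rpow_le_rpow_of_exponent_le hb h3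
      have h5 : (ρ m / (6 * δ)) ^ (2 : ℝ) = (ρ m / δ) ^ (2 : ℝ) / 36 := by
        have e : ρ m / (6 * δ) = (ρ m / δ) / 6 := by field_simp
        rw [e, Real.div_rpow (div_nonneg (hρ m).le hδ.le) (by norm_num)]
        norm_num
      rw [h5] at h4
      rw [h2] at h1
      linarith
  have hBn : 0 ≤ (ρ m / r m) ^ κ := by linarith [hB1 m]
  calc (ρ m / δ) ^ (2 : ℝ) * (ρ m / r m) ^ κ
      ≤ (36 * ∏ j, (ρ j / δ) ^ α) * ∏ j, (ρ j / r j) ^ κ :=
        mul_le_mul hA hB hBn (by linarith)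
    _ = 36 * ((∏ j, (ρ j / δ) ^ α) * ∏ j, (ρ j / r j) ^ κ) := by ring

end ZygInt.J12
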