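import Mathlib
import Pool.Agent.ZygInt.Nodes

namespace ZygInt.J10

open Complex Metric Set Filter Topology

theorem exp_dist_le (a b : ℝ) : ‖exp ((a : ℂ) * I) - exp ((b : ℂ) * I)‖ ≤ |a - b| := by
  have h1 : exp ((a : ℂ) * I) - exp ((b : ℂ) * I) =
      exp ((b : ℂ) * I) * (exp (I * ((a - b : ℝ) : ℂ)) - 1) := by
    rw [mul_sub, ← exp_add, mul_one]
    congr 2
    push_cast
    ring
  rw [h1, norm_mul, Complex.norm_exp_ofReal_mul_I, one_mul, ← Real.norm_eq_abs]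
  exact Real.norm_exp_I_mul_ofReal_sub_one_le

theorem norm_zn (y : ℕ × ℕ) : ‖zn y‖ = 1 := by
  unfold zn
  exact Complex.norm_exp_ofReal_mul_I _

theorem rn_pos (y : ℕ × ℕ) : 0 < rn y := by unfold rn; positivity

theorem norm_one_sub (y : ℕ × ℕ) (z : ℂ) : ‖1 - (starRingEnd ℂ) (zn y) * z‖ = ‖zn y - z‖ := by
  have h1 : (starRingEnd ℂ) (zn y) * zn y = 1 := by
    rw [mul_comm, Complex.mul_conj, Complex.normSq_eq_norm_sq, norm_zn]
    simp
  have h2 : 1 - (starRingEnd ℂ) (zn y) * z = (starRingEnd ℂ) (zn y) * (zn y - z) := by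
    rw [mul_sub, h1]
  rw [h2, norm_mul, RCLike.norm_conj, norm_zn, one_mul]

theorem re_nonneg' (y : ℕ × ℕ) {z : ℂ} (hz : ‖z‖ ≤ 1) :
    0 ≤ (1 - (starRingEnd ℂ) (zn y) * z).re := by
  have h1 : ‖(starRingEnd ℂ) (zn y) * z‖ ≤ 1 := by
    rw [norm_mul, RCLike.norm_conj, norm_zn, one_mul]
    exact hz
  have h2 := Complex.re_le_norm ((starRingEnd ℂ) (zn y) * z)
  rw [Complex.sub_re, Complex.one_re]
  linarith

theorem wn_eq (y : ℕ × ℕ) (z : ℂ) :
    wn y z = ((rn y : ℝ) : ℂ) + (1 - (starRingEnd ℂ) (zn y) * z) := by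
  unfold wn
  ring

theorem rn_le_wn (y : ℕ × ℕ) {z : ℂ} (hz : ‖z‖ ≤ 1) : rn y ≤ ‖wn y z‖ := by
  have h1 := re_nonneg' y hz
  have h2 := Complex.re_le_norm (wn y z)
  rw [wn_eq, Complex.add_re, Complex.ofReal_re] at h2
  rw [wn_eq]
  linarith

theorem dist_le_wn (y : ℕ × ℕ) {z : ℂ} (hz : ‖z‖ ≤ 1) : ‖zn y - z‖ ≤ ‖wn y z‖ := by
  rw [← norm_one_sub, wn_eq]
  set u := 1 - (starRingEnd ℂ) (zn y) * z with hu
  have h1 : 0 ≤ u.re := re_nonneg' y hz
  have h2 := (rn_pos y).le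
  refine (pow_le_pow_iff_left₀ (norm_nonneg _) (norm_nonneg _) two_ne_zero).1 ?_
  rw [← Complex.normSq_eq_norm_sq, ← Complex.normSq_eq_norm_sq, Complex.normSq_apply,
    Complex.normSq_apply, Complex.add_re, Complex.add_im, Complex.ofReal_re, Complex.ofReal_im,
    zero_add]
  nlinarith [mul_nonneg h1 h2]

/-- descendants of the node `(j, k)` at relative depth `i` -/
def De (Y : Finset (ℕ × ℕ)) (i j k : ℕ) : Finset (ℕ × ℕ) :=
  Y.filter fun y => y.1 = j + i ∧ y.2 / 2 ^ i = k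

theorem mem_De {Y : Finset (ℕ × ℕ)} {i j k : ℕ} {y : ℕ × ℕ} :
    y ∈ De Y i j k ↔ y ∈ Y ∧ y.1 = j + i ∧ y.2 / 2 ^ i = k := by
  unfold De
  rw [Finset.mem_filter]

theorem card_De_le (Y : Finset (ℕ × ℕ)) (i j k : ℕ) : (De Y i j k).card ≤ 2 ^ i := by
  have h1 : (De Y i j k).card ≤ (Finset.Ico (k * 2 ^ i) ((k + 1) * 2 ^ i)).card := by
    refine Finset.card_le_card_of_injOn (fun y => y.2) ?_ ?_
    · intro y hy
      obtain ⟨-, -, h⟩ := mem_De.1 hy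
      have hp : 0 < 2 ^ i := by positivity
      simp only [Finset.coe_Ico, Set.mem_Ico]
      rw [← h]
      constructor
      · exact Nat.div_mul_le_self _ _
      · exact Nat.lt_mul_of_div_lt (Nat.lt_succ_self _) hp
    · intro y hy y' hy' h
      obtain ⟨-, h1, -⟩ := mem_De.1 hy
      obtain ⟨-, h2, -⟩ := mem_De.1 hy'
      exact Prod.ext (h1.trans h2.symm) h
  rw [Nat.card_Ico] at h1
  have : (k + 1) * 2 ^ i - k * 2 ^ i = 2 ^ i := by
    rw [add_mul, one_mul, Nat.add_sub_cancel_left]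
  omega

theorem De_split (Y : Finset (ℕ × ℕ)) (i l j k : ℕ) :
    (De Y (i + l) j k).card = ∑ k' ∈ Finset.Ico (k * 2 ^ l) ((k + 1) * 2 ^ l),
      (De Y i (j + l) k').card := by
  have hp : 0 < 2 ^ l := by positivity
  have h1 : ∀ y ∈ De Y (i + l) j k, y.2 / 2 ^ i ∈ Finset.Ico (k * 2 ^ l) ((k + 1) * 2 ^ l) := by
    intro y hy
    obtain ⟨-, -, h⟩ := mem_De.1 hy
    rw [pow_add, ← Nat.div_div_eq_div_mul] at h
    rw [Finset.mem_Ico, ← h]
    exact ⟨Nat.div_mul_le_self _ _, Nat.lt_mul_of_div_lt (Nat.lt_succ_self _) hp⟩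
  rw [Finset.card_eq_sum_card_fiberwise h1]
  refine Finset.sum_congr rfl fun k' hk' => ?_
  congr 1
  ext y
  rw [Finset.mem_filter, mem_De, mem_De]
  rw [Finset.mem_Ico] at hk'
  constructor
  · rintro ⟨⟨h2, h3, h4⟩, h5⟩
    exact ⟨h2, by omega, h5⟩
  · rintro ⟨h2, h3, h4⟩
    refine ⟨⟨h2, by omega, ?_⟩, h4⟩
    rw [pow_add, ← Nat.div_div_eq_div_mul, h4]
    exact Nat.div_eq_of_lt_le hk'.1 hk'.2

theorem exists_empty {c A : ℝ} (hA : 0 < A) {l : ℕ}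
    (hl : (1 / 2 : ℝ) ^ l * (A + 2 * Real.pi) < 2 * Real.pi * c) {X : Set ℂ}
    (hX : CondKWith c X) {Y : Finset (ℕ × ℕ)}
    (hY : ∀ y ∈ Y, ∃ x ∈ X, ‖zn y - x‖ ≤ A * rn y) (j k : ℕ) :
    ∃ k' ∈ Finset.Ico (k * 2 ^ l) ((k + 1) * 2 ^ l), ∀ i, De Y i (j + l) k' = ∅ := by
  have hpi := Real.pi_pos
  have hj : (0 : ℝ) < 2 ^ j := by positivity
  have hj1 : (1 : ℝ) ≤ 2 ^ j := one_le_pow₀ (by norm_num)
  have hlp : (0 : ℝ) < 2 ^ l := by positivity
  obtain ⟨θ, hθ, hdist⟩ := hX (2 * Real.pi * (k / 2 ^ j)) (2 * Real.pi * ((k + 1) / 2 ^ j))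
    (by gcongr; linarith)
    (by
      have : 2 * Real.pi * (((k : ℝ) + 1) / 2 ^ j) =
          2 * Real.pi * (k / 2 ^ j) + 2 * Real.pi * (1 / 2 ^ j) := by ring
      rw [this]
      have h1 : (1 : ℝ) / 2 ^ j ≤ 1 := by rw [div_le_one hj]; exact hj1
      nlinarith)
  set s : ℝ := θ / (2 * Real.pi) * 2 ^ (j + l) with hs
  have hs1 : (k : ℝ) * 2 ^ l ≤ s := by
    rw [hs, pow_add, div_mul_eq_mul_div, le_div_iff₀ (by positivity)]
    have := hθ.1
    rw [← mul_div_assoc, div_le_iff₀ hj] at this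
    nlinarith
  have hs2 : s ≤ ((k : ℝ) + 1) * 2 ^ l := by
    rw [hs, pow_add, div_mul_eq_mul_div, div_le_iff₀ (by positivity)]
    have := hθ.2
    rw [← mul_div_assoc, le_div_iff₀ hj] at this
    nlinarith
  have hs0 : 0 ≤ s := le_trans (by positivity) hs1
  have hp : 0 < 2 ^ l := by positivity
  -- choose the index
  obtain ⟨k', hk', hks1, hks2⟩ : ∃ k' ∈ Finset.Ico (k * 2 ^ l) ((k + 1) * 2 ^ l),
      (k' : ℝ) ≤ s ∧ s ≤ k' + 1 := by
    rcases hs2.lt_or_eq with h | h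
    · refine ⟨⌊s⌋₊, ?_, Nat.floor_le hs0, (Nat.lt_floor_add_one s).le⟩
      rw [Finset.mem_Ico]
      constructor
      · apply Nat.le_floor
        push_cast
        exact hs1
      · rw [Nat.floor_lt hs0]
        push_cast
        exact h
    · refine ⟨(k + 1) * 2 ^ l - 1, ?_, ?_, ?_⟩
      · rw [Finset.mem_Ico, add_mul, one_mul]
        constructor <;> omega
      · rw [h, Nat.cast_sub (by nlinarith)]
        push_cast
        linarith
      · rw [h, Nat.cast_sub (by nlinarith)]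
        push_cast
        linarith
  refine ⟨k', hk', fun i => ?_⟩
  rw [Finset.eq_empty_iff_forall_notMem]
  intro y hy
  obtain ⟨hyY, hy1, hy2⟩ := mem_De.1 hy
  obtain ⟨x, hx, hxd⟩ := hY y hyY
  have h1 := hdist x hx
  -- angle of y
  set u : ℝ := 2 * Real.pi * ((y.2 : ℝ) / 2 ^ y.1) with hu
  have hi : (0 : ℝ) < 2 ^ i := by positivity
  have hjl : (0 : ℝ) < 2 ^ (j + l) := by positivity
  have hy3 : (k' : ℝ) * 2 ^ i ≤ y.2 := by
    have := Nat.div_mul_le_self y.2 (2 ^ i)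
    rw [hy2] at this
    exact_mod_cast this
  have hy4 : (y.2 : ℝ) ≤ (k' + 1) * 2 ^ i := by
    have : y.2 < (y.2 / 2 ^ i + 1) * 2 ^ i := Nat.lt_mul_of_div_lt (Nat.lt_succ_self _) (by positivity)
    rw [hy2] at this
    exact_mod_cast this.le
  have hu1 : 2 * Real.pi * (k' / 2 ^ (j + l)) ≤ u := by
    rw [hu, hy1, pow_add (2 : ℝ) (j + l) i]
    gcongr 2 * Real.pi * ?_
    rw [div_le_div_iff₀ hjl (by positivity)]
    nlinarith
  have hu2 : u ≤ 2 * Real.pi * ((k' + 1) / 2 ^ (j + l)) := by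
    rw [hu, hy1, pow_add (2 : ℝ) (j + l) i]
    gcongr 2 * Real.pi * ?_
    rw [div_le_div_iff₀ (by positivity) hjl]
    nlinarith
  have hθ1 : 2 * Real.pi * (k' / 2 ^ (j + l)) ≤ θ := by
    rw [hs, div_mul_eq_mul_div, le_div_iff₀ (by positivity)] at hks1
    rw [← mul_div_assoc, div_le_iff₀ hjl]
    linarith
  have hθ2 : θ ≤ 2 * Real.pi * ((k' + 1) / 2 ^ (j + l)) := by
    rw [hs, div_mul_eq_mul_div, div_le_iff₀ (by positivity)] at hks2
    rw [← mul_div_assoc, le_div_iff₀ hjl]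
    linarith
  have hgap : 2 * Real.pi * (((k' : ℝ) + 1) / 2 ^ (j + l)) - 2 * Real.pi * (k' / 2 ^ (j + l)) =
      2 * Real.pi * ((1 / 2) ^ l * (1 / 2 ^ j)) := by
    rw [pow_add, one_div_pow]
    field_simp
    ring
  have habs : |θ - u| ≤ 2 * Real.pi * ((1 / 2) ^ l * (1 / 2 ^ j)) := by
    rw [abs_le]
    constructor <;> linarith
  have h2 : ‖exp ((θ : ℂ) * I) - zn y‖ ≤ 2 * Real.pi * ((1 / 2) ^ l * (1 / 2 ^ j)) := by
    refine le_trans ?_ habs
    unfold zn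
    exact exp_dist_le θ u
  have h3 : A * rn y ≤ A * ((1 / 2) ^ l * (1 / 2 ^ j)) := by
    unfold rn
    rw [hy1, pow_add, pow_add]
    have e1 : ((1 : ℝ) / 2) ^ i ≤ 1 := pow_le_one₀ (by norm_num) (by norm_num)
    have e2 : ((1 : ℝ) / 2) ^ j = 1 / 2 ^ j := one_div_pow _ _
    rw [e2]
    have e3 : 0 ≤ (1 / 2 ^ j : ℝ) * (1 / 2) ^ l := by positivity
    have e4 : (1 / 2 ^ j : ℝ) * (1 / 2) ^ l * (1 / 2) ^ i ≤ (1 / 2) ^ l * (1 / 2 ^ j) := by
      nlinarith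
    exact mul_le_mul_of_nonneg_left e4 hA.le
  have h4 : ‖exp ((θ : ℂ) * I) - x‖ ≤ ‖exp ((θ : ℂ) * I) - zn y‖ + ‖zn y - x‖ := by
    have := norm_add_le (exp ((θ : ℂ) * I) - zn y) (zn y - x)
    rwa [sub_add_sub_cancel] at this
  have h5 : c * (2 * Real.pi * (((k : ℝ) + 1) / 2 ^ j) - 2 * Real.pi * (k / 2 ^ j)) =
      2 * Real.pi * c * (1 / 2 ^ j) := by ring
  rw [h5] at h1
  have h6 : 2 * Real.pi * c * (1 / 2 ^ j) ≤ ((1 / 2) ^ l * (A + 2 * Real.pi)) * (1 / 2 ^ j) := by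
    calc 2 * Real.pi * c * (1 / 2 ^ j) ≤ ‖exp ((θ : ℂ) * I) - x‖ := h1
      _ ≤ 2 * Real.pi * ((1 / 2) ^ l * (1 / 2 ^ j)) + A * ((1 / 2) ^ l * (1 / 2 ^ j)) := by
          linarith
      _ = _ := by ring
  have h7 := le_of_mul_le_mul_right h6 (by positivity : (0 : ℝ) < 1 / 2 ^ j)
  linarith

theorem card_De_bound {c A : ℝ} (hA : 0 < A) {l : ℕ} (hl0 : 0 < l)
    (hl : (1 / 2 : ℝ) ^ l * (A + 2 * Real.pi) < 2 * Real.pi * c) {θ : ℝ} (hθ1 : 1 ≤ θ)
    (hθ : θ ^ l = 2 ^ l - 1) {X : Set ℂ}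
    (hX : CondKWith c X) {Y : Finset (ℕ × ℕ)}
    (hY : ∀ y ∈ Y, ∃ x ∈ X, ‖zn y - x‖ ≤ A * rn y) (i : ℕ) :
    ∀ j k : ℕ, ((De Y i j k).card : ℝ) ≤ 2 ^ l * θ ^ i := by
  induction i using Nat.strong_induction_on with
  | _ i ih =>
    intro j k
    by_cases hil : i < l
    · have h1 : ((De Y i j k).card : ℝ) ≤ 2 ^ i := by exact_mod_cast card_De_le Y i j k
      have h2 : (2 : ℝ) ^ i ≤ 2 ^ l := pow_le_pow_right₀ (by norm_num) hil.le
      have h3 : 1 ≤ θ ^ i := one_le_pow₀ hθ1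
      calc ((De Y i j k).card : ℝ) ≤ 2 ^ l * 1 := by linarith
        _ ≤ 2 ^ l * θ ^ i := by gcongr
    · push Not at hil
      obtain ⟨i', rfl⟩ := Nat.exists_eq_add_of_le' hil
      rw [De_split]
      obtain ⟨k0, hk0, hempty⟩ := exists_empty hA hl hX hY j k
      rw [← Finset.add_sum_erase _ _ hk0, hempty i', Finset.card_empty, zero_add]
      push_cast
      calc ∑ k' ∈ (Finset.Ico (k * 2 ^ l) ((k + 1) * 2 ^ l)).erase k0,
            ((De Y i' (j + l) k').card : ℝ)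
          ≤ ∑ k' ∈ (Finset.Ico (k * 2 ^ l) ((k + 1) * 2 ^ l)).erase k0, 2 ^ l * θ ^ i' :=
            Finset.sum_le_sum fun k' _ => ih i' (by omega) (j + l) k'
        _ = (2 ^ l - 1) * (2 ^ l * θ ^ i') := by
            rw [Finset.sum_const, Finset.card_erase_of_mem hk0, Nat.card_Ico, nsmul_eq_mul]
            congr 1
            have : (k + 1) * 2 ^ l - k * 2 ^ l = 2 ^ l := by
              rw [add_mul, one_mul, Nat.add_sub_cancel_left]
            rw [this, Nat.cast_sub Nat.one_le_two_pow]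
            push_cast
            rfl
        _ = 2 ^ l * θ ^ (i' + l) := by rw [← hθ, pow_add]; ring

/-- all descendants -/
def Ds (Y : Finset (ℕ × ℕ)) (j k : ℕ) : Finset (ℕ × ℕ) :=
  Y.filter fun y => j ≤ y.1 ∧ y.2 / 2 ^ (y.1 - j) = k

theorem tree_sum {c A : ℝ} (hA : 0 < A) {l : ℕ} (hl0 : 0 < l)
    (hl : (1 / 2 : ℝ) ^ l * (A + 2 * Real.pi) < 2 * Real.pi * c) {θ : ℝ} (hθ1 : 1 ≤ θ)
    (hθ : θ ^ l = 2 ^ l - 1) {κ : ℝ} (hκ0 : 0 < κ) (hκθ : κ * θ < 1) {τ₀ : ℝ}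
    (hτ : (1 / 2 : ℝ) ^ τ₀ = κ) {X : Set ℂ}
    (hX : CondKWith c X) {Y : Finset (ℕ × ℕ)}
    (hY : ∀ y ∈ Y, ∃ x ∈ X, ‖zn y - x‖ ≤ A * rn y) (j k : ℕ) :
    ∑ y ∈ Ds Y j k, rn y ^ τ₀ ≤ 2 ^ l / (1 - κ * θ) * κ ^ j := by
  classical
  have hrn : ∀ y : ℕ × ℕ, rn y ^ τ₀ = κ ^ y.1 := by
    intro y
    unfold rn
    rw [← Real.rpow_natCast, ← Real.rpow_mul (by norm_num), mul_comm, Real.rpow_mul (by norm_num),
      hτ, Real.rpow_natCast]
  set N := (Ds Y j k).sup (fun y => y.1) + 1 with hN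
  have hmaps : ∀ y ∈ Ds Y j k, y.1 - j ∈ Finset.range N := by
    intro y hy
    rw [Finset.mem_range]
    have := Finset.le_sup (f := fun y : ℕ × ℕ => y.1) hy
    have h' : y.1 ≤ (Ds Y j k).sup (fun y => y.1) := this
    omega
  rw [← Finset.sum_fiberwise_of_maps_to hmaps]
  have hθκ0 : 0 ≤ κ * θ := by positivity
  calc ∑ i ∈ Finset.range N, ∑ y ∈ (Ds Y j k).filter (fun y => y.1 - j = i), rn y ^ τ₀
      ≤ ∑ i ∈ Finset.range N, 2 ^ l * κ ^ j * (κ * θ) ^ i := by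
        refine Finset.sum_le_sum fun i _ => ?_
        have h1 : ∀ y ∈ (Ds Y j k).filter (fun y => y.1 - j = i), rn y ^ τ₀ = κ ^ (j + i) := by
          intro y hy
          rw [Finset.mem_filter] at hy
          obtain ⟨hy1, hy2⟩ := hy
          unfold Ds at hy1
          rw [Finset.mem_filter] at hy1
          rw [hrn]
          congr 1
          omega
        rw [Finset.sum_congr rfl h1, Finset.sum_const, nsmul_eq_mul]
        have h2 : (Ds Y j k).filter (fun y => y.1 - j = i) ⊆ De Y i j k := by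
          intro y hy
          rw [Finset.mem_filter] at hy
          obtain ⟨hy1, hy2⟩ := hy
          unfold Ds at hy1
          rw [Finset.mem_filter] at hy1
          obtain ⟨hy3, hy4, hy5⟩ := hy1
          rw [hy2] at hy5
          exact mem_De.2 ⟨hy3, by omega, hy5⟩
        have h3 : (((Ds Y j k).filter (fun y => y.1 - j = i)).card : ℝ) ≤ 2 ^ l * θ ^ i := by
          refine le_trans ?_ (card_De_bound hA hl0 hl hθ1 hθ hX hY i j k)
          exact_mod_cast Finset.card_le_card h2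
        calc (((Ds Y j k).filter (fun y => y.1 - j = i)).card : ℝ) * κ ^ (j + i)
            ≤ (2 ^ l * θ ^ i) * κ ^ (j + i) := by gcongr
          _ = 2 ^ l * κ ^ j * (κ * θ) ^ i := by rw [pow_add, mul_pow]; ring
    _ = 2 ^ l * κ ^ j * ∑ i ∈ Finset.range N, (κ * θ) ^ i := (Finset.mul_sum _ _ _).symm
    _ ≤ 2 ^ l * κ ^ j * (1 - κ * θ)⁻¹ := by
        gcongr
        have h1 := (summable_geometric_of_lt_one hθκ0 hκθ).sum_le_tsum (Finset.range N)
          (fun i _ => pow_nonneg hθκ0 i)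
        rwa [tsum_geometric_of_lt_one hθκ0 hκθ] at h1
    _ = _ := by ring

/-- distinct roots of unity are separated -/
theorem sep {n k k' : ℕ} (hk : k < 2 ^ n) (hk' : k' < 2 ^ n) (hne : k < k') :
    4 * (1 / 2 : ℝ) ^ n ≤ ‖zn (n, k) - zn (n, k')‖ := by
  have hpi := Real.pi_pos
  have hn : (0 : ℝ) < 2 ^ n := by positivity
  have hkr : (k : ℝ) + 1 ≤ k' := by exact_mod_cast hne
  have hkr' : (k' : ℝ) + 1 ≤ 2 ^ n := by exact_mod_cast hk'
  have hk0 : (0 : ℝ) ≤ k := by positivity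
  set u : ℝ := ((k' : ℝ) - k) / 2 ^ n with hu
  have hu1 : 1 / 2 ^ n ≤ u := by rw [hu]; gcongr; linarith
  have hu2 : u ≤ 1 - 1 / 2 ^ n := by
    rw [hu, div_le_iff₀ hn, sub_mul, one_div_mul_cancel hn.ne']
    linarith
  have h1 : ‖zn (n, k) - zn (n, k')‖ = 2 * |Real.sin (Real.pi * u)| := by
    unfold zn
    have e1 : ((2 * Real.pi * ((k : ℝ) / 2 ^ n) : ℝ) : ℂ) * I =
        ((Real.pi * ((k + k' : ℝ) / 2 ^ n) : ℝ) : ℂ) * I - ((Real.pi * u : ℝ) : ℂ) * I := by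
      rw [hu]
      push_cast
      ring
    have e2 : ((2 * Real.pi * ((k' : ℝ) / 2 ^ n) : ℝ) : ℂ) * I =
        ((Real.pi * ((k + k' : ℝ) / 2 ^ n) : ℝ) : ℂ) * I + ((Real.pi * u : ℝ) : ℂ) * I := by
      rw [hu]
      push_cast
      ring
    rw [e1, e2, exp_add, sub_eq_add_neg (((Real.pi * ((k + k' : ℝ) / 2 ^ n) : ℝ) : ℂ) * I), exp_add,
      ← mul_sub, norm_mul, Complex.norm_exp_ofReal_mul_I, one_mul]
    have e3 : exp (-(((Real.pi * u : ℝ) : ℂ) * I)) - exp (((Real.pi * u : ℝ) : ℂ) * I) =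
        -(2 * I) * ((Real.sin (Real.pi * u) : ℝ) : ℂ) := by
      rw [← neg_mul, exp_mul_I, exp_mul_I, Complex.cos_neg, Complex.sin_neg, Complex.ofReal_sin]
      ring
    rw [e3, norm_mul, norm_neg, norm_mul, Complex.norm_I, mul_one, Complex.norm_real,
      Real.norm_eq_abs]
    norm_num
  rw [h1]
  have h2 : 2 * (1 / 2 ^ n) ≤ Real.sin (Real.pi * u) := by
    rcases le_total u (1 / 2) with h | h
    · have h3 := Real.mul_le_sin (x := Real.pi * u) (by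
        have : 0 < 1 / (2 : ℝ) ^ n := by positivity
        have : 0 < u := by linarith
        positivity) (by nlinarith)
      have h4 : 2 / Real.pi * (Real.pi * u) = 2 * u := by field_simp
      rw [h4] at h3
      linarith
    · have h5 : Real.sin (Real.pi * u) = Real.sin (Real.pi * (1 - u)) := by
        rw [mul_sub, mul_one, Real.sin_pi_sub]
      have h6 : 0 < 1 / (2 : ℝ) ^ n := by positivity
      have h3 := Real.mul_le_sin (x := Real.pi * (1 - u)) (by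
        have : 0 < 1 - u := by linarith
        positivity) (by nlinarith)
      have h4 : 2 / Real.pi * (Real.pi * (1 - u)) = 2 * (1 - u) := by field_simp
      rw [h4] at h3
      rw [h5]
      linarith
  have h3 : (1 / 2 : ℝ) ^ n = 1 / 2 ^ n := one_div_pow _ _
  rw [h3]
  have := le_abs_self (Real.sin (Real.pi * u))
  linarith

theorem sep' {n k k' : ℕ} (hk : k < 2 ^ n) (hk' : k' < 2 ^ n) (hne : k ≠ k') :
    4 * (1 / 2 : ℝ) ^ n ≤ ‖zn (n, k) - zn (n, k')‖ := by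
  rcases lt_or_gt_of_ne hne with h | h
  · exact sep hk hk' h
  · rw [norm_sub_rev]
    exact sep hk' hk h

theorem card_anc (n : ℕ) (z : ℂ) :
    ((Finset.range (2 ^ n)).filter (fun k => ‖zn (n, k) - z‖ ≤ 8 * (1 / 2 : ℝ) ^ n)).card ≤ 25 := by
  classical
  set S := (Finset.range (2 ^ n)).filter (fun k => ‖zn (n, k) - z‖ ≤ 8 * (1 / 2 : ℝ) ^ n) with hS
  set s : ℝ := 4 * (1 / 2 : ℝ) ^ n with hs
  have hs0 : 0 < s := by positivity
  set φ : ℕ → ℂ := fun k => ((s⁻¹ : ℝ) : ℂ) * (zn (n, k) - z) with hφ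
  have hsep : ∀ k ∈ S, ∀ k' ∈ S, k ≠ k' → 1 ≤ ‖φ k - φ k'‖ := by
    intro k hk k' hk' hne
    rw [hS, Finset.mem_filter, Finset.mem_range] at hk hk'
    have h1 := sep' hk.1 hk'.1 hne
    have h2 : φ k - φ k' = ((s⁻¹ : ℝ) : ℂ) * (zn (n, k) - zn (n, k')) := by
      rw [hφ]; ring
    rw [h2, norm_mul, Complex.norm_real, Real.norm_of_nonneg (by positivity), ← div_eq_inv_mul,
      le_div_iff₀ hs0, one_mul]
    exact h1
  have hinj : Set.InjOn φ S := by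
    intro k hk k' hk' h
    by_contra hne
    have := hsep k hk k' hk' hne
    rw [h, sub_self, norm_zero] at this
    linarith
  have h3 := Besicovitch.card_le_of_separated (E := ℂ) (S.image φ) (by
      intro c hc
      obtain ⟨k, hk, rfl⟩ := Finset.mem_image.1 hc
      rw [hS, Finset.mem_filter] at hk
      rw [hφ]
      simp only
      rw [norm_mul, Complex.norm_real, Real.norm_of_nonneg (by positivity), ← div_eq_inv_mul,
        div_le_iff₀ hs0, hs]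
      linarith [hk.2]) (by
      intro c hc d hd hcd
      obtain ⟨k, hk, rfl⟩ := Finset.mem_image.1 hc
      obtain ⟨k', hk', rfl⟩ := Finset.mem_image.1 hd
      exact hsep k hk k' hk' (fun h => hcd (by rw [h])))
  rw [Finset.card_image_of_injOn hinj, Complex.finrank_real_complex] at h3
  exact h3

theorem ring_sum {c A : ℝ} (hA : 0 < A) {l : ℕ} (hl0 : 0 < l)
    (hl : (1 / 2 : ℝ) ^ l * (A + 2 * Real.pi) < 2 * Real.pi * c) {θ : ℝ} (hθ1 : 1 ≤ θ)
    (hθ : θ ^ l = 2 ^ l - 1) {κ : ℝ} (hκ0 : 0 < κ) (hκθ : κ * θ < 1) {τ₀ : ℝ}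
    (hτ0 : 0 < τ₀) (hτ1 : τ₀ < 1)
    (hτ : (1 / 2 : ℝ) ^ τ₀ = κ) {X : Set ℂ}
    (hX : CondKWith c X) {Y : Finset (ℕ × ℕ)} (hYk : ∀ y ∈ Y, y.2 < 2 ^ y.1)
    (hY : ∀ y ∈ Y, ∃ x ∈ X, ‖zn y - x‖ ≤ A * rn y) {z : ℂ} (hz : ‖z‖ ≤ 1) {R : ℝ} (hR : 0 < R) :
    ∑ y ∈ Y.filter (fun y => ‖wn y z‖ < R), rn y ^ τ₀ ≤
      50 * (2 ^ l / (1 - κ * θ)) * R ^ τ₀ := by
  classical
  have hB : 0 < 2 ^ l / (1 - κ * θ) := div_pos (by positivity) (by linarith)
  set B := 2 ^ l / (1 - κ * θ) with hBdef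
  have hpi := Real.pi_pos
  have hpi4 := Real.pi_lt_d2
  rcases le_or_gt 1 R with hR1 | hR1
  · have h1 : Y.filter (fun y => ‖wn y z‖ < R) ⊆ Ds Y 0 0 := by
      intro y hy
      rw [Finset.mem_filter] at hy
      unfold Ds
      rw [Finset.mem_filter]
      exact ⟨hy.1, Nat.zero_le _, Nat.div_eq_of_lt (hYk y hy.1)⟩
    have h2 := tree_sum hA hl0 hl hθ1 hθ hκ0 hκθ hτ hX hY 0 0
    rw [pow_zero, mul_one, ← hBdef] at h2
    have h3 : 1 ≤ R ^ τ₀ := Real.one_le_rpow hR1 hτ0.le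
    calc ∑ y ∈ Y.filter (fun y => ‖wn y z‖ < R), rn y ^ τ₀ ≤ ∑ y ∈ Ds Y 0 0, rn y ^ τ₀ :=
          Finset.sum_le_sum_of_subset_of_nonneg h1 fun y _ _ =>
            Real.rpow_nonneg (rn_pos y).le _
      _ ≤ B := h2
      _ ≤ 50 * B * R ^ τ₀ := by nlinarith
  · obtain ⟨n, hn1, hn2⟩ := exists_nat_pow_near_of_lt_one hR hR1.le
      (show (0 : ℝ) < 1 / 2 by norm_num) (by norm_num)
    set S := (Finset.range (2 ^ n)).filter (fun k => ‖zn (n, k) - z‖ ≤ 8 * (1 / 2 : ℝ) ^ n) with hS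
    have hdepth : ∀ y ∈ Y.filter (fun y => ‖wn y z‖ < R), n ≤ y.1 := by
      intro y hy
      rw [Finset.mem_filter] at hy
      have h1 := rn_le_wn y hz
      have h2 : ((1 : ℝ) / 2) ^ y.1 < (1 / 2) ^ n := by
        unfold rn at h1
        linarith [hy.2]
      by_contra hcon
      push Not at hcon
      have := pow_le_pow_of_le_one (show (0 : ℝ) ≤ 1 / 2 by norm_num) (by norm_num) hcon.le
      linarith
    have hmaps : ∀ y ∈ Y.filter (fun y => ‖wn y z‖ < R), y.2 / 2 ^ (y.1 - n) ∈ S := by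
      intro y hy
      have hny := hdepth y hy
      rw [Finset.mem_filter] at hy
      rw [hS, Finset.mem_filter, Finset.mem_range]
      obtain ⟨i, hi⟩ := Nat.exists_eq_add_of_le hny
      rw [hi, Nat.add_sub_cancel_left]
      have hi2 : 0 < 2 ^ i := by positivity
      set k0 := y.2 / 2 ^ i with hk0
      refine ⟨?_, ?_⟩
      · rw [hk0, Nat.div_lt_iff_lt_mul hi2, ← pow_add, ← hi]
        exact hYk y hy.1
      · have h1 : ‖zn (n, k0) - zn y‖ ≤ 2 * Real.pi * (1 / 2) ^ n := by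
          have h2 : ‖zn (n, k0) - zn y‖ ≤
              |2 * Real.pi * ((k0 : ℝ) / 2 ^ n) - 2 * Real.pi * ((y.2 : ℝ) / 2 ^ y.1)| := by
            unfold zn
            exact exp_dist_le _ _
          refine le_trans h2 ?_
          have hn0 : (0 : ℝ) < 2 ^ n := by positivity
          have hi0 : (0 : ℝ) < 2 ^ i := by positivity
          have h3 : (k0 : ℝ) * 2 ^ i ≤ y.2 := by
            have := Nat.div_mul_le_self y.2 (2 ^ i)
            rw [← hk0] at this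
            exact_mod_cast this
          have h4 : (y.2 : ℝ) ≤ (k0 + 1) * 2 ^ i := by
            have : y.2 < (y.2 / 2 ^ i + 1) * 2 ^ i :=
              Nat.lt_mul_of_div_lt (Nat.lt_succ_self _) hi2
            rw [← hk0] at this
            exact_mod_cast this.le
          have h5 : (k0 : ℝ) / 2 ^ n ≤ (y.2 : ℝ) / 2 ^ y.1 := by
            rw [hi, pow_add, div_le_div_iff₀ hn0 (by positivity)]
            nlinarith
          have h6 : (y.2 : ℝ) / 2 ^ y.1 ≤ (k0 : ℝ) / 2 ^ n + (1 / 2) ^ n := by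
            have e1 : (k0 : ℝ) / 2 ^ n + (1 / 2) ^ n = (k0 + 1) / 2 ^ n := by
              rw [one_div_pow]; ring
            rw [e1, hi, pow_add, div_le_div_iff₀ (by positivity) hn0]
            nlinarith
          rw [abs_le]
          constructor <;> nlinarith
        have h2 : ‖zn y - z‖ ≤ (1 / 2) ^ n := by
          have := dist_le_wn y hz
          linarith [hy.2]
        have h3 : ‖zn (n, k0) - z‖ ≤ ‖zn (n, k0) - zn y‖ + ‖zn y - z‖ := by
          have := norm_add_le (zn (n, k0) - zn y) (zn y - z)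
          rwa [sub_add_sub_cancel] at this
        have h4 : (0 : ℝ) < (1 / 2) ^ n := by positivity
        nlinarith
    rw [← Finset.sum_fiberwise_of_maps_to hmaps]
    have hκn : κ ^ n ≤ 2 * R ^ τ₀ := by
      have e1 : κ ^ n = ((1 / 2 : ℝ) ^ n) ^ τ₀ := by
        rw [← hτ, ← Real.rpow_natCast, ← Real.rpow_mul (by norm_num), mul_comm,
          Real.rpow_mul (by norm_num), Real.rpow_natCast]
      have e2 : (1 / 2 : ℝ) ^ n ≤ 2 * R := by
        rw [pow_succ] at hn1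
        linarith
      rw [e1]
      calc ((1 / 2 : ℝ) ^ n) ^ τ₀ ≤ (2 * R) ^ τ₀ := Real.rpow_le_rpow (by positivity) e2 hτ0.le
        _ = 2 ^ τ₀ * R ^ τ₀ := Real.mul_rpow (by norm_num) hR.le
        _ ≤ 2 * R ^ τ₀ := by
          have : (2 : ℝ) ^ τ₀ ≤ 2 ^ (1 : ℝ) := Real.rpow_le_rpow_of_exponent_le (by norm_num) hτ1.le
          rw [Real.rpow_one] at this
          have := Real.rpow_nonneg hR.le τ₀
          gcongr
    calc ∑ k0 ∈ S, ∑ y ∈ (Y.filter (fun y => ‖wn y z‖ < R)).filter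
          (fun y => y.2 / 2 ^ (y.1 - n) = k0), rn y ^ τ₀
        ≤ ∑ k0 ∈ S, B * κ ^ n := by
          refine Finset.sum_le_sum fun k0 _ => ?_
          refine le_trans (Finset.sum_le_sum_of_subset_of_nonneg ?_ fun y _ _ =>
            Real.rpow_nonneg (rn_pos y).le _) (tree_sum hA hl0 hl hθ1 hθ hκ0 hκθ hτ hX hY n k0)
          intro y hy
          rw [Finset.mem_filter] at hy
          obtain ⟨hy1, hy2⟩ := hy
          unfold Ds
          rw [Finset.mem_filter]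
          exact ⟨(Finset.mem_filter.1 hy1).1, hdepth y hy1, hy2⟩
      _ = S.card * (B * κ ^ n) := by rw [Finset.sum_const, nsmul_eq_mul]
      _ ≤ 25 * (B * κ ^ n) := by
          have : (S.card : ℝ) ≤ 25 := by exact_mod_cast card_anc n z
          gcongr
      _ ≤ 25 * (B * (2 * R ^ τ₀)) := by gcongr
      _ = 50 * B * R ^ τ₀ := by ring

/-- J10: the kernel sums over dyadic nodes near `X`. -/
theorem sum_upper (c A : ℝ) (hc : 0 < c) (hA : 0 < A) :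
    ∃ τ₀ : ℝ, 0 < τ₀ ∧ τ₀ < 1 ∧ ∀ τ : ℝ, τ₀ ≤ τ → ∀ σ : ℝ, 0 < σ → ∃ C : ℝ,
      ∀ X : Set ℂ, CondKWith c X → ∀ Y : Finset (ℕ × ℕ),
      (∀ y ∈ Y, y.2 < 2 ^ y.1 ∧ ∃ x ∈ X, ‖zn y - x‖ ≤ A * rn y) →
      ∀ z ∈ closedBall (0 : ℂ) 1, ∀ δ : ℝ, 0 < δ → (∀ y ∈ Y, δ ≤ ‖wn y z‖) →
        ∑ y ∈ Y, rn y ^ τ * ‖wn y z‖ ^ (-(τ + σ)) ≤ C * δ ^ (-σ) := by
  classical
  have hpi := Real.pi_pos
  -- the depth `l`
  obtain ⟨l0, hl0⟩ := exists_pow_lt_of_lt_one
    (show (0 : ℝ) < 2 * Real.pi * c / (A + 2 * Real.pi) by positivity)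
    (show (1 / 2 : ℝ) < 1 by norm_num)
  set l := l0 + 1 with hldef
  have hl1 : 0 < l := Nat.succ_pos _
  have hl : (1 / 2 : ℝ) ^ l * (A + 2 * Real.pi) < 2 * Real.pi * c := by
    rw [lt_div_iff₀ (by positivity)] at hl0
    have h1 : (1 / 2 : ℝ) ^ l ≤ (1 / 2) ^ l0 :=
      pow_le_pow_of_le_one (by norm_num) (by norm_num) (by omega)
    have h2 : (0 : ℝ) < A + 2 * Real.pi := by positivity
    nlinarith
  -- `θ`
  have h2l : (2 : ℝ) ≤ 2 ^ l := by
    calc (2 : ℝ) = 2 ^ 1 := (pow_one _).symm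
      _ ≤ 2 ^ l := pow_le_pow_right₀ (by norm_num) hl1
  set θ : ℝ := ((2 : ℝ) ^ l - 1) ^ ((l : ℝ)⁻¹) with hθdef
  have hθ : θ ^ l = 2 ^ l - 1 := Real.rpow_inv_natCast_pow (by linarith) hl1.ne'
  have hθ1 : 1 ≤ θ := Real.one_le_rpow (by linarith) (by positivity)
  have hθ2 : θ < 2 := by
    by_contra hcon
    push Not at hcon
    have : (2 : ℝ) ^ l ≤ θ ^ l := pow_le_pow_left₀ (by norm_num) hcon l
    linarith
  -- `κ` and `τ₀`
  set κ : ℝ := 2 / (θ + 2) with hκ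
  have hκ0 : 0 < κ := by positivity
  have hκ1 : κ < 1 := by rw [hκ, div_lt_one (by linarith)]; linarith
  have hκ2 : 1 / 2 < κ := by rw [hκ, div_lt_div_iff₀ (by norm_num) (by linarith)]; linarith
  have hκθ : κ * θ < 1 := by
    rw [hκ, div_mul_eq_mul_div, div_lt_one (by linarith)]; linarith
  set τ₀ : ℝ := Real.logb (1 / 2) κ with hτ0def
  have hτ : (1 / 2 : ℝ) ^ τ₀ = κ := Real.rpow_logb (by norm_num) (by norm_num) hκ0
  have hτ0 : 0 < τ₀ := by
    by_contra hcon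
    push Not at hcon
    have := Real.one_le_rpow_of_pos_of_le_one_of_nonpos (show (0 : ℝ) < 1 / 2 by norm_num)
      (by norm_num) hcon
    rw [hτ] at this
    linarith
  have hτ1 : τ₀ < 1 := by
    by_contra hcon
    push Not at hcon
    have := Real.rpow_le_rpow_of_exponent_ge (show (0 : ℝ) < 1 / 2 by norm_num)
      (by norm_num) hcon
    rw [hτ, Real.rpow_one] at this
    linarith
  refine ⟨τ₀, hτ0, hτ1, fun τ hττ σ hσ => ?_⟩
  set B := 2 ^ l / (1 - κ * θ) with hB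
  have hB0 : 0 < B := div_pos (by positivity) (by linarith)
  have hq0 : (0 : ℝ) < 2 ^ (-σ) := Real.rpow_pos_of_pos (by norm_num) _
  have hq1 : (2 : ℝ) ^ (-σ) < 1 := Real.rpow_lt_one_of_one_lt_of_neg (by norm_num) (by linarith)
  refine ⟨100 * B * (1 - (2 : ℝ) ^ (-σ))⁻¹, ?_⟩
  intro X hX Y hY z hz δ hδ hδw
  have hz1 : ‖z‖ ≤ 1 := by simpa using hz
  have hYk : ∀ y ∈ Y, y.2 < 2 ^ y.1 := fun y hy => (hY y hy).1
  have hYx : ∀ y ∈ Y, ∃ x ∈ X, ‖zn y - x‖ ≤ A * rn y := fun y hy => (hY y hy).2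
  have hm : ∀ y : ℕ × ℕ, ∃ m : ℕ, y ∈ Y → 2 ^ m * δ ≤ ‖wn y z‖ ∧ ‖wn y z‖ < 2 ^ (m + 1) * δ := by
    intro y
    by_cases hy : y ∈ Y
    · obtain ⟨m, hm1, hm2⟩ := exists_nat_pow_near (x := ‖wn y z‖ / δ) (y := (2 : ℝ))
        (by rw [le_div_iff₀ hδ, one_mul]; exact hδw y hy) (by norm_num)
      rw [le_div_iff₀ hδ] at hm1
      rw [div_lt_iff₀ hδ] at hm2
      exact ⟨m, fun _ => ⟨hm1, hm2⟩⟩
    · exact ⟨0, fun h => absurd h hy⟩
  choose m hm using hm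
  set N := Y.sup m + 1 with hN
  have hmaps : ∀ y ∈ Y, m y ∈ Finset.range N := by
    intro y hy
    rw [Finset.mem_range]
    have := Finset.le_sup (f := m) hy
    omega
  -- each term
  have hterm : ∀ y ∈ Y, rn y ^ τ * ‖wn y z‖ ^ (-(τ + σ)) ≤
      rn y ^ τ₀ * (2 ^ (m y) * δ) ^ (-(τ₀ + σ)) := by
    intro y hy
    have hr := rn_pos y
    have hw : 0 < ‖wn y z‖ := lt_of_lt_of_le hδ (hδw y hy)
    have hrw := rn_le_wn y hz1
    have h1 : rn y ^ τ * ‖wn y z‖ ^ (-(τ + σ)) ≤ rn y ^ τ₀ * ‖wn y z‖ ^ (-(τ₀ + σ)) := by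
      have e : ∀ t : ℝ, rn y ^ t * ‖wn y z‖ ^ (-(t + σ)) =
          (rn y / ‖wn y z‖) ^ t * ‖wn y z‖ ^ (-σ) := by
        intro t
        rw [Real.div_rpow hr.le hw.le, neg_add, Real.rpow_add hw, Real.rpow_neg hw.le t]
        ring
      rw [e, e]
      have h2 : (rn y / ‖wn y z‖) ^ τ ≤ (rn y / ‖wn y z‖) ^ τ₀ :=
        Real.rpow_le_rpow_of_exponent_ge (by positivity) (by rw [div_le_one hw]; exact hrw) hττ
      have h3 := Real.rpow_nonneg hw.le (-σ)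
      gcongr
    refine le_trans h1 ?_
    have h4 : ‖wn y z‖ ^ (-(τ₀ + σ)) ≤ (2 ^ (m y) * δ) ^ (-(τ₀ + σ)) :=
      Real.rpow_le_rpow_of_nonpos (by positivity) (hm y hy).1 (by linarith)
    have h5 := Real.rpow_nonneg hr.le τ₀
    gcongr
  calc ∑ y ∈ Y, rn y ^ τ * ‖wn y z‖ ^ (-(τ + σ))
      ≤ ∑ y ∈ Y, rn y ^ τ₀ * (2 ^ (m y) * δ) ^ (-(τ₀ + σ)) := Finset.sum_le_sum hterm
    _ = ∑ i ∈ Finset.range N, ∑ y ∈ Y.filter (fun y => m y = i),
          rn y ^ τ₀ * (2 ^ (m y) * δ) ^ (-(τ₀ + σ)) :=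
        (Finset.sum_fiberwise_of_maps_to hmaps _).symm
    _ ≤ ∑ i ∈ Finset.range N, 100 * B * δ ^ (-σ) * ((2 : ℝ) ^ (-σ)) ^ i := by
        refine Finset.sum_le_sum fun i _ => ?_
        have hp : (0 : ℝ) < 2 ^ i * δ := by positivity
        have h1 : ∑ y ∈ Y.filter (fun y => m y = i), rn y ^ τ₀ * (2 ^ (m y) * δ) ^ (-(τ₀ + σ)) =
            (∑ y ∈ Y.filter (fun y => m y = i), rn y ^ τ₀) * (2 ^ i * δ) ^ (-(τ₀ + σ)) := by
          rw [Finset.sum_mul]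
          refine Finset.sum_congr rfl fun y hy => ?_
          rw [(Finset.mem_filter.1 hy).2]
        have h2 : ∑ y ∈ Y.filter (fun y => m y = i), rn y ^ τ₀ ≤
            50 * B * (2 ^ (i + 1) * δ) ^ τ₀ := by
          refine le_trans (Finset.sum_le_sum_of_subset_of_nonneg ?_ fun y _ _ =>
            Real.rpow_nonneg (rn_pos y).le _) (ring_sum hA hl1 hl hθ1 hθ hκ0 hκθ hτ0 hτ1 hτ hX
              hYk hYx hz1 (R := 2 ^ (i + 1) * δ) (by positivity))
          intro y hy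
          rw [Finset.mem_filter] at hy ⊢
          refine ⟨hy.1, ?_⟩
          have := (hm y hy.1).2
          rwa [hy.2] at this
        have h3 : (2 ^ (i + 1) * δ) ^ τ₀ ≤ 2 * (2 ^ i * δ) ^ τ₀ := by
          have e1 : (2 : ℝ) ^ (i + 1) * δ = 2 * (2 ^ i * δ) := by rw [pow_succ]; ring
          rw [e1, Real.mul_rpow (by norm_num) hp.le]
          have h4 : (2 : ℝ) ^ τ₀ ≤ 2 ^ (1 : ℝ) :=
            Real.rpow_le_rpow_of_exponent_le (by norm_num) hτ1.le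
          rw [Real.rpow_one] at h4
          have := Real.rpow_nonneg hp.le τ₀
          gcongr
        have h5 : (2 ^ i * δ) ^ τ₀ * (2 ^ i * δ) ^ (-(τ₀ + σ)) = δ ^ (-σ) * ((2 : ℝ) ^ (-σ)) ^ i := by
          rw [← Real.rpow_add hp]
          have e1 : τ₀ + -(τ₀ + σ) = -σ := by ring
          rw [e1, Real.mul_rpow (by positivity) hδ.le, ← Real.rpow_natCast 2 i,
            ← Real.rpow_mul (by norm_num), mul_comm (i : ℝ), Real.rpow_mul (by norm_num),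
            Real.rpow_natCast]
          ring
        have h6 := Real.rpow_nonneg hp.le (-(τ₀ + σ))
        rw [h1]
        calc (∑ y ∈ Y.filter (fun y => m y = i), rn y ^ τ₀) * (2 ^ i * δ) ^ (-(τ₀ + σ))
            ≤ (50 * B * (2 * (2 ^ i * δ) ^ τ₀)) * (2 ^ i * δ) ^ (-(τ₀ + σ)) := by
              refine mul_le_mul_of_nonneg_right (le_trans h2 ?_) h6
              gcongr
          _ = 100 * B * ((2 ^ i * δ) ^ τ₀ * (2 ^ i * δ) ^ (-(τ₀ + σ))) := by ring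
          _ = 100 * B * δ ^ (-σ) * ((2 : ℝ) ^ (-σ)) ^ i := by rw [h5]; ring
    _ = 100 * B * δ ^ (-σ) * ∑ i ∈ Finset.range N, ((2 : ℝ) ^ (-σ)) ^ i :=
        (Finset.mul_sum _ _ _).symm
    _ ≤ 100 * B * δ ^ (-σ) * (1 - (2 : ℝ) ^ (-σ))⁻¹ := by
        have h1 := (summable_geometric_of_lt_one hq0.le hq1).sum_le_tsum (Finset.range N)
          (fun i _ => pow_nonneg hq0.le i)
        rw [tsum_geometric_of_lt_one hq0.le hq1] at h1
        have := Real.rpow_nonneg hδ.le (-σ)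
        gcongr
    _ = 100 * B * (1 - (2 : ℝ) ^ (-σ))⁻¹ * δ ^ (-σ) := by ring

end ZygInt.J10
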