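import Mathlib
import Pool.Agent.ZygInt.Nodes
import Pool.Agent.ZygInt.TreeSum

namespace ZygInt

open Complex Metric Set Filter Topology

/-- finite set of nodes near `X` -/
noncomputable def nodes (X : Finset ℂ) (J : ℕ) : Finset (ℕ × ℕ) := by
  classical
  exact ((Finset.range (J + 1)) ×ˢ (Finset.range (2 ^ J))).filter (NearNode X)

theorem mem_nodes {X : Finset ℂ} {J : ℕ} {y : ℕ × ℕ} :
    y ∈ nodes X J ↔ NearNode X y ∧ y.1 ≤ J := by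
  classical
  unfold nodes
  simp only [Finset.mem_filter, Finset.mem_product, Finset.mem_range]
  constructor
  · rintro ⟨⟨h1, h2⟩, h3⟩
    exact ⟨h3, by omega⟩
  · rintro ⟨h1, h2⟩
    refine ⟨⟨by omega, ?_⟩, h1⟩
    exact lt_of_lt_of_le h1.1 (Nat.pow_le_pow_right (by norm_num) h2)

noncomputable def kab (σ : ℝ) (y : ℕ × ℕ) (z₀ : ℂ) : ℝ :=
  rn y ^ (1 - 2 * σ) * ‖wn y z₀‖ ^ (-(1 - σ))

noncomputable def ker (σ : ℝ) (y : ℕ × ℕ) (z : ℂ) : ℂ :=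
  ((rn y ^ (1 - 2 * σ) : ℝ) : ℂ) * (wn y z) ^ ((-(1 - σ) : ℝ) : ℂ)

theorem kab_pos {σ : ℝ} {y : ℕ × ℕ} {z₀ : ℂ} (hz : ‖z₀‖ ≤ 1) : 0 < kab σ y z₀ :=
  mul_pos (Real.rpow_pos_of_pos (rn_pos y) _) (Real.rpow_pos_of_pos (wn_pos hz) _)

noncomputable def hfac (σ : ℝ) (X : Finset ℂ) (y : ℕ × ℕ) (z₀ : ℂ) : ℝ :=
  (‖wn y z₀‖ / (dl X z₀ / 12)) ^ (σ / 2) * (‖wn y z₀‖ / rn y) ^ (σ / 2)

/-- The package of kernel sums. -/
theorem kernel_package (c : ℝ) (hc : 0 < c) : ∃ (q : ℕ) (C₁ C₄ C₃ : ℝ), 4 ≤ q ∧ 0 ≤ C₁ ∧ 0 ≤ C₄ ∧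
    (∀ X : Set ℂ, CondKWith c X → ∀ Y : Finset (ℕ × ℕ),
      (∀ y ∈ Y, y.2 < 2 ^ y.1 ∧ ∃ x ∈ X, ‖zn y - x‖ ≤ 10 * rn y) →
      ∀ z ∈ closedBall (0 : ℂ) 1, ∀ δ : ℝ, 0 < δ → (∀ y ∈ Y, δ ≤ ‖wn y z‖) →
        ∑ y ∈ Y, rn y ^ (1 : ℝ) * ‖wn y z‖ ^ (-((1 : ℝ) + 1)) ≤ C₃ * δ ^ (-(1 : ℝ))) ∧
    ∀ X : Finset ℂ, X.Nonempty → (∀ x ∈ X, ‖x‖ < 1) → CondKWith c (X : Set ℂ) →
    ∃ Y : Finset (ℕ × ℕ), (∀ y ∈ Y, NearNode X y) ∧
      (∀ z₀ : ℂ, ‖z₀‖ ≤ 1 → ∃ y₀ ∈ Y, dl X z₀ ≤ 3 * rn y₀ ∧ 3 * rn y₀ ≤ 2 * dl X z₀ ∧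
        ‖wn y₀ z₀‖ ≤ 10 * dl X z₀) ∧
      (∀ z₀ : ℂ, ‖z₀‖ ≤ 1 → dl X z₀ ^ (-(1 / (q : ℝ))) ≤ 30 * ∑ y ∈ Y, kab (1 / q) y z₀) ∧
      (∀ z₀ : ℂ, ‖z₀‖ ≤ 1 → ∑ y ∈ Y, kab (1 / q) y z₀ ≤ C₁ * dl X z₀ ^ (-(1 / (q : ℝ)))) ∧
      (∀ z₀ : ℂ, ‖z₀‖ ≤ 1 → ∑ y ∈ Y, kab (1 / q) y z₀ * hfac (1 / q) X y z₀ ≤
        C₄ * ∑ y ∈ Y, kab (1 / q) y z₀) := by
  obtain ⟨τ₀, hτ0, hτ1, hsum⟩ := J10.sum_upper c 10 hc (by norm_num)
  -- choose q
  obtain ⟨q, hq⟩ : ∃ q : ℕ, 4 ≤ q ∧ 5 / (2 * (q : ℝ)) ≤ 1 - τ₀ := by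
    obtain ⟨n, hn⟩ := exists_nat_gt (5 / (2 * (1 - τ₀)))
    refine ⟨max 4 n, le_max_left _ _, ?_⟩
    have h1 : (n : ℝ) ≤ (max 4 n : ℕ) := by exact_mod_cast le_max_right _ _
    have h2 : 0 < 1 - τ₀ := by linarith
    have h3 : 5 / (2 * (1 - τ₀)) < (max 4 n : ℕ) := lt_of_lt_of_le hn h1
    have h4 : (0 : ℝ) < (max 4 n : ℕ) := by
      have : (4 : ℝ) ≤ (max 4 n : ℕ) := by exact_mod_cast le_max_left _ _
      linarith
    rw [div_lt_iff₀ (by positivity)] at h3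
    rw [div_le_iff₀ (by positivity)]
    nlinarith
  obtain ⟨hq4, hqτ⟩ := hq
  have hqR : (4 : ℝ) ≤ q := by exact_mod_cast hq4
  have hq0 : (0 : ℝ) < q := by linarith
  set σ : ℝ := 1 / (q : ℝ) with hσ
  have hσ0 : 0 < σ := by positivity
  have hσ4 : σ ≤ 1 / 4 := by rw [hσ]; exact one_div_le_one_div_of_le (by norm_num) hqR
  have hστ : 5 / 2 * σ ≤ 1 - τ₀ := by
    have : 5 / (2 * (q : ℝ)) = 5 / 2 * σ := by rw [hσ]; field_simp
    linarith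
  obtain ⟨C₁, hC₁⟩ := hsum (1 - 2 * σ) (by linarith) σ hσ0
  obtain ⟨C₂, hC₂⟩ := hsum (1 - 5 / 2 * σ) (by linarith) (σ / 2) (by positivity)
  obtain ⟨C₃, hC₃⟩ := hsum 1 (by linarith) 1 one_pos
  have h12 : (0 : ℝ) < 12 ^ σ := by positivity
  refine ⟨q, max C₁ 0 * 12 ^ σ, max C₂ 0 * (30 * 12 ^ σ), C₃, hq4, by positivity, by positivity,
    hC₃, ?_⟩
  intro X hne hX hK
  -- depth
  obtain ⟨tm, htm, htmX⟩ : ∃ tm : ℝ, 0 < tm ∧ ∀ x ∈ X, tm ≤ 1 - ‖x‖ := by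
    obtain ⟨x, hx, hmin⟩ := X.exists_min_image (fun x => 1 - ‖x‖) hne
    exact ⟨1 - ‖x‖, by linarith [hX x hx], hmin⟩
  obtain ⟨J, hJ⟩ : ∃ J : ℕ, (1 / 2 : ℝ) ^ J < tm / 3 :=
    exists_pow_lt_of_lt_one (by positivity) (by norm_num)
  refine ⟨nodes X J, fun y hy => (mem_nodes.1 hy).1, ?_, ?_, ?_, ?_⟩
  · intro z₀ hz₀
    obtain ⟨y, hy, h1, h2, h3⟩ := exists_node hX hne hz₀
    refine ⟨y, mem_nodes.2 ⟨hy, ?_⟩, h1, h2, h3⟩
    by_contra hcon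
    push Not at hcon
    obtain ⟨x, hx, hxd⟩ := exists_near hne z₀
    have h4 : tm ≤ dl X z₀ := by
      have := htmX x hx
      have h5 : ‖x‖ ≥ ‖z₀‖ - ‖z₀ - x‖ := by linarith [norm_sub_norm_le z₀ x]
      linarith
    have h5 : rn y ≤ (1 / 2 : ℝ) ^ J := by
      unfold rn
      exact pow_le_pow_of_le_one (by norm_num) (by norm_num) hcon.le
    linarith
  · intro z₀ hz₀
    have hd := dl_pos hX hne hz₀
    obtain ⟨y, hy, h1, h2, h3⟩ := exists_node hX hne hz₀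
    have hyJ : y ∈ nodes X J := by
      refine mem_nodes.2 ⟨hy, ?_⟩
      by_contra hcon
      push Not at hcon
      obtain ⟨x, hx, hxd⟩ := exists_near hne z₀
      have h4 : tm ≤ dl X z₀ := by
        have := htmX x hx
        have h5 : ‖x‖ ≥ ‖z₀‖ - ‖z₀ - x‖ := by linarith [norm_sub_norm_le z₀ x]
        linarith
      have h5 : rn y ≤ (1 / 2 : ℝ) ^ J := by
        unfold rn
        exact pow_le_pow_of_le_one (by norm_num) (by norm_num) hcon.le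
      linarith
    have h6 : kab σ y z₀ ≤ ∑ y ∈ nodes X J, kab σ y z₀ :=
      Finset.single_le_sum (f := fun y => kab σ y z₀) (fun y _ => (kab_pos hz₀).le) hyJ
    have h7 : dl X z₀ ^ (-σ) ≤ 30 * kab σ y z₀ := by
      unfold kab
      have e1 : (dl X z₀ / 3) ^ (1 - 2 * σ) ≤ rn y ^ (1 - 2 * σ) :=
        Real.rpow_le_rpow (by positivity) (by linarith) (by linarith)
      have e2 : (10 * dl X z₀) ^ (-(1 - σ)) ≤ ‖wn y z₀‖ ^ (-(1 - σ)) :=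
        Real.rpow_le_rpow_of_nonpos (wn_pos hz₀) h3 (by linarith)
      have e3 : (dl X z₀ / 3) ^ (1 - 2 * σ) = dl X z₀ ^ (1 - 2 * σ) * 3 ^ (-(1 - 2 * σ)) := by
        rw [Real.div_rpow hd.le (by norm_num), Real.rpow_neg (by norm_num)]; rfl
      have e4 : (10 * dl X z₀) ^ (-(1 - σ)) = 10 ^ (-(1 - σ)) * dl X z₀ ^ (-(1 - σ)) :=
        Real.mul_rpow (by norm_num) hd.le
      have e5 : (1 / 3 : ℝ) ≤ 3 ^ (-(1 - 2 * σ)) := by
        have : (1 / 3 : ℝ) = 3 ^ (-(1 : ℝ)) := by rw [Real.rpow_neg_one]; norm_num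
        rw [this]
        exact Real.rpow_le_rpow_of_exponent_le (by norm_num) (by linarith)
      have e6 : (1 / 10 : ℝ) ≤ 10 ^ (-(1 - σ)) := by
        have : (1 / 10 : ℝ) = 10 ^ (-(1 : ℝ)) := by rw [Real.rpow_neg_one]; norm_num
        rw [this]
        exact Real.rpow_le_rpow_of_exponent_le (by norm_num) (by linarith)
      have e7 : dl X z₀ ^ (-σ) = dl X z₀ ^ (1 - 2 * σ) * dl X z₀ ^ (-(1 - σ)) := by
        rw [← Real.rpow_add hd]; congr 1; ring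
      have p1 : 0 < dl X z₀ ^ (1 - 2 * σ) := Real.rpow_pos_of_pos hd _
      have p2 : 0 < dl X z₀ ^ (-(1 - σ)) := Real.rpow_pos_of_pos hd _
      have p3 : 0 ≤ (dl X z₀ / 3) ^ (1 - 2 * σ) := by positivity
      have hr := rn_pos y
      calc dl X z₀ ^ (-σ) = 30 * ((dl X z₀ ^ (1 - 2 * σ) * (1 / 3))
            * ((1 / 10) * dl X z₀ ^ (-(1 - σ)))) := by rw [e7]; ring
        _ ≤ 30 * ((dl X z₀ ^ (1 - 2 * σ) * 3 ^ (-(1 - 2 * σ)))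
            * (10 ^ (-(1 - σ)) * dl X z₀ ^ (-(1 - σ)))) := by gcongr
        _ = 30 * ((dl X z₀ / 3) ^ (1 - 2 * σ) * (10 * dl X z₀) ^ (-(1 - σ))) := by rw [e3, e4]
        _ ≤ 30 * (rn y ^ (1 - 2 * σ) * ‖wn y z₀‖ ^ (-(1 - σ))) := by gcongr
    linarith
  · intro z₀ hz₀
    have hd := dl_pos hX hne hz₀
    have h1 := hC₁ X hK (nodes X J) (fun y hy => by
      obtain ⟨h1, x, hx, h2⟩ := (mem_nodes.1 hy).1
      exact ⟨h1, x, by exact_mod_cast hx, h2⟩) z₀ (by simpa using hz₀) (dl X z₀ / 12)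
      (by positivity) (fun y hy => by
        have := dl_le_wn (mem_nodes.1 hy).1 hz₀
        linarith)
    have h2 : ∑ y ∈ nodes X J, kab σ y z₀
        = ∑ y ∈ nodes X J, rn y ^ (1 - 2 * σ) * ‖wn y z₀‖ ^ (-(1 - 2 * σ + σ)) := by
      refine Finset.sum_congr rfl fun y _ => ?_
      unfold kab
      congr 2; ring
    have h3 : (dl X z₀ / 12) ^ (-σ) = 12 ^ σ * dl X z₀ ^ (-σ) := by
      rw [Real.div_rpow hd.le (by norm_num), Real.rpow_neg (by norm_num : (0 : ℝ) ≤ 12)]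
      field_simp
    rw [h2]
    refine h1.trans ?_
    rw [h3]
    have p1 : 0 < dl X z₀ ^ (-σ) := Real.rpow_pos_of_pos hd _
    calc C₁ * (12 ^ σ * dl X z₀ ^ (-σ)) ≤ max C₁ 0 * (12 ^ σ * dl X z₀ ^ (-σ)) := by
          gcongr; exact le_max_left _ _
      _ = _ := by ring
  · intro z₀ hz₀
    have hd := dl_pos hX hne hz₀
    have h1 := hC₂ X hK (nodes X J) (fun y hy => by
      obtain ⟨h1, x, hx, h2⟩ := (mem_nodes.1 hy).1
      exact ⟨h1, x, by exact_mod_cast hx, h2⟩) z₀ (by simpa using hz₀) (dl X z₀ / 12)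
      (by positivity) (fun y hy => by
        have := dl_le_wn (mem_nodes.1 hy).1 hz₀
        linarith)
    have h2 : ∑ y ∈ nodes X J, kab σ y z₀ * hfac σ X y z₀
        = (∑ y ∈ nodes X J, rn y ^ (1 - 5 / 2 * σ) * ‖wn y z₀‖ ^ (-(1 - 5 / 2 * σ + σ / 2)))
          * (dl X z₀ / 12) ^ (-(σ / 2)) := by
      rw [Finset.sum_mul]
      refine Finset.sum_congr rfl fun y _ => ?_
      unfold kab hfac
      have hw := wn_pos (y := y) hz₀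
      have hr := rn_pos y
      have hd' : 0 < dl X z₀ / 12 := by positivity
      rw [Real.div_rpow hw.le hd'.le, Real.div_rpow hw.le hr.le, Real.rpow_neg hd'.le]
      have a1 : rn y ^ (1 - 2 * σ) = rn y ^ (1 - 5 / 2 * σ) * rn y ^ (σ / 2) := by
        rw [← Real.rpow_add hr]; congr 1; ring
      have a2 : ‖wn y z₀‖ ^ (-(1 - 5 / 2 * σ + σ / 2))
          = ‖wn y z₀‖ ^ (-(1 - σ)) * ‖wn y z₀‖ ^ (σ / 2) * ‖wn y z₀‖ ^ (σ / 2) := by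
        rw [← Real.rpow_add hw, ← Real.rpow_add hw]; congr 1; ring
      rw [a1, a2]
      have p1 : rn y ^ (σ / 2) ≠ 0 := (Real.rpow_pos_of_pos hr _).ne'
      have p2 : (dl X z₀ / 12) ^ (σ / 2) ≠ 0 := (Real.rpow_pos_of_pos hd' _).ne'
      field_simp
    rw [h2]
    have hd' : 0 < dl X z₀ / 12 := by positivity
    have p1 : 0 < (dl X z₀ / 12) ^ (-(σ / 2)) := Real.rpow_pos_of_pos hd' _
    have h3 : (dl X z₀ / 12) ^ (-(σ / 2)) * (dl X z₀ / 12) ^ (-(σ / 2))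
        = 12 ^ σ * dl X z₀ ^ (-σ) := by
      rw [← Real.rpow_add hd', show -(σ / 2) + -(σ / 2) = -σ by ring,
        Real.div_rpow hd.le (by norm_num), Real.rpow_neg (by norm_num : (0 : ℝ) ≤ 12)]
      field_simp
    -- lower bound again
    have hlow : dl X z₀ ^ (-σ) ≤ 30 * ∑ y ∈ nodes X J, kab σ y z₀ := by
      obtain ⟨y, hy, g1, g2, g3⟩ := exists_node hX hne hz₀
      have hyJ : y ∈ nodes X J := by
        refine mem_nodes.2 ⟨hy, ?_⟩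
        by_contra hcon
        push Not at hcon
        obtain ⟨x, hx, hxd⟩ := exists_near hne z₀
        have h4 : tm ≤ dl X z₀ := by
          have := htmX x hx
          have h5 : ‖x‖ ≥ ‖z₀‖ - ‖z₀ - x‖ := by linarith [norm_sub_norm_le z₀ x]
          linarith
        have h5 : rn y ≤ (1 / 2 : ℝ) ^ J := by
          unfold rn
          exact pow_le_pow_of_le_one (by norm_num) (by norm_num) hcon.le
        linarith
      have h6 : kab σ y z₀ ≤ ∑ y ∈ nodes X J, kab σ y z₀ :=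
        Finset.single_le_sum (f := fun y => kab σ y z₀) (fun y _ => (kab_pos hz₀).le) hyJ
      have h7 : dl X z₀ ^ (-σ) ≤ 30 * kab σ y z₀ := by
        unfold kab
        have e1 : (dl X z₀ / 3) ^ (1 - 2 * σ) ≤ rn y ^ (1 - 2 * σ) :=
          Real.rpow_le_rpow (by positivity) (by linarith) (by linarith)
        have e2 : (10 * dl X z₀) ^ (-(1 - σ)) ≤ ‖wn y z₀‖ ^ (-(1 - σ)) :=
          Real.rpow_le_rpow_of_nonpos (wn_pos hz₀) g3 (by linarith)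
        have e3 : (dl X z₀ / 3) ^ (1 - 2 * σ) = dl X z₀ ^ (1 - 2 * σ) * 3 ^ (-(1 - 2 * σ)) := by
          rw [Real.div_rpow hd.le (by norm_num), Real.rpow_neg (by norm_num)]; rfl
        have e4 : (10 * dl X z₀) ^ (-(1 - σ)) = 10 ^ (-(1 - σ)) * dl X z₀ ^ (-(1 - σ)) :=
          Real.mul_rpow (by norm_num) hd.le
        have e5 : (1 / 3 : ℝ) ≤ 3 ^ (-(1 - 2 * σ)) := by
          have : (1 / 3 : ℝ) = 3 ^ (-(1 : ℝ)) := by rw [Real.rpow_neg_one]; norm_num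
          rw [this]
          exact Real.rpow_le_rpow_of_exponent_le (by norm_num) (by linarith)
        have e6 : (1 / 10 : ℝ) ≤ 10 ^ (-(1 - σ)) := by
          have : (1 / 10 : ℝ) = 10 ^ (-(1 : ℝ)) := by rw [Real.rpow_neg_one]; norm_num
          rw [this]
          exact Real.rpow_le_rpow_of_exponent_le (by norm_num) (by linarith)
        have e7 : dl X z₀ ^ (-σ) = dl X z₀ ^ (1 - 2 * σ) * dl X z₀ ^ (-(1 - σ)) := by
          rw [← Real.rpow_add hd]; congr 1; ring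
        have p1 : 0 < dl X z₀ ^ (1 - 2 * σ) := Real.rpow_pos_of_pos hd _
        have p2 : 0 < dl X z₀ ^ (-(1 - σ)) := Real.rpow_pos_of_pos hd _
        have p3 : 0 ≤ (dl X z₀ / 3) ^ (1 - 2 * σ) := by positivity
        have hr := rn_pos y
        calc dl X z₀ ^ (-σ) = 30 * ((dl X z₀ ^ (1 - 2 * σ) * (1 / 3))
              * ((1 / 10) * dl X z₀ ^ (-(1 - σ)))) := by rw [e7]; ring
          _ ≤ 30 * ((dl X z₀ ^ (1 - 2 * σ) * 3 ^ (-(1 - 2 * σ)))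
              * (10 ^ (-(1 - σ)) * dl X z₀ ^ (-(1 - σ)))) := by gcongr
          _ = 30 * ((dl X z₀ / 3) ^ (1 - 2 * σ) * (10 * dl X z₀) ^ (-(1 - σ))) := by rw [e3, e4]
          _ ≤ 30 * (rn y ^ (1 - 2 * σ) * ‖wn y z₀‖ ^ (-(1 - σ))) := by gcongr
      linarith
    calc (∑ y ∈ nodes X J, rn y ^ (1 - 5 / 2 * σ) * ‖wn y z₀‖ ^ (-(1 - 5 / 2 * σ + σ / 2)))
          * (dl X z₀ / 12) ^ (-(σ / 2))
        ≤ (max C₂ 0 * (dl X z₀ / 12) ^ (-(σ / 2))) * (dl X z₀ / 12) ^ (-(σ / 2)) := by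
          gcongr
          refine h1.trans ?_
          gcongr
          exact le_max_left _ _
      _ = max C₂ 0 * (12 ^ σ * dl X z₀ ^ (-σ)) := by rw [mul_assoc, h3]
      _ ≤ max C₂ 0 * (12 ^ σ * (30 * ∑ y ∈ nodes X J, kab σ y z₀)) := by gcongr
      _ = _ := by ring

end ZygInt
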