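import Mathlib
import Pool.Agent.ZygInt.KernelPkg
import Pool.Agent.ZygInt.Kernel
import Pool.Agent.ZygInt.Consist

namespace ZygInt

open Complex Metric Set Filter Topology

theorem shepard_package (c C' : ℝ) (hc : 0 < c) (hC' : 0 ≤ C') :
    ∃ C₃ CE Cf η : ℝ, 0 < CE ∧ 0 ≤ Cf ∧ 0 < η ∧ η ≤ 1 ∧
    (∀ X : Set ℂ, CondKWith c X → ∀ Y : Finset (ℕ × ℕ),
      (∀ y ∈ Y, y.2 < 2 ^ y.1 ∧ ∃ x ∈ X, ‖zn y - x‖ ≤ 10 * rn y) →
      ∀ z ∈ closedBall (0 : ℂ) 1, ∀ δ : ℝ, 0 < δ → (∀ y ∈ Y, δ ≤ ‖wn y z‖) →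
        ∑ y ∈ Y, rn y ^ (1 : ℝ) * ‖wn y z‖ ^ (-((1 : ℝ) + 1)) ≤ C₃ * δ ^ (-(1 : ℝ))) ∧
    ∀ (X : Finset ℂ) (φ : ℂ → ℂ) (B : ℂ → ℝ → ℂ), X.Nonempty → (∀ x ∈ X, ‖x‖ < 1) →
      CondKWith c (X : Set ℂ) →
      (∀ u v : ℂ, ∀ r s : ℝ, 0 < r → 0 < s → ‖B u r - B v s‖ ≤ C' * EE u r v s) →
      (∀ a ∈ X, ∀ b ∈ X, a ≠ b → ∀ (u : ℂ) (r : ℝ), 0 < r →
        ‖B u r - sl φ a b‖ ≤ C' * EE u r a (rr a b)) →
      ∃ E f₀ : ℂ → ℂ, ∀ z₀ : ℂ, ‖z₀‖ ≤ 1 → ∃ y₀ : ℕ × ℕ, ∃ x₀ ∈ X,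
        ‖zn y₀ - x₀‖ ≤ 10 * rn y₀ ∧ dl X z₀ ≤ 3 * rn y₀ ∧ 3 * rn y₀ ≤ 2 * dl X z₀ ∧
        ‖wn y₀ z₀‖ ≤ 10 * dl X z₀ ∧
        ∀ z : ℂ, ‖z - z₀‖ ≤ η * dl X z₀ →
          DifferentiableAt ℂ E z ∧ dl X z₀ ≤ CE * ‖E z‖ ∧ ‖E z‖ ≤ CE * dl X z₀ ∧
          DifferentiableAt ℂ f₀ z ∧
          ‖f₀ z - (φ x₀ + B (zn y₀) (rn y₀) * (z - x₀))‖ ≤ Cf * dl X z₀ := by
  classical
  obtain ⟨q, C₁, C₄, C₃, hq4, hC₁, hC₄, hsum3, hpkg⟩ := kernel_package c hc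
  have hqR : (4 : ℝ) ≤ q := by exact_mod_cast hq4
  have hq0 : (0 : ℝ) < q := by linarith
  set σ : ℝ := 1 / (q : ℝ) with hσ
  have hσ0 : 0 < σ := by positivity
  have hσ4 : σ ≤ 1 / 4 := by rw [hσ]; exact one_div_le_one_div_of_le (by norm_num) hqR
  obtain ⟨CA, hCA, hcons⟩ := J19.consistency C' (σ / 2) hC' (by positivity) (by linarith)
  set N : ℕ := 8 * q with hN
  refine ⟨C₃, (120 / σ) ^ q + (2 * C₁) ^ q, CA * 36 * (2 * C₄ / (σ / 4)) ^ N, σ / 48,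
    by positivity, by positivity, by positivity, by linarith, hsum3, ?_⟩
  intro X φ B hne hX hK hB1 hB2
  obtain ⟨Y, hYnear, hYnode, hlow, hup, hmom⟩ := hpkg X hne hX hK
  -- choose points of X near the nodes
  have hex : ∀ i : {y // y ∈ Y}, ∃ x ∈ X, ‖zn i - x‖ ≤ 10 * rn i := fun i => (hYnear i i.2).2
  choose xs hxsX hxs using hex
  -- medians
  have hmed := fun y : Fin N → {y // y ∈ Y} => J12.exists_median (N := N) (by omega)
    (fun i j : {y // y ∈ Y} => rn i + rn j + ‖zn i - zn j‖) y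
  choose med hmed using hmed
  set K : ℂ → ℂ := fun z => ∑ i : {y // y ∈ Y}, ker σ i z with hKdef
  set A : {y // y ∈ Y} → ℂ → ℂ := fun i z => φ (xs i) + B (zn i) (rn i) * (z - xs i) with hA
  refine ⟨fun z => (K z ^ q)⁻¹,
    fun z => (∑ y : Fin N → {y // y ∈ Y}, A (y (med y)) z * ∏ j, ker σ (y j) z) / (K z) ^ N, ?_⟩
  intro z₀ hz₀
  have hd := dl_pos hX hne hz₀
  obtain ⟨y₀, hy₀, hn1, hn2, hn3⟩ := hYnode z₀ hz₀
  refine ⟨y₀, xs ⟨y₀, hy₀⟩, hxsX _, hxs ⟨y₀, hy₀⟩, hn1, hn2, hn3, ?_⟩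
  intro z hz
  -- kernel bounds
  have hkb : ∀ i : {y // y ∈ Y}, wn i z ∈ slitPlane ∧
      ‖(wn i z) ^ ((-(1 - σ) : ℝ) : ℂ)‖ ≤ 2 * ‖wn i z₀‖ ^ (-(1 - σ)) ∧
      σ / 4 * ‖wn i z₀‖ ^ (-(1 - σ)) ≤ ((wn i z) ^ ((-(1 - σ) : ℝ) : ℂ)).re := by
    intro i
    refine J12.kernel_bounds hσ0 (by linarith) ?_ ?_ ?_
    · intro h; have := wn_pos (y := i) hz₀; rw [h] at this; simp at this
    · exact (rn_pos _).le.trans (wn_re hz₀)
    · rw [wn_sub]
      have := dl_le_wn (hYnear i i.2) hz₀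
      calc ‖z - z₀‖ ≤ σ / 48 * dl X z₀ := hz
        _ ≤ σ / 48 * (12 * ‖wn i z₀‖) := by gcongr
        _ = σ / 4 * ‖wn i z₀‖ := by ring
  have hrp : ∀ i : {y // y ∈ Y}, 0 < rn (i : ℕ × ℕ) ^ (1 - 2 * σ) := fun i =>
    Real.rpow_pos_of_pos (rn_pos _) _
  have hkn : ∀ i : {y // y ∈ Y}, ‖ker σ i z‖ ≤ 2 * kab σ i z₀ := by
    intro i
    unfold ker kab
    rw [norm_mul, Complex.norm_real, Real.norm_of_nonneg (hrp i).le]
    have := (hkb i).2.1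
    nlinarith [hrp i]
  have hkr : ∀ i : {y // y ∈ Y}, σ / 4 * kab σ i z₀ ≤ (ker σ i z).re := by
    intro i
    unfold ker kab
    rw [Complex.re_ofReal_mul]
    have := (hkb i).2.2
    nlinarith [hrp i]
  have hkd : ∀ i : {y // y ∈ Y}, DifferentiableAt ℂ (ker σ i) z := by
    intro i
    unfold ker
    have h1 : DifferentiableAt ℂ (fun z => wn i z) z := by
      unfold wn; fun_prop
    exact (h1.cpow (differentiableAt_const _) (hkb i).1).const_mul _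
  set Ka : ℝ := ∑ i : {y // y ∈ Y}, kab σ i z₀ with hKa
  have hKaY : Ka = ∑ y ∈ Y, kab σ y z₀ := by
    rw [hKa]; exact Finset.sum_coe_sort Y (fun y => kab σ y z₀)
  have hKa0 : 0 < Ka := by
    rw [hKa]
    exact Finset.sum_pos (fun i _ => kab_pos hz₀) ⟨⟨y₀, hy₀⟩, Finset.mem_univ _⟩
  have hKge : σ / 4 * Ka ≤ ‖K z‖ := by
    calc σ / 4 * Ka = ∑ i : {y // y ∈ Y}, σ / 4 * kab σ i z₀ := by rw [hKa, Finset.mul_sum]
      _ ≤ ∑ i : {y // y ∈ Y}, (ker σ i z).re := Finset.sum_le_sum fun i _ => hkr i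
      _ = (K z).re := by rw [hKdef]; simp
      _ ≤ ‖K z‖ := Complex.re_le_norm _
  have hKle : ‖K z‖ ≤ 2 * Ka := by
    calc ‖K z‖ ≤ ∑ i : {y // y ∈ Y}, ‖ker σ i z‖ := norm_sum_le _ _
      _ ≤ ∑ i : {y // y ∈ Y}, 2 * kab σ i z₀ := Finset.sum_le_sum fun i _ => hkn i
      _ = 2 * Ka := by rw [hKa, Finset.mul_sum]
  have hKne : K z ≠ 0 := by
    intro h
    rw [h, norm_zero] at hKge
    have : 0 < σ / 4 * Ka := by positivity
    linarith
  have hKd : DifferentiableAt ℂ K z := by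
    rw [hKdef]
    exact DifferentiableAt.fun_sum fun i _ => hkd i
  have hlow' := hlow z₀ hz₀
  have hup' := hup z₀ hz₀
  have hmom' := hmom z₀ hz₀
  rw [← hKaY] at hlow' hup'
  have hdσ : 0 < dl X z₀ ^ (-(1 / (q : ℝ))) := Real.rpow_pos_of_pos hd _
  have hdq : (dl X z₀ ^ (-(1 / (q : ℝ)))) ^ q = (dl X z₀)⁻¹ := by
    rw [← Real.rpow_natCast, ← Real.rpow_mul hd.le]
    have : -(1 / (q : ℝ)) * (q : ℝ) = -1 := by field_simp
    rw [this, Real.rpow_neg_one]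
  refine ⟨?_, ?_, ?_, ?_, ?_⟩
  · exact (hKd.pow q).inv (pow_ne_zero _ hKne)
  · -- lower bound for E
    have hC₁0 : 0 < C₁ := by
      by_contra hcon
      push Not at hcon
      have : Ka ≤ 0 := hup'.trans (mul_nonpos_of_nonpos_of_nonneg hcon hdσ.le)
      linarith
    rw [norm_inv, norm_pow]
    have h1 : ‖K z‖ ^ q ≤ (2 * C₁) ^ q * (dl X z₀)⁻¹ := by
      calc ‖K z‖ ^ q ≤ (2 * (C₁ * dl X z₀ ^ (-(1 / (q : ℝ))))) ^ q := by
            gcongr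
            exact hKle.trans (by gcongr)
        _ = (2 * C₁) ^ q * (dl X z₀)⁻¹ := by rw [← mul_assoc, mul_pow, hdq]
    have h2 : 0 < ‖K z‖ ^ q := pow_pos (norm_pos_iff.2 hKne) _
    have h3 : dl X z₀ ≤ (2 * C₁) ^ q * (‖K z‖ ^ q)⁻¹ := by
      rw [← div_eq_mul_inv, le_div_iff₀ h2]
      calc dl X z₀ * ‖K z‖ ^ q ≤ dl X z₀ * ((2 * C₁) ^ q * (dl X z₀)⁻¹) := by gcongr
        _ = (2 * C₁) ^ q := by field_simp
    refine h3.trans ?_
    gcongr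
    have : (0 : ℝ) ≤ (120 / σ) ^ q := by positivity
    linarith
  · rw [norm_inv, norm_pow]
    have h1 : (σ / 120) ^ q * (dl X z₀)⁻¹ ≤ ‖K z‖ ^ q := by
      calc (σ / 120) ^ q * (dl X z₀)⁻¹ = (σ / 120 * dl X z₀ ^ (-(1 / (q : ℝ)))) ^ q := by
            rw [mul_pow, hdq]
        _ ≤ ‖K z‖ ^ q := by
            gcongr
            calc σ / 120 * dl X z₀ ^ (-(1 / (q : ℝ))) ≤ σ / 120 * (30 * Ka) := by gcongr
              _ = σ / 4 * Ka := by ring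
              _ ≤ _ := hKge
    have h2 : 0 < ‖K z‖ ^ q := pow_pos (norm_pos_iff.2 hKne) _
    have h3 : (‖K z‖ ^ q)⁻¹ ≤ (120 / σ) ^ q * dl X z₀ := by
      have h4 : 0 < (σ / 120) ^ q * (dl X z₀)⁻¹ := by positivity
      calc (‖K z‖ ^ q)⁻¹ ≤ ((σ / 120) ^ q * (dl X z₀)⁻¹)⁻¹ := inv_anti₀ h4 h1
        _ = (120 / σ) ^ q * dl X z₀ := by
            rw [mul_inv, inv_inv, ← inv_pow, inv_div]
    refine h3.trans ?_
    gcongr
    have : (0 : ℝ) ≤ (2 * C₁) ^ q := by positivity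
    linarith
  · refine DifferentiableAt.div ?_ (hKd.pow N) (pow_ne_zero _ hKne)
    refine DifferentiableAt.fun_sum fun y _ => ?_
    refine DifferentiableAt.mul ?_ ?_
    · simp only [hA]; fun_prop
    · exact DifferentiableAt.fun_finset_prod fun j _ => hkd (y j)
  · have hgoal := J12.shepard_abstract (ι := {y // y ∈ Y}) N (fun y => y (med y))
      (fun i => ker σ i z) (fun i => A i z) (A ⟨y₀, hy₀⟩ z) (fun i => kab σ i z₀)
      (fun i => hfac σ X i z₀)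
      (fun i => (‖wn i z₀‖ / (dl X z₀ / 12)) ^ (2 : ℝ) * (‖wn i z₀‖ / rn i) ^ (σ / 2))
      (c₁ := σ / 4) (C₂ := CA * dl X z₀) (C₃ := 36) (C₄ := C₄)
      (fun i => (kab_pos hz₀).le)
      (fun i => by
        unfold hfac
        have := wn_pos (y := i) hz₀
        have := rn_pos (i : ℕ × ℕ)
        positivity)
      (by positivity) (by norm_num) hC₄ (by positivity) hKa0 hkn hKge
      (fun i => by
        have := hcons X φ B hX hB1 hB2 i y₀ (xs i) (xs ⟨y₀, hy₀⟩) (hxsX i) (hxsX _) (hxs i)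
          (hxs ⟨y₀, hy₀⟩) z₀ z (dl X z₀) hz₀ hd hn1 hn2 hn3 (dl_le_wn (hYnear i i.2) hz₀)
          (hz.trans (by nlinarith))
        simpa [hA] using this)
      (fun y => by
        have h1 := hmed y (fun i => ‖wn i z₀‖) (fun i j => by
            have e1 := wn_le (y := i) (z := z₀)
            have e2 := zn_sub_le_wn (y := j) hz₀
            have e3 : ‖zn i - z₀‖ ≤ ‖zn i - zn j‖ + ‖zn j - z₀‖ := by
              calc ‖zn i - z₀‖ = ‖(zn i - zn j) + (zn j - z₀)‖ := by congr 1; ring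
                _ ≤ _ := norm_add_le _ _
            have e4 := rn_pos (j : ℕ × ℕ)
            have e5 := wn_pos (y := j) hz₀
            linarith)
          (fun i j => by
            have e1 := zn_sub_le_wn (y := i) hz₀
            have e2 := zn_sub_le_wn (y := j) hz₀
            have e3 : ‖zn i - zn j‖ ≤ ‖zn i - z₀‖ + ‖zn j - z₀‖ := by
              calc ‖zn i - zn j‖ = ‖(zn i - z₀) - (zn j - z₀)‖ := by congr 1; ring
                _ ≤ _ := norm_sub_le _ _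
            have e4 := rn_le_wn (y := i) hz₀
            have e5 := rn_le_wn (y := j) hz₀
            linarith)
          (wn_pos hz₀)
        have h2 := J12.median_product (N := N) (fun j => ‖wn (y j) z₀‖) (fun j => rn (y j)) (med y)
          (δ := dl X z₀ / 12) (α := σ / 2) (κ := σ / 2) (by positivity) (fun j => rn_pos _)
          (fun j => by
            have := dl_le_wn (hYnear (y j) (y j).2) hz₀
            linarith)
          (fun j => rn_le_wn hz₀) (by positivity) (by positivity)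
          (by
            rw [hN, hσ]; push_cast
            have : 1 / (q : ℝ) / 2 * (8 * (q : ℝ)) = 4 := by field_simp; norm_num
            rw [this])
          h1
        exact h2)
      (by
        have e1 : ∑ i : {y // y ∈ Y}, kab σ i z₀ * hfac σ X i z₀
            = ∑ y ∈ Y, kab σ y z₀ * hfac σ X y z₀ :=
          Finset.sum_coe_sort Y (fun y => kab σ y z₀ * hfac σ X y z₀)
        rw [e1, ← hKa, hKaY]
        exact hmom')
    have e2 : CA * dl X z₀ * 36 * (2 * C₄ / (σ / 4)) ^ N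
        = CA * 36 * (2 * C₄ / (σ / 4)) ^ N * dl X z₀ := by ring
    rw [e2] at hgoal
    simpa [hA, hKdef] using hgoal

end ZygInt
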