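import Mathlib
import Pool.Agent.ZygInt.Shepard
import Pool.Agent.ZygInt.McShane
import Pool.Agent.ZygInt.Carleson
import Pool.Agent.ZygInt.Blaschke
import Pool.Agent.ZygInt.Cauchy
import Pool.Agent.ZygInt.Basic

namespace ZygInt

open Complex Metric Set Filter Topology

theorem dl_le_two_mul {X : Finset ℂ} {z x : ℂ} (hx : x ∈ X) (hx1 : ‖x‖ < 1) (hz : ‖z‖ ≤ 1) :
    dl X z ≤ 2 * ‖1 - (starRingEnd ℂ) x * z‖ := by
  have h1 := dl_le (z := z) hx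
  have h2 : ‖z - x‖ ≤ ‖1 - (starRingEnd ℂ) x * z‖ := by
    rw [← Real.sqrt_sq (norm_nonneg (z - x)), ← Real.sqrt_sq (norm_nonneg (1 - _))]
    apply Real.sqrt_le_sqrt
    rw [← Complex.normSq_eq_norm_sq, ← Complex.normSq_eq_norm_sq]
    have h3 : Complex.normSq (1 - (starRingEnd ℂ) x * z) - Complex.normSq (z - x)
        = (1 - Complex.normSq x) * (1 - Complex.normSq z) := by
      simp only [Complex.normSq_apply, Complex.sub_re, Complex.sub_im, Complex.one_re,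
        Complex.one_im, Complex.mul_re, Complex.mul_im, Complex.conj_re, Complex.conj_im]
      ring
    have h4 : 0 ≤ (1 - Complex.normSq x) * (1 - Complex.normSq z) := by
      rw [Complex.normSq_eq_norm_sq, Complex.normSq_eq_norm_sq]
      have := norm_nonneg x
      have := norm_nonneg z
      exact mul_nonneg (by nlinarith) (by nlinarith)
    linarith
  have h3 : 1 - ‖z‖ ≤ ‖1 - (starRingEnd ℂ) x * z‖ := by
    have := norm_sub_norm_le (1 : ℂ) ((starRingEnd ℂ) x * z)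
    rw [norm_mul, RCLike.norm_conj, norm_one] at this
    nlinarith [norm_nonneg x, norm_nonneg z]
  linarith

/-- splitting of `X` into two separated sets -/
theorem split_separated {X : Finset ℂ} {c : ℝ} (hc : 0 < c) (hX : ∀ x ∈ X, ‖x‖ < 1)
    (hsep : ∀ a ∈ X, ∀ b ∈ X, ∀ d ∈ X, a ≠ b → a ≠ d → b ≠ d →
        c * (1 - ‖a‖) ≤ max ‖a - b‖ ‖a - d‖) :
    ∃ S₁ S₂ : Finset ℂ, S₁ ⊆ X ∧ S₂ ⊆ X ∧ (∀ x ∈ X, x ∈ S₁ ∨ x ∈ S₂) ∧ (∀ x ∈ S₂, x ∉ S₁) ∧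
      (∀ x ∈ S₁, ∀ x' ∈ S₁, x ≠ x' → min c 1 / 2 * (1 - ‖x‖) ≤ ‖x - x'‖) ∧
      (∀ x ∈ S₂, ∀ x' ∈ S₂, x ≠ x' → min c 1 / 2 * (1 - ‖x‖) ≤ ‖x - x'‖) ∧
      (∀ x' ∈ S₂, ∀ y ∈ S₁, ‖x' - y‖ < min c 1 / 2 * (1 - ‖x'‖) →
        ∀ x ∈ S₁, x ≠ y → min c 1 / 2 * (1 - ‖x'‖) ≤ ‖x' - x‖) := by
  classical
  set c₃ := min c 1 / 2 with hc₃
  have hc₃0 : 0 < c₃ := by rw [hc₃]; positivity
  have hc₃h : c₃ ≤ 1 / 2 := by rw [hc₃]; linarith [min_le_right c 1]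
  have hc₃c : 2 * c₃ ≤ c := by rw [hc₃]; linarith [min_le_left c 1]
  set P : ℂ → ℂ → Prop := fun x x' => x ≠ x' ∧ ‖x - x'‖ < c₃ * max (1 - ‖x‖) (1 - ‖x'‖) with hP
  have hPsymm : ∀ x x', P x x' → P x' x := by
    rintro x x' ⟨h1, h2⟩
    exact ⟨h1.symm, by rw [norm_sub_rev, max_comm]; exact h2⟩
  have hPlt : ∀ x ∈ X, ∀ x' ∈ X, P x x' → ‖x - x'‖ < c * (1 - ‖x‖) := by
    rintro x hx x' hx' ⟨h1, h2⟩
    have hx1 := hX x hx
    have h3 : 1 - ‖x'‖ ≤ (1 - ‖x‖) + ‖x - x'‖ := by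
      have := norm_sub_norm_le x x'; linarith
    have h4 : max (1 - ‖x‖) (1 - ‖x'‖) ≤ (1 - ‖x‖) + ‖x - x'‖ :=
      max_le (by linarith [norm_nonneg (x - x')]) h3
    have h5 : ‖x - x'‖ < c₃ * ((1 - ‖x‖) + ‖x - x'‖) := h2.trans_le (by gcongr)
    have h6 : c₃ * ‖x - x'‖ ≤ 1 / 2 * ‖x - x'‖ := by gcongr
    nlinarith
  have huniq : ∀ x ∈ X, ∀ x' ∈ X, ∀ x'' ∈ X, P x x' → P x x'' → x' = x'' := by
    intro x hx x' hx' x'' hx'' h1 h2
    by_contra hne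
    have h3 := hsep x hx x' hx' x'' hx'' h1.1 h2.1 hne
    have h4 := hPlt x hx x' hx' h1
    have h5 := hPlt x hx x'' hx'' h2
    have h6 : max ‖x - x'‖ ‖x - x''‖ < c * (1 - ‖x‖) := max_lt h4 h5
    linarith
  set S₂ := X.filter (fun x => ∃ x' ∈ X, P x x' ∧ WellOrderingRel x' x) with hS₂
  refine ⟨X \ S₂, S₂, Finset.sdiff_subset, Finset.filter_subset _ _, ?_, ?_, ?_, ?_, ?_⟩
  · intro x hx
    by_cases h : x ∈ S₂
    · exact Or.inr h
    · exact Or.inl (Finset.mem_sdiff.2 ⟨hx, h⟩)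
  · intro x hx h
    exact (Finset.mem_sdiff.1 h).2 hx
  · intro x hx x' hx' hne
    by_contra hcon
    push Not at hcon
    rw [Finset.mem_sdiff] at hx hx'
    have hPP : P x x' := ⟨hne, hcon.trans_le (by gcongr; exact le_max_left _ _)⟩
    rcases trichotomous_of WellOrderingRel x x' with h | h | h
    · exact hx'.2 (Finset.mem_filter.2 ⟨hx'.1, x, hx.1, hPsymm _ _ hPP, h⟩)
    · exact hne h
    · exact hx.2 (Finset.mem_filter.2 ⟨hx.1, x', hx'.1, hPP, h⟩)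
  · intro x hx x' hx' hne
    by_contra hcon
    push Not at hcon
    rw [hS₂, Finset.mem_filter] at hx hx'
    obtain ⟨hxX, y, hy, hPy, hry⟩ := hx
    obtain ⟨hxX', y', hy', hPy', hry'⟩ := hx'
    have hPP : P x x' := ⟨hne, hcon.trans_le (by gcongr; exact le_max_left _ _)⟩
    have e1 := huniq x hxX y hy x' hxX' hPy hPP
    have e2 := huniq x' hxX' y' hy' x hxX hPy' (hPsymm _ _ hPP)
    subst e1; subst e2
    exact asymm_of WellOrderingRel hry hry'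
  · intro x' hx' y hy hlt x hx hxy
    by_contra hcon
    push Not at hcon
    have hx'X := (Finset.mem_filter.1 hx').1
    have hne1 : x' ≠ y := fun h => (Finset.mem_sdiff.1 hy).2 (h ▸ hx')
    have hne2 : x' ≠ x := fun h => (Finset.mem_sdiff.1 hx).2 (h ▸ hx')
    have hP1 : P x' y := ⟨hne1, hlt.trans_le (by gcongr; exact le_max_left _ _)⟩
    have hP2 : P x' x := ⟨hne2, hcon.trans_le (by gcongr; exact le_max_left _ _)⟩
    exact hxy (huniq x' hx'X x (Finset.mem_sdiff.1 hx).1 y (Finset.mem_sdiff.1 hy).1 hP2 hP1)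


theorem finite_interp : ∀ c C : ℝ, 0 < c → 0 ≤ C → ∃ M : ℝ, 0 ≤ M ∧
    ∀ (X : Finset ℂ) (ψ : ℂ → ℂ), X.Nonempty →
      (∀ x ∈ X, ‖x‖ < 1) → CondKWith c (X : Set ℂ) →
      (∀ a ∈ X, ∀ b ∈ X, ∀ d ∈ X, a ≠ b → a ≠ d → b ≠ d →
        c * (1 - ‖a‖) ≤ max ‖a - b‖ ‖a - d‖) →
      (∀ x ∈ X, ‖ψ x‖ ≤ C) →
      (∀ a ∈ X, ∀ b ∈ X, a ≠ b → ‖sl ψ a b‖ ≤ C * (1 + Real.log (2 / rr a b))) →
      (∀ a ∈ X, ∀ b ∈ X, ∀ d ∈ X, a ≠ b → a ≠ d → b ≠ d →
        ‖sl ψ a b - sl ψ a d‖ ≤ C * (1 + |Real.log (rr a b / rr a d)|)) →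
      ∃ f D : ℂ → ℂ, ZClass M f D ∧ ‖f 0‖ ≤ M ∧ ‖D 0‖ ≤ M ∧ ∀ x ∈ X, f x = ψ x := by
  intro c C hc hC
  obtain ⟨C', hC', hslopes⟩ := J14.slopes_exist C hC
  obtain ⟨C₃, CE, Cf, η, hCE, hCf, hη, hη1, hsum3, hshep⟩ := shepard_package c C' hc hC'
  obtain ⟨CA, hCA, herr⟩ := J19.error_at C' hC'
  set c₃ := min c 1 / 2 with hc₃
  have hc₃0 : 0 < c₃ := by rw [hc₃]; positivity
  have hc₃h : c₃ ≤ 1 / 2 := by rw [hc₃]; linarith [min_le_right c 1]
  obtain ⟨Cs, hCs, hcarl⟩ := J18.carleson_sum c c₃ C₃ hc hc₃0 hsum3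
  obtain ⟨CB, ηB, hCB, hηB, hbl⟩ := J15.blaschke_bounds c₃ Cs hc₃0 hCs
  obtain ⟨CF, ηF, hCF, hηF, hcorr⟩ := J15.corrections c₃ Cs CE η hc₃0 hCs hCE hη
  set η' := min η (min ηB ηF) with hη'
  have hη'0 : 0 < η' := lt_min hη (lt_min hηB hηF)
  have hη'η : η' ≤ η := min_le_left _ _
  have hη'B : η' ≤ ηB := (min_le_right _ _).trans (min_le_left _ _)
  have hη'F : η' ≤ ηF := (min_le_right _ _).trans (min_le_right _ _)
  -- constants
  set Ce := CA + Cf + 1 with hCe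
  have hCe0 : 0 < Ce := by rw [hCe]; linarith
  set CL := CA + 2 * Cf / η + Ce * (4 / η + 1) with hCL
  have hCL0 : 0 ≤ CL := by rw [hCL]; positivity
  set C₂ := CB * (Ce + Ce * CF) + (CL + Ce * CF / η') * (2 * CB) + 1 with hC₂
  have hC₂0 : 0 < C₂ := by rw [hC₂]; positivity
  set CT := Cf + Ce * CF + C₂ * CB * CF with hCT
  have hCT0 : 0 ≤ CT := by rw [hCT]; positivity
  refine ⟨4 * CT / η' ^ 2 + (2 * CT + C + 4 * C') + (CT / η' + 4 * C'), by positivity, ?_⟩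
  intro X ψ hne hX hK hsep hψ hpair hWT
  obtain ⟨B, hB1, hB2, hB3⟩ := hslopes X ψ hX hpair hWT
  obtain ⟨E, f₀, hf₀⟩ := hshep X ψ B hne hX hK hB1 hB2
  obtain ⟨S₁, S₂, hS₁X, hS₂X, hcov, hdisj, hsep1, hsep2, hsep3⟩ := split_separated hc hX hsep
  -- basic facts on δ
  have hδ : ∀ z ∈ closedBall (0 : ℂ) 1, 0 < dl X z ∧ 1 - ‖z‖ ≤ dl X z := fun z hz =>
    ⟨dl_pos hX hne (by simpa using hz), dl_ge⟩
  have hδ2 : ∀ S ⊆ X, ∀ z ∈ closedBall (0 : ℂ) 1, ∀ x ∈ S,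
      dl X z ≤ 2 * ‖1 - (starRingEnd ℂ) x * z‖ := fun S hS z hz x hx =>
    dl_le_two_mul (hS hx) (hX x (hS hx)) (by simpa using hz)
  have hδ3 : ∀ S ⊆ X, ∀ x ∈ S, dl X x ≤ 2 * (1 - ‖x‖) := fun S hS x hx => by
    rw [dl_mem (hS hx)]; linarith [hX x (hS hx)]
  have hE : ∀ z₀ ∈ closedBall (0 : ℂ) 1, ∀ z, ‖z - z₀‖ ≤ η * dl X z₀ →
      DifferentiableAt ℂ E z ∧ dl X z₀ ≤ CE * ‖E z‖ ∧ ‖E z‖ ≤ CE * dl X z₀ := by
    intro z₀ hz₀ z hz
    obtain ⟨y₀, x₀, hx₀, -, -, -, -, h⟩ := hf₀ z₀ (by simpa using hz₀)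
    exact ⟨(h z hz).1, (h z hz).2.1, (h z hz).2.2.1⟩
  -- error function
  set e : ℂ → ℂ := fun x => ψ x - f₀ x with he
  have he1 : ∀ x ∈ X, ‖e x‖ ≤ Ce * (1 - ‖x‖) := by
    intro x hx
    have hx1 := hX x hx
    obtain ⟨y₀, x₀, hx₀, hn0, hn1, hn2, hn3, h⟩ := hf₀ x hx1.le
    have hdx : dl X x = 1 - ‖x‖ := dl_mem hx
    rw [hdx] at hn1 hn2 hn3 h
    have h1 := (herr X ψ B hX hB2 y₀ x x₀ hx hx₀ hn0 hn1 hn2 hn3).1
    have h2 := (h x (by simp; nlinarith)).2.2.2.2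
    calc ‖e x‖ = ‖(ψ x - (ψ x₀ + B (zn y₀) (rn y₀) * (x - x₀)))
          - (f₀ x - (ψ x₀ + B (zn y₀) (rn y₀) * (x - x₀)))‖ := by rw [he]; congr 1; ring
      _ ≤ CA * (1 - ‖x‖) + Cf * (1 - ‖x‖) := (norm_sub_le _ _).trans (by gcongr)
      _ ≤ Ce * (1 - ‖x‖) := by rw [hCe]; nlinarith
  have he2 : ∀ x ∈ X, ∀ x' ∈ X, ‖e x' - e x‖ ≤ CL * ‖x' - x‖ := by
    intro x hx x' hx'
    rcases eq_or_ne x x' with rfl | hne'
    · simp
    have hx1 := hX x hx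
    have ht0 : 0 < 1 - ‖x‖ := by linarith
    have hdx : dl X x = 1 - ‖x‖ := dl_mem hx
    rcases le_or_gt ‖x' - x‖ (η * (1 - ‖x‖) / 2) with hcase | hcase
    · obtain ⟨y₀, x₀, hx₀, hn0, hn1, hn2, hn3, h⟩ := hf₀ x hx1.le
      rw [hdx] at hn1 hn2 hn3 h
      have h1 := (herr X ψ B hX hB2 y₀ x x₀ hx hx₀ hn0 hn1 hn2 hn3).2 x' hx' hne' (by
        rw [norm_sub_rev]; nlinarith)
      set g : ℂ → ℂ := fun z => f₀ z - (ψ x₀ + B (zn y₀) (rn y₀) * (z - x₀)) with hg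
      have hgd : ∀ z, ‖z - x‖ ≤ η * (1 - ‖x‖) → DifferentiableAt ℂ g z := by
        intro z hz
        have := (h z hz).2.2.2.1
        rw [hg]; fun_prop
      have hgb : ∀ z, ‖z - x‖ ≤ η * (1 - ‖x‖) → ‖g z‖ ≤ Cf * (1 - ‖x‖) := fun z hz =>
        (h z hz).2.2.2.2
      have h2 := lip_of_bound (by positivity) hgd hgb hcase
      have h3 : 2 * (Cf * (1 - ‖x‖)) / (η * (1 - ‖x‖)) = 2 * Cf / η := by field_simp
      rw [h3] at h2
      have hxx : x' - x ≠ 0 := sub_ne_zero.2 hne'.symm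
      have h4 : e x' - e x = (sl ψ x x' - B (zn y₀) (rn y₀)) * (x' - x) - (g x' - g x) := by
        rw [he, hg, sl]; field_simp; ring
      rw [h4]
      calc ‖(sl ψ x x' - B (zn y₀) (rn y₀)) * (x' - x) - (g x' - g x)‖
          ≤ ‖sl ψ x x' - B (zn y₀) (rn y₀)‖ * ‖x' - x‖ + ‖g x' - g x‖ := by
            refine (norm_sub_le _ _).trans ?_
            rw [norm_mul]
        _ ≤ CA * ‖x' - x‖ + 2 * Cf / η * ‖x' - x‖ := by gcongr
        _ ≤ CL * ‖x' - x‖ := by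
            rw [hCL]
            have : 0 ≤ Ce * (4 / η + 1) * ‖x' - x‖ := by positivity
            nlinarith
    · have h1 := he1 x hx
      have h2 := he1 x' hx'
      have h3 : 1 - ‖x'‖ ≤ (1 - ‖x‖) + ‖x' - x‖ := by
        have := norm_sub_norm_le x x'
        rw [norm_sub_rev] at this
        linarith
      have h4 : 1 - ‖x‖ ≤ 2 / η * ‖x' - x‖ := by
        rw [div_mul_eq_mul_div, le_div_iff₀ hη]
        nlinarith
      calc ‖e x' - e x‖ ≤ ‖e x'‖ + ‖e x‖ := norm_sub_le _ _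
        _ ≤ Ce * (1 - ‖x'‖) + Ce * (1 - ‖x‖) := by gcongr
        _ ≤ Ce * ((1 - ‖x‖) + ‖x' - x‖) + Ce * (1 - ‖x‖) := by gcongr
        _ = Ce * (2 * (1 - ‖x‖) + ‖x' - x‖) := by ring
        _ ≤ Ce * (2 * (2 / η * ‖x' - x‖) + ‖x' - x‖) := by gcongr
        _ = Ce * (4 / η + 1) * ‖x' - x‖ := by ring
        _ ≤ CL * ‖x' - x‖ := by
            rw [hCL]
            have : 0 ≤ (CA + 2 * Cf / η) * ‖x' - x‖ := by positivity
            nlinarith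
  -- first correction
  obtain ⟨F₁, hF₁, hF₁e⟩ := hcorr S₁ (dl X) E (fun x hx => hX x (hS₁X hx)) hδ (hδ3 S₁ hS₁X)
    (hδ2 S₁ hS₁X) (hcarl X S₁ hX hK hS₁X hsep1) hsep1 hE (fun x => e x / Ce) (by
      intro x hx
      rw [norm_div, Complex.norm_real, Real.norm_of_nonneg hCe0.le, div_le_iff₀ hCe0]
      rw [mul_comm]
      exact he1 x (hS₁X hx))
  set f₁ : ℂ → ℂ := fun z => Ce * F₁ z with hf₁
  have hCeC : (Ce : ℂ) ≠ 0 := by exact_mod_cast hCe0.ne'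
  have hf₁e : ∀ x ∈ S₁, f₁ x = e x := by
    intro x hx
    rw [hf₁]
    simp only
    rw [hF₁e x hx]
    field_simp
  have hf₁r : ∀ z₀ ∈ closedBall (0 : ℂ) 1, ∀ z, ‖z - z₀‖ ≤ ηF * dl X z₀ →
      DifferentiableAt ℂ f₁ z ∧ ‖f₁ z‖ ≤ Ce * CF * dl X z₀ := by
    intro z₀ hz₀ z hz
    obtain ⟨h1, h2⟩ := hF₁ z₀ hz₀ z hz
    refine ⟨h1.const_mul _, ?_⟩
    rw [hf₁]
    simp only
    rw [norm_mul, Complex.norm_real, Real.norm_of_nonneg hCe0.le, mul_assoc]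
    gcongr
  have hf₁L : ∀ x ∈ ball (0 : ℂ) 1, ∀ x' ∈ ball (0 : ℂ) 1,
      ‖f₁ x' - f₁ x‖ ≤ Ce * CF / η' * ‖x' - x‖ := by
    intro x hx x' hx'
    refine Convex.norm_image_sub_le_of_norm_deriv_le (s := ball (0 : ℂ) 1) (f := f₁)
      (fun z hz => ?_) (fun z hz => ?_) (convex_ball _ _) hx hx'
    · have hzc := ball_subset_closedBall hz
      have := (hδ z hzc).1
      exact (hf₁r z hzc z (by simp; positivity)).1
    · have hzc := ball_subset_closedBall hz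
      have hdz := (hδ z hzc).1
      have h1 := deriv_bound (g := f₁) (x := z) (ρ := η' * dl X z) (Bd := Ce * CF * dl X z)
        (by positivity)
        (fun w hw => (hf₁r z hzc w (hw.trans (by gcongr))).1)
        (fun w hw => (hf₁r z hzc w (hw.trans (by gcongr))).2)
      calc ‖deriv f₁ z‖ ≤ Ce * CF * dl X z / (η' * dl X z) := h1
        _ = Ce * CF / η' := by field_simp
  -- Blaschke product of S₁
  obtain ⟨Bl, hBl1, hBl2, hBl3, hBl4⟩ := hbl S₁ (dl X) (fun x hx => hX x (hS₁X hx)) hδ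
    (hδ2 S₁ hS₁X) (hcarl X S₁ hX hK hS₁X hsep1)
  have hdata : ∀ x' ∈ S₂, Bl x' ≠ 0 ∧ ‖(e x' - f₁ x') / Bl x'‖ ≤ C₂ * (1 - ‖x'‖) := by
    intro x' hx'
    have hx'X := hS₂X hx'
    have hx'1 := hX x' hx'X
    have ht0 : 0 < 1 - ‖x'‖ := by linarith
    have hx'b : x' ∈ ball (0 : ℂ) 1 := by simpa using hx'1
    by_cases hcase : ∀ x ∈ S₁, c₃ * (1 - ‖x'‖) ≤ ‖x' - x‖
    · have h1 := hBl3 x' hx'b hcase
      have hB0 : 0 < ‖Bl x'‖ := by
        by_contra hcon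
        have : ‖Bl x'‖ = 0 := le_antisymm (not_lt.1 hcon) (norm_nonneg _)
        rw [this] at h1; linarith
      refine ⟨norm_pos_iff.1 hB0, ?_⟩
      rw [norm_div, div_le_iff₀ hB0]
      have h2 : ‖e x' - f₁ x'‖ ≤ (Ce + Ce * CF) * (1 - ‖x'‖) := by
        have h3 := he1 x' hx'X
        have h4 := (hf₁r x' (ball_subset_closedBall hx'b) x' (by
          have := (hδ x' (ball_subset_closedBall hx'b)).1
          simp; positivity)).2
        rw [dl_mem hx'X] at h4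
        calc ‖e x' - f₁ x'‖ ≤ ‖e x'‖ + ‖f₁ x'‖ := norm_sub_le _ _
          _ ≤ _ := by linarith
      calc ‖e x' - f₁ x'‖ ≤ (Ce + Ce * CF) * (1 - ‖x'‖) * 1 := by linarith
        _ ≤ (Ce + Ce * CF) * (1 - ‖x'‖) * (CB * ‖Bl x'‖) := by gcongr
        _ = CB * (Ce + Ce * CF) * (1 - ‖x'‖) * ‖Bl x'‖ := by ring
        _ ≤ C₂ * (1 - ‖x'‖) * ‖Bl x'‖ := by
            gcongr
            rw [hC₂]
            have : 0 ≤ (CL + Ce * CF / η') * (2 * CB) := by positivity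
            linarith
    · push Not at hcase
      obtain ⟨y, hy, hylt⟩ := hcase
      have hyX := hS₁X hy
      have hne1 : x' ≠ y := fun h => hdisj x' hx' (h ▸ hy)
      have h1 := hBl4 x' hx'b y hy (fun x hx hxy => hsep3 x' hx' y hy hylt x hx hxy)
      have hpos : 0 < ‖x' - y‖ := norm_pos_iff.2 (sub_ne_zero.2 hne1)
      have h2 : ‖x' - y‖ ≤ 2 * CB * ‖Bl x'‖ * (1 - ‖x'‖) := by
        have h3 : ‖x' - y‖ ≤ 1 - ‖x'‖ := by
          refine hylt.le.trans ?_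
          nlinarith
        have h4 : CB * ‖Bl x'‖ * ‖x' - y‖ ≤ CB * ‖Bl x'‖ * (1 - ‖x'‖) := by gcongr
        linarith
      have hB0 : 0 < ‖Bl x'‖ := by
        by_contra hcon
        have : ‖Bl x'‖ = 0 := le_antisymm (not_lt.1 hcon) (norm_nonneg _)
        rw [this] at h2; linarith
      refine ⟨norm_pos_iff.1 hB0, ?_⟩
      rw [norm_div, div_le_iff₀ hB0]
      have h5 : ‖e x' - f₁ x'‖ ≤ (CL + Ce * CF / η') * ‖x' - y‖ := by
        have h6 := he2 y hyX x' hx'X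
        have h7 := hf₁L y (by simpa using hX y hyX) x' hx'b
        have h8 : e x' - f₁ x' = (e x' - e y) - (f₁ x' - f₁ y) := by rw [hf₁e y hy]; ring
        rw [h8]
        calc _ ≤ ‖e x' - e y‖ + ‖f₁ x' - f₁ y‖ := norm_sub_le _ _
          _ ≤ _ := by linarith
      calc ‖e x' - f₁ x'‖ ≤ (CL + Ce * CF / η') * ‖x' - y‖ := h5
        _ ≤ (CL + Ce * CF / η') * (2 * CB * ‖Bl x'‖ * (1 - ‖x'‖)) := by gcongr
        _ = (CL + Ce * CF / η') * (2 * CB) * (1 - ‖x'‖) * ‖Bl x'‖ := by ring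
        _ ≤ C₂ * (1 - ‖x'‖) * ‖Bl x'‖ := by
            gcongr
            rw [hC₂]
            have : 0 ≤ CB * (Ce + Ce * CF) := by positivity
            linarith
  -- second correction
  obtain ⟨F₂, hF₂, hF₂e⟩ := hcorr S₂ (dl X) E (fun x hx => hX x (hS₂X hx)) hδ (hδ3 S₂ hS₂X)
    (hδ2 S₂ hS₂X) (hcarl X S₂ hX hK hS₂X hsep2) hsep2 hE
    (fun x => (e x - f₁ x) / Bl x / C₂) (by
      intro x hx
      rw [norm_div, Complex.norm_real, Real.norm_of_nonneg hC₂0.le, div_le_iff₀ hC₂0]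
      rw [mul_comm (1 - ‖x‖)]
      exact (hdata x hx).2)
  have hC₂C : (C₂ : ℂ) ≠ 0 := by exact_mod_cast hC₂0.ne'
  set f : ℂ → ℂ := fun z => f₀ z + f₁ z + C₂ * Bl z * F₂ z with hf
  have hfX : ∀ x ∈ X, f x = ψ x := by
    intro x hx
    rcases hcov x hx with h | h
    · rw [hf]; simp only
      rw [hf₁e x h, hBl2 x h, he]; ring
    · have hB := (hdata x h).1
      rw [hf]; simp only
      rw [hF₂e x h]
      have : (C₂ : ℂ) * Bl x * ((e x - f₁ x) / Bl x / C₂) = e x - f₁ x := by field_simp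
      rw [this, he]; ring
  -- region bounds for f
  have hreg : ∀ z₀ : ℂ, ‖z₀‖ ≤ 1 → ∃ y₀ : ℕ × ℕ, ∃ x₀ ∈ X,
        dl X z₀ ≤ 3 * rn y₀ ∧ ∀ z : ℂ, ‖z - z₀‖ ≤ η' * dl X z₀ →
          DifferentiableAt ℂ f z ∧
          ‖f z - (ψ x₀ + B (zn y₀) (rn y₀) * (z - x₀))‖ ≤ CT * dl X z₀ := by
    intro z₀ hz₀
    have hz₀c : z₀ ∈ closedBall (0 : ℂ) 1 := by simpa using hz₀
    have hd := (hδ z₀ hz₀c).1
    obtain ⟨y₀, x₀, hx₀, hn0, hn1, hn2, hn3, h⟩ := hf₀ z₀ hz₀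
    refine ⟨y₀, x₀, hx₀, hn1, fun z hz => ?_⟩
    obtain ⟨-, -, -, g1, g2⟩ := h z (hz.trans (by gcongr))
    obtain ⟨g3, g4⟩ := hf₁r z₀ hz₀c z (hz.trans (by gcongr))
    obtain ⟨g5, g6⟩ := hF₂ z₀ hz₀c z (hz.trans (by gcongr))
    obtain ⟨g7, g8⟩ := hBl1 z₀ hz₀c z (hz.trans (by gcongr))
    refine ⟨(g1.add g3).add ((g7.const_mul _).mul g5), ?_⟩
    have e1 : f z - (ψ x₀ + B (zn y₀) (rn y₀) * (z - x₀))
        = (f₀ z - (ψ x₀ + B (zn y₀) (rn y₀) * (z - x₀))) + f₁ z + C₂ * Bl z * F₂ z := by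
      rw [hf]; ring
    rw [e1]
    have e2 : ‖(C₂ : ℂ) * Bl z * F₂ z‖ ≤ C₂ * CB * (CF * dl X z₀) := by
      rw [norm_mul, norm_mul, Complex.norm_real, Real.norm_of_nonneg hC₂0.le]
      gcongr
    calc _ ≤ ‖f₀ z - (ψ x₀ + B (zn y₀) (rn y₀) * (z - x₀))‖ + ‖f₁ z‖ + ‖C₂ * Bl z * F₂ z‖ :=
          norm_add₃_le
      _ ≤ Cf * dl X z₀ + Ce * CF * dl X z₀ + C₂ * CB * (CF * dl X z₀) := by
          gcongr
      _ = CT * dl X z₀ := by rw [hCT]; ring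
  have hfd : ∀ z₀ : ℂ, ‖z₀‖ ≤ 1 → DifferentiableAt ℂ f z₀ := by
    intro z₀ hz₀
    obtain ⟨y₀, x₀, hx₀, hn1, h⟩ := hreg z₀ hz₀
    have hd := dl_pos hX hne hz₀
    exact (h z₀ (by simp; positivity)).1
  have hfs : ∀ z ∈ ball (0 : ℂ) 1, ‖deriv (deriv f) z‖ ≤ 4 * CT / η' ^ 2 / (1 - ‖z‖) := by
    intro z hz
    have hz1 : ‖z‖ < 1 := by simpa using hz
    obtain ⟨y₀, x₀, hx₀, hn1, h⟩ := hreg z hz1.le
    have hd := dl_pos hX hne hz1.le
    set b := B (zn y₀) (rn y₀) with hb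
    set g : ℂ → ℂ := fun w => f w - (ψ x₀ + b * (w - x₀)) with hg
    have hgd : ∀ w, ‖w - z‖ ≤ η' * dl X z → DifferentiableAt ℂ g w := by
      intro w hw
      have := (h w hw).1
      rw [hg]; fun_prop
    have h1 := deriv2_bound (g := g) (x := z) (ρ := η' * dl X z) (Bd := CT * dl X z)
      (by positivity) hgd (fun w hw => (h w hw).2)
    have h2 : deriv (deriv f) z = deriv (deriv g) z := by
      have h3 : deriv g =ᶠ[𝓝 z] fun w => deriv f w - b := by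
        have : ball z (η' * dl X z) ∈ 𝓝 z := ball_mem_nhds z (by positivity)
        filter_upwards [this] with w hw
        rw [mem_ball, dist_eq_norm] at hw
        have hfw := (h w hw.le).1
        have h4 : HasDerivAt g (deriv f w - b) w := by
          have h5 : HasDerivAt (fun w : ℂ => ψ x₀ + b * (w - x₀)) b w := by
            have h6 := (((hasDerivAt_id w).sub_const x₀).const_mul b).const_add (ψ x₀)
            simpa using h6
          exact hfw.hasDerivAt.sub h5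
        exact h4.deriv
      rw [h3.deriv_eq]
      rw [deriv_sub_const]
    rw [h2]
    refine h1.trans ?_
    have hz0 : 0 < 1 - ‖z‖ := by linarith
    have h5 : 1 - ‖z‖ ≤ dl X z := dl_ge
    calc 4 * (CT * dl X z) / (η' * dl X z) ^ 2 = 4 * CT / η' ^ 2 / dl X z := by
          field_simp
      _ ≤ 4 * CT / η' ^ 2 / (1 - ‖z‖) := by gcongr
  have hZ := taylor_of_second_deriv (f := f) (M := 4 * CT / η' ^ 2) (by positivity)
    (fun z hz => (hfd z (by simpa using (ball_subset_closedBall hz))).differentiableWithinAt)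
    (fun z hz => (hfd z (by simpa using hz)).continuousAt.continuousWithinAt) hfs
  -- bounds at 0
  obtain ⟨y₀, x₀, hx₀, hn1, h⟩ := hreg 0 (by simp)
  have hd0 := dl_pos hX hne (z := 0) (by simp)
  have hx₀1 := hX x₀ hx₀
  have hd2 : dl X 0 ≤ 2 := by
    have := dl_le (z := 0) hx₀
    simp only [norm_zero, sub_zero, zero_sub, norm_neg] at this
    linarith
  have hd1 : 1 ≤ dl X 0 := by
    have := dl_ge (X := X) (z := 0)
    simpa using this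
  have hr1 : 1 / 3 ≤ rn y₀ := by linarith
  have hB0 : ‖B (zn y₀) (rn y₀)‖ ≤ 4 * C' := by
    have h1 := hB3 (zn y₀) (rn y₀) (rn_pos _)
    have h2 : EE (zn y₀) (rn y₀) 0 1 ≤ 4 := by
      unfold EE
      rw [sub_zero, norm_zn]
      have hr := rn_le_one y₀
      have hr0 := rn_pos y₀
      have h3 : (rn y₀ + 1 + 1) ^ 2 / (rn y₀ * 1) ≤ 27 := by
        rw [div_le_iff₀ (by positivity)]; nlinarith
      have h4 : Real.log 27 ≤ 4 := by
        rw [Real.log_le_iff_le_exp (by norm_num)]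
        have : (2.7 : ℝ) ≤ Real.exp 1 := by linarith [Real.exp_one_gt_d9]
        calc (27 : ℝ) ≤ 2.7 ^ 4 := by norm_num
          _ ≤ Real.exp 1 ^ 4 := by gcongr
          _ = Real.exp 4 := by rw [← Real.exp_nat_mul]; norm_num
      exact (Real.log_le_log (by positivity) h3).trans h4
    calc _ ≤ C' * EE (zn y₀) (rn y₀) 0 1 := h1
      _ ≤ C' * 4 := by gcongr
      _ = 4 * C' := by ring
  refine ⟨f, deriv f, hZ.mono ?_, ?_, ?_, hfX⟩
  · have : 0 ≤ (2 * CT + C + 4 * C') + (CT / η' + 4 * C') := by positivity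
    linarith
  · have h1 := (h 0 (by simp; positivity)).2
    have h2 : ‖f 0‖ ≤ ‖f 0 - (ψ x₀ + B (zn y₀) (rn y₀) * (0 - x₀))‖
        + (‖ψ x₀‖ + ‖B (zn y₀) (rn y₀)‖ * ‖x₀‖) := by
      calc ‖f 0‖ = ‖(f 0 - (ψ x₀ + B (zn y₀) (rn y₀) * (0 - x₀)))
            + (ψ x₀ + B (zn y₀) (rn y₀) * (0 - x₀))‖ := by congr 1; ring
        _ ≤ _ := by
            refine (norm_add_le _ _).trans ?_
            gcongr
            refine (norm_add_le _ _).trans ?_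
            rw [norm_mul, zero_sub, norm_neg]
    have h3 := hψ x₀ hx₀
    have h4 : ‖B (zn y₀) (rn y₀)‖ * ‖x₀‖ ≤ 4 * C' := by
      calc _ ≤ 4 * C' * 1 := by gcongr
        _ = 4 * C' := by ring
    have h5 : CT * dl X 0 ≤ CT * 2 := by gcongr
    have h6 : 0 ≤ 4 * CT / η' ^ 2 := by positivity
    have h7 : 0 ≤ CT / η' + 4 * C' := by positivity
    linarith
  · set b := B (zn y₀) (rn y₀) with hb
    set g : ℂ → ℂ := fun w => f w - (ψ x₀ + b * (w - x₀)) with hg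
    have hgd : ∀ w, ‖w - 0‖ ≤ η' * dl X 0 → DifferentiableAt ℂ g w := by
      intro w hw
      have := (h w hw).1
      rw [hg]; fun_prop
    have h1 := deriv_bound (g := g) (x := 0) (ρ := η' * dl X 0) (Bd := CT * dl X 0)
      (by positivity) hgd (fun w hw => (h w hw).2)
    have h2 : deriv f 0 = deriv g 0 + b := by
      have hfw := hfd 0 (by simp)
      have h4 : HasDerivAt g (deriv f 0 - b) 0 := by
        have h5 : HasDerivAt (fun w : ℂ => ψ x₀ + b * (w - x₀)) b 0 := by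
          have h6 := (((hasDerivAt_id (0 : ℂ)).sub_const x₀).const_mul b).const_add (ψ x₀)
          simpa using h6
        exact hfw.hasDerivAt.sub h5
      rw [h4.deriv]; ring
    have h3 : CT * dl X 0 / (η' * dl X 0) = CT / η' := by field_simp
    rw [h3] at h1
    rw [h2]
    have h6 : 0 ≤ 4 * CT / η' ^ 2 := by positivity
    have h7 : 0 ≤ 2 * CT + C + 4 * C' := by positivity
    calc ‖deriv g 0 + b‖ ≤ ‖deriv g 0‖ + ‖b‖ := norm_add_le _ _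
      _ ≤ CT / η' + 4 * C' := by gcongr
      _ ≤ _ := by linarith

end ZygInt
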