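import Mathlib
import Pool.Agent.ZygInt.Basic

namespace ZygInt.J8

open Complex Metric Set Filter Topology

/-! ### test functions -/

/-- retraction onto the closed unit disc -/
noncomputable def j8P (z : ℂ) : ℂ := z / ((max 1 ‖z‖ : ℝ) : ℂ)

lemma j8P_of_mem {z : ℂ} (hz : ‖z‖ ≤ 1) : j8P z = z := by
  unfold j8P; rw [max_eq_left hz]; simp

lemma j8P_norm (z : ℂ) : ‖j8P z‖ ≤ 1 := by
  unfold j8P
  rw [norm_div, Complex.norm_real, Real.norm_of_nonneg (by positivity)]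
  exact div_le_one_of_le₀ (le_max_right _ _) (by positivity)

lemma j8P_lip (z w : ℂ) : ‖j8P z - j8P w‖ ≤ 2 * ‖z - w‖ := by
  have hw := j8P_norm w
  unfold j8P at *
  set a : ℝ := max 1 ‖z‖ with ha
  set b : ℝ := max 1 ‖w‖ with hb
  have ha1 : 1 ≤ a := le_max_left _ _
  have hb1 : 1 ≤ b := le_max_left _ _
  have ha0 : (a : ℂ) ≠ 0 := by
    simp only [ne_eq, Complex.ofReal_eq_zero]; linarith
  have hb0 : (b : ℂ) ≠ 0 := by
    simp only [ne_eq, Complex.ofReal_eq_zero]; linarith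
  have hab : |b - a| ≤ ‖z - w‖ := by
    have h1 := abs_max_sub_max_le_abs ‖w‖ ‖z‖ 1
    rw [max_comm ‖w‖ 1, max_comm ‖z‖ 1] at h1
    have h2 := abs_norm_sub_norm_le w z
    rw [norm_sub_rev] at h2
    exact h1.trans h2
  have heq : z / a - w / b = (z - w) / a + (w / b) * (((b - a : ℝ) : ℂ) / a) := by
    push_cast
    field_simp
    ring
  rw [heq]
  refine (norm_add_le _ _).trans ?_
  rw [norm_mul, norm_div, norm_div ((b - a : ℝ) : ℂ), Complex.norm_real, Complex.norm_real,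
    Real.norm_eq_abs, Real.norm_eq_abs, abs_of_pos (by linarith : (0 : ℝ) < a)]
  have h1 : ‖z - w‖ / a ≤ ‖z - w‖ := div_le_self (norm_nonneg _) ha1
  have h2 : |b - a| / a ≤ ‖z - w‖ := (div_le_self (abs_nonneg _) ha1).trans hab
  have h3 : ‖w / (b : ℂ)‖ * (|b - a| / a) ≤ 1 * ‖z - w‖ :=
    mul_le_mul hw h2 (by positivity) (by norm_num)
  linarith

/-- the rational kernel -/
noncomputable def j8g (η : ℝ) (w : ℂ) : ℂ := w / (w - ((1 + η : ℝ) : ℂ)) ^ 4

lemma j8_dist {η : ℝ} (hη : 0 < η) {w : ℂ} (hw : ‖w‖ ≤ 1) : η ≤ ‖w - ((1 + η : ℝ) : ℂ)‖ := by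
  have h1 := norm_sub_norm_le ((1 + η : ℝ) : ℂ) w
  rw [Complex.norm_real, Real.norm_of_nonneg (by linarith), norm_sub_rev] at h1
  linarith

lemma j8g_norm {η : ℝ} (hη : 0 < η) {w : ℂ} (hw : ‖w‖ ≤ 1) : ‖j8g η w‖ ≤ (η ^ 4)⁻¹ := by
  unfold j8g
  have hd := j8_dist hη hw
  rw [norm_div, norm_pow, div_eq_mul_inv]
  have h1 : (‖w - ((1 + η : ℝ) : ℂ)‖ ^ 4)⁻¹ ≤ (η ^ 4)⁻¹ := by
    apply inv_anti₀ (by positivity)
    exact pow_le_pow_left₀ hη.le hd 4
  calc ‖w‖ * (‖w - ((1 + η : ℝ) : ℂ)‖ ^ 4)⁻¹ ≤ 1 * (η ^ 4)⁻¹ :=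
        mul_le_mul hw h1 (by positivity) (by norm_num)
    _ = _ := one_mul _

lemma j8g_lip {η : ℝ} (hη : 0 < η) (hη1 : η ≤ 1) {z w : ℂ} (hz : ‖z‖ ≤ 1) (hw : ‖w‖ ≤ 1) :
    η ^ 5 * ‖j8g η z - j8g η w‖ ≤ 5 * ‖z - w‖ := by
  set q : ℂ := ((1 + η : ℝ) : ℂ) with hq
  have hder : ∀ x ∈ closedBall (0 : ℂ) 1,
      HasDerivWithinAt (j8g η) (1 / (x - q) ^ 4 - 4 * x / (x - q) ^ 5) (closedBall (0 : ℂ) 1) x := by
    intro x hx
    have hx1 : ‖x‖ ≤ 1 := by simpa using hx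
    have hd := j8_dist hη hx1
    have hne : x - q ≠ 0 := by
      rw [← norm_pos_iff]; exact lt_of_lt_of_le hη hd
    have h1 : HasDerivAt (fun y : ℂ => y - q) 1 x := (hasDerivAt_id x).sub_const q
    have h2 := h1.pow 4
    have h3 := (hasDerivAt_id x).div h2 (pow_ne_zero 4 hne)
    have h4 : HasDerivAt (j8g η) (1 / (x - q) ^ 4 - 4 * x / (x - q) ^ 5) x := by
      have h5 : j8g η = (id / (fun y : ℂ => y - q) ^ 4) := by
        funext y
        simp [j8g, hq]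
      rw [h5]
      refine h3.congr_deriv ?_
      simp only [id, Pi.pow_apply]
      field_simp
      push_cast
      ring
    exact h4.hasDerivWithinAt
  have hbd : ∀ x ∈ closedBall (0 : ℂ) 1,
      ‖1 / (x - q) ^ 4 - 4 * x / (x - q) ^ 5‖ ≤ 5 / η ^ 5 := by
    intro x hx
    have hx1 : ‖x‖ ≤ 1 := by simpa using hx
    have hd := j8_dist hη hx1
    have h1 : ‖1 / (x - q) ^ 4‖ ≤ 1 / η ^ 4 := by
      rw [norm_div, norm_one, norm_pow]
      exact one_div_le_one_div_of_le (by positivity) (pow_le_pow_left₀ hη.le hd 4)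
    have h2 : ‖4 * x / (x - q) ^ 5‖ ≤ 4 / η ^ 5 := by
      rw [norm_div, norm_pow, norm_mul]
      have : ‖(4 : ℂ)‖ = 4 := by norm_num
      rw [this]
      apply div_le_div₀ (by norm_num) (by linarith) (by positivity)
      exact pow_le_pow_left₀ hη.le hd 5
    have h3 : 1 / η ^ 4 ≤ 1 / η ^ 5 := by
      apply one_div_le_one_div_of_le (by positivity)
      exact pow_le_pow_of_le_one hη.le hη1 (by norm_num)
    calc _ ≤ ‖1 / (x - q) ^ 4‖ + ‖4 * x / (x - q) ^ 5‖ := norm_sub_le _ _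
      _ ≤ 1 / η ^ 5 + 4 / η ^ 5 := by linarith
      _ = 5 / η ^ 5 := by ring
  have h := (convex_closedBall (0 : ℂ) 1).norm_image_sub_le_of_norm_hasDerivWithin_le hder hbd
    (by simpa using hw : w ∈ closedBall (0 : ℂ) 1) (by simpa using hz : z ∈ closedBall (0 : ℂ) 1)
  have h5 : 0 < η ^ 5 := by positivity
  calc η ^ 5 * ‖j8g η z - j8g η w‖ ≤ η ^ 5 * (5 / η ^ 5 * ‖z - w‖) :=
        mul_le_mul_of_nonneg_left h h5.le
    _ = 5 * ‖z - w‖ := by field_simp

/-- the test function -/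
noncomputable def j8F (η : ℝ) (z : ℂ) : ℂ := (η ^ 5 : ℝ) * (starRingEnd ℂ) (j8g η (j8P z))

lemma j8F_lip {η : ℝ} (hη : 0 < η) (hη1 : η ≤ 1) (z w : ℂ) :
    ‖j8F η z - j8F η w‖ ≤ 10 * ‖z - w‖ := by
  unfold j8F
  rw [← mul_sub, ← map_sub, norm_mul, Complex.norm_real, Real.norm_of_nonneg (by positivity),
    Complex.norm_conj]
  have h1 := j8g_lip hη hη1 (j8P_norm z) (j8P_norm w)
  have h2 := j8P_lip z w
  linarith

lemma j8F_bound {η : ℝ} (hη : 0 < η) (z : ℂ) : ‖j8F η z‖ ≤ η := by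
  unfold j8F
  rw [norm_mul, Complex.norm_real, Real.norm_of_nonneg (by positivity), Complex.norm_conj]
  have h1 := j8g_norm hη (j8P_norm z)
  calc η ^ 5 * ‖j8g η (j8P z)‖ ≤ η ^ 5 * (η ^ 4)⁻¹ := mul_le_mul_of_nonneg_left h1 (by positivity)
    _ = η := by field_simp

lemma j8F_cont {η : ℝ} (hη : 0 < η) (hη1 : η ≤ 1) : Continuous (j8F η) := by
  have : LipschitzWith 10 (j8F η) := by
    apply LipschitzWith.of_dist_le_mul
    intro z w
    rw [dist_eq_norm, dist_eq_norm]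
    exact_mod_cast j8F_lip hη hη1 z w
  exact this.continuous

/-! ### geometry of the kernel on the circle -/

lemma j8_sin {s : ℝ} (hs : |s| ≤ Real.pi) : |s| / Real.pi ≤ |Real.sin (s / 2)| := by
  have hpi := Real.pi_pos
  have h1 : |Real.sin (s / 2)| = Real.sin (|s| / 2) := by
    rcases le_or_gt 0 s with h | h
    · rw [abs_of_nonneg h]
      rw [abs_of_nonneg h] at hs
      exact abs_of_nonneg (Real.sin_nonneg_of_nonneg_of_le_pi (by linarith) (by linarith))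
    · rw [abs_of_neg h]
      rw [abs_of_neg h] at hs
      rw [neg_div, Real.sin_neg]
      apply abs_of_nonpos
      have := Real.sin_nonneg_of_nonneg_of_le_pi (x := -(s/2)) (by linarith) (by linarith)
      rw [Real.sin_neg] at this
      linarith
  rw [h1]
  have h2 := Real.mul_le_sin (x := |s| / 2) (by positivity) (by linarith)
  calc |s| / Real.pi = 2 / Real.pi * (|s| / 2) := by field_simp
    _ ≤ _ := h2

lemma j8_normsq (η s : ℝ) : ‖exp (s * I) - ((1 + η : ℝ) : ℂ)‖ ^ 2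
    = η ^ 2 + 4 * (1 + η) * Real.sin (s / 2) ^ 2 := by
  rw [← Complex.normSq_eq_norm_sq, Complex.normSq_apply]
  have h1 : (exp (s * I) - ((1 + η : ℝ) : ℂ)).re = Real.cos s - (1 + η) := by
    simp [Complex.exp_ofReal_mul_I_re]
  have h2 : (exp (s * I) - ((1 + η : ℝ) : ℂ)).im = Real.sin s := by
    simp [Complex.exp_ofReal_mul_I_im]
  rw [h1, h2]
  have h3 : Real.cos s = 1 - 2 * Real.sin (s / 2) ^ 2 := by
    have := Real.cos_two_mul (s / 2)
    rw [show 2 * (s / 2) = s by ring] at this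
    have h4 := Real.sin_sq_add_cos_sq (s / 2)
    nlinarith
  have h5 := Real.sin_sq_add_cos_sq s
  calc (Real.cos s - (1 + η)) * (Real.cos s - (1 + η)) + Real.sin s * Real.sin s
      = (Real.sin s ^ 2 + Real.cos s ^ 2) - 2 * (1 + η) * Real.cos s + (1 + η) ^ 2 := by ring
    _ = _ := by rw [h5, h3]; ring

lemma j8_lower {η s : ℝ} (hη : 0 < η) (hs : |s| ≤ Real.pi) :
    2 * |s| / Real.pi ≤ ‖exp (s * I) - ((1 + η : ℝ) : ℂ)‖ := by
  have hpi := Real.pi_pos
  have h1 := j8_sin hs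
  have h2 := j8_normsq η s
  have h3 : (2 * |s| / Real.pi) ^ 2 ≤ ‖exp (s * I) - ((1 + η : ℝ) : ℂ)‖ ^ 2 := by
    rw [h2]
    have h4 : (|s| / Real.pi) ^ 2 ≤ Real.sin (s / 2) ^ 2 := by
      rw [← sq_abs (Real.sin (s / 2))]
      exact pow_le_pow_left₀ (by positivity) h1 2
    have h5 : (2 * |s| / Real.pi) ^ 2 = 4 * (|s| / Real.pi) ^ 2 := by ring
    rw [h5]
    nlinarith [sq_nonneg (Real.sin (s / 2)), sq_nonneg η, mul_nonneg hη.le (sq_nonneg (Real.sin (s/2)))]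
  exact (pow_le_pow_iff_left₀ (by positivity) (norm_nonneg _) (by norm_num)).1 h3

lemma j8_exp_sub_one (s : ℝ) : ‖exp (s * I) - 1‖ ≤ |s| := by
  have := Real.norm_exp_I_mul_ofReal_sub_one_le (x := s)
  rw [mul_comm] 
  simpa using this

lemma j8g_far {η s : ℝ} (hη : 0 < η) (hs : |s| ≤ Real.pi) (hs0 : 0 < |s|) :
    ‖j8g η (exp (s * I))‖ ≤ 7 / s ^ 4 := by
  have hpi := Real.pi_pos
  unfold j8g
  have h1 := j8_lower hη hs
  rw [norm_div, norm_pow, Complex.norm_exp_ofReal_mul_I]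
  have h2 : (2 * |s| / Real.pi) ^ 4 ≤ ‖exp (s * I) - ((1 + η : ℝ) : ℂ)‖ ^ 4 :=
    pow_le_pow_left₀ (by positivity) h1 4
  have h3 : 0 < (2 * |s| / Real.pi) ^ 4 := by positivity
  have h4 : (2 * |s| / Real.pi) ^ 4 = 16 * s ^ 4 / Real.pi ^ 4 := by
    have : |s| ^ 4 = s ^ 4 := by
      rw [show (4 : ℕ) = 2 * 2 by norm_num, pow_mul, pow_mul, sq_abs]
    rw [div_pow, mul_pow, this]; norm_num
  have hs4 : 0 < s ^ 4 := by
    have : 0 < |s| ^ 4 := by positivity
    rwa [show |s| ^ 4 = s ^ 4 by rw [show (4 : ℕ) = 2 * 2 by norm_num, pow_mul, pow_mul, sq_abs]] at this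
  have hpi4 : Real.pi ^ 4 ≤ 7 * 16 := by
    have h5 : Real.pi ≤ 3.15 := Real.pi_lt_d2.le
    have h6 : Real.pi ^ 4 ≤ 3.15 ^ 4 := pow_le_pow_left₀ hpi.le h5 4
    norm_num at h6 ⊢
    linarith
  calc 1 / ‖exp (s * I) - ((1 + η : ℝ) : ℂ)‖ ^ 4 ≤ 1 / (2 * |s| / Real.pi) ^ 4 :=
        one_div_le_one_div_of_le h3 h2
    _ = Real.pi ^ 4 / (16 * s ^ 4) := by rw [h4]; field_simp
    _ ≤ 7 / s ^ 4 := by
        rw [div_le_div_iff₀ (by positivity) hs4]
        nlinarith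

lemma j8g_near {η s : ℝ} (hη : 0 < η) (hs : |s| ≤ η) :
    1 / (2 * η) ^ 8 ≤ ‖j8g η (exp (s * I))‖ ^ 2 := by
  unfold j8g
  rw [norm_div, norm_pow, Complex.norm_exp_ofReal_mul_I, div_pow, one_pow, ← pow_mul]
  have h0 : 0 < ‖exp (s * I) - ((1 + η : ℝ) : ℂ)‖ :=
    lt_of_lt_of_le hη (j8_dist hη (by rw [Complex.norm_exp_ofReal_mul_I]))
  apply one_div_le_one_div_of_le (by positivity)
  apply pow_le_pow_left₀ (norm_nonneg _)
  have h1 : exp (s * I) - ((1 + η : ℝ) : ℂ) = (exp (s * I) - 1) - ((η : ℝ) : ℂ) := by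
    push_cast; ring
  rw [h1]
  refine (norm_sub_le _ _).trans ?_
  rw [Complex.norm_real, Real.norm_of_nonneg hη.le]
  have := j8_exp_sub_one s
  linarith

/-! ### the Cauchy integral -/

lemma j8_cauchy {η : ℝ} (hη : 0 < η) {f : ℂ → ℂ} (hd : DifferentiableOn ℂ f (ball 0 1))
    (hc : ContinuousOn f (closedBall 0 1)) :
    ∫ s in (-Real.pi)..Real.pi, f (exp (s * I)) * j8g η (exp (s * I)) = 0 := by
  set q : ℂ := ((1 + η : ℝ) : ℂ) with hq
  have hne : ∀ w ∈ closedBall (0 : ℂ) 1, w - q ≠ 0 := by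
    intro w hw
    have hw1 : ‖w‖ ≤ 1 := by simpa using hw
    rw [← norm_pos_iff]
    exact lt_of_lt_of_le hη (j8_dist hη hw1)
  have hF : ∮ z in C(0, 1), f z * ((z - q) ^ 4)⁻¹ = 0 := by
    apply Complex.circleIntegral_eq_zero_of_differentiable_on_off_countable (by norm_num)
      Set.countable_empty
    · apply hc.mul
      apply ContinuousOn.inv₀
      · fun_prop
      · intro w hw; exact pow_ne_zero 4 (hne w hw)
    · intro z hz
      have hz1 : z ∈ ball (0 : ℂ) 1 := hz.1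
      have h1 : DifferentiableAt ℂ f z := (hd z hz1).differentiableAt (isOpen_ball.mem_nhds hz1)
      apply h1.mul
      apply DifferentiableAt.inv
      · fun_prop
      · exact pow_ne_zero 4 (hne z (ball_subset_closedBall hz1))
  have h2 : ∫ s in (0 : ℝ)..(2 * Real.pi), f (exp (s * I)) * j8g η (exp (s * I)) = 0 := by
    unfold circleIntegral at hF
    have h3 : ∀ θ : ℝ, deriv (circleMap 0 1) θ • (f (circleMap 0 1 θ) * ((circleMap 0 1 θ - q) ^ 4)⁻¹)
        = I * (f (exp (θ * I)) * j8g η (exp (θ * I))) := by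
      intro θ
      rw [deriv_circleMap]
      simp only [circleMap, zero_add, Complex.ofReal_one, one_mul, smul_eq_mul, j8g, ← hq]
      field_simp
    simp only [h3] at hF
    rw [intervalIntegral.integral_const_mul] at hF
    rcases mul_eq_zero.1 hF with h | h
    · exact absurd h Complex.I_ne_zero
    · exact h
  have hper : Function.Periodic (fun s : ℝ => f (exp (s * I)) * j8g η (exp (s * I)))
      (2 * Real.pi) := by
    intro s
    have : exp (((s + 2 * Real.pi : ℝ) : ℂ) * I) = exp (s * I) := by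
      push_cast
      rw [add_mul, Complex.exp_add, Complex.exp_two_pi_mul_I, mul_one]
    simp only [this]
  have h4 := hper.intervalIntegral_add_eq (-Real.pi) 0
  rw [show -Real.pi + 2 * Real.pi = Real.pi by ring, zero_add] at h4
  rw [h4]
  exact h2

lemma j8_int_inv_sq {a b : ℝ} (ha : 0 < a) (hab : a ≤ b) :
    ∫ x in a..b, (x ^ 2)⁻¹ = a⁻¹ - b⁻¹ := by
  have h := intervalIntegral.integral_eq_sub_of_hasDerivAt (a := a) (b := b)
    (f := fun x : ℝ => -x⁻¹) (f' := fun x : ℝ => (x ^ 2)⁻¹) ?_ ?_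
  · rw [h]; ring
  · intro x hx
    rw [uIcc_of_le hab] at hx
    have hx0 : x ≠ 0 := by have := hx.1; linarith
    have h1 := (hasDerivAt_inv hx0).neg
    rw [neg_neg] at h1
    exact h1
  · apply ContinuousOn.intervalIntegrable
    rw [uIcc_of_le hab]
    apply ContinuousOn.inv₀ (by fun_prop)
    intro x hx
    exact pow_ne_zero 2 (lt_of_lt_of_le ha hx.1).ne'

lemma j8_far_int {L B : ℝ} (hL : 0 < L) (hLpi : L / 2 ≤ Real.pi) (hB : 0 ≤ B) (h : ℝ → ℂ)
    (hbd : ∀ s, L / 2 ≤ s → s ≤ Real.pi → ‖h s‖ ≤ B * (s ^ 2)⁻¹) :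
    ‖∫ s in (L / 2)..Real.pi, h s‖ ≤ B * (2 / L) := by
  have hcont : ContinuousOn (fun s : ℝ => B * (s ^ 2)⁻¹) (uIcc (L / 2) Real.pi) := by
    rw [uIcc_of_le hLpi]
    apply ContinuousOn.mul continuousOn_const
    apply ContinuousOn.inv₀ (by fun_prop)
    intro x hx
    exact pow_ne_zero 2 (lt_of_lt_of_le (by positivity) hx.1).ne'
  have h1 := intervalIntegral.norm_integral_le_of_norm_le (μ := MeasureTheory.volume) (f := h)
    (g := fun s : ℝ => B * (s ^ 2)⁻¹) hLpi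
    (Filter.Eventually.of_forall fun s hs => hbd s hs.1.le hs.2) hcont.intervalIntegrable
  refine h1.trans ?_
  rw [intervalIntegral.integral_const_mul, j8_int_inv_sq (by positivity) hLpi]
  apply mul_le_mul_of_nonneg_left _ hB
  have : 0 < Real.pi⁻¹ := by positivity
  have h2 : (L / 2)⁻¹ = 2 / L := by rw [inv_div]
  linarith

lemma j8_main {η L E B : ℝ} (hη : 0 < η) (hηL : η ≤ L / 2) (hL1 : L ≤ 1) {f : ℂ → ℂ}
    (hd : DifferentiableOn ℂ f (ball 0 1)) (hc : ContinuousOn f (closedBall 0 1))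
    (hB0 : 0 ≤ B)
    (hE : ∀ s : ℝ, |s| ≤ L / 2 → ‖f (exp (s * I)) - j8F η (exp (s * I))‖ ≤ E)
    (hB : ∀ s : ℝ, L / 2 ≤ |s| → |s| ≤ Real.pi → ‖f (exp (s * I))‖ ≤ B * s ^ 2) :
    2 * η * (η ^ 5 * (1 / (2 * η) ^ 8)) ≤ L * (E * (η ^ 4)⁻¹) + 2 * (7 * B * (2 / L)) := by
  have hL : 0 < L := by linarith
  have hpi3 := Real.pi_gt_three
  have hmem : ∀ s : ℝ, exp (s * I) ∈ closedBall (0 : ℂ) 1 := by
    intro s; simp [Complex.norm_exp_ofReal_mul_I]
  have hgc : Continuous (fun s : ℝ => j8g η (exp (s * I))) := by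
    unfold j8g
    apply Continuous.div (by fun_prop) (by fun_prop)
    intro s
    apply pow_ne_zero
    rw [← norm_pos_iff]
    exact lt_of_lt_of_le hη (j8_dist hη (by rw [Complex.norm_exp_ofReal_mul_I]))
  have hfc : Continuous (fun s : ℝ => f (exp (s * I))) :=
    hc.comp_continuous (by fun_prop) hmem
  set h : ℝ → ℂ := fun s => f (exp (s * I)) * j8g η (exp (s * I)) with hh
  have hhc : Continuous h := hfc.mul hgc
  have h0 : ∫ s in (-Real.pi)..Real.pi, h s = 0 := j8_cauchy hη hd hc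
  have hsplit : (∫ s in (-Real.pi)..(-(L / 2)), h s) + (∫ s in (-(L / 2))..(L / 2), h s)
      + (∫ s in (L / 2)..Real.pi, h s) = 0 := by
    rw [intervalIntegral.integral_add_adjacent_intervals (hhc.intervalIntegrable _ _)
      (hhc.intervalIntegrable _ _),
      intervalIntegral.integral_add_adjacent_intervals (hhc.intervalIntegrable _ _)
      (hhc.intervalIntegrable _ _)]
    exact h0
  -- the far parts
  have hfar : ∀ s : ℝ, L / 2 ≤ |s| → |s| ≤ Real.pi → ‖h s‖ ≤ 7 * B * (s ^ 2)⁻¹ := by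
    intro s hs1 hs2
    have hs0 : 0 < |s| := by linarith
    have hsne : s ≠ 0 := abs_pos.1 hs0
    rw [hh]
    simp only [norm_mul]
    calc ‖f (exp (s * I))‖ * ‖j8g η (exp (s * I))‖ ≤ (B * s ^ 2) * (7 / s ^ 4) :=
          mul_le_mul (hB s hs1 hs2) (j8g_far hη hs2 hs0) (norm_nonneg _) (by positivity)
      _ = 7 * B * (s ^ 2)⁻¹ := by field_simp
  have hf1 : ‖∫ s in (L / 2)..Real.pi, h s‖ ≤ 7 * B * (2 / L) := by
    apply j8_far_int hL (by linarith) (by positivity)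
    intro s hs1 hs2
    have : |s| = s := abs_of_nonneg (by linarith)
    exact hfar s (by rw [this]; exact hs1) (by rw [this]; exact hs2)
  have hf2 : ‖∫ s in (-Real.pi)..(-(L / 2)), h s‖ ≤ 7 * B * (2 / L) := by
    rw [← intervalIntegral.integral_comp_neg]
    apply j8_far_int hL (by linarith) (by positivity)
    intro s hs1 hs2
    have : |-s| = s := by rw [abs_neg]; exact abs_of_nonneg (by linarith)
    have := hfar (-s) (by rw [this]; exact hs1) (by rw [this]; exact hs2)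
    rwa [neg_sq] at this
  -- the near part
  have hPe : ∀ s : ℝ, j8F η (exp (s * I)) * j8g η (exp (s * I))
      = ((η ^ 5 * ‖j8g η (exp (s * I))‖ ^ 2 : ℝ) : ℂ) := by
    intro s
    unfold j8F
    rw [j8P_of_mem (by rw [Complex.norm_exp_ofReal_mul_I]), mul_assoc, Complex.conj_mul']
    push_cast
    ring
  have hmid : (∫ s in (-(L / 2))..(L / 2), h s)
      = (∫ s in (-(L / 2))..(L / 2), (f (exp (s * I)) - j8F η (exp (s * I))) * j8g η (exp (s * I)))
        + ((∫ s in (-(L / 2))..(L / 2), η ^ 5 * ‖j8g η (exp (s * I))‖ ^ 2 : ℝ) : ℂ) := by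
    rw [← intervalIntegral.integral_ofReal, ← intervalIntegral.integral_add]
    · apply intervalIntegral.integral_congr
      intro s _
      simp only [hh, ← hPe]
      ring
    · apply Continuous.intervalIntegrable
      apply Continuous.mul _ hgc
      apply hfc.sub
      have h1 : Continuous (fun s : ℝ => j8F η (exp (s * I))) :=
        (j8F_cont hη (by linarith)).comp (by fun_prop)
      exact h1
    · apply Continuous.intervalIntegrable
      apply Complex.continuous_ofReal.comp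
      exact continuous_const.mul (hgc.norm.pow 2)
  have herr : ‖∫ s in (-(L / 2))..(L / 2), (f (exp (s * I)) - j8F η (exp (s * I)))
      * j8g η (exp (s * I))‖ ≤ L * (E * (η ^ 4)⁻¹) := by
    have h1 := intervalIntegral.norm_integral_le_of_norm_le_const (a := -(L / 2)) (b := L / 2)
      (f := fun s : ℝ => (f (exp (s * I)) - j8F η (exp (s * I))) * j8g η (exp (s * I)))
      (C := E * (η ^ 4)⁻¹) ?_
    · rw [show L / 2 - -(L / 2) = L by ring, abs_of_pos hL] at h1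
      linarith
    · intro s hs
      rw [uIoc_of_le (by linarith)] at hs
      have hs1 : |s| ≤ L / 2 := abs_le.2 ⟨hs.1.le, hs.2⟩
      rw [norm_mul]
      have hE1 := hE s hs1
      exact mul_le_mul hE1 (j8g_norm hη (by rw [Complex.norm_exp_ofReal_mul_I])) (norm_nonneg _)
        ((norm_nonneg _).trans hE1)
  have hpos : 2 * η * (η ^ 5 * (1 / (2 * η) ^ 8))
      ≤ ∫ s in (-(L / 2))..(L / 2), η ^ 5 * ‖j8g η (exp (s * I))‖ ^ 2 := by
    have hc1 : Continuous (fun s : ℝ => η ^ 5 * ‖j8g η (exp (s * I))‖ ^ 2) :=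
      continuous_const.mul (hgc.norm.pow 2)
    have h1 : ∫ s in (-η)..η, (η ^ 5 * (1 / (2 * η) ^ 8))
        ≤ ∫ s in (-η)..η, η ^ 5 * ‖j8g η (exp (s * I))‖ ^ 2 := by
      apply intervalIntegral.integral_mono_on (by linarith) (by simp)
        (hc1.intervalIntegrable _ _)
      intro s hs
      apply mul_le_mul_of_nonneg_left _ (by positivity)
      exact j8g_near hη (abs_le.2 ⟨hs.1, hs.2⟩)
    rw [intervalIntegral.integral_const, smul_eq_mul] at h1
    have h2 : ∫ s in (-η)..η, η ^ 5 * ‖j8g η (exp (s * I))‖ ^ 2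
        ≤ ∫ s in (-(L / 2))..(L / 2), η ^ 5 * ‖j8g η (exp (s * I))‖ ^ 2 := by
      apply intervalIntegral.integral_mono_interval (by linarith) (by linarith) hηL
      · exact Filter.Eventually.of_forall fun s => by positivity
      · exact hc1.intervalIntegrable _ _
    linarith
  have hfinal : ‖(((∫ s in (-(L / 2))..(L / 2), η ^ 5 * ‖j8g η (exp (s * I))‖ ^ 2 : ℝ)) : ℂ)‖
      ≤ L * (E * (η ^ 4)⁻¹) + 2 * (7 * B * (2 / L)) := by
    have h1 : (((∫ s in (-(L / 2))..(L / 2), η ^ 5 * ‖j8g η (exp (s * I))‖ ^ 2 : ℝ)) : ℂ)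
        = -(∫ s in (-(L / 2))..(L / 2), (f (exp (s * I)) - j8F η (exp (s * I)))
            * j8g η (exp (s * I)))
          - (∫ s in (-Real.pi)..(-(L / 2)), h s) - (∫ s in (L / 2)..Real.pi, h s) := by
      rw [hmid] at hsplit
      linear_combination hsplit
    rw [h1]
    refine (norm_sub_le _ _).trans ?_
    have h2 := norm_sub_le (-(∫ s in (-(L / 2))..(L / 2), (f (exp (s * I)) - j8F η (exp (s * I)))
            * j8g η (exp (s * I)))) (∫ s in (-Real.pi)..(-(L / 2)), h s)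
    rw [norm_neg] at h2
    linarith
  rw [Complex.norm_real] at hfinal
  exact (hpos.trans (le_abs_self _)).trans hfinal

/-! ### the core estimate -/

lemma j8_core {f D : ℂ → ℂ} {M C₂ : ℝ} (hM : 1 ≤ M) (hC₂ : 0 ≤ C₂)
    (hd : DifferentiableOn ℂ f (ball 0 1)) (hc : ContinuousOn f (closedBall 0 1))
    (hZ : ZClass M f D)
    (hF : ∀ a ∈ closedBall (0 : ℂ) 1, ∀ b ∈ closedBall (0 : ℂ) 1, ∀ c ∈ closedBall (0 : ℂ) 1,
        a ≠ b → a ≠ c → ‖a - b‖ ≤ ‖a - c‖ →
        ‖sl f a b - sl f a c‖ ≤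
          C₂ * M * (1 + max 0 (Real.log (‖a - c‖ / max ‖a - b‖ (1 - ‖a‖)))))
    {L κ : ℝ} (hL : 0 < L) (hL1 : L ≤ 1) (hκ : 2 ≤ κ)
    (hX : ∀ s : ℝ, |s| ≤ L / 2 → ∃ x : ℂ, ‖x‖ ≤ 1 ∧ ‖exp (s * I) - x‖ ≤ L / κ ^ 8 ∧
      f x = j8F (L / κ) x) :
    κ ^ 2 ≤ 2000000 * (1 + C₂) * M := by
  have hpi := Real.pi_pos
  have hpi3 := Real.pi_gt_three
  have hκ0 : 0 < κ := by linarith
  have hκ4 : (16 : ℝ) ≤ κ ^ 4 := by
    calc (16 : ℝ) = 2 ^ 4 := by norm_num
      _ ≤ κ ^ 4 := pow_le_pow_left₀ (by norm_num) hκ 4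
  have hκ8 : (256 : ℝ) ≤ κ ^ 8 := by
    calc (256 : ℝ) = 2 ^ 8 := by norm_num
      _ ≤ κ ^ 8 := pow_le_pow_left₀ (by norm_num) hκ 8
  set δ : ℝ := L / κ ^ 8 with hδ
  have hδ0 : 0 < δ := by positivity
  have hδL : δ ≤ L / 256 := div_le_div_of_nonneg_left hL.le (by norm_num) hκ8
  have hδ4 : δ ≤ L / κ ^ 4 := by
    apply div_le_div_of_nonneg_left hL.le (by positivity)
    exact pow_le_pow_right₀ (by linarith) (by norm_num)
  set η : ℝ := L / κ with hη
  have hη0 : 0 < η := by positivity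
  have hηL : η ≤ L / 2 := div_le_div_of_nonneg_left hL.le (by norm_num) hκ
  have hη1 : η ≤ 1 := by linarith
  set p : ℂ := ((1 - L / 2 : ℝ) : ℂ) with hp
  have hpn : ‖p‖ = 1 - L / 2 := by
    rw [hp, Complex.norm_real, Real.norm_of_nonneg (by linarith)]
  have hpb : p ∈ ball (0 : ℂ) 1 := by
    rw [mem_ball_zero_iff, hpn]; linarith
  have hZp : ∀ z : ℂ, ‖z‖ ≤ 1 → ‖f z - f p - D p * (z - p)‖ ≤ M * ‖z - p‖ ^ 2 / (L / 2) := by
    intro z hz
    have := hZ p hpb z (by simpa using hz)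
    rw [hpn] at this
    rwa [show 1 - (1 - L / 2) = L / 2 by ring] at this
  have h1p : ‖(1 : ℂ) - p‖ = L / 2 := by
    have : (1 : ℂ) - p = ((L / 2 : ℝ) : ℂ) := by rw [hp]; push_cast; ring
    rw [this, Complex.norm_real, Real.norm_of_nonneg (by linarith)]
  have hwp : ∀ s : ℝ, ‖exp (s * I) - p‖ ≤ |s| + L / 2 := by
    intro s
    have : exp (s * I) - p = (exp (s * I) - 1) + (1 - p) := by ring
    rw [this]
    refine (norm_add_le _ _).trans ?_
    rw [h1p]
    have := j8_exp_sub_one s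
    linarith
  have hwp' : ∀ s : ℝ, L / 2 ≤ ‖exp (s * I) - p‖ := by
    intro s
    have h1 := norm_sub_norm_le (exp (s * I)) p
    rw [Complex.norm_exp_ofReal_mul_I, hpn] at h1
    linarith
  have hxp : ∀ s : ℝ, |s| ≤ L / 2 → ∀ x : ℂ, ‖exp (s * I) - x‖ ≤ δ → ‖x - p‖ ≤ 9 / 8 * L := by
    intro s hs x hx
    have : x - p = -(exp (s * I) - x) + (exp (s * I) - p) := by ring
    rw [this]
    refine (norm_add_le _ _).trans ?_
    rw [norm_neg]
    have := hwp s
    linarith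
  have hFx : ∀ x : ℂ, ‖x‖ ≤ 1 → ‖x - p‖ ≤ 9 / 8 * L →
      ‖f x - f p - D p * (x - p)‖ ≤ 3 * M * L := by
    intro x hx1 hx2
    refine (hZp x hx1).trans ?_
    rw [div_le_iff₀ (by positivity)]
    have h1 : ‖x - p‖ ^ 2 ≤ (9 / 8 * L) ^ 2 := pow_le_pow_left₀ (norm_nonneg _) hx2 2
    have h2 : M * ‖x - p‖ ^ 2 ≤ M * (9 / 8 * L) ^ 2 := mul_le_mul_of_nonneg_left h1 (by linarith)
    have h3 : 0 ≤ M * L ^ 2 := by positivity
    nlinarith
  -- two points near the end points of the arc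
  obtain ⟨x₁, hx₁, hx₁d, hx₁f⟩ := hX (L / 2) (by rw [abs_of_pos (by positivity)])
  obtain ⟨x₂, hx₂, hx₂d, hx₂f⟩ := hX (-(L / 2)) (by rw [abs_neg, abs_of_pos (by positivity)])
  have hx₁p := hxp (L / 2) (by rw [abs_of_pos (by positivity)]) x₁ hx₁d
  have hx₂p := hxp (-(L / 2)) (by rw [abs_neg, abs_of_pos (by positivity)]) x₂ hx₂d
  have hchord : L / 2 ≤ ‖x₁ - x₂‖ := by
    have h1 : 2 * Real.sin (L / 2) ≤ ‖exp ((L / 2 : ℝ) * I) - exp ((-(L / 2) : ℝ) * I)‖ := by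
      have h2 := Complex.abs_im_le_norm (exp ((L / 2 : ℝ) * I) - exp ((-(L / 2) : ℝ) * I))
      rw [Complex.sub_im, Complex.exp_ofReal_mul_I_im, Complex.exp_ofReal_mul_I_im,
        Real.sin_neg] at h2
      have h3 := le_abs_self (Real.sin (L / 2) - -Real.sin (L / 2))
      linarith
    have h2 := Real.mul_le_sin (x := L / 2) (by positivity) (by linarith)
    have h3 : (0.63 : ℝ) * (L / 2) ≤ 2 / Real.pi * (L / 2) := by
      apply mul_le_mul_of_nonneg_right _ (by positivity)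
      rw [le_div_iff₀ hpi]
      have := Real.pi_lt_d2
      linarith
    have h4 : exp ((L / 2 : ℝ) * I) - exp ((-(L / 2) : ℝ) * I)
        = (exp ((L / 2 : ℝ) * I) - x₁) + (x₁ - x₂) - (exp ((-(L / 2) : ℝ) * I) - x₂) := by ring
    have h5 : ‖exp ((L / 2 : ℝ) * I) - exp ((-(L / 2) : ℝ) * I)‖ ≤ δ + ‖x₁ - x₂‖ + δ := by
      rw [h4]
      refine (norm_sub_le _ _).trans ?_
      refine add_le_add ((norm_add_le _ _).trans ?_) hx₂d
      linarith
    linarith
  have hx12 : ‖x₁ - x₂‖ ≤ 9 / 4 * L := by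
    have : x₁ - x₂ = (x₁ - p) - (x₂ - p) := by ring
    rw [this]
    refine (norm_sub_le _ _).trans ?_
    linarith
  have hDp : ‖D p‖ ≤ 60 * M := by
    have h1 : D p * (x₁ - x₂) = (f x₁ - f x₂) - ((f x₁ - f p - D p * (x₁ - p))
        - (f x₂ - f p - D p * (x₂ - p))) := by ring
    have h2 : ‖D p‖ * ‖x₁ - x₂‖ ≤ 10 * ‖x₁ - x₂‖ + (3 * M * L + 3 * M * L) := by
      rw [← norm_mul, h1]
      refine (norm_sub_le _ _).trans ?_
      apply add_le_add
      · rw [hx₁f, hx₂f]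
        exact j8F_lip hη0 hη1 _ _
      · refine (norm_sub_le _ _).trans ?_
        exact add_le_add (hFx x₁ hx₁ hx₁p) (hFx x₂ hx₂ hx₂p)
    have h3 : ‖D p‖ * (L / 2) ≤ ‖D p‖ * ‖x₁ - x₂‖ :=
      mul_le_mul_of_nonneg_left hchord (norm_nonneg _)
    have h4 : ‖D p‖ * L ≤ (60 * M) * L := by nlinarith
    exact le_of_mul_le_mul_right h4 hL
  have hfp : ‖f p‖ ≤ 72 * M * L := by
    have h1 : f p = f x₁ - (f x₁ - f p - D p * (x₁ - p)) - D p * (x₁ - p) := by ring
    rw [h1]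
    refine (norm_sub_le _ _).trans ?_
    have h2 : ‖D p * (x₁ - p)‖ ≤ 60 * M * (9 / 8 * L) := by
      rw [norm_mul]
      exact mul_le_mul hDp hx₁p (norm_nonneg _) (by positivity)
    have h3 := norm_sub_le (f x₁) (f x₁ - f p - D p * (x₁ - p))
    have h4 := hFx x₁ hx₁ hx₁p
    have h5 : ‖f x₁‖ ≤ η := by rw [hx₁f]; exact j8F_bound hη0 _
    nlinarith
  -- growth off the arc
  have hgrow : ∀ s : ℝ, L / 2 ≤ |s| → |s| ≤ Real.pi → ‖f (exp (s * I))‖ ≤ 540 * M / L * s ^ 2 := by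
    intro s hs1 _
    set w : ℂ := exp (s * I) with hw
    have hw1 : ‖w‖ ≤ 1 := by rw [hw, Complex.norm_exp_ofReal_mul_I]
    have h1 : f w = f p + D p * (w - p) + (f w - f p - D p * (w - p)) := by ring
    have h2 : ‖w - p‖ ≤ 2 * |s| := by have := hwp s; linarith
    have h3 : ‖D p * (w - p)‖ ≤ 60 * M * (2 * |s|) := by
      rw [norm_mul]
      exact mul_le_mul hDp h2 (norm_nonneg _) (by positivity)
    have h4 : ‖f w - f p - D p * (w - p)‖ ≤ M * (2 * |s|) ^ 2 / (L / 2) := by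
      refine (hZp w hw1).trans ?_
      apply div_le_div_of_nonneg_right _ (by positivity)
      apply mul_le_mul_of_nonneg_left _ (by linarith)
      exact pow_le_pow_left₀ (norm_nonneg _) h2 2
    have h5 : ‖f w‖ ≤ 72 * M * L + 60 * M * (2 * |s|) + M * (2 * |s|) ^ 2 / (L / 2) := by
      rw [h1]
      refine (norm_add_le _ _).trans ?_
      refine add_le_add ((norm_add_le _ _).trans ?_) h4
      linarith
    refine h5.trans ?_
    have h6 : M * (2 * |s|) ^ 2 / (L / 2) = 8 * M * |s| ^ 2 / L := by field_simp; ring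
    rw [h6, ← sq_abs s]
    have h7 : 72 * M * L + 60 * M * (2 * |s|) + 8 * M * |s| ^ 2 / L
        = (72 * M * L ^ 2 + 120 * M * |s| * L + 8 * M * |s| ^ 2) / L := by field_simp; ring
    rw [h7, div_mul_eq_mul_div]
    apply div_le_div_of_nonneg_right _ hL.le
    have h8 : L ≤ 2 * |s| := by linarith
    have h9 : L ^ 2 ≤ 4 * |s| ^ 2 := by nlinarith
    have h10 : |s| * L ≤ 2 * |s| ^ 2 := by nlinarith [abs_nonneg s]
    nlinarith [mul_le_mul_of_nonneg_left h9 (by linarith : (0:ℝ) ≤ M),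
      mul_le_mul_of_nonneg_left h10 (by linarith : (0:ℝ) ≤ M), mul_nonneg (by linarith : (0:ℝ) ≤ M)
      (sq_nonneg |s|)]
  -- the error on the arc
  have herr : ∀ s : ℝ, |s| ≤ L / 2 →
      ‖f (exp (s * I)) - j8F η (exp (s * I))‖ ≤ L / κ ^ 4 * ((72 + 3 * C₂) * M) := by
    intro s hs
    obtain ⟨x, hx1, hxd, hxf⟩ := hX s hs
    set w : ℂ := exp (s * I) with hw
    have hw1 : ‖w‖ = 1 := by rw [hw, Complex.norm_exp_ofReal_mul_I]
    have hwp1 : ‖w - p‖ ≤ L := by have := hwp s; linarith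
    have hwp2 : L / 2 ≤ ‖w - p‖ := hwp' s
    have hnn : 0 ≤ L / κ ^ 4 * ((72 + 3 * C₂) * M) := by positivity
    by_cases hwx : w = x
    · rw [hwx, hxf, sub_self, norm_zero]; exact hnn
    set ρ : ℝ := ‖w - x‖ with hρ
    have hρ0 : 0 < ρ := norm_pos_iff.2 (sub_ne_zero.2 hwx)
    have hwpne : w ≠ p := by
      intro h; rw [h, sub_self, norm_zero] at hwp2; linarith
    have h1 := hF w (by simp [hw1]) x (by simpa using hx1) p (ball_subset_closedBall hpb) hwx hwpne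
      (by linarith)
    rw [hw1, sub_self, ← hρ, max_eq_left hρ0.le] at h1
    have hlog : max 0 (Real.log (‖w - p‖ / ρ)) ≤ 2 * Real.sqrt (L / ρ) := by
      apply max_le (by positivity)
      have h2 : Real.log (‖w - p‖ / ρ) ≤ Real.log (L / ρ) := by
        apply Real.log_le_log
        · apply div_pos _ hρ0; linarith
        · exact div_le_div_of_nonneg_right hwp1 hρ0.le
      have h3 : Real.log (Real.sqrt (L / ρ)) = Real.log (L / ρ) / 2 := Real.log_sqrt (by positivity)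
      have h4 : Real.log (Real.sqrt (L / ρ)) ≤ Real.sqrt (L / ρ) - 1 :=
        Real.log_le_sub_one_of_pos (Real.sqrt_pos.2 (by positivity))
      linarith
    have hslp : ‖sl f w p‖ ≤ 62 * M := by
      unfold sl
      rw [norm_div, div_le_iff₀ (norm_pos_iff.2 (sub_ne_zero.2 hwpne.symm)), norm_sub_rev p w]
      have h2 : f p - f w = -(D p * (w - p)) - (f w - f p - D p * (w - p)) := by ring
      rw [h2]
      refine (norm_sub_le _ _).trans ?_
      rw [norm_neg, norm_mul]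
      have h3 := hZp w hw1.le
      have h4 : M * ‖w - p‖ ^ 2 / (L / 2) ≤ 2 * M * ‖w - p‖ := by
        rw [div_le_iff₀ (by positivity)]
        have h5 : 0 ≤ M * ‖w - p‖ := by positivity
        nlinarith
      have h5 : ‖D p‖ * ‖w - p‖ ≤ 60 * M * ‖w - p‖ :=
        mul_le_mul_of_nonneg_right hDp (norm_nonneg _)
      linarith
    have hslx : ‖sl f w x‖ ≤ 62 * M + C₂ * M * (1 + 2 * Real.sqrt (L / ρ)) := by
      have h2 : sl f w x = sl f w p + (sl f w x - sl f w p) := by ring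
      rw [h2]
      refine (norm_add_le _ _).trans (add_le_add hslp (h1.trans ?_))
      apply mul_le_mul_of_nonneg_left _ (by positivity)
      linarith
    have hfx : ‖f x - f w‖ = ρ * ‖sl f w x‖ := by
      unfold sl
      rw [norm_div, norm_sub_rev x w, ← hρ]
      field_simp
    have hρsq : ρ * Real.sqrt (L / ρ) ≤ L / κ ^ 4 := by
      have h2 : (ρ * Real.sqrt (L / ρ)) ^ 2 ≤ (L / κ ^ 4) ^ 2 := by
        rw [mul_pow, Real.sq_sqrt (by positivity)]
        have h3 : ρ ^ 2 * (L / ρ) = ρ * L := by field_simp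
        rw [h3]
        have h4 : (L / κ ^ 4) ^ 2 = δ * L := by rw [hδ]; field_simp
        rw [h4]
        exact mul_le_mul_of_nonneg_right hxd hL.le
      exact (pow_le_pow_iff_left₀ (by positivity) (by positivity) (by norm_num)).1 h2
    have hρ4 : ρ ≤ L / κ ^ 4 := hxd.trans hδ4
    have hfx2 : ‖f x - f w‖ ≤ L / κ ^ 4 * ((62 + 3 * C₂) * M) := by
      rw [hfx]
      have h2 : ρ * ‖sl f w x‖ ≤ ρ * (62 * M + C₂ * M * (1 + 2 * Real.sqrt (L / ρ))) :=
        mul_le_mul_of_nonneg_left hslx hρ0.le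
      have h3 : ρ * (62 * M + C₂ * M * (1 + 2 * Real.sqrt (L / ρ)))
          = ρ * (62 * M + C₂ * M) + 2 * (C₂ * M) * (ρ * Real.sqrt (L / ρ)) := by ring
      have h4 : ρ * (62 * M + C₂ * M) ≤ L / κ ^ 4 * (62 * M + C₂ * M) :=
        mul_le_mul_of_nonneg_right hρ4 (by positivity)
      have h5 : 2 * (C₂ * M) * (ρ * Real.sqrt (L / ρ)) ≤ 2 * (C₂ * M) * (L / κ ^ 4) :=
        mul_le_mul_of_nonneg_left hρsq (by positivity)
      linarith
    have hphi : ‖j8F η x - j8F η w‖ ≤ L / κ ^ 4 * (10 * M) := by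
      refine (j8F_lip hη0 hη1 x w).trans ?_
      rw [norm_sub_rev x w, ← hρ]
      have h2 : 0 ≤ L / κ ^ 4 := by positivity
      nlinarith
    have h2 : f w - j8F η w = -(f x - f w) + (j8F η x - j8F η w) := by rw [hxf]; ring
    rw [h2]
    refine (norm_add_le _ _).trans ?_
    rw [norm_neg]
    linarith
  have hmain := j8_main hη0 hηL hL1 hd hc (by positivity : (0 : ℝ) ≤ 540 * M / L) herr hgrow
  have e1 : 2 * η * (η ^ 5 * (1 / (2 * η) ^ 8)) = κ ^ 2 / (128 * L ^ 2) := by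
    rw [hη]; field_simp; norm_num
  have e2 : L * (L / κ ^ 4 * ((72 + 3 * C₂) * M) * (η ^ 4)⁻¹) + 2 * (7 * (540 * M / L) * (2 / L))
      = ((72 + 3 * C₂) * M + 15120 * M) / L ^ 2 := by
    rw [hη]; field_simp; ring
  rw [e1, e2, div_le_div_iff₀ (by positivity) (by positivity)] at hmain
  have hL2 : 0 < L ^ 2 := by positivity
  have h3 : κ ^ 2 ≤ ((72 + 3 * C₂) * M + 15120 * M) * 128 := by
    have : κ ^ 2 * L ^ 2 ≤ (((72 + 3 * C₂) * M + 15120 * M) * 128) * L ^ 2 := by linarith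
    exact le_of_mul_le_mul_right this hL2
  have h4 : 0 ≤ C₂ * M := by positivity
  nlinarith

/-! ### assembly -/

lemma j8_arc {X : Set ℂ} (hneg : ¬ CondK X) (ε : ℝ) (hε : 0 < ε) :
    ∃ t L : ℝ, 0 < L ∧ L ≤ 1 ∧ ∀ s : ℝ, |s| ≤ L / 2 →
      ∃ x ∈ X, ‖exp ((t + s : ℝ) * I) - x‖ ≤ ε * L := by
  have hpi := Real.pi_lt_d2
  have hpi0 := Real.pi_pos
  unfold CondK CondKWith at hneg
  push Not at hneg
  obtain ⟨α, β, hαβ, hβ, h⟩ := hneg (ε / 7) (by positivity)
  have hL2 : ε / 7 * (β - α) ≤ ε * min 1 (β - α) := by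
    rcases le_total 1 (β - α) with h1 | h1
    · rw [min_eq_left h1]; nlinarith
    · rw [min_eq_right h1]; nlinarith
  refine ⟨(α + β) / 2, min 1 (β - α), lt_min one_pos (by linarith), min_le_left _ _, ?_⟩
  intro s hs
  have hs2 : |s| ≤ (β - α) / 2 := by
    have := min_le_right 1 (β - α); linarith
  have hs3 := abs_le.1 hs2
  obtain ⟨x, hx, hxd⟩ := h ((α + β) / 2 + s) ⟨by linarith [hs3.1], by linarith [hs3.2]⟩
  exact ⟨x, hx, hxd.le.trans hL2⟩

/-- J8: necessity of (K), from uniform interpolation `hU`. `hF` (slope bound) and `hD` are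
proved elsewhere. -/
theorem condK_of_uniform {X : Set ℂ} (hX : X ⊆ closedBall 0 1)
    (hU : ∀ (φ : ℕ → ℂ → ℂ) (C₀ : ℝ), (∀ n, Continuous (φ n)) →
      (∀ n z h, ‖φ n (z + h) + φ n (z - h) - 2 * φ n z‖ ≤ C₀ * ‖h‖) →
      (∀ n z, ‖φ n z‖ ≤ C₀) →
      ∃ M : ℝ, ∀ n, ∃ f D : ℂ → ℂ, ZClass M f D ∧ ∀ x ∈ X, f x = φ n x)
    (hD : ∀ (M : ℝ) (f D : ℂ → ℂ), ZClass M f D →
      DifferentiableOn ℂ f (ball 0 1) ∧ ContinuousOn f (closedBall 0 1))
    (hF : ∃ C₂ : ℝ, 0 ≤ C₂ ∧ ∀ (M : ℝ) (f D : ℂ → ℂ), 0 ≤ M → ZClass M f D →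
      ∀ a ∈ closedBall (0 : ℂ) 1, ∀ b ∈ closedBall (0 : ℂ) 1, ∀ c ∈ closedBall (0 : ℂ) 1,
        a ≠ b → a ≠ c → ‖a - b‖ ≤ ‖a - c‖ →
        ‖sl f a b - sl f a c‖ ≤
          C₂ * M * (1 + max 0 (Real.log (‖a - c‖ / max ‖a - b‖ (1 - ‖a‖))))) :
    CondK X := by
  by_contra hneg
  obtain ⟨C₂, hC₂, hF⟩ := hF
  have hκ : ∀ n : ℕ, (2 : ℝ) ≤ (n : ℝ) + 2 := fun n => by
    have : (0 : ℝ) ≤ n := Nat.cast_nonneg n
    linarith
  have hκ0 : ∀ n : ℕ, (0 : ℝ) < (n : ℝ) + 2 := fun n => by linarith [hκ n]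
  choose t L hL hL1 harc using fun n : ℕ => j8_arc hneg (1 / ((n : ℝ) + 2) ^ 8)
    (one_div_pos.2 (pow_pos (hκ0 n) 8))
  set u : ℕ → ℂ := fun n => exp (t n * I) with hu
  have hun : ∀ n, ‖u n‖ = 1 := fun n => by rw [hu]; exact Complex.norm_exp_ofReal_mul_I _
  have huc : ∀ n, u n * (starRingEnd ℂ) (u n) = 1 := by
    intro n; rw [Complex.mul_conj', hun]; norm_num
  have hη0 : ∀ n, 0 < L n / ((n : ℝ) + 2) := fun n => div_pos (hL n) (hκ0 n)
  have hη1 : ∀ n, L n / ((n : ℝ) + 2) ≤ 1 := fun n => by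
    rw [div_le_one (hκ0 n)]; linarith [hL1 n, hκ n]
  obtain ⟨M, hMn⟩ := hU (fun n z => j8F (L n / ((n : ℝ) + 2)) ((starRingEnd ℂ) (u n) * z)) 20
    (by
      intro n
      exact (j8F_cont (hη0 n) (hη1 n)).comp (continuous_const.mul continuous_id))
    (by
      intro n z h
      set η := L n / ((n : ℝ) + 2)
      have h1 : j8F η ((starRingEnd ℂ) (u n) * (z + h)) + j8F η ((starRingEnd ℂ) (u n) * (z - h))
          - 2 * j8F η ((starRingEnd ℂ) (u n) * z)
          = (j8F η ((starRingEnd ℂ) (u n) * (z + h)) - j8F η ((starRingEnd ℂ) (u n) * z))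
          + (j8F η ((starRingEnd ℂ) (u n) * (z - h)) - j8F η ((starRingEnd ℂ) (u n) * z)) := by
        ring
      simp only [h1]
      refine (norm_add_le _ _).trans ?_
      have h2 := j8F_lip (hη0 n) (hη1 n) ((starRingEnd ℂ) (u n) * (z + h))
        ((starRingEnd ℂ) (u n) * z)
      have h3 := j8F_lip (hη0 n) (hη1 n) ((starRingEnd ℂ) (u n) * (z - h))
        ((starRingEnd ℂ) (u n) * z)
      rw [← mul_sub, norm_mul, Complex.norm_conj, hun, one_mul, add_sub_cancel_left] at h2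
      rw [← mul_sub, norm_mul, Complex.norm_conj, hun, one_mul,
        show z - h - z = -h by ring, norm_neg] at h3
      linarith)
    (by
      intro n z
      have := j8F_bound (hη0 n) ((starRingEnd ℂ) (u n) * z)
      have := hη1 n
      linarith)
  set M' : ℝ := max M 1 with hM'
  have hM1 : 1 ≤ M' := le_max_right _ _
  have key : ∀ n : ℕ, ((n : ℝ) + 2) ^ 2 ≤ 2000000 * (1 + C₂) * M' := by
    intro n
    obtain ⟨f, D, hZ, hfX⟩ := hMn n
    have hZ' : ZClass M' (fun z => f (u n * z)) (fun z => u n * D (u n * z)) := by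
      intro p hp z hz
      have hp1 : ‖u n * p‖ = ‖p‖ := by rw [norm_mul, hun, one_mul]
      have hz1 : ‖u n * z‖ = ‖z‖ := by rw [norm_mul, hun, one_mul]
      have hpn : ‖p‖ < 1 := by simpa using hp
      have h1 := hZ (u n * p) (by rw [mem_ball_zero_iff, hp1]; exact hpn) (u n * z)
        (by rw [mem_closedBall_zero_iff, hz1]; simpa using hz)
      rw [← mul_sub, norm_mul (u n) (z - p), hun, one_mul, hp1] at h1
      have h2 : f (u n * z) - f (u n * p) - u n * D (u n * p) * (z - p)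
          = f (u n * z) - f (u n * p) - D (u n * p) * (u n * (z - p)) := by ring
      simp only [h2]
      refine h1.trans ?_
      apply div_le_div_of_nonneg_right _ (by linarith)
      exact mul_le_mul_of_nonneg_right (le_max_left _ _) (by positivity)
    obtain ⟨hd, hc⟩ := hD _ _ _ hZ'
    refine j8_core hM1 hC₂ hd hc hZ' (hF M' _ _ (by linarith) hZ') (hL n) (hL1 n) (hκ n) ?_
    intro s hs
    obtain ⟨x, hx, hxd⟩ := harc n s hs
    have hx1 : ‖x‖ ≤ 1 := by simpa using hX hx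
    refine ⟨(starRingEnd ℂ) (u n) * x, ?_, ?_, ?_⟩
    · rw [norm_mul, Complex.norm_conj, hun, one_mul]; exact hx1
    · have h1 : exp (s * I) - (starRingEnd ℂ) (u n) * x
          = (starRingEnd ℂ) (u n) * (exp ((t n + s : ℝ) * I) - x) := by
        have h2 : exp ((t n + s : ℝ) * I) = u n * exp (s * I) := by
          rw [hu]; simp only; rw [← Complex.exp_add]; congr 1; push_cast; ring
        rw [h2, mul_sub, ← mul_assoc, mul_comm ((starRingEnd ℂ) (u n)) (u n), huc, one_mul]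
      rw [h1, norm_mul, Complex.norm_conj, hun, one_mul]
      refine hxd.trans (le_of_eq ?_)
      ring
    · have h1 : u n * ((starRingEnd ℂ) (u n) * x) = x := by
        rw [← mul_assoc, huc, one_mul]
      simp only [h1]
      exact hfX x hx
  obtain ⟨n, hn⟩ := exists_nat_gt (2000000 * (1 + C₂) * M')
  have h1 := key n
  have h2 : (0 : ℝ) ≤ n := Nat.cast_nonneg n
  nlinarith

end ZygInt.J8
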