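import Mathlib
import Pool.Agent.ZygInt.Defs

namespace ZygInt.J17

open Complex Metric Set Filter Topology

private lemma j17_log_le {x : ℝ} (hx : 0 < x) : Real.log x ≤ x := by
  have := Real.log_le_sub_one_of_pos hx
  linarith

private lemma j17_sn_nonneg (a b c : ℂ) : 0 ≤ sn a b c := by
  unfold sn; positivity

private lemma j17_sn_sphere {a b c : ℂ} (ha : ‖a‖ = 1) (hb : ‖b‖ = 1) (hc : ‖c‖ = 1)
    (hab : a ≠ b) (hac : a ≠ c) : sn a b c = ‖b - c‖ / 2 := by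
  have ha0 : a ≠ 0 := by rintro rfl; simp at ha
  have hb0 : b ≠ 0 := by rintro rfl; simp at hb
  have hc0 : c ≠ 0 := by rintro rfl; simp at hc
  have hA : (starRingEnd ℂ) a = a⁻¹ := (Complex.inv_eq_conj ha).symm
  have hB : (starRingEnd ℂ) b = b⁻¹ := (Complex.inv_eq_conj hb).symm
  have hC : (starRingEnd ℂ) c = c⁻¹ := (Complex.inv_eq_conj hc).symm
  set w : ℂ := (b - a) * (starRingEnd ℂ) (c - a) with hw
  have h1 : w - (starRingEnd ℂ) w = (b - a) * (a - c) * (b - c) / (a * b * c) := by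
    simp only [hw, map_mul, map_sub, map_inv₀, hA, hB, hC, inv_inv]
    field_simp
    ring
  have h2 := Complex.sub_conj w
  rw [h1] at h2
  have h3 : ‖b - a‖ * ‖a - c‖ * ‖b - c‖ = 2 * |w.im| := by
    have := congrArg norm h2
    rw [norm_div, norm_mul, norm_mul, norm_mul, norm_mul, ha, hb, hc] at this
    rw [norm_mul, Complex.norm_real, Complex.norm_I, Real.norm_eq_abs, abs_mul, abs_two] at this
    linarith
  have hba : 0 < ‖b - a‖ := norm_pos_iff.2 (sub_ne_zero.2 hab.symm)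
  have hca : 0 < ‖c - a‖ := norm_pos_iff.2 (sub_ne_zero.2 hac.symm)
  unfold sn
  rw [← hw, div_eq_div_iff (by positivity) two_ne_zero]
  rw [norm_sub_rev a c] at h3
  linarith

/-- J17a: subsets of the circle satisfy (T1) and (T2). -/
theorem condT_of_subset_sphere {X : Set ℂ} (hX : X ⊆ sphere 0 1) : CondT1 X ∧ CondT2 X := by
  have hn : ∀ x ∈ X, ‖x‖ = 1 := fun x hx => mem_sphere_zero_iff_norm.1 (hX hx)
  refine ⟨⟨0, fun a ha b hb c hc _ _ _ _ => ?_⟩, ⟨2, fun a ha b hb c hc hab hac hbc hle => ?_⟩⟩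
  · rw [hn a ha]; simp
  have hd : 0 < ‖a - b‖ := norm_pos_iff.2 (sub_ne_zero.2 hab)
  have hD : 0 < ‖a - c‖ := norm_pos_iff.2 (sub_ne_zero.2 hac)
  have hD2 : ‖a - c‖ ≤ 2 := by
    calc ‖a - c‖ ≤ ‖a‖ + ‖c‖ := norm_sub_le _ _
      _ = 2 := by rw [hn a ha, hn c hc]; norm_num
  rw [hn a ha, sub_self, max_eq_left hd.le]
  have h1 : 0 ≤ Real.log (‖a - c‖ / ‖a - b‖) := Real.log_nonneg ((one_le_div hd).2 hle)
  rw [max_eq_right h1]
  have h2 : 0 ≤ Real.log (2 / ‖a - c‖) := Real.log_nonneg ((one_le_div hD).2 hD2)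
  have h3 : sn a b c ≤ ‖a - c‖ := by
    rw [j17_sn_sphere (hn a ha) (hn b hb) (hn c hc) hab hac]
    have : ‖b - c‖ ≤ ‖a - b‖ + ‖a - c‖ := by
      calc ‖b - c‖ = ‖(a - c) - (a - b)‖ := by congr 1; ring
        _ ≤ ‖a - c‖ + ‖a - b‖ := norm_sub_le _ _
        _ = _ := add_comm _ _
    linarith
  have h4 : Real.log (2 / ‖a - c‖) ≤ 2 / ‖a - c‖ := j17_log_le (by positivity)
  have h5 : sn a b c * Real.log (2 / ‖a - c‖) ≤ 2 := by
    calc sn a b c * Real.log (2 / ‖a - c‖) ≤ ‖a - c‖ * (2 / ‖a - c‖) :=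
          mul_le_mul h3 h4 h2 hD.le
      _ = 2 := by field_simp
  linarith

private lemma j17_rr_pos {a b : ℂ} (hab : a ≠ b) : 0 < rr a b :=
  lt_of_lt_of_le (norm_pos_iff.2 (sub_ne_zero.2 hab)) (le_max_left _ _)

private lemma j17_rr_le_two {a b : ℂ} (ha : ‖a‖ ≤ 1) (hb : ‖b‖ ≤ 1) : rr a b ≤ 2 := by
  unfold rr
  refine max_le ?_ (max_le ?_ ?_)
  · exact (norm_sub_le _ _).trans (by linarith)
  · linarith [norm_nonneg a]
  · linarith [norm_nonneg b]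

private lemma j17_rr_le {a b : ℂ} : rr a b ≤ 2 * max ‖a - b‖ (1 - ‖a‖) := by
  have h1 : ‖a - b‖ ≤ max ‖a - b‖ (1 - ‖a‖) := le_max_left _ _
  have h2 : 1 - ‖a‖ ≤ max ‖a - b‖ (1 - ‖a‖) := le_max_right _ _
  have h0 : 0 ≤ ‖a - b‖ := norm_nonneg _
  unfold rr
  refine max_le ?_ (max_le ?_ ?_)
  · linarith
  · linarith
  · have : ‖a‖ - ‖b‖ ≤ ‖a - b‖ := norm_sub_norm_le a b
    linarith

/-- J17b: pair bound from (T2). -/
theorem pair_bound {X : Set ℂ} (hX : X ⊆ closedBall 0 1) (hT2 : CondT2 X) :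
    ∃ C : ℝ, 0 ≤ C ∧ ∀ a ∈ X, ∀ b ∈ X, a ≠ b →
      Real.log (2 / ‖a - b‖) ≤ C * (1 + Real.log (2 / rr a b)) := by
  have hn : ∀ x ∈ X, ‖x‖ ≤ 1 := fun x hx => mem_closedBall_zero_iff.1 (hX hx)
  have hrr : ∀ a ∈ X, ∀ b ∈ X, a ≠ b → 0 ≤ Real.log (2 / rr a b) := fun a ha b hb hab =>
    Real.log_nonneg ((one_le_div (j17_rr_pos hab)).2 (j17_rr_le_two (hn a ha) (hn b hb)))
  have hd2 : ∀ a ∈ X, ∀ b ∈ X, ‖a - b‖ ≤ 2 := fun a ha b hb =>
    (norm_sub_le _ _).trans (by linarith [hn a ha, hn b hb])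
  by_cases h3 : ∃ x ∈ X, ∃ y ∈ X, ∃ z ∈ X, x ≠ y ∧ x ≠ z ∧ y ≠ z
  swap
  · by_cases h2 : ∃ p ∈ X, ∃ q ∈ X, p ≠ q
    swap
    · exact ⟨0, le_rfl, fun a ha b hb hab => (h2 ⟨a, ha, b, hb, hab⟩).elim⟩
    obtain ⟨p, hp, q, hq, hpq⟩ := h2
    have hpq0 : 0 < ‖p - q‖ := norm_pos_iff.2 (sub_ne_zero.2 hpq)
    have hC : 0 ≤ Real.log (2 / ‖p - q‖) :=
      Real.log_nonneg ((one_le_div hpq0).2 (hd2 p hp q hq))
    refine ⟨Real.log (2 / ‖p - q‖), hC, fun a ha b hb hab => ?_⟩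
    have hmem : ∀ x ∈ X, x = p ∨ x = q := by
      intro x hx
      by_contra hcon
      push Not at hcon
      exact h3 ⟨x, hx, p, hp, q, hq, hcon.1, hcon.2, hpq⟩
    have heq : ‖a - b‖ = ‖p - q‖ := by
      rcases hmem a ha with rfl | rfl <;> rcases hmem b hb with rfl | rfl
      · exact (hab rfl).elim
      · rfl
      · exact norm_sub_rev _ _
      · exact (hab rfl).elim
    rw [heq]
    have := hrr a ha b hb hab
    nlinarith
  obtain ⟨x1, hx1, x2, hx2, x3, hx3, h12, h13, h23⟩ := h3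
  obtain ⟨C2, hC2⟩ := hT2
  have e12 : 0 < ‖x1 - x2‖ := norm_pos_iff.2 (sub_ne_zero.2 h12)
  have e13 : 0 < ‖x1 - x3‖ := norm_pos_iff.2 (sub_ne_zero.2 h13)
  have e23 : 0 < ‖x2 - x3‖ := norm_pos_iff.2 (sub_ne_zero.2 h23)
  obtain ⟨μ, hμ, m12, m13, m23⟩ : ∃ μ : ℝ, 0 < μ ∧ μ ≤ ‖x1 - x2‖ ∧ μ ≤ ‖x1 - x3‖ ∧ μ ≤ ‖x2 - x3‖ :=
    ⟨min ‖x1 - x2‖ (min ‖x1 - x3‖ ‖x2 - x3‖), lt_min e12 (lt_min e13 e23), min_le_left _ _,
      (min_le_right _ _).trans (min_le_left _ _), (min_le_right _ _).trans (min_le_right _ _)⟩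
  have hμ2 : μ ≤ 2 := m12.trans (hd2 x1 hx1 x2 hx2)
  have hL : 0 ≤ Real.log (4 / μ) := Real.log_nonneg ((one_le_div hμ).2 (by linarith))
  have hC2' : 0 ≤ max C2 0 := le_max_right _ _
  refine ⟨Real.log (4 / μ) + 2 * max C2 0, by positivity, fun a ha b hb hab => ?_⟩
  have hR := hrr a ha b hb hab
  have hd : 0 < ‖a - b‖ := norm_pos_iff.2 (sub_ne_zero.2 hab)
  obtain ⟨x, hx, hax, hbx⟩ : ∃ x ∈ X, μ / 2 ≤ ‖a - x‖ ∧ μ / 2 ≤ ‖b - x‖ := by
    by_contra hcon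
    push Not at hcon
    have tri : ∀ u v w : ℂ, ‖u - v‖ ≤ ‖w - u‖ + ‖w - v‖ := by
      intro u v w
      calc ‖u - v‖ = ‖(w - v) - (w - u)‖ := by congr 1; ring
        _ ≤ ‖w - v‖ + ‖w - u‖ := norm_sub_le _ _
        _ = _ := add_comm _ _
    have k1 := hcon x1 hx1
    have k2 := hcon x2 hx2
    have k3 := hcon x3 hx3
    have a12 := tri x1 x2 a
    have a13 := tri x1 x3 a
    have a23 := tri x2 x3 a
    have b12 := tri x1 x2 b
    have b13 := tri x1 x3 b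
    have b23 := tri x2 x3 b
    by_cases c1 : μ / 2 ≤ ‖a - x1‖ <;> by_cases c2 : μ / 2 ≤ ‖a - x2‖ <;>
      by_cases c3 : μ / 2 ≤ ‖a - x3‖
    all_goals
      first
      | (have := k1 c1; have := k2 c2; linarith)
      | (have := k1 c1; have := k3 c3; linarith)
      | (have := k2 c2; have := k3 c3; linarith)
      | (push Not at c1 c2; linarith)
      | (push Not at c1 c3; linarith)
      | (push Not at c2 c3; linarith)
  have hax0 : 0 < ‖a - x‖ := by linarith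
  have hbx0 : 0 < ‖b - x‖ := by linarith
  have hax' : a ≠ x := sub_ne_zero.1 (norm_pos_iff.1 hax0)
  have hbx' : b ≠ x := sub_ne_zero.1 (norm_pos_iff.1 hbx0)
  by_cases hlt : ‖a - x‖ < ‖a - b‖
  · have h1 : Real.log (2 / ‖a - b‖) ≤ Real.log (4 / μ) := by
      apply Real.log_le_log (by positivity)
      rw [div_le_div_iff₀ hd hμ]
      linarith
    nlinarith [mul_nonneg hC2' hR, mul_nonneg hL hR]
  push Not at hlt
  have h2 := hC2 a ha b hb x hx hab hax' hbx' hlt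
  have h3 : 0 ≤ sn a b x * Real.log (2 / ‖a - x‖) :=
    mul_nonneg (j17_sn_nonneg _ _ _)
      (Real.log_nonneg ((one_le_div hax0).2 (hd2 a ha x hx)))
  set m : ℝ := max ‖a - b‖ (1 - ‖a‖) with hm
  have hm0 : 0 < m := lt_of_lt_of_le hd (le_max_left _ _)
  have h4 : max 0 (Real.log (‖a - x‖ / m)) ≤ 1 + Real.log (2 / rr a b) := by
    apply max_le (by linarith)
    have h5 : Real.log (‖a - x‖ / m) ≤ Real.log (2 * (2 / rr a b)) := by
      apply Real.log_le_log (by positivity)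
      rw [← mul_div_assoc, div_le_div_iff₀ hm0 (j17_rr_pos hab)]
      have h6 : rr a b ≤ 2 * m := j17_rr_le
      have h7 := hd2 a ha x hx
      have h8 := (j17_rr_pos hab).le
      nlinarith
    rw [Real.log_mul two_ne_zero (by have := j17_rr_pos hab; positivity)] at h5
    have := Real.log_two_lt_d9
    linarith
  have h5 : C2 * (1 + max 0 (Real.log (‖a - x‖ / m))) ≤
      max C2 0 * (2 + Real.log (2 / rr a b)) := by
    apply mul_le_mul (le_max_left _ _) (by linarith) _ hC2'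
    have : 0 ≤ max 0 (Real.log (‖a - x‖ / m)) := le_max_left _ _
    linarith
  have h6 : Real.log (2 / ‖a - b‖) = Real.log (2 / ‖a - x‖) + Real.log (‖a - x‖ / ‖a - b‖) := by
    rw [← Real.log_mul (by positivity) (by positivity)]
    congr 1
    field_simp
  have h7 : Real.log (2 / ‖a - x‖) ≤ Real.log (4 / μ) := by
    apply Real.log_le_log (by positivity)
    rw [div_le_div_iff₀ hax0 hμ]
    linarith
  rw [h6]
  nlinarith [mul_nonneg hC2' hR, mul_nonneg hL hR]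

private lemma j17_exists_sep (Y : Finset ℂ) :
    ∃ μ : ℝ, 0 < μ ∧ ∀ a ∈ Y, ∀ b ∈ Y, a ≠ b → μ ≤ ‖a - b‖ := by
  rcases Y.offDiag.eq_empty_or_nonempty with h | h
  · refine ⟨1, one_pos, fun a ha b hb hab => ?_⟩
    have h1 : (a, b) ∈ Y.offDiag := Finset.mem_offDiag.2 ⟨ha, hb, hab⟩
    rw [h] at h1
    exact absurd h1 (Finset.notMem_empty _)
  · obtain ⟨p, hp, hmin⟩ := Y.offDiag.exists_min_image (fun p => ‖p.1 - p.2‖) h
    exact ⟨‖p.1 - p.2‖, norm_pos_iff.2 (sub_ne_zero.2 (Finset.mem_offDiag.1 hp).2.2),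
      fun a ha b hb hab => hmin (a, b) (Finset.mem_offDiag.2 ⟨ha, hb, hab⟩)⟩

private lemma j17_norm_smul {s : ℝ} (hs : 0 ≤ s) (a : ℂ) : ‖(s : ℂ) * a‖ = s * ‖a‖ := by
  rw [norm_mul, Complex.norm_real, Real.norm_of_nonneg hs]

private lemma j17_norm_smul_sub {s : ℝ} (hs : 0 ≤ s) (a b : ℂ) :
    ‖(s : ℂ) * a - s * b‖ = s * ‖a - b‖ := by
  rw [← mul_sub, j17_norm_smul hs]

private lemma j17_rr_scale_le {a b : ℂ} {s : ℝ} (hs : 1 / 2 ≤ s) (hs1 : s < 1)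
    (ha : ‖a‖ ≤ 1) (hb : ‖b‖ ≤ 1) (hμ : 1 - s ≤ ‖a - b‖ / 2) :
    rr (s * a) (s * b) ≤ 2 * rr a b := by
  have h0 : 0 ≤ ‖a - b‖ := norm_nonneg _
  have h1 : ‖a - b‖ ≤ rr a b := le_max_left _ _
  have h2 : 1 - ‖a‖ ≤ rr a b := (le_max_left _ _).trans (le_max_right _ _)
  have h3 : 1 - ‖b‖ ≤ rr a b := (le_max_right _ _).trans (le_max_right _ _)
  have e1 : (1 - s) * ‖a‖ ≤ 1 - s := by nlinarith [norm_nonneg a]
  have e2 : (1 - s) * ‖b‖ ≤ 1 - s := by nlinarith [norm_nonneg b]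
  conv_lhs => unfold rr
  rw [j17_norm_smul_sub (by linarith), j17_norm_smul (by linarith), j17_norm_smul (by linarith)]
  refine max_le ?_ (max_le ?_ ?_)
  · nlinarith
  · nlinarith
  · nlinarith

private lemma j17_rr_scale_ge {a b : ℂ} {s : ℝ} (hs : 1 / 2 ≤ s) (hs1 : s < 1)
    (ha : ‖a‖ ≤ 1) (hb : ‖b‖ ≤ 1) :
    rr a b ≤ 2 * rr (s * a) (s * b) := by
  have h0 : 0 ≤ ‖a - b‖ := norm_nonneg _
  have h1 : ‖(s : ℂ) * a - s * b‖ ≤ rr (s * a) (s * b) := le_max_left _ _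
  have h2 : 1 - ‖(s : ℂ) * a‖ ≤ rr (s * a) (s * b) := (le_max_left _ _).trans (le_max_right _ _)
  have h3 : 1 - ‖(s : ℂ) * b‖ ≤ rr (s * a) (s * b) := (le_max_right _ _).trans (le_max_right _ _)
  rw [j17_norm_smul_sub (by linarith)] at h1
  rw [j17_norm_smul (by linarith)] at h2 h3
  have n1 := norm_nonneg a
  have n2 := norm_nonneg b
  conv_lhs => unfold rr
  refine max_le ?_ (max_le ?_ ?_)
  · nlinarith
  · nlinarith
  · nlinarith

private lemma j17_log_close {x y : ℝ} (hx : 0 < x) (hy : 0 < y) (h1 : x ≤ 2 * y) (h2 : y ≤ 2 * x) :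
    |Real.log x - Real.log y| ≤ 1 := by
  have l2 := Real.log_two_lt_d9
  have e1 : Real.log x ≤ Real.log 2 + Real.log y := by
    rw [← Real.log_mul two_ne_zero hy.ne']
    exact Real.log_le_log hx h1
  have e2 : Real.log y ≤ Real.log 2 + Real.log x := by
    rw [← Real.log_mul two_ne_zero hx.ne']
    exact Real.log_le_log hy h2
  rw [abs_le]
  constructor <;> linarith

private lemma j17_sl_scale (φ : ℂ → ℂ) {s : ℝ} (hs : 0 < s) (a b : ℂ) :
    sl (fun z => φ (z / s)) (s * a) (s * b) = sl φ a b / s := by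
  have hs' : (s : ℂ) ≠ 0 := by exact_mod_cast hs.ne'
  unfold sl
  simp only
  rw [mul_div_cancel_left₀ _ hs', mul_div_cancel_left₀ _ hs', ← mul_sub, div_div, mul_comm (s : ℂ)]

/-- J17c: the closed set case from the finite case. `hfin`, `hlim`, `hmod`, `hsl` are proved
elsewhere. -/
theorem sufficiency {X : Set ℂ} (hXc : IsClosed X) (hX : X ⊆ closedBall 0 1) (hK : CondK X)
    (hT1 : CondT1 X) (hT2 : CondT2 X) {φ : ℂ → ℂ} (hφ : ZygmundPlane φ)
    (hfin : ∀ c C : ℝ, 0 < c → 0 ≤ C → ∃ M : ℝ, 0 ≤ M ∧ ∀ (Y : Finset ℂ) (ψ : ℂ → ℂ), Y.Nonempty →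
      (∀ x ∈ Y, ‖x‖ < 1) → CondKWith c (Y : Set ℂ) →
      (∀ a ∈ Y, ∀ b ∈ Y, ∀ d ∈ Y, a ≠ b → a ≠ d → b ≠ d →
        c * (1 - ‖a‖) ≤ max ‖a - b‖ ‖a - d‖) →
      (∀ x ∈ Y, ‖ψ x‖ ≤ C) →
      (∀ a ∈ Y, ∀ b ∈ Y, a ≠ b → ‖sl ψ a b‖ ≤ C * (1 + Real.log (2 / rr a b))) →
      (∀ a ∈ Y, ∀ b ∈ Y, ∀ d ∈ Y, a ≠ b → a ≠ d → b ≠ d →
        ‖sl ψ a b - sl ψ a d‖ ≤ C * (1 + |Real.log (rr a b / rr a d)|)) →
      ∃ f D : ℂ → ℂ, ZClass M f D ∧ ‖f 0‖ ≤ M ∧ ‖D 0‖ ≤ M ∧ ∀ x ∈ Y, f x = ψ x)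
    (hlim : ∀ {M : ℝ} {f D : ℕ → ℂ → ℂ}, (∀ n, ZClass M (f n) (D n)) → (∀ n, ‖f n 0‖ ≤ M) →
      (∀ n, ‖D n 0‖ ≤ M) →
      ∃ g E : ℂ → ℂ, ZClass M g E ∧ ‖g 0‖ ≤ M ∧ ‖E 0‖ ≤ M ∧
        ∀ z ∈ closedBall (0 : ℂ) 1, ∀ L : ℂ, Tendsto (fun n => f n z) atTop (𝓝 L) → g z = L)
    (hmod : ∀ {M : ℝ} {f D : ℂ → ℂ}, ZClass M f D → ‖f 0‖ ≤ M → ‖D 0‖ ≤ M →
      ∀ {a b : ℂ}, a ∈ closedBall (0 : ℂ) 1 → b ∈ closedBall (0 : ℂ) 1 →
        ‖f a - f b‖ ≤ 30 * M * Real.sqrt ‖a - b‖)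
    (hsl : ∃ C : ℝ, 0 ≤ C ∧
      (∀ a ∈ closedBall (0 : ℂ) 1, ‖φ a‖ ≤ C) ∧
      (∀ a ∈ closedBall (0 : ℂ) 1, ∀ b ∈ closedBall (0 : ℂ) 1, a ≠ b →
        ‖sl φ a b‖ ≤ C * (1 + Real.log (2 / ‖a - b‖))) ∧
      (∀ a ∈ closedBall (0 : ℂ) 1, ∀ b ∈ closedBall (0 : ℂ) 1, ∀ c ∈ closedBall (0 : ℂ) 1,
        a ≠ b → a ≠ c → ‖a - b‖ ≤ ‖a - c‖ →
        ‖sl φ a b - sl φ a c‖ ≤
          C * (1 + Real.log (‖a - c‖ / ‖a - b‖) + sn a b c * Real.log (2 / ‖a - c‖)))) :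
    ∃ (M : ℝ) (f D : ℂ → ℂ), ZClass M f D ∧ ∀ x ∈ X, f x = φ x := by
  obtain ⟨cK, hcK, hK⟩ := hK
  obtain ⟨C1, hC1⟩ := hT1
  obtain ⟨Cp, hCp, hpair⟩ := pair_bound hX hT2
  obtain ⟨C2, hC2⟩ := hT2
  obtain ⟨C0, hC0, hbd, hs1, hs2⟩ := hsl
  have hn : ∀ x ∈ X, ‖x‖ ≤ 1 := fun x hx => mem_closedBall_zero_iff.1 (hX hx)
  set A1 : ℝ := max C1 0 with hA1
  set A2 : ℝ := max C2 0 with hA2
  have hA1' : 0 ≤ A1 := le_max_right _ _
  have hA2' : 0 ≤ A2 := le_max_right _ _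
  have hrr : ∀ a ∈ X, ∀ b ∈ X, a ≠ b → 0 ≤ Real.log (2 / rr a b) := fun a ha b hb hab =>
    Real.log_nonneg ((one_le_div (j17_rr_pos hab)).2 (j17_rr_le_two (hn a ha) (hn b hb)))
  -- (WT)
  have hWT0 : ∀ a ∈ X, ∀ b ∈ X, ∀ d ∈ X, a ≠ b → a ≠ d → b ≠ d → ‖a - b‖ ≤ ‖a - d‖ →
      ‖sl φ a b - sl φ a d‖ ≤ C0 * (1 + 2 * A2) * (1 + |Real.log (rr a b / rr a d)|) := by
    intro a ha b hb d hd hab had hbd' hle
    have h1 := hs2 a (hX ha) b (hX hb) d (hX hd) hab had hle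
    have h2 := hC2 a ha b hb d hd hab had hbd' hle
    have hd0 : 0 < ‖a - b‖ := norm_pos_iff.2 (sub_ne_zero.2 hab)
    have hD0 : 0 < ‖a - d‖ := norm_pos_iff.2 (sub_ne_zero.2 had)
    set m : ℝ := max ‖a - b‖ (1 - ‖a‖) with hm
    have hm0 : 0 < m := lt_of_lt_of_le hd0 (le_max_left _ _)
    have hrb := j17_rr_pos hab
    have hrd := j17_rr_pos had
    have h3 : Real.log (‖a - d‖ / m) ≤ 1 + |Real.log (rr a b / rr a d)| := by
      have h4 : Real.log (‖a - d‖ / m) ≤ Real.log (2 * (rr a d / rr a b)) := by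
        apply Real.log_le_log (by positivity)
        rw [← mul_div_assoc, div_le_div_iff₀ hm0 hrb]
        have h6 : rr a b ≤ 2 * m := j17_rr_le
        have h7 : ‖a - d‖ ≤ rr a d := le_max_left _ _
        calc ‖a - d‖ * rr a b ≤ rr a d * (2 * m) := mul_le_mul h7 h6 hrb.le hrd.le
          _ = _ := by ring
      rw [Real.log_mul two_ne_zero (by positivity)] at h4
      have h5 : Real.log (rr a d / rr a b) = - Real.log (rr a b / rr a d) := by
        rw [← Real.log_inv, inv_div]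
      have h6 := neg_abs_le (Real.log (rr a b / rr a d))
      have := Real.log_two_lt_d9
      linarith
    have hab' : 0 ≤ |Real.log (rr a b / rr a d)| := abs_nonneg _
    have h4 : C2 * (1 + max 0 (Real.log (‖a - d‖ / m))) ≤ A2 * (2 + |Real.log (rr a b / rr a d)|) := by
      have e0 : 0 ≤ max 0 (Real.log (‖a - d‖ / m)) := le_max_left _ _
      have e1 : max 0 (Real.log (‖a - d‖ / m)) ≤ 1 + |Real.log (rr a b / rr a d)| :=
        max_le (by linarith) h3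
      exact mul_le_mul (le_max_left _ _) (by linarith) (by linarith) hA2'
    calc ‖sl φ a b - sl φ a d‖
        ≤ C0 * (1 + Real.log (‖a - d‖ / ‖a - b‖) + sn a b d * Real.log (2 / ‖a - d‖)) := h1
      _ ≤ C0 * (1 + A2 * (2 + |Real.log (rr a b / rr a d)|)) := by
          apply mul_le_mul_of_nonneg_left _ hC0
          linarith
      _ ≤ C0 * ((1 + 2 * A2) * (1 + |Real.log (rr a b / rr a d)|)) := by
          apply mul_le_mul_of_nonneg_left _ hC0
          nlinarith [mul_nonneg hA2' hab']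
      _ = _ := by ring
  have hWT : ∀ a ∈ X, ∀ b ∈ X, ∀ d ∈ X, a ≠ b → a ≠ d → b ≠ d →
      ‖sl φ a b - sl φ a d‖ ≤ C0 * (1 + 2 * A2) * (1 + |Real.log (rr a b / rr a d)|) := by
    intro a ha b hb d hd hab had hbd'
    rcases le_total ‖a - b‖ ‖a - d‖ with h | h
    · exact hWT0 a ha b hb d hd hab had hbd' h
    · have h1 := hWT0 a ha d hd b hb had hab hbd'.symm h
      rw [norm_sub_rev]
      have h5 : Real.log (rr a d / rr a b) = - Real.log (rr a b / rr a d) := by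
        rw [← Real.log_inv, inv_div]
      rwa [h5, abs_neg] at h1
  have hPair : ∀ a ∈ X, ∀ b ∈ X, a ≠ b →
      ‖sl φ a b‖ ≤ C0 * (1 + Cp) * (1 + Real.log (2 / rr a b)) := by
    intro a ha b hb hab
    have h1 := hs1 a (hX ha) b (hX hb) hab
    have h2 := hpair a ha b hb hab
    have h3 := hrr a ha b hb hab
    calc ‖sl φ a b‖ ≤ C0 * (1 + Real.log (2 / ‖a - b‖)) := h1
      _ ≤ C0 * ((1 + Cp) * (1 + Real.log (2 / rr a b))) := by
          apply mul_le_mul_of_nonneg_left _ hC0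
          linarith
      _ = _ := by ring
  have hSep : ∀ a ∈ X, ∀ b ∈ X, ∀ d ∈ X, a ≠ b → a ≠ d → b ≠ d →
      1 - ‖a‖ ≤ A1 * max ‖a - b‖ ‖a - d‖ := by
    intro a ha b hb d hd hab had hbd'
    rcases le_total ‖a - b‖ ‖a - d‖ with h | h
    · have h1 := hC1 a ha b hb d hd hab had hbd' h
      rw [max_eq_right h]
      exact h1.trans (mul_le_mul_of_nonneg_right (le_max_left _ _) (norm_nonneg _))
    · have h1 := hC1 a ha d hd b hb had hab hbd'.symm h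
      rw [max_eq_left h]
      exact h1.trans (mul_le_mul_of_nonneg_right (le_max_left _ _) (norm_nonneg _))
  rcases X.eq_empty_or_nonempty with hempty | hne
  · exact ⟨0, fun _ => 0, fun _ => 0, by intro p _ z _; simp, by simp [hempty]⟩
  have hcomp : IsCompact X := (isCompact_closedBall (0 : ℂ) 1).of_isClosed_subset hXc hX
  have hnet : ∀ n : ℕ, ∃ (Y : Finset ℂ) (s : ℝ), (∀ y ∈ Y, y ∈ X) ∧ Y.Nonempty ∧ 1 / 2 ≤ s ∧ s < 1 ∧
      1 - s ≤ 1 / ((n : ℝ) + 1) ∧ (∀ a ∈ Y, ∀ b ∈ Y, a ≠ b → 1 - s ≤ ‖a - b‖ / 2) ∧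
      ∀ x ∈ X, ∃ y ∈ Y, ‖x - y‖ ≤ 1 / ((n : ℝ) + 1) := by
    intro n
    have hn0 : (0 : ℝ) < 1 / ((n : ℝ) + 1) := by positivity
    obtain ⟨t, htX, htf, hcov⟩ := hcomp.finite_cover_balls hn0
    obtain ⟨μ, hμ, hsep⟩ := j17_exists_sep htf.toFinset
    have hmin0 : 0 < min (1 / 2) (min (μ / 2) (1 / ((n : ℝ) + 1))) :=
      lt_min (by norm_num) (lt_min (by linarith) hn0)
    have hm1 : min (1 / 2) (min (μ / 2) (1 / ((n : ℝ) + 1))) ≤ 1 / 2 := min_le_left _ _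
    have hm2 : min (1 / 2) (min (μ / 2) (1 / ((n : ℝ) + 1))) ≤ μ / 2 :=
      (min_le_right _ _).trans (min_le_left _ _)
    have hm3 : min (1 / 2) (min (μ / 2) (1 / ((n : ℝ) + 1))) ≤ 1 / ((n : ℝ) + 1) :=
      (min_le_right _ _).trans (min_le_right _ _)
    have hcov' : ∀ x ∈ X, ∃ y ∈ htf.toFinset, ‖x - y‖ ≤ 1 / ((n : ℝ) + 1) := by
      intro x hx
      have h1 := hcov hx
      simp only [mem_iUnion, exists_prop] at h1
      obtain ⟨y, hy, hxy⟩ := h1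
      refine ⟨y, htf.mem_toFinset.2 hy, ?_⟩
      rw [← dist_eq_norm]
      exact (mem_ball.1 hxy).le
    refine ⟨htf.toFinset, 1 - min (1 / 2) (min (μ / 2) (1 / ((n : ℝ) + 1))),
      fun y hy => htX (htf.mem_toFinset.1 hy), ?_, by linarith, by linarith, by linarith,
      fun a ha b hb hab => ?_, hcov'⟩
    · obtain ⟨x, hx⟩ := hne
      obtain ⟨y, hy, -⟩ := hcov' x hx
      exact ⟨y, hy⟩
    · have := hsep a ha b hb hab
      linarith
  set c : ℝ := min (cK / 2) (1 / (2 * (A1 + 1))) with hc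
  have hc0 : 0 < c := lt_min (by linarith) (by positivity)
  have hcc1 : c ≤ cK / 2 := min_le_left _ _
  have hcc2 : c ≤ 1 / (2 * (A1 + 1)) := min_le_right _ _
  set CF : ℝ := C0 + 4 * (C0 * (1 + Cp)) + 6 * (C0 * (1 + 2 * A2)) with hCF
  have k1 : 0 ≤ C0 * (1 + Cp) := by positivity
  have k2 : 0 ≤ C0 * (1 + 2 * A2) := by positivity
  have hCF0 : 0 ≤ CF := by positivity
  obtain ⟨M, hM, hfin'⟩ := hfin c CF hc0 hCF0
  choose Y s hYX hYne hsl hsu hsn hYsep hYnet using hnet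
  have key : ∀ n, ∃ f D : ℂ → ℂ, ZClass M f D ∧ ‖f 0‖ ≤ M ∧ ‖D 0‖ ≤ M ∧
      ∀ y ∈ Y n, f (s n * y) = φ y := by
    intro n
    have hs0 : 0 < s n := by linarith [hsl n]
    have hs0' : ((s n : ℝ) : ℂ) ≠ 0 := by exact_mod_cast hs0.ne'
    have hmem : ∀ x ∈ (Y n).image (fun y => (s n : ℂ) * y), ∃ y ∈ Y n, x = (s n : ℂ) * y := by
      intro x hx
      obtain ⟨y, hy, rfl⟩ := Finset.mem_image.1 hx
      exact ⟨y, hy, rfl⟩
    have hsnorm : ∀ {v : ℂ}, ‖v / ((s n : ℝ) : ℂ)‖ ≤ 2 * ‖v‖ := by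
      intro v
      rw [norm_div, Complex.norm_real, Real.norm_of_nonneg hs0.le, div_le_iff₀ hs0]
      nlinarith [hsl n, norm_nonneg v]
    suffices hres : ∃ f D : ℂ → ℂ, ZClass M f D ∧ ‖f 0‖ ≤ M ∧ ‖D 0‖ ≤ M ∧
        ∀ x ∈ (Y n).image (fun y => (s n : ℂ) * y), f x = φ (x / (s n : ℂ)) by
      obtain ⟨f, D, hf1, hf2, hf3, hf4⟩ := hres
      refine ⟨f, D, hf1, hf2, hf3, fun y hy => ?_⟩
      rw [hf4 _ (Finset.mem_image_of_mem _ hy), mul_div_cancel_left₀ _ hs0']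
    refine hfin' ((Y n).image (fun y => (s n : ℂ) * y))
      (fun z => φ (z / (s n : ℂ))) ((hYne n).image _) ?_ ?_ ?_ ?_ ?_ ?_
    · intro x hx
      obtain ⟨y, hy, rfl⟩ := hmem x hx
      rw [j17_norm_smul hs0.le]
      have := hn y (hYX n y hy)
      nlinarith [hsu n, norm_nonneg y]
    · intro α β hαβ hβ
      by_cases hcase : cK * (β - α) ≤ 2 * (1 - s n)
      · refine ⟨α, ⟨le_rfl, hαβ.le⟩, fun x hx => ?_⟩
        obtain ⟨y, hy, rfl⟩ := hmem x (by simpa using hx)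
        have h1 : ‖exp (α * I)‖ - ‖(s n : ℂ) * y‖ ≤ ‖exp (α * I) - (s n : ℂ) * y‖ :=
          norm_sub_norm_le _ _
        rw [Complex.norm_exp_ofReal_mul_I, j17_norm_smul hs0.le] at h1
        have := hn y (hYX n y hy)
        nlinarith [hsu n, norm_nonneg y]
      · push Not at hcase
        obtain ⟨θ, hθ, hθ'⟩ := hK α β hαβ hβ
        refine ⟨θ, hθ, fun x hx => ?_⟩
        obtain ⟨y, hy, rfl⟩ := hmem x (by simpa using hx)
        have h1 := hθ' y (hYX n y hy)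
        have h2 : ‖exp (θ * I) - y‖ ≤ ‖exp (θ * I) - (s n : ℂ) * y‖ + (1 - s n) := by
          calc ‖exp (θ * I) - y‖ = ‖(exp (θ * I) - (s n : ℂ) * y) - (((1 - s n : ℝ)) : ℂ) * y‖ := by
                congr 1; push_cast; ring
            _ ≤ ‖exp (θ * I) - (s n : ℂ) * y‖ + ‖(((1 - s n : ℝ)) : ℂ) * y‖ := norm_sub_le _ _
            _ ≤ _ := by
                rw [j17_norm_smul (by linarith [hsu n])]
                have := hn y (hYX n y hy)
                nlinarith [hsu n, norm_nonneg y]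
        nlinarith
    · intro a0 ha0 b0 hb0 d0 hd0 hab had hbd'
      obtain ⟨a, ha, rfl⟩ := hmem a0 ha0
      obtain ⟨b, hb, rfl⟩ := hmem b0 hb0
      obtain ⟨d, hd, rfl⟩ := hmem d0 hd0
      have hab1 : a ≠ b := fun h => hab (by rw [h])
      have had1 : a ≠ d := fun h => had (by rw [h])
      have hbd1 : b ≠ d := fun h => hbd' (by rw [h])
      rw [j17_norm_smul_sub hs0.le, j17_norm_smul_sub hs0.le, j17_norm_smul hs0.le,
        ← mul_max_of_nonneg _ _ hs0.le]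
      have h1 := hSep a (hYX n a ha) b (hYX n b hb) d (hYX n d hd) hab1 had1 hbd1
      have h2 := hYsep n a ha b hb hab1
      have h3 : ‖a - b‖ ≤ max ‖a - b‖ ‖a - d‖ := le_max_left _ _
      have h4 := hn a (hYX n a ha)
      have hm0 : 0 ≤ max ‖a - b‖ ‖a - d‖ := (norm_nonneg _).trans h3
      have h5 : 1 - s n * ‖a‖ ≤ (A1 + 1) * max ‖a - b‖ ‖a - d‖ := by
        nlinarith [hsu n, norm_nonneg a]
      calc c * (1 - s n * ‖a‖) ≤ c * ((A1 + 1) * max ‖a - b‖ ‖a - d‖) :=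
            mul_le_mul_of_nonneg_left h5 hc0.le
        _ ≤ 1 / (2 * (A1 + 1)) * ((A1 + 1) * max ‖a - b‖ ‖a - d‖) :=
            mul_le_mul_of_nonneg_right hcc2 (by positivity)
        _ = 1 / 2 * max ‖a - b‖ ‖a - d‖ := by field_simp
        _ ≤ _ := mul_le_mul_of_nonneg_right (hsl n) hm0
    · intro x hx
      obtain ⟨y, hy, rfl⟩ := hmem x hx
      rw [mul_div_cancel_left₀ _ hs0']
      exact (hbd y (hX (hYX n y hy))).trans (by linarith)
    · intro a0 ha0 b0 hb0 hab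
      obtain ⟨a, ha, rfl⟩ := hmem a0 ha0
      obtain ⟨b, hb, rfl⟩ := hmem b0 hb0
      have hab1 : a ≠ b := fun h => hab (by rw [h])
      rw [j17_sl_scale φ hs0]
      have h1 := hPair a (hYX n a ha) b (hYX n b hb) hab1
      have ha1 := hn a (hYX n a ha)
      have hb1 := hn b (hYX n b hb)
      have h2 := j17_rr_scale_le (hsl n) (hsu n) ha1 hb1 (hYsep n a ha b hb hab1)
      have h3 := j17_rr_scale_ge (hsl n) (hsu n) ha1 hb1
      have h4 := j17_rr_pos hab1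
      have h4' := j17_rr_pos hab
      have h5 : 0 ≤ Real.log (2 / rr (s n * a) (s n * b)) := by
        apply Real.log_nonneg
        rw [one_le_div h4']
        apply j17_rr_le_two
        · rw [j17_norm_smul hs0.le]; nlinarith [hsu n, norm_nonneg a]
        · rw [j17_norm_smul hs0.le]; nlinarith [hsu n, norm_nonneg b]
      have h6 := j17_log_close h4 h4' h3 h2
      rw [abs_le] at h6
      rw [Real.log_div two_ne_zero h4.ne'] at h1
      rw [Real.log_div two_ne_zero h4'.ne'] at h5 ⊢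
      calc ‖sl φ a b / (s n : ℂ)‖ ≤ 2 * ‖sl φ a b‖ := hsnorm
        _ ≤ 2 * (C0 * (1 + Cp) * (1 + (Real.log 2 - Real.log (rr a b)))) := by linarith
        _ ≤ 2 * (C0 * (1 + Cp) * (2 * (1 + (Real.log 2 - Real.log (rr (s n * a) (s n * b)))))) := by
            apply mul_le_mul_of_nonneg_left _ two_pos.le
            apply mul_le_mul_of_nonneg_left _ k1
            linarith
        _ = (4 * (C0 * (1 + Cp))) * (1 + (Real.log 2 - Real.log (rr (s n * a) (s n * b)))) := by ring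
        _ ≤ _ := mul_le_mul_of_nonneg_right (by linarith) (by linarith)
    · intro a0 ha0 b0 hb0 d0 hd0 hab had hbd'
      obtain ⟨a, ha, rfl⟩ := hmem a0 ha0
      obtain ⟨b, hb, rfl⟩ := hmem b0 hb0
      obtain ⟨d, hd, rfl⟩ := hmem d0 hd0
      have hab1 : a ≠ b := fun h => hab (by rw [h])
      have had1 : a ≠ d := fun h => had (by rw [h])
      have hbd1 : b ≠ d := fun h => hbd' (by rw [h])
      rw [j17_sl_scale φ hs0, j17_sl_scale φ hs0, ← sub_div]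
      have h1 := hWT a (hYX n a ha) b (hYX n b hb) d (hYX n d hd) hab1 had1 hbd1
      have ha1 := hn a (hYX n a ha)
      have hb1 := hn b (hYX n b hb)
      have hd1 := hn d (hYX n d hd)
      have r1 := j17_log_close (j17_rr_pos hab1) (j17_rr_pos hab)
        (j17_rr_scale_ge (hsl n) (hsu n) ha1 hb1)
        (j17_rr_scale_le (hsl n) (hsu n) ha1 hb1 (hYsep n a ha b hb hab1))
      have r2 := j17_log_close (j17_rr_pos had1) (j17_rr_pos had)
        (j17_rr_scale_ge (hsl n) (hsu n) ha1 hd1)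
        (j17_rr_scale_le (hsl n) (hsu n) ha1 hd1 (hYsep n a ha d hd had1))
      rw [Real.log_div (j17_rr_pos hab1).ne' (j17_rr_pos had1).ne'] at h1
      rw [Real.log_div (j17_rr_pos hab).ne' (j17_rr_pos had).ne']
      have r3 : |Real.log (rr a b) - Real.log (rr a d)| ≤
          2 + |Real.log (rr (s n * a) (s n * b)) - Real.log (rr (s n * a) (s n * d))| := by
        rw [abs_le] at r1 r2 ⊢
        have e1 := neg_abs_le (Real.log (rr (s n * a) (s n * b)) - Real.log (rr (s n * a) (s n * d)))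
        have e2 := le_abs_self (Real.log (rr (s n * a) (s n * b)) - Real.log (rr (s n * a) (s n * d)))
        constructor <;> linarith
      have r4 := abs_nonneg (Real.log (rr (s n * a) (s n * b)) - Real.log (rr (s n * a) (s n * d)))
      calc ‖(sl φ a b - sl φ a d) / (s n : ℂ)‖ ≤ 2 * ‖sl φ a b - sl φ a d‖ := hsnorm
        _ ≤ 2 * (C0 * (1 + 2 * A2) * (1 + |Real.log (rr a b) - Real.log (rr a d)|)) := by linarith
        _ ≤ 2 * (C0 * (1 + 2 * A2) * (3 * (1 +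
              |Real.log (rr (s n * a) (s n * b)) - Real.log (rr (s n * a) (s n * d))|))) := by
            apply mul_le_mul_of_nonneg_left _ two_pos.le
            apply mul_le_mul_of_nonneg_left _ k2
            linarith
        _ = (6 * (C0 * (1 + 2 * A2))) * (1 +
              |Real.log (rr (s n * a) (s n * b)) - Real.log (rr (s n * a) (s n * d))|) := by ring
        _ ≤ _ := mul_le_mul_of_nonneg_right (by linarith) (by linarith)
  choose f D hf1 hf2 hf3 hf4 using key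
  obtain ⟨g, E, hg, -, -, hglim⟩ := hlim hf1 hf2 hf3
  refine ⟨M, g, E, hg, fun x hx => hglim x (hX hx) _ ?_⟩
  choose y hyY hyx using fun n => hYnet n x hx
  have hn0 : Tendsto (fun n : ℕ => 1 / ((n : ℝ) + 1)) atTop (𝓝 0) :=
    tendsto_one_div_add_atTop_nhds_zero_nat
  have hyt : Tendsto y atTop (𝓝 x) := by
    rw [tendsto_iff_norm_sub_tendsto_zero]
    refine squeeze_zero (fun n => norm_nonneg _) (fun n => ?_) hn0
    rw [norm_sub_rev]
    exact hyx n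
  have h1 : Tendsto (fun n => φ (y n)) atTop (𝓝 (φ x)) := (hφ.1.tendsto x).comp hyt
  have h2 : Tendsto (fun n => f n x - φ (y n)) atTop (𝓝 0) := by
    rw [tendsto_zero_iff_norm_tendsto_zero]
    have h3 : Tendsto (fun n : ℕ => 30 * M * Real.sqrt (2 * (1 / ((n : ℝ) + 1)))) atTop (𝓝 0) := by
      have h4 : Tendsto (fun n : ℕ => Real.sqrt (2 * (1 / ((n : ℝ) + 1)))) atTop (𝓝 0) := by
        have h5 := (Real.continuous_sqrt.tendsto _).comp (hn0.const_mul 2)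
        simpa [Function.comp_def] using h5
      simpa using h4.const_mul (30 * M)
    refine squeeze_zero (fun n => norm_nonneg _) (fun n => ?_) h3
    have hs0 : 0 < s n := by linarith [hsl n]
    have hy1 := hn (y n) (hYX n _ (hyY n))
    have hmem : (s n : ℂ) * y n ∈ closedBall (0 : ℂ) 1 := by
      rw [mem_closedBall_zero_iff, j17_norm_smul hs0.le]
      nlinarith [hsu n, norm_nonneg (y n)]
    have h4 := hmod (hf1 n) (hf2 n) (hf3 n) (hX hx) hmem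
    rw [hf4 n _ (hyY n)] at h4
    refine h4.trans ?_
    apply mul_le_mul_of_nonneg_left _ (by positivity)
    apply Real.sqrt_le_sqrt
    calc ‖x - (s n : ℂ) * y n‖ = ‖(x - y n) + (((1 - s n : ℝ)) : ℂ) * y n‖ := by
          congr 1; push_cast; ring
      _ ≤ ‖x - y n‖ + ‖(((1 - s n : ℝ)) : ℂ) * y n‖ := norm_add_le _ _
      _ ≤ _ := by
          rw [j17_norm_smul (by linarith [hsu n])]
          have e1 := hyx n
          have e2 := hsn n
          have e3 := hsu n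
          have e4 := norm_nonneg (y n)
          nlinarith
  have h3 := h2.add h1
  simpa using h3

end ZygInt.J17
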