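import Mathlib
import Pool.Agent.ZygInt.Defs

namespace ZygInt.J9s

open Complex Metric Set Filter Topology

namespace J9

variable {φ : ℂ → ℂ} {C₀ : ℝ}

/-- one dimensional lemma -/
lemma one_dim (hc : Continuous φ) (h0 : 0 ≤ C₀)
    (hz : ∀ z h : ℂ, ‖φ (z + h) + φ (z - h) - 2 * φ z‖ ≤ C₀ * ‖h‖) (a u : ℂ) (x : ℝ)
    (hx : x ∈ Icc (0:ℝ) 1) :
    ‖φ (a + x * u) - φ a - x * (φ (a + u) - φ a)‖ ≤ C₀ * ‖u‖ / 2 := by
  set G : ℝ → ℂ := fun x => φ (a + x * u) - φ a - x * (φ (a + u) - φ a) with hG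
  have hGc : Continuous G := by
    rw [hG]; fun_prop
  have hG0 : G 0 = 0 := by simp [hG]
  have hG1 : G 1 = 0 := by simp [hG]
  have hGz : ∀ s t : ℝ, ‖G (s + t) + G (s - t) - 2 * G s‖ ≤ C₀ * ‖u‖ * |t| := by
    intro s t
    have h1 := hz (a + s * u) (t * u)
    have e : G (s + t) + G (s - t) - 2 * G s =
        φ (a + s * u + t * u) + φ (a + s * u - t * u) - 2 * φ (a + s * u) := by
      simp only [hG]
      have e1 : a + ((s + t : ℝ) : ℂ) * u = a + s * u + t * u := by push_cast; ring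
      have e2 : a + ((s - t : ℝ) : ℂ) * u = a + s * u - t * u := by push_cast; ring
      rw [e1, e2]; push_cast; ring
    rw [e]
    refine h1.trans (le_of_eq ?_)
    rw [norm_mul, Complex.norm_real, Real.norm_eq_abs]; ring
  obtain ⟨s, hs, hmax⟩ := isCompact_Icc.exists_isMaxOn (nonempty_Icc.2 zero_le_one)
    (hGc.norm.continuousOn (s := Icc (0:ℝ) 1))
  have hmax' : ∀ y ∈ Icc (0:ℝ) 1, ‖G y‖ ≤ ‖G s‖ := fun y hy => hmax hy
  have hu : 0 ≤ C₀ * ‖u‖ := by positivity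
  have key : ‖G s‖ ≤ C₀ * ‖u‖ / 2 := by
    rcases le_total s (1/2) with h | h
    · have h1 := hGz s s
      rw [sub_self, hG0] at h1
      have h2 : ‖G (s + s)‖ ≤ ‖G s‖ := hmax' _ ⟨by linarith [hs.1], by linarith⟩
      have h3 : ‖(2:ℂ) * G s‖ ≤ ‖G (s + s)‖ + ‖G (s + s) + 0 - 2 * G s‖ := by
        have e : (2:ℂ) * G s = G (s + s) - (G (s + s) + 0 - 2 * G s) := by ring
        calc ‖(2:ℂ) * G s‖ = ‖G (s + s) - (G (s + s) + 0 - 2 * G s)‖ := congrArg _ e
          _ ≤ _ := norm_sub_le (G (s + s)) (G (s + s) + 0 - 2 * G s)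
      rw [norm_mul] at h3
      norm_num at h3 h1
      rw [abs_of_nonneg hs.1] at h1
      nlinarith [hs.1]
    · have h1 := hGz s (1 - s)
      have e1 : s + (1 - s) = 1 := by ring
      rw [e1, hG1] at h1
      have h2 : ‖G (s - (1 - s))‖ ≤ ‖G s‖ := hmax' _ ⟨by linarith, by linarith [hs.2]⟩
      have h3 : ‖(2:ℂ) * G s‖ ≤ ‖G (s - (1 - s))‖ + ‖0 + G (s - (1 - s)) - 2 * G s‖ := by
        have e : (2:ℂ) * G s = G (s - (1 - s)) - (0 + G (s - (1 - s)) - 2 * G s) := by ring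
        calc ‖(2:ℂ) * G s‖ = ‖G (s - (1 - s)) - (0 + G (s - (1 - s)) - 2 * G s)‖ := congrArg _ e
          _ ≤ _ := norm_sub_le (G (s - (1 - s))) (0 + G (s - (1 - s)) - 2 * G s)
      rw [norm_mul] at h3
      norm_num at h3 h1
      rw [abs_of_nonneg (by linarith [hs.2])] at h1
      nlinarith [hs.2]
  exact (hmax' x hx).trans key

lemma one_dim' (hc : Continuous φ) (h0 : 0 ≤ C₀)
    (hz : ∀ z h : ℂ, ‖φ (z + h) + φ (z - h) - 2 * φ z‖ ≤ C₀ * ‖h‖) (a u : ℂ) (x : ℝ)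
    (hx : |x| ≤ 1) :
    ‖φ (a + x * u) - φ a - x * (φ (a + u) - φ a)‖ ≤ 3 * (C₀ * ‖u‖) / 2 := by
  have hu : 0 ≤ C₀ * ‖u‖ := by positivity
  rcases le_total 0 x with h | h
  · have := one_dim hc h0 hz a u x ⟨h, (le_abs_self x).trans hx⟩
    linarith
  · have hx1 : -x ≤ 1 := (neg_le_abs x).trans hx
    have h1 := one_dim hc h0 hz a u (-x) ⟨by linarith, hx1⟩
    have h2 := hz a (x * u)
    have e : φ (a + x * u) - φ a - x * (φ (a + u) - φ a) =
        (φ (a + x * u) + φ (a - x * u) - 2 * φ a) -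
          (φ (a + ((-x : ℝ) : ℂ) * u) - φ a - ((-x : ℝ) : ℂ) * (φ (a + u) - φ a)) := by
      have e1 : a + ((-x : ℝ) : ℂ) * u = a - x * u := by push_cast; ring
      rw [e1]; push_cast; ring
    rw [e]
    refine (norm_sub_le _ _).trans ?_
    rw [norm_mul, Complex.norm_real, Real.norm_eq_abs] at h2
    have h3 : C₀ * (|x| * ‖u‖) ≤ C₀ * ‖u‖ := by
      have := mul_le_mul_of_nonneg_right hx (norm_nonneg u)
      nlinarith
    linarith

/-- approximation at scale `r` by a real-linear map -/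
lemma approx (hc : Continuous φ) (h0 : 0 ≤ C₀)
    (hz : ∀ z h : ℂ, ‖φ (z + h) + φ (z - h) - 2 * φ z‖ ≤ C₀ * ‖h‖) (a : ℂ) (r : ℝ)
    (hr : 0 < r) : ∃ A B : ℂ, ∀ h : ℂ, ‖h‖ ≤ r →
      ‖φ (a + h) - φ a - (A * h.re + B * h.im)‖ ≤ 4 * C₀ * r := by
  refine ⟨(φ (a + 2 * r) - φ a) / (2 * r), (φ (a + 2 * r * I) - φ a) / (2 * r), ?_⟩
  intro h hh
  have hre : |h.re| ≤ r := (abs_re_le_norm h).trans hh
  have him : |h.im| ≤ r := (abs_im_le_norm h).trans hh
  set x : ℝ := h.re / r with hx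
  set y : ℝ := h.im / r with hy
  have hx1 : |x| ≤ 1 := by rw [hx, abs_div, abs_of_pos hr]; exact (div_le_one hr).2 hre
  have hy1 : |y| ≤ 1 := by rw [hy, abs_div, abs_of_pos hr]; exact (div_le_one hr).2 him
  have hrc : (r : ℂ) ≠ 0 := by exact_mod_cast hr.ne'
  have h1 := one_dim' hc h0 hz a (2 * r) x hx1
  have h2 := one_dim' hc h0 hz a (2 * r * I) y hy1
  have n1 : ‖(2 * r : ℂ)‖ = 2 * r := by
    rw [norm_mul, Complex.norm_real, Real.norm_eq_abs, abs_of_pos hr]; norm_num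
  have n2 : ‖(2 * r * I : ℂ)‖ = 2 * r := by
    rw [norm_mul, n1, Complex.norm_I, mul_one]
  rw [n1] at h1
  rw [n2] at h2
  have h3 := hz (a + h) ((h.re : ℂ) - h.im * I)
  have n3 : ‖((h.re : ℂ) - h.im * I)‖ = ‖h‖ := by
    have : ((h.re : ℂ) - h.im * I) = (starRingEnd ℂ) h := by
      apply Complex.ext <;> simp
    rw [this, Complex.norm_conj]
  rw [n3] at h3
  have hdecomp : h = h.re + h.im * I := (Complex.re_add_im h).symm
  have e1 : a + h + ((h.re : ℂ) - h.im * I) = a + x * (2 * r) := by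
    rw [hx]; push_cast; field_simp
    nth_rewrite 1 [hdecomp]; ring
  have e2 : a + h - ((h.re : ℂ) - h.im * I) = a + y * (2 * r * I) := by
    rw [hy]; push_cast; field_simp
    nth_rewrite 1 [hdecomp]; ring
  rw [e1, e2] at h3
  have e3 : φ (a + h) - φ a - ((φ (a + 2 * r) - φ a) / (2 * r) * h.re +
      (φ (a + 2 * r * I) - φ a) / (2 * r) * h.im) =
      (1/2) * ((φ (a + x * (2 * r)) - φ a - x * (φ (a + 2 * r) - φ a)) +
        (φ (a + y * (2 * r * I)) - φ a - y * (φ (a + 2 * r * I) - φ a)) -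
        (φ (a + x * (2 * r)) + φ (a + y * (2 * r * I)) - 2 * φ (a + h))) := by
    rw [hx, hy]; push_cast; field_simp; ring
  rw [e3, norm_mul]
  have h4 : C₀ * ‖h‖ ≤ C₀ * r := mul_le_mul_of_nonneg_left hh h0
  have h5 := norm_sub_le ((φ (a + x * (2 * r)) - φ a - x * (φ (a + 2 * r) - φ a)) +
        (φ (a + y * (2 * r * I)) - φ a - y * (φ (a + 2 * r * I) - φ a)))
        (φ (a + x * (2 * r)) + φ (a + y * (2 * r * I)) - 2 * φ (a + h))
  have h6 := norm_add_le (φ (a + x * (2 * r)) - φ a - x * (φ (a + 2 * r) - φ a))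
        (φ (a + y * (2 * r * I)) - φ a - y * (φ (a + 2 * r * I) - φ a))
  have h7 : ‖(1/2 : ℂ)‖ = 1/2 := by norm_num
  rw [h7]
  have : 0 ≤ C₀ * r := by positivity
  linarith


/-- comparison of two approximations -/
lemma compare {a A B A' B' : ℂ} {K r s : ℝ} (hr : 0 < r) (hrs : r ≤ s) (hs2 : s ≤ 2 * r)
    (hK : 0 ≤ K)
    (h1 : ∀ h : ℂ, ‖h‖ ≤ r → ‖φ (a + h) - φ a - (A * h.re + B * h.im)‖ ≤ K * r)
    (h2 : ∀ h : ℂ, ‖h‖ ≤ s → ‖φ (a + h) - φ a - (A' * h.re + B' * h.im)‖ ≤ K * s) :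
    ‖A - A'‖ ≤ 3 * K ∧ ‖B - B'‖ ≤ 3 * K := by
  have gen : ∀ h : ℂ, ‖h‖ ≤ r → ‖(A - A') * h.re + (B - B') * h.im‖ ≤ 3 * K * r := by
    intro h hh
    have e : (A - A') * h.re + (B - B') * h.im =
        (φ (a + h) - φ a - (A' * h.re + B' * h.im)) -
          (φ (a + h) - φ a - (A * h.re + B * h.im)) := by ring
    rw [e]
    have := norm_sub_le (φ (a + h) - φ a - (A' * h.re + B' * h.im))
          (φ (a + h) - φ a - (A * h.re + B * h.im))
    have i1 := h1 h hh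
    have i2 := h2 h (hh.trans hrs)
    nlinarith
  constructor
  · have := gen (r : ℂ) (by rw [Complex.norm_real, Real.norm_eq_abs, abs_of_pos hr])
    simp only [Complex.ofReal_re, Complex.ofReal_im, Complex.ofReal_zero, mul_zero, add_zero,
      norm_mul, Complex.norm_real, Real.norm_eq_abs, abs_of_pos hr] at this
    exact le_of_mul_le_mul_right this hr
  · have := gen ((r : ℂ) * I) (by
      rw [norm_mul, Complex.norm_I, mul_one, Complex.norm_real, Real.norm_eq_abs, abs_of_pos hr])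
    simp only [Complex.mul_re, Complex.mul_im, Complex.ofReal_re, Complex.ofReal_im,
      Complex.I_re, Complex.I_im, mul_zero, zero_mul, sub_zero, mul_one, add_zero, zero_add,
      Complex.ofReal_zero,
      norm_mul, Complex.norm_real, Real.norm_eq_abs, abs_of_pos hr] at this
    exact le_of_mul_le_mul_right this hr

/-- chains of scales -/
lemma chain {F : ℝ → ℂ} {L : ℝ} (hL : 0 ≤ L)
    (h : ∀ r s : ℝ, 0 < r → r ≤ s → s ≤ 2 * r → ‖F r - F s‖ ≤ L) (n : ℕ) :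
    ∀ r s : ℝ, 0 < r → r ≤ s → s ≤ 2 ^ n * r → ‖F r - F s‖ ≤ n * L := by
  induction n with
  | zero =>
    intro r s hr hrs hs
    have : s = r := le_antisymm (by simpa using hs) hrs
    simp [this]
  | succ n ih =>
    intro r s hr hrs hs
    rcases le_total s (2 * r) with h1 | h1
    · refine (h r s hr hrs h1).trans ?_
      push_cast
      nlinarith [(Nat.cast_nonneg n : (0:ℝ) ≤ n)]
    · have i1 := h r (2 * r) hr (by linarith) le_rfl
      have i2 := ih (2 * r) s (by linarith) h1 (by rw [pow_succ] at hs; linarith)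
      have e : F r - F s = (F r - F (2 * r)) + (F (2 * r) - F s) := by ring
      rw [e]
      refine (norm_add_le _ _).trans ?_
      push_cast
      linarith

lemma chain_log {F : ℝ → ℂ} {L : ℝ} (hL : 0 ≤ L)
    (h : ∀ r s : ℝ, 0 < r → r ≤ s → s ≤ 2 * r → ‖F r - F s‖ ≤ L) {r s : ℝ} (hr : 0 < r)
    (hrs : r ≤ s) : ‖F r - F s‖ ≤ 2 * L * (1 + Real.log (s / r)) := by
  have hq : 1 ≤ s / r := (one_le_div hr).2 hrs
  have hl : 0 ≤ Real.log (s / r) := Real.log_nonneg hq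
  have hl2 : (1:ℝ)/2 < Real.log 2 := by have := Real.log_two_gt_d9; linarith
  set n : ℕ := ⌈2 * Real.log (s / r)⌉₊ with hn
  have h1 : 2 * Real.log (s / r) ≤ n := Nat.le_ceil _
  have h2 : (n : ℝ) < 2 * Real.log (s / r) + 1 := Nat.ceil_lt_add_one (by linarith)
  have h3 : s ≤ 2 ^ n * r := by
    rw [← div_le_iff₀ hr]
    have : Real.log (s / r) ≤ Real.log (2 ^ n) := by
      rw [Real.log_pow]
      nlinarith [(Nat.cast_nonneg n : (0:ℝ) ≤ n)]
    exact (Real.log_le_log_iff (by linarith) (by positivity)).1 this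
  refine (chain hL h n r s hr hrs h3).trans ?_
  nlinarith

lemma conj_div_sub {h k : ℂ} (hh : h ≠ 0) (hk : k ≠ 0) :
    ‖(starRingEnd ℂ) h / h - (starRingEnd ℂ) k / k‖ =
      2 * (|(h * (starRingEnd ℂ) k).im| / (‖h‖ * ‖k‖)) := by
  have e : (starRingEnd ℂ) h / h - (starRingEnd ℂ) k / k =
      (-2 * I) * ((h * (starRingEnd ℂ) k).im : ℂ) / (h * k) := by
    have e1 : (-2 * I) * ((h * (starRingEnd ℂ) k).im : ℂ) =
        (starRingEnd ℂ) h * k - h * (starRingEnd ℂ) k := by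
      apply Complex.ext <;> simp <;> ring
    rw [e1, div_sub_div _ _ hh hk]
  rw [e, norm_div, norm_mul, norm_mul, norm_mul, Complex.norm_real, Real.norm_eq_abs,
    Complex.norm_I]
  norm_num
  ring

end J9

/-- J9: slopes of a Zygmund function of the plane. -/
theorem zygmund_slopes {φ : ℂ → ℂ} (hφ : ZygmundPlane φ) : ∃ C : ℝ, 0 ≤ C ∧
    (∀ a ∈ closedBall (0 : ℂ) 1, ‖φ a‖ ≤ C) ∧
    (∀ a ∈ closedBall (0 : ℂ) 1, ∀ b ∈ closedBall (0 : ℂ) 1, a ≠ b →
      ‖sl φ a b‖ ≤ C * (1 + Real.log (2 / ‖a - b‖))) ∧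
    (∀ a ∈ closedBall (0 : ℂ) 1, ∀ b ∈ closedBall (0 : ℂ) 1, ∀ c ∈ closedBall (0 : ℂ) 1,
      a ≠ b → a ≠ c → ‖a - b‖ ≤ ‖a - c‖ →
      ‖sl φ a b - sl φ a c‖ ≤
        C * (1 + Real.log (‖a - c‖ / ‖a - b‖) + sn a b c * Real.log (2 / ‖a - c‖))) := by
  obtain ⟨hc, C₁, hz₁⟩ := hφ
  set C₀ : ℝ := |C₁| with hC₀
  have h0 : 0 ≤ C₀ := abs_nonneg _
  have hz : ∀ z h : ℂ, ‖φ (z + h) + φ (z - h) - 2 * φ z‖ ≤ C₀ * ‖h‖ := fun z h =>
    (hz₁ z h).trans (mul_le_mul_of_nonneg_right (le_abs_self _) (norm_nonneg _))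
  obtain ⟨M, hM⟩ := (isCompact_closedBall (0:ℂ) 3).exists_bound_of_continuousOn
    hc.continuousOn
  have hM0 : 0 ≤ M := (norm_nonneg _).trans (hM 0 (by simp))
  set K : ℝ := 4 * C₀ with hKdef
  have hK : 0 ≤ K := by positivity
  -- the data
  have data : ∀ a : ℂ, ∃ A B : ℝ → ℂ, ∀ r : ℝ, 0 < r → ∀ h : ℂ, ‖h‖ ≤ r →
      ‖φ (a + h) - φ a - (A r * h.re + B r * h.im)‖ ≤ K * r := by
    intro a
    have h1 : ∀ r : ℝ, ∃ AB : ℂ × ℂ, 0 < r → ∀ h : ℂ, ‖h‖ ≤ r →
      ‖φ (a + h) - φ a - (AB.1 * h.re + AB.2 * h.im)‖ ≤ K * r := by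
      intro r
      by_cases hr : 0 < r
      · obtain ⟨A, B, hAB⟩ := J9.approx hc h0 hz a r hr
        exact ⟨(A, B), fun _ => hAB⟩
      · exact ⟨0, fun h => absurd h hr⟩
    choose AB hAB using h1
    exact ⟨fun r => (AB r).1, fun r => (AB r).2, fun r hr => hAB r hr⟩
  choose A B hAB using data
  have cA : ∀ a : ℂ, ∀ r s : ℝ, 0 < r → r ≤ s →
      ‖A a r - A a s‖ ≤ 2 * (3 * K) * (1 + Real.log (s / r)) := by
    intro a r s hr hrs
    exact J9.chain_log (F := A a) (by positivity) (fun r s hr hrs hs =>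
      (J9.compare hr hrs hs hK (hAB a r hr) (hAB a s (hr.trans_le hrs))).1) hr hrs
  have cB : ∀ a : ℂ, ∀ r s : ℝ, 0 < r → r ≤ s →
      ‖B a r - B a s‖ ≤ 2 * (3 * K) * (1 + Real.log (s / r)) := by
    intro a r s hr hrs
    exact J9.chain_log (F := B a) (by positivity) (fun r s hr hrs hs =>
      (J9.compare hr hrs hs hK (hAB a r hr) (hAB a s (hr.trans_le hrs))).2) hr hrs
  have bA2 : ∀ a ∈ closedBall (0:ℂ) 1, ‖A a 2‖ ≤ K + M := by
    intro a ha
    have h1 := hAB a 2 two_pos 2 (by norm_num)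
    have ha' : ‖a‖ ≤ 1 := by simpa using ha
    have m1 := hM (a + 2) (by
      rw [mem_closedBall_zero_iff]
      refine (norm_add_le _ _).trans ?_
      norm_num; linarith)
    have m2 := hM a (by rw [mem_closedBall_zero_iff]; linarith)
    have e : A a 2 * 2 = (φ (a + 2) - φ a) - (φ (a + 2) - φ a - (A a 2 * ((2:ℂ).re : ℂ) +
      B a 2 * ((2:ℂ).im : ℂ))) := by
      simp
    have h2 : ‖A a 2 * 2‖ ≤ (M + M) + K * 2 := by
      rw [e]
      refine (norm_sub_le _ _).trans (add_le_add ?_ h1)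
      exact (norm_sub_le _ _).trans (add_le_add m1 m2)
    rw [norm_mul] at h2
    norm_num at h2
    linarith
  have bB2 : ∀ a ∈ closedBall (0:ℂ) 1, ‖B a 2‖ ≤ K + M := by
    intro a ha
    have h1 := hAB a 2 two_pos (2 * I) (by norm_num)
    have ha' : ‖a‖ ≤ 1 := by simpa using ha
    have m1 := hM (a + 2 * I) (by
      rw [mem_closedBall_zero_iff]
      refine (norm_add_le _ _).trans ?_
      norm_num; linarith)
    have m2 := hM a (by rw [mem_closedBall_zero_iff]; linarith)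
    have e : B a 2 * 2 = (φ (a + 2 * I) - φ a) - (φ (a + 2 * I) - φ a -
      (A a 2 * ((2 * I:ℂ).re : ℂ) + B a 2 * ((2 * I:ℂ).im : ℂ))) := by
      simp
    have h2 : ‖B a 2 * 2‖ ≤ (M + M) + K * 2 := by
      rw [e]
      refine (norm_sub_le _ _).trans (add_le_add ?_ h1)
      exact (norm_sub_le _ _).trans (add_le_add m1 m2)
    rw [norm_mul] at h2
    norm_num at h2
    linarith
  -- beta and gamma
  set β : ℂ → ℝ → ℂ := fun a r => (A a r - I * B a r) / 2 with hβ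
  set γ : ℂ → ℝ → ℂ := fun a r => (A a r + I * B a r) / 2 with hγ
  have cβ : ∀ a : ℂ, ∀ r s : ℝ, 0 < r → r ≤ s →
      ‖β a r - β a s‖ ≤ 6 * K * (1 + Real.log (s / r)) := by
    intro a r s hr hrs
    have e : β a r - β a s = ((A a r - A a s) - I * (B a r - B a s)) / 2 := by
      simp only [hβ]; ring
    rw [e, norm_div]
    have h1 := norm_sub_le (A a r - A a s) (I * (B a r - B a s))
    rw [norm_mul, Complex.norm_I, one_mul] at h1
    have h2 := cA a r s hr hrs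
    have h3 := cB a r s hr hrs
    norm_num
    linarith
  have cγ : ∀ a : ℂ, ∀ r s : ℝ, 0 < r → r ≤ s →
      ‖γ a r - γ a s‖ ≤ 6 * K * (1 + Real.log (s / r)) := by
    intro a r s hr hrs
    have e : γ a r - γ a s = ((A a r - A a s) + I * (B a r - B a s)) / 2 := by
      simp only [hγ]; ring
    rw [e, norm_div]
    have h1 := norm_add_le (A a r - A a s) (I * (B a r - B a s))
    rw [norm_mul, Complex.norm_I, one_mul] at h1
    have h2 := cA a r s hr hrs
    have h3 := cB a r s hr hrs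
    norm_num
    linarith
  have bβ : ∀ a ∈ closedBall (0:ℂ) 1, ∀ r : ℝ, 0 < r → r ≤ 2 →
      ‖β a r‖ ≤ (7 * K + M) * (1 + Real.log (2 / r)) := by
    intro a ha r hr hr2
    have h1 := cβ a r 2 hr hr2
    have h2 : ‖β a 2‖ ≤ K + M := by
      simp only [hβ]
      rw [norm_div]
      have h1 := norm_sub_le (A a 2) (I * B a 2)
      rw [norm_mul, Complex.norm_I, one_mul] at h1
      have := bA2 a ha
      have := bB2 a ha
      norm_num
      linarith
    have h3 : ‖β a r‖ ≤ ‖β a r - β a 2‖ + ‖β a 2‖ := by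
      have := norm_add_le (β a r - β a 2) (β a 2)
      simpa using this
    have hl : 0 ≤ Real.log (2 / r) := Real.log_nonneg ((one_le_div hr).2 hr2)
    nlinarith
  have bγ : ∀ a ∈ closedBall (0:ℂ) 1, ∀ r : ℝ, 0 < r → r ≤ 2 →
      ‖γ a r‖ ≤ (7 * K + M) * (1 + Real.log (2 / r)) := by
    intro a ha r hr hr2
    have h1 := cγ a r 2 hr hr2
    have h2 : ‖γ a 2‖ ≤ K + M := by
      simp only [hγ]
      rw [norm_div]
      have h1 := norm_add_le (A a 2) (I * B a 2)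
      rw [norm_mul, Complex.norm_I, one_mul] at h1
      have := bA2 a ha
      have := bB2 a ha
      norm_num
      linarith
    have h3 : ‖γ a r‖ ≤ ‖γ a r - γ a 2‖ + ‖γ a 2‖ := by
      have := norm_add_le (γ a r - γ a 2) (γ a 2)
      simpa using this
    have hl : 0 ≤ Real.log (2 / r) := Real.log_nonneg ((one_le_div hr).2 hr2)
    nlinarith
  -- slopes
  have slope : ∀ a b : ℂ, a ≠ b →
      ‖sl φ a b - (β a ‖a - b‖ + γ a ‖a - b‖ * ((starRingEnd ℂ) (b - a) / (b - a)))‖ ≤ K := by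
    intro a b hab
    have hd : 0 < ‖a - b‖ := norm_pos_iff.2 (sub_ne_zero.2 hab)
    have hne : b - a ≠ 0 := sub_ne_zero.2 (Ne.symm hab)
    have h1 := hAB a ‖a - b‖ hd (b - a) (by rw [norm_sub_rev])
    have e : sl φ a b - (β a ‖a - b‖ + γ a ‖a - b‖ * ((starRingEnd ℂ) (b - a) / (b - a))) =
        (φ (a + (b - a)) - φ a - (A a ‖a - b‖ * ((b - a).re : ℂ) +
          B a ‖a - b‖ * ((b - a).im : ℂ))) / (b - a) := by
      have e1 : a + (b - a) = b := by ring
      have e2 : A a ‖a - b‖ * ((b - a).re : ℂ) + B a ‖a - b‖ * ((b - a).im : ℂ) =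
          β a ‖a - b‖ * (b - a) + γ a ‖a - b‖ * (starRingEnd ℂ) (b - a) := by
        simp only [hβ, hγ]
        rw [Complex.re_eq_add_conj, Complex.im_eq_sub_conj]
        have hI : (I:ℂ) ≠ 0 := Complex.I_ne_zero
        field_simp
        ring_nf
        simp only [Complex.I_sq]
        ring
      rw [e1, e2, sl]
      field_simp
    rw [e, norm_div, div_le_iff₀ (norm_pos_iff.2 hne)]
    rw [norm_sub_rev b a]
    exact h1
  have conj1 : ∀ h : ℂ, ‖(starRingEnd ℂ) h / h‖ ≤ 1 := by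
    intro h
    rw [norm_div, Complex.norm_conj]
    exact div_self_le_one _
  refine ⟨20 * (7 * K + M) + 1 + M, by positivity, ?_, ?_, ?_⟩
  · intro a ha
    have := hM a (closedBall_subset_closedBall (by norm_num) ha)
    nlinarith
  · intro a ha b hb hab
    have hd : 0 < ‖a - b‖ := norm_pos_iff.2 (sub_ne_zero.2 hab)
    have hd2 : ‖a - b‖ ≤ 2 := by
      rw [mem_closedBall_zero_iff] at ha hb
      linarith [norm_sub_le a b]
    have h1 := slope a b hab
    have h2 := bβ a ha _ hd hd2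
    have h3 := bγ a ha _ hd hd2
    have hl : 0 ≤ Real.log (2 / ‖a - b‖) := Real.log_nonneg ((one_le_div hd).2 hd2)
    have h4 : ‖γ a ‖a - b‖ * ((starRingEnd ℂ) (b - a) / (b - a))‖ ≤ ‖γ a ‖a - b‖‖ := by
      rw [norm_mul]
      exact mul_le_of_le_one_right (norm_nonneg _) (conj1 _)
    have h5 := norm_add_le (β a ‖a - b‖) (γ a ‖a - b‖ * ((starRingEnd ℂ) (b - a) / (b - a)))
    have h6 : ‖sl φ a b‖ ≤ ‖sl φ a b - (β a ‖a - b‖ + γ a ‖a - b‖ *
        ((starRingEnd ℂ) (b - a) / (b - a)))‖ + ‖β a ‖a - b‖ + γ a ‖a - b‖ *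
        ((starRingEnd ℂ) (b - a) / (b - a))‖ := by
      have := norm_add_le (sl φ a b - (β a ‖a - b‖ + γ a ‖a - b‖ *
        ((starRingEnd ℂ) (b - a) / (b - a)))) (β a ‖a - b‖ + γ a ‖a - b‖ *
        ((starRingEnd ℂ) (b - a) / (b - a)))
      simpa using this
    have h7 : ‖sl φ a b‖ ≤ K + 2 * ((7 * K + M) * (1 + Real.log (2 / ‖a - b‖))) := by linarith
    refine h7.trans ?_
    have : 0 ≤ (7 * K + M) := by positivity
    nlinarith [mul_nonneg this hl, mul_nonneg hK hl, mul_nonneg hM0 hl]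
  · intro a ha b hb c hcc hab hac habc
    have hd : 0 < ‖a - b‖ := norm_pos_iff.2 (sub_ne_zero.2 hab)
    have hD : 0 < ‖a - c‖ := norm_pos_iff.2 (sub_ne_zero.2 hac)
    have hD2 : ‖a - c‖ ≤ 2 := by
      rw [mem_closedBall_zero_iff] at ha hcc
      linarith [norm_sub_le a c]
    have hb1 : b - a ≠ 0 := sub_ne_zero.2 (Ne.symm hab)
    have hc1 : c - a ≠ 0 := sub_ne_zero.2 (Ne.symm hac)
    have s1 := slope a b hab
    have s2 := slope a c hac
    have c1 := cβ a _ _ hd habc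
    have c2 := cγ a _ _ hd habc
    have b1 := bγ a ha _ hD hD2
    have hl : 0 ≤ Real.log (2 / ‖a - c‖) := Real.log_nonneg ((one_le_div hD).2 hD2)
    have hl' : 0 ≤ Real.log (‖a - c‖ / ‖a - b‖) := Real.log_nonneg ((one_le_div hd).2 habc)
    have hsn := J9.conj_div_sub hb1 hc1
    rw [show |((b - a) * (starRingEnd ℂ) (c - a)).im| / (‖b - a‖ * ‖c - a‖) = sn a b c from rfl]
      at hsn
    have hsn0 : 0 ≤ sn a b c := by unfold sn; positivity
    have hsn1 : sn a b c ≤ 1 := by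
      have h1 := norm_sub_le ((starRingEnd ℂ) (b - a) / (b - a))
        ((starRingEnd ℂ) (c - a) / (c - a))
      have := conj1 (b - a)
      have := conj1 (c - a)
      linarith
    set u := (starRingEnd ℂ) (b - a) / (b - a) with hu
    set v := (starRingEnd ℂ) (c - a) / (c - a) with hv
    have e : sl φ a b - sl φ a c =
        (sl φ a b - (β a ‖a - b‖ + γ a ‖a - b‖ * u)) -
        (sl φ a c - (β a ‖a - c‖ + γ a ‖a - c‖ * v)) +
        ((β a ‖a - b‖ - β a ‖a - c‖) + (γ a ‖a - b‖ - γ a ‖a - c‖) * u +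
          γ a ‖a - c‖ * (u - v)) := by ring
    rw [e]
    have t1 : ‖(γ a ‖a - b‖ - γ a ‖a - c‖) * u‖ ≤ 6 * K * (1 + Real.log (‖a - c‖ / ‖a - b‖)) := by
      rw [norm_mul]
      exact (mul_le_of_le_one_right (norm_nonneg _) (conj1 _)).trans c2
    have t2 : ‖γ a ‖a - c‖ * (u - v)‖ ≤
        (7 * K + M) * (1 + Real.log (2 / ‖a - c‖)) * (2 * sn a b c) := by
      rw [norm_mul, hsn]
      exact mul_le_mul_of_nonneg_right b1 (by positivity)
    have t3 := norm_add_le ((sl φ a b - (β a ‖a - b‖ + γ a ‖a - b‖ * u)) -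
        (sl φ a c - (β a ‖a - c‖ + γ a ‖a - c‖ * v)))
        ((β a ‖a - b‖ - β a ‖a - c‖) + (γ a ‖a - b‖ - γ a ‖a - c‖) * u +
          γ a ‖a - c‖ * (u - v))
    have t4 := norm_sub_le (sl φ a b - (β a ‖a - b‖ + γ a ‖a - b‖ * u))
        (sl φ a c - (β a ‖a - c‖ + γ a ‖a - c‖ * v))
    have t5 := norm_add_le ((β a ‖a - b‖ - β a ‖a - c‖) + (γ a ‖a - b‖ - γ a ‖a - c‖) * u)
          (γ a ‖a - c‖ * (u - v))
    have t6 := norm_add_le (β a ‖a - b‖ - β a ‖a - c‖) ((γ a ‖a - b‖ - γ a ‖a - c‖) * u)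
    have hP : 0 ≤ 7 * K + M := by positivity
    have t7 : (7 * K + M) * (1 + Real.log (2 / ‖a - c‖)) * (2 * sn a b c) ≤
        2 * (7 * K + M) + 2 * (7 * K + M) * (sn a b c * Real.log (2 / ‖a - c‖)) := by
      have : (7 * K + M) * sn a b c ≤ (7 * K + M) := mul_le_of_le_one_right hP hsn1
      nlinarith
    have q1 : 0 ≤ sn a b c * Real.log (2 / ‖a - c‖) := mul_nonneg hsn0 hl
    have q2 := mul_nonneg hP q1
    have q3 := mul_nonneg hP hl'
    have q4 := mul_nonneg hM0 hl'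
    have q5 := mul_nonneg hM0 q1
    have q6 := mul_nonneg hK hl'
    nlinarith

end ZygInt.J9s
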