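import Mathlib

namespace ZygInt.J3

open Complex Metric Set

/-- Cauchy integral formula for the second derivative. -/
theorem cauchy2_807 {g : ℂ → ℂ} (hg : DifferentiableOn ℂ g (ball 0 1))
    (hc : ContinuousOn g (closedBall 0 1)) {z : ℂ} (hz : z ∈ ball (0 : ℂ) 1) :
    (∮ w in C(0, 1), g w * (w - z) ^ (-3 : ℤ)) = Real.pi * I * deriv (deriv g) z := by
  have hzn : ball (0 : ℂ) 1 ∈ nhds z := isOpen_ball.mem_nhds hz
  have hzn' : closedBall (0 : ℂ) 1 ∈ nhds z := Filter.mem_of_superset hzn ball_subset_closedBall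
  have hgz : DifferentiableAt ℂ g z := hg.differentiableAt hzn
  set h1 := dslope g z with hh1
  have hd1 : DifferentiableOn ℂ h1 (ball 0 1) := (Complex.differentiableOn_dslope hzn).mpr hg
  have hc1 : ContinuousOn h1 (closedBall 0 1) := (continuousOn_dslope hzn').mpr ⟨hc, hgz⟩
  have hh1z : DifferentiableAt ℂ h1 z := hd1.differentiableAt hzn
  set h2 := dslope h1 z with hh2
  have hd2 : DifferentiableOn ℂ h2 (ball 0 1) := (Complex.differentiableOn_dslope hzn).mpr hd1
  have hc2 : ContinuousOn h2 (closedBall 0 1) := (continuousOn_dslope hzn').mpr ⟨hc1, hh1z⟩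
  have hdc2 : DiffContOnCl ℂ h2 (ball 0 1) :=
    ⟨hd2, hc2.mono (by rw [closure_ball (0 : ℂ) one_ne_zero])⟩
  -- value at z
  have hval : h2 z = deriv (deriv g) z / 2 := by
    have e1 : h2 z = deriv h1 z := dslope_same _ _
    have hgeq : ∀ w, g w = g z + (w - z) * h1 w := by
      intro w
      have := sub_smul_dslope g z w
      rw [smul_eq_mul] at this
      rw [hh1, this]; ring
    have e2 : deriv g =ᶠ[nhds z] fun w => h1 w + (w - z) * deriv h1 w := by
      filter_upwards [hzn] with w hw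
      have hw1 : HasDerivAt h1 (deriv h1 w) w :=
        (hd1.differentiableAt (isOpen_ball.mem_nhds hw)).hasDerivAt
      have hw2 : HasDerivAt (fun w => g z + (w - z) * h1 w) (1 * h1 w + (w - z) * deriv h1 w) w :=
        (((hasDerivAt_id w).sub_const z).mul hw1).const_add (g z)
      have hw3 : g = fun w => g z + (w - z) * h1 w := funext hgeq
      rw [hw3, hw2.deriv, one_mul]
    have e3 : HasDerivAt (fun w => h1 w + (w - z) * deriv h1 w)
        (deriv h1 z + (1 * deriv h1 z + (z - z) * deriv (deriv h1) z)) z := by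
      apply HasDerivAt.add hh1z.hasDerivAt
      have hdd : DifferentiableAt ℂ (deriv h1) z :=
        (hd1.deriv isOpen_ball).differentiableAt hzn
      exact ((hasDerivAt_id z).sub_const z).mul hdd.hasDerivAt
    rw [e1, e2.deriv_eq, e3.deriv]
    ring
  have hcf := hdc2.circleIntegral_sub_inv_smul hz
  rw [hval] at hcf
  have hne : ∀ w ∈ sphere (0 : ℂ) 1, w ≠ z := by
    intro w hw h
    rw [h, mem_sphere_zero_iff_norm] at hw
    rw [mem_ball_zero_iff] at hz
    linarith
  have hcong : (∮ w in C(0, 1), (w - z)⁻¹ • h2 w) =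
      ∮ w in C(0, 1), ((g w * (w - z) ^ (-3 : ℤ) - g z * (w - z) ^ (-3 : ℤ))
        - deriv g z * (w - z) ^ (-2 : ℤ)) := by
    apply circleIntegral.integral_congr zero_le_one
    intro w hw
    have hwz := sub_ne_zero.mpr (hne w hw)
    show (w - z)⁻¹ • h2 w = g w * (w - z) ^ (-3 : ℤ) - g z * (w - z) ^ (-3 : ℤ)
        - deriv g z * (w - z) ^ (-2 : ℤ)
    have e1 : (w - z) * h2 w = h1 w - h1 z := by
      have := sub_smul_dslope h1 z w
      rwa [smul_eq_mul] at this
    have e2 : (w - z) * h1 w = g w - g z := by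
      have := sub_smul_dslope g z w
      rwa [smul_eq_mul] at this
    have e3 : h1 z = deriv g z := dslope_same _ _
    have e4 : (w - z) ^ (-3 : ℤ) = ((w - z) ^ 3)⁻¹ := by
      rw [zpow_neg]; norm_cast
    have e5 : (w - z) ^ (-2 : ℤ) = ((w - z) ^ 2)⁻¹ := by
      rw [zpow_neg]; norm_cast
    rw [smul_eq_mul, e4, e5]
    have e6 : h2 w = (h1 w - h1 z) / (w - z) := by
      rw [eq_div_iff hwz, mul_comm]; exact e1
    have e7 : h1 w = (g w - g z) / (w - z) := by
      rw [eq_div_iff hwz, mul_comm]; exact e2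
    rw [e6, e7, e3]
    field_simp
  rw [hcong] at hcf
  have hzp : ∀ n : ℤ, ContinuousOn (fun w => (w - z) ^ n) (sphere (0 : ℂ) 1) := by
    intro n
    apply ContinuousOn.zpow₀ (by fun_prop)
    intro w hw
    left
    exact sub_ne_zero.mpr (hne w hw)
  have hci : ∀ F : ℂ → ℂ, ContinuousOn F (sphere (0 : ℂ) 1) → CircleIntegrable F 0 1 := fun F hF =>
    hF.circleIntegrable zero_le_one
  have hgs : ContinuousOn g (sphere (0 : ℂ) 1) := hc.mono sphere_subset_closedBall
  rw [circleIntegral.integral_sub, circleIntegral.integral_sub, circleIntegral.integral_const_mul,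
    circleIntegral.integral_const_mul, circleIntegral.integral_sub_zpow_of_ne (by norm_num),
    circleIntegral.integral_sub_zpow_of_ne (by norm_num)] at hcf
  · rw [mul_zero, mul_zero, sub_zero, sub_zero] at hcf
    rw [hcf, smul_eq_mul]
    ring
  · exact hci _ (hgs.mul (hzp _))
  · exact hci _ (continuousOn_const.mul (hzp _))
  · exact hci _ ((hgs.mul (hzp _)).sub (continuousOn_const.mul (hzp _)))
  · exact hci _ (continuousOn_const.mul (hzp _))

/-- the kernel -/
noncomputable def ker807 (r θ : ℝ) : ℂ := exp (θ * I) * (exp (θ * I) - r) ^ (-3 : ℤ)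

theorem norm_exp_sub_807 {r θ : ℝ} (hr0 : 0 ≤ r) (hr1 : r < 1) (hθ : |θ| ≤ Real.pi) :
    (1 - r + |θ| / Real.pi) / 2 ≤ ‖exp (θ * I) - r‖ := by
  have hpi := Real.pi_pos
  have h1 : 1 - r ≤ ‖exp (θ * I) - r‖ := by
    have := norm_sub_norm_le (exp (θ * I)) (r : ℂ)
    rw [norm_exp_ofReal_mul_I, norm_real, Real.norm_of_nonneg hr0] at this
    exact this
  have h2 : ‖exp (θ * I) - 1‖ = 2 * Real.sin (|θ| / 2) := by
    rw [mul_comm (θ : ℂ) I, Complex.norm_exp_I_mul_ofReal_sub_one, norm_mul, Real.norm_ofNat,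
      Real.norm_eq_abs]
    congr 1
    rcases abs_cases θ with ⟨h, h'⟩ | ⟨h, h'⟩
    · rw [h, abs_of_nonneg]
      apply Real.sin_nonneg_of_nonneg_of_le_pi
      · linarith
      · rw [h] at hθ; linarith
    · rw [h, abs_of_nonpos]
      · rw [← Real.sin_neg]; congr 1; ring
      · rw [h] at hθ
        apply Real.sin_nonpos_of_nonpos_of_neg_pi_le
        · linarith
        · linarith
  have h3 : 2 / Real.pi * (|θ| / 2) ≤ Real.sin (|θ| / 2) :=
    Real.mul_le_sin (by positivity) (by linarith)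
  have h4 : ‖exp (θ * I) - 1‖ ≤ ‖exp (θ * I) - r‖ + (1 - r) := by
    have e : exp (θ * I) - 1 = (exp (θ * I) - r) + ((r : ℂ) - 1) := by ring
    have e2 : ‖(r : ℂ) - 1‖ = 1 - r := by
      have : (r : ℂ) - 1 = ((r - 1 : ℝ) : ℂ) := by push_cast; ring
      rw [this, norm_real, Real.norm_eq_abs, abs_of_nonpos (by linarith)]; ring
    calc ‖exp (θ * I) - 1‖ = ‖(exp (θ * I) - r) + ((r : ℂ) - 1)‖ := by rw [e]
      _ ≤ ‖exp (θ * I) - r‖ + ‖(r : ℂ) - 1‖ := norm_add_le _ _
      _ = _ := by rw [e2]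
  have h5 : 2 / Real.pi * (|θ| / 2) = |θ| / Real.pi := by ring
  rw [h5] at h3
  have h6 : 0 ≤ |θ| / Real.pi := by positivity
  linarith

theorem ker_bound_807 {r θ : ℝ} (hr0 : 0 ≤ r) (hr1 : r < 1) (hθ : |θ| ≤ Real.pi) :
    |θ| * ‖ker807 r θ‖ ≤ 8 * Real.pi / ((1 - r) ^ 2 + (θ / Real.pi) ^ 2) := by
  have hpi := Real.pi_pos
  have h1 := norm_exp_sub_807 hr0 hr1 hθ
  set A := ‖exp (θ * I) - r‖ with hA
  set u := |θ| / Real.pi with hu
  have hu0 : 0 ≤ u := by positivity
  have hA0 : 0 < A := by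
    have : 0 < (1 - r + u) / 2 := by linarith
    linarith
  have h2 : ‖ker807 r θ‖ = (A ^ 3)⁻¹ := by
    rw [ker807, norm_mul, norm_exp_ofReal_mul_I, one_mul, zpow_neg, norm_inv]
    norm_cast
    rw [norm_pow]
  have h3 : (θ / Real.pi) ^ 2 = u ^ 2 := by
    rw [hu, div_pow, div_pow, sq_abs]
  rw [h2, h3]
  have h4 : |θ| = Real.pi * u := by rw [hu]; field_simp
  rw [h4, ← div_eq_mul_inv, div_le_div_iff₀ (by positivity) (by nlinarith [sq_nonneg u, sub_pos.mpr hr1, pow_pos (sub_pos.mpr hr1) 2])]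
  have h5 : u ≤ 2 * A := by linarith
  have h6 : (1 - r) ^ 2 + u ^ 2 ≤ 4 * A ^ 2 := by nlinarith
  have h7 : u * ((1 - r) ^ 2 + u ^ 2) ≤ 2 * A * (4 * A ^ 2) :=
    mul_le_mul h5 h6 (by positivity) (by positivity)
  nlinarith

theorem main_807 {g : ℂ → ℂ} (hg : DifferentiableOn ℂ g (ball 0 1))
    (hc : ContinuousOn g (closedBall 0 1)) {C : ℝ}
    (hC : ∀ h : ℝ, ‖g (exp (h * I)) + g (exp ((-h : ℝ) * I)) - 2 * g 1‖ ≤ C * |h|)
    {r : ℝ} (hr0 : 0 ≤ r) (hr1 : r < 1) :
    ‖deriv (deriv g) r‖ ≤ 8 * Real.pi ^ 2 * C / (1 - r) := by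
  have hpi := Real.pi_pos
  have hrb : (r : ℂ) ∈ ball (0 : ℂ) 1 := by
    rw [mem_ball_zero_iff, norm_real, Real.norm_of_nonneg hr0]; exact hr1
  have hsph : ∀ θ : ℝ, exp (θ * I) ∈ sphere (0 : ℂ) 1 := by
    intro θ; rw [mem_sphere_zero_iff_norm, norm_exp_ofReal_mul_I]
  have hcm : ∀ θ : ℝ, circleMap 0 1 θ = exp (θ * I) := by intro θ; simp [circleMap]
  have hne : ∀ θ : ℝ, exp (θ * I) - r ≠ 0 := by
    intro θ h
    have h1 := hsph θ
    rw [sub_eq_zero.mp h, mem_sphere_zero_iff_norm, norm_real, Real.norm_of_nonneg hr0] at h1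
    linarith
  have hkc : Continuous (ker807 r) := by
    unfold ker807
    apply Continuous.mul (by fun_prop)
    apply Continuous.zpow₀ (by fun_prop)
    intro θ; left; exact hne θ
  have hkn : ∀ θ : ℝ, ker807 r (-θ) = exp (θ * I) ^ 2 * (1 - r * exp (θ * I)) ^ (-3 : ℤ) := by
    intro θ
    have hE : exp (θ * I) ≠ 0 := exp_ne_zero _
    have e1 : exp (((-θ : ℝ) : ℂ) * I) = (exp (θ * I))⁻¹ := by
      rw [← exp_neg]; congr 1; push_cast; ring
    have h1 := hne (-θ)
    rw [e1] at h1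
    unfold ker807
    rw [e1]
    set E := exp (θ * I) with hEdef
    have e2 : E⁻¹ - r = (1 - r * E) / E := by field_simp
    have h2 : 1 - (r : ℂ) * E ≠ 0 := by
      intro h
      rw [e2, h, zero_div] at h1
      exact h1 rfl
    rw [e2, div_zpow, zpow_neg E, div_inv_eq_mul]
    have e3 : E ^ (3 : ℤ) = E ^ 3 := by norm_cast
    rw [e3]
    field_simp
  have hexpc : Continuous fun θ : ℝ => exp (θ * I) := by fun_prop
  -- the two integrals for a general function
  have hkey : ∀ G : ℂ → ℂ, DifferentiableOn ℂ G (ball 0 1) → ContinuousOn G (closedBall 0 1) →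
      (∫ θ in (0 : ℝ)..2 * Real.pi, G (exp (θ * I)) * (ker807 r θ + ker807 r (-θ))) =
        Real.pi * deriv (deriv G) r := by
    intro G hG hGc
    have hGs : Continuous fun θ : ℝ => G (exp (θ * I)) :=
      (hGc.mono sphere_subset_closedBall).comp_continuous hexpc hsph
    have e1 := cauchy2_807 hG hGc hrb
    have e2 : (∮ w in C(0, 1), G w * (w * (1 - r * w) ^ (-3 : ℤ))) = 0 := by
      apply DiffContOnCl.circleIntegral_eq_zero zero_le_one
      have hnz : ∀ w ∈ closedBall (0 : ℂ) 1, 1 - (r : ℂ) * w ≠ 0 := by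
        intro w hw h
        have h1 : (r : ℂ) * w = 1 := by linear_combination -h
        have h2 := congrArg norm h1
        rw [norm_mul, norm_real, Real.norm_of_nonneg hr0, norm_one] at h2
        rw [mem_closedBall_zero_iff] at hw
        nlinarith [norm_nonneg w]
      constructor
      · apply hG.mul
        apply DifferentiableOn.mul differentiableOn_id
        apply DifferentiableOn.zpow (by fun_prop)
        left
        intro w hw
        exact hnz w (ball_subset_closedBall hw)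
      · rw [closure_ball (0 : ℂ) one_ne_zero]
        apply hGc.mul
        apply ContinuousOn.mul continuousOn_id
        apply ContinuousOn.zpow₀ (by fun_prop)
        intro w hw; left; exact hnz w hw
    rw [circleIntegral] at e1 e2
    simp only [deriv_circleMap, hcm, smul_eq_mul] at e1 e2
    have e3 : (∫ θ in (0 : ℝ)..2 * Real.pi, G (exp (θ * I)) * ker807 r θ) =
        Real.pi * deriv (deriv G) r := by
      have h1 : (∫ θ in (0 : ℝ)..2 * Real.pi,
          exp (θ * I) * I * (G (exp (θ * I)) * (exp (θ * I) - r) ^ (-3 : ℤ))) =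
          I * ∫ θ in (0 : ℝ)..2 * Real.pi, G (exp (θ * I)) * ker807 r θ := by
        rw [← intervalIntegral.integral_const_mul]
        congr 1; funext θ
        rw [ker807]; ring
      rw [h1] at e1
      apply mul_left_cancel₀ I_ne_zero
      rw [e1]; ring
    have e4 : (∫ θ in (0 : ℝ)..2 * Real.pi, G (exp (θ * I)) * ker807 r (-θ)) = 0 := by
      have h1 : (∫ θ in (0 : ℝ)..2 * Real.pi,
          exp (θ * I) * I * (G (exp (θ * I)) * (exp (θ * I) * (1 - r * exp (θ * I)) ^ (-3 : ℤ)))) =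
          I * ∫ θ in (0 : ℝ)..2 * Real.pi, G (exp (θ * I)) * ker807 r (-θ) := by
        rw [← intervalIntegral.integral_const_mul]
        congr 1; funext θ
        rw [hkn]; ring
      rw [h1] at e2
      rcases mul_eq_zero.mp e2 with h | h
      · exact absurd h I_ne_zero
      · exact h
    have hkc' : Continuous fun θ : ℝ => ker807 r (-θ) := hkc.comp continuous_neg
    simp only [mul_add]
    rw [intervalIntegral.integral_add, e3, e4, add_zero]
    · exact (hGs.mul hkc).intervalIntegrable _ _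
    · exact (hGs.mul hkc').intervalIntegrable _ _
  set A : ℝ → ℂ := fun θ => ker807 r θ + ker807 r (-θ) with hA
  have hAc : Continuous A := hkc.add (hkc.comp continuous_neg)
  have hAe : ∀ θ, A (-θ) = A θ := by intro θ; simp only [hA, neg_neg]; ring
  have hper : ∀ θ : ℝ, exp (((θ + 2 * Real.pi : ℝ) : ℂ) * I) = exp (θ * I) := by
    intro θ
    have : ((θ + 2 * Real.pi : ℝ) : ℂ) * I = θ * I + 2 * Real.pi * I := by push_cast; ring
    rw [this, exp_periodic]
  have hkp : ∀ θ, ker807 r (θ + 2 * Real.pi) = ker807 r θ := by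
    intro θ; unfold ker807; rw [hper]
  have hAp : ∀ θ, A (θ + 2 * Real.pi) = A θ := by
    intro θ
    simp only [hA]
    rw [hkp]
    congr 1
    have := hkp (-(θ + 2 * Real.pi))
    rw [← this]; congr 1; ring
  have hgs : Continuous fun θ : ℝ => g (exp (θ * I)) :=
    (hc.mono sphere_subset_closedBall).comp_continuous hexpc hsph
  have hgs' : Continuous fun θ : ℝ => g (exp (((-θ : ℝ) : ℂ) * I)) := hgs.comp continuous_neg
  have hI1 : (∫ θ in (0 : ℝ)..2 * Real.pi, g (exp (θ * I)) * A θ) = Real.pi * deriv (deriv g) r :=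
    hkey g hg hc
  have hI2 : (∫ θ in (0 : ℝ)..2 * Real.pi, g (exp (((-θ : ℝ) : ℂ) * I)) * A θ) =
      Real.pi * deriv (deriv g) r := by
    rw [← hI1]
    have h1 := intervalIntegral.integral_comp_sub_left (a := 0) (b := 2 * Real.pi)
      (fun θ : ℝ => g (exp (θ * I)) * A θ) (2 * Real.pi)
    rw [sub_self, sub_zero] at h1
    rw [← h1]
    congr 1; funext θ
    have e1 : exp (((2 * Real.pi - θ : ℝ) : ℂ) * I) = exp (((-θ : ℝ) : ℂ) * I) := by
      rw [← hper (-θ)]; congr 3; ring
    have e2 : A (2 * Real.pi - θ) = A θ := by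
      rw [← hAe θ, ← hAp (-θ)]; congr 1; ring
    rw [e1, e2]
  have hI3 : (∫ θ in (0 : ℝ)..2 * Real.pi, (2 * g 1) * A θ) = 0 := by
    have := hkey (fun _ => 2 * g 1) (differentiableOn_const _) continuousOn_const
    rw [this]
    simp
  set D : ℝ → ℂ := fun θ => g (exp (θ * I)) + g (exp (((-θ : ℝ) : ℂ) * I)) - 2 * g 1 with hD
  have hI4 : (∫ θ in (0 : ℝ)..2 * Real.pi, D θ * A θ) = 2 * Real.pi * deriv (deriv g) r := by
    have h1 : (fun θ => D θ * A θ) = fun θ : ℝ => (g (exp (θ * I)) * A θ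
        + g (exp (((-θ : ℝ) : ℂ) * I)) * A θ) - (2 * g 1) * A θ := by
      funext θ; simp only [hD]; ring
    rw [h1, intervalIntegral.integral_sub, intervalIntegral.integral_add, hI1, hI2, hI3]
    · ring
    · exact (hgs.mul hAc).intervalIntegrable _ _
    · exact (hgs'.mul hAc).intervalIntegrable _ _
    · exact ((hgs.mul hAc).add (hgs'.mul hAc)).intervalIntegrable _ _
    · exact (continuous_const.mul hAc).intervalIntegrable _ _
  have hDp : ∀ θ, D (θ + 2 * Real.pi) = D θ := by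
    intro θ
    simp only [hD]
    rw [hper]
    congr 3
    rw [← hper (-(θ + 2 * Real.pi))]; congr 4; ring
  have hperiod : Function.Periodic (fun θ => D θ * A θ) (2 * Real.pi) := by
    intro θ; simp only [hDp, hAp]
  have hI5 : (∫ θ in (-Real.pi)..Real.pi, D θ * A θ) = 2 * Real.pi * deriv (deriv g) r := by
    rw [← hI4]
    have := hperiod.intervalIntegral_add_eq (-Real.pi) 0
    rw [zero_add] at this
    rw [← this]
    congr 1; ring
  have hC0 : 0 ≤ C := by
    have := (norm_nonneg _).trans (hC 1)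
    simpa using this
  set δ := 1 - r with hδ
  have hδ0 : 0 < δ := by rw [hδ]; linarith
  have hcontb : Continuous fun θ : ℝ => 16 * Real.pi * C / (δ ^ 2 + (θ / Real.pi) ^ 2) := by
    apply Continuous.div continuous_const (by fun_prop)
    intro θ; positivity
  have hbd : ‖∫ θ in (-Real.pi)..Real.pi, D θ * A θ‖ ≤
      ∫ θ in (-Real.pi)..Real.pi, 16 * Real.pi * C / (δ ^ 2 + (θ / Real.pi) ^ 2) := by
    apply intervalIntegral.norm_integral_le_of_norm_le (by linarith)
    · apply Filter.Eventually.of_forall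
      intro θ hθ
      have hθ' : |θ| ≤ Real.pi := abs_le.mpr ⟨hθ.1.le, hθ.2⟩
      have h1 := ker_bound_807 hr0 hr1 hθ'
      have h2 := ker_bound_807 (θ := -θ) hr0 hr1 (by rwa [abs_neg])
      rw [abs_neg, neg_div, neg_sq] at h2
      have h3 : ‖D θ‖ ≤ C * |θ| := hC θ
      rw [norm_mul]
      calc ‖D θ‖ * ‖A θ‖ ≤ (C * |θ|) * (‖ker807 r θ‖ + ‖ker807 r (-θ)‖) :=
            mul_le_mul h3 (norm_add_le _ _) (norm_nonneg _) (by positivity)
        _ = C * (|θ| * ‖ker807 r θ‖ + |θ| * ‖ker807 r (-θ)‖) := by ring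
        _ ≤ C * (8 * Real.pi / (δ ^ 2 + (θ / Real.pi) ^ 2) + 8 * Real.pi / (δ ^ 2 + (θ / Real.pi) ^ 2)) := by
            gcongr
        _ = 16 * Real.pi * C / (δ ^ 2 + (θ / Real.pi) ^ 2) := by ring
    · exact hcontb.intervalIntegrable _ _
  have hint : (∫ θ in (-Real.pi)..Real.pi, 16 * Real.pi * C / (δ ^ 2 + (θ / Real.pi) ^ 2)) ≤
      16 * Real.pi ^ 3 * C / δ := by
    have h1 : (fun θ : ℝ => 16 * Real.pi * C / (δ ^ 2 + (θ / Real.pi) ^ 2)) =
        fun θ : ℝ => (16 * Real.pi * C / δ ^ 2) * (1 + (θ / (Real.pi * δ)) ^ 2)⁻¹ := by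
      funext θ
      have : (1 + (θ / (Real.pi * δ)) ^ 2) = (δ ^ 2 + (θ / Real.pi) ^ 2) / δ ^ 2 := by
        field_simp
      rw [this, inv_div]
      have : δ ^ 2 + (θ / Real.pi) ^ 2 ≠ 0 := by positivity
      field_simp
    rw [h1, intervalIntegral.integral_const_mul,
      intervalIntegral.integral_comp_div (fun x : ℝ => (1 + x ^ 2)⁻¹) (by positivity),
      integral_inv_one_add_sq, smul_eq_mul]
    have h2 := Real.arctan_lt_pi_div_two (Real.pi / (Real.pi * δ))
    have h3 := Real.neg_pi_div_two_lt_arctan (-Real.pi / (Real.pi * δ))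
    calc (16 * Real.pi * C / δ ^ 2) * (Real.pi * δ * (Real.arctan (Real.pi / (Real.pi * δ)) -
          Real.arctan (-Real.pi / (Real.pi * δ))))
        ≤ (16 * Real.pi * C / δ ^ 2) * (Real.pi * δ * Real.pi) := by
          gcongr
          linarith
      _ = 16 * Real.pi ^ 3 * C / δ := by field_simp
  rw [hI5] at hbd
  have h6 := hbd.trans hint
  rw [norm_mul, norm_mul, norm_real, Real.norm_of_nonneg hpi.le] at h6
  norm_num at h6
  have h7 : 16 * Real.pi ^ 3 * C / δ = (2 * Real.pi) * (8 * Real.pi ^ 2 * C / δ) := by ring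
  rw [h7] at h6
  exact le_of_mul_le_mul_left h6 (by positivity)

/-- J3: boundary Zygmund condition implies the growth bound for the second derivative. -/
theorem second_deriv_of_boundary_zygmund {f : ℂ → ℂ} (hf : DifferentiableOn ℂ f (ball 0 1))
    (hc : ContinuousOn f (closedBall 0 1)) {C : ℝ}
    (hC : ∀ t h : ℝ, ‖f (exp ((t + h : ℝ) * I)) + f (exp ((t - h : ℝ) * I))
      - 2 * f (exp (t * I))‖ ≤ C * |h|) :
    ∃ M : ℝ, ∀ z ∈ ball (0 : ℂ) 1, ‖deriv (deriv f) z‖ ≤ M / (1 - ‖z‖) := by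
  refine ⟨8 * Real.pi ^ 2 * C, ?_⟩
  intro z hz
  set u : ℂ := exp (arg z * I) with hu
  have hun : ‖u‖ = 1 := norm_exp_ofReal_mul_I _
  have hzu : u * (‖z‖ : ℂ) = z := by
    rw [mul_comm]; exact norm_mul_exp_arg_mul_I z
  have hz1 : ‖z‖ < 1 := by rwa [mem_ball_zero_iff] at hz
  have hmb : ∀ w ∈ ball (0 : ℂ) 1, u * w ∈ ball (0 : ℂ) 1 := by
    intro w hw
    rw [mem_ball_zero_iff] at hw ⊢
    rw [norm_mul, hun, one_mul]; exact hw
  have hmc : ∀ w ∈ closedBall (0 : ℂ) 1, u * w ∈ closedBall (0 : ℂ) 1 := by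
    intro w hw
    rw [mem_closedBall_zero_iff] at hw ⊢
    rw [norm_mul, hun, one_mul]; exact hw
  set g : ℂ → ℂ := fun w => f (u * w) with hg
  have hgd : DifferentiableOn ℂ g (ball 0 1) :=
    hf.comp (by fun_prop) hmb
  have hgc : ContinuousOn g (closedBall 0 1) :=
    hc.comp (by fun_prop) hmc
  have hgC : ∀ h : ℝ, ‖g (exp (h * I)) + g (exp ((-h : ℝ) * I)) - 2 * g 1‖ ≤ C * |h| := by
    intro h
    have := hC (arg z) h
    have e1 : u * exp (h * I) = exp ((arg z + h : ℝ) * I) := by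
      rw [hu, ← exp_add]; congr 1; push_cast; ring
    have e2 : u * exp ((-h : ℝ) * I) = exp ((arg z - h : ℝ) * I) := by
      rw [hu, ← exp_add]; congr 1; push_cast; ring
    simp only [hg, e1, e2, mul_one]
    exact this
  have hmain := main_807 hgd hgc hgC (norm_nonneg z) hz1
  have hd1 : deriv g = fun w => u * deriv f (u * w) := by
    funext w
    have := deriv_comp_mul_left u f w
    rw [smul_eq_mul] at this
    exact this
  have hd2 : deriv (deriv g) (‖z‖ : ℂ) = u * (u * deriv (deriv f) z) := by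
    rw [hd1]
    rw [deriv_const_mul_field]
    have := deriv_comp_mul_left u (deriv f) (‖z‖ : ℂ)
    rw [smul_eq_mul, hzu] at this
    rw [this]
  rw [hd2, norm_mul, norm_mul, hun, one_mul, one_mul] at hmain
  exact hmain

end ZygInt.J3
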