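import Mathlib
import Pool.Agent.ZygInt.Basic

namespace ZygInt

open Complex Metric Set Filter Topology

/-- the derivative does not vary much in a hyperbolic ball -/
theorem ZClass.deriv_sub_le {M : ℝ} {f D : ℂ → ℂ} (hM : 0 ≤ M) (h : ZClass M f D) {p p' : ℂ}
    (hp : p ∈ ball (0 : ℂ) 1) (hp' : p' ∈ ball (0 : ℂ) 1) (h1 : ‖p - p'‖ ≤ 1 - ‖p‖)
    (h2 : 1 - ‖p‖ ≤ 2 * (1 - ‖p'‖)) : ‖D p - D p'‖ ≤ 17 * M := by
  have hp1 : ‖p‖ < 1 := by simpa using hp
  have hp1' : ‖p'‖ < 1 := by simpa using hp'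
  set t := 1 - ‖p‖ with ht
  set t' := 1 - ‖p'‖ with ht'
  have ht0 : 0 < t := by rw [ht]; linarith
  have ht0' : 0 < t' := by rw [ht']; linarith
  -- second test point
  set z : ℂ := p + (t : ℝ) with hz
  have hzc : z ∈ closedBall (0 : ℂ) 1 := by
    rw [mem_closedBall_zero_iff, hz]
    refine (norm_add_le _ _).trans ?_
    rw [Complex.norm_real, Real.norm_of_nonneg ht0.le, ht]; linarith
  have hpc : p ∈ closedBall (0 : ℂ) 1 := ball_subset_closedBall hp
  have a1 := h p hp z hzc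
  have a2 := h p' hp' z hzc
  have a3 := h p' hp' p hpc
  have e1 : ‖z - p‖ = t := by
    rw [hz]; simp [Complex.norm_real, abs_of_nonneg ht0.le]
  have e2 : ‖z - p'‖ ≤ 2 * t := by
    calc ‖z - p'‖ = ‖(z - p) + (p - p')‖ := by congr 1; ring
      _ ≤ ‖z - p‖ + ‖p - p'‖ := norm_add_le _ _
      _ ≤ 2 * t := by linarith
  rw [← ht] at a1
  rw [← ht'] at a2 a3
  have b1 : M * ‖z - p‖ ^ 2 / t = M * t := by rw [e1]; field_simp
  have b2 : M * ‖z - p'‖ ^ 2 / t' ≤ 8 * M * t := by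
    rw [div_le_iff₀ ht0']
    have : ‖z - p'‖ ^ 2 ≤ (2 * t) ^ 2 := by gcongr
    have h3 : M * ‖z - p'‖ ^ 2 ≤ M * (2 * t) ^ 2 := by gcongr
    have h4 : M * t * t ≤ M * t * (2 * t') := by gcongr
    nlinarith
  have b3 : M * ‖p - p'‖ ^ 2 / t' ≤ 8 * M * t := by
    rw [div_le_iff₀ ht0']
    have : ‖p - p'‖ ^ 2 ≤ t ^ 2 := by gcongr
    have h3 : M * ‖p - p'‖ ^ 2 ≤ M * t ^ 2 := by gcongr
    have h4 : M * t * t ≤ M * t * (2 * t') := by gcongr
    have h5 : 0 ≤ M * t * t' := by positivity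
    nlinarith
  have e3 : ‖(D p - D p') * (z - p)‖ ≤ 17 * M * t := by
    calc ‖(D p - D p') * (z - p)‖
        = ‖(f z - f p' - D p' * (z - p')) - (f p - f p' - D p' * (p - p'))
            - (f z - f p - D p * (z - p))‖ := by congr 1; ring
      _ ≤ ‖f z - f p' - D p' * (z - p')‖ + ‖f p - f p' - D p' * (p - p')‖
            + ‖f z - f p - D p * (z - p)‖ := by
          refine (norm_sub_le _ _).trans ?_
          gcongr
          exact norm_sub_le _ _
      _ ≤ 17 * M * t := by linarith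
  rw [norm_mul, e1] at e3
  exact le_of_mul_le_mul_right e3 ht0

/-- radial variation of the derivative -/
theorem ZClass.deriv_radial {M : ℝ} {f D : ℂ → ℂ} (hM : 0 ≤ M) (h : ZClass M f D) {a : ℂ}
    (ha : a ∈ closedBall (0 : ℂ) 1) (n : ℕ) : ∀ r s : ℝ, 0 < s → s ≤ r → r ≤ 2 → r ≤ 2 ^ n * s →
    ‖D ((1 - r / 2 : ℝ) * a) - D ((1 - s / 2 : ℝ) * a)‖ ≤ 17 * M * n := by
  have ha1 : ‖a‖ ≤ 1 := by simpa using ha
  have hpn : ∀ r : ℝ, r ≤ 2 → ‖((1 - r / 2 : ℝ) : ℂ) * a‖ = (1 - r / 2) * ‖a‖ := by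
    intro r hr
    rw [norm_mul, Complex.norm_real, Real.norm_of_nonneg (by linarith)]
  have hpb : ∀ r : ℝ, 0 < r → r ≤ 2 → ((1 - r / 2 : ℝ) : ℂ) * a ∈ ball (0 : ℂ) 1 := by
    intro r hr0 hr
    rw [mem_ball_zero_iff, hpn r hr]; nlinarith [norm_nonneg a]
  have one_step : ∀ r s : ℝ, 0 < s → s ≤ r → r ≤ 2 → r ≤ 2 * s →
      ‖D ((1 - r / 2 : ℝ) * a) - D ((1 - s / 2 : ℝ) * a)‖ ≤ 17 * M := by
    intro r s hs hsr hr hrs
    refine h.deriv_sub_le hM (hpb r (by linarith) hr) (hpb s hs (by linarith)) ?_ ?_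
    · have : ((1 - r / 2 : ℝ) : ℂ) * a - ((1 - s / 2 : ℝ) : ℂ) * a = -(((r - s) / 2 : ℝ) : ℂ) * a := by
        push_cast; ring
      rw [this, norm_mul, norm_neg, Complex.norm_real, Real.norm_of_nonneg (by linarith), hpn r hr]
      nlinarith [norm_nonneg a]
    · rw [hpn r hr, hpn s (by linarith)]
      nlinarith [norm_nonneg a]
  induction n with
  | zero =>
    intro r s hs hsr hr hrs
    have : r = s := by simp at hrs; linarith
    subst this
    simp
  | succ n ih =>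
    intro r s hs hsr hr hrs
    set r' := max s (r / 2) with hr'
    have h1 : s ≤ r' := le_max_left _ _
    have h2 : r' ≤ r := max_le hsr (by linarith)
    have h3 : r / 2 ≤ r' := le_max_right _ _
    have e1 := one_step r r' (by linarith) h2 hr (by linarith)
    have e2 := ih r' s hs h1 (by linarith) (by
      rw [pow_succ] at hrs
      refine max_le ?_ (by linarith)
      have : (1 : ℝ) ≤ 2 ^ n := one_le_pow₀ (by norm_num)
      nlinarith)
    calc ‖D ((1 - r / 2 : ℝ) * a) - D ((1 - s / 2 : ℝ) * a)‖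
        = ‖(D ((1 - r / 2 : ℝ) * a) - D ((1 - r' / 2 : ℝ) * a))
          + (D ((1 - r' / 2 : ℝ) * a) - D ((1 - s / 2 : ℝ) * a))‖ := by congr 1; ring
      _ ≤ _ := norm_add_le _ _
      _ ≤ 17 * M + 17 * M * n := by gcongr
      _ = 17 * M * (n + 1 : ℕ) := by push_cast; ring

theorem ZClass.deriv_radial_log {M : ℝ} {f D : ℂ → ℂ} (hM : 0 ≤ M) (h : ZClass M f D) {a : ℂ}
    (ha : a ∈ closedBall (0 : ℂ) 1) {r s : ℝ} (hs : 0 < s) (hsr : s ≤ r) (hr : r ≤ 2) :
    ‖D ((1 - r / 2 : ℝ) * a) - D ((1 - s / 2 : ℝ) * a)‖ ≤ 17 * M * (1 + 2 * Real.log (r / s)) := by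
  have hq : 1 ≤ r / s := by rw [one_le_div hs]; exact hsr
  have hl : 0 ≤ Real.log (r / s) := Real.log_nonneg hq
  set n := ⌈Real.log (r / s) / Real.log 2⌉₊ with hn
  have hl2 : 0 < Real.log 2 := Real.log_pos (by norm_num)
  have h1 : Real.log (r / s) / Real.log 2 ≤ n := Nat.le_ceil _
  have h2 : (n : ℝ) < Real.log (r / s) / Real.log 2 + 1 := Nat.ceil_lt_add_one (by positivity)
  have h3 : r ≤ 2 ^ n * s := by
    rw [← div_le_iff₀ hs]
    rw [div_le_iff₀ hl2] at h1
    calc r / s = Real.exp (Real.log (r / s)) := (Real.exp_log (by positivity)).symm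
      _ ≤ Real.exp (n * Real.log 2) := by gcongr
      _ = 2 ^ n := by rw [mul_comm, Real.exp_mul, Real.exp_log (by norm_num), Real.rpow_natCast]
  refine (h.deriv_radial hM ha n r s hs hsr hr h3).trans ?_
  have h4 : Real.log (r / s) / Real.log 2 ≤ 2 * Real.log (r / s) := by
    rw [div_le_iff₀ hl2]
    have : (1 : ℝ) / 2 < Real.log 2 := by linarith [Real.log_two_gt_d9]
    nlinarith
  have h5 : (n : ℝ) ≤ 1 + 2 * Real.log (r / s) := by linarith
  gcongr

/-- slopes of `ZClass` functions -/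
theorem ZClass.slope_bound {M : ℝ} {f D : ℂ → ℂ} (hM : 0 ≤ M) (h : ZClass M f D) {a b c : ℂ}
    (ha : a ∈ closedBall (0 : ℂ) 1) (hb : b ∈ closedBall (0 : ℂ) 1) (hc : c ∈ closedBall (0 : ℂ) 1)
    (hab : a ≠ b) (hac : a ≠ c) (hle : ‖a - b‖ ≤ ‖a - c‖) :
    ‖sl f a b - sl f a c‖ ≤
      61 * M * (1 + max 0 (Real.log (‖a - c‖ / max ‖a - b‖ (1 - ‖a‖)))) := by
  have ha1 : ‖a‖ ≤ 1 := by simpa using ha
  have hb1 : ‖b‖ ≤ 1 := by simpa using hb
  have hc1 : ‖c‖ ≤ 1 := by simpa using hc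
  set d := ‖a - b‖ with hd
  set e := ‖a - c‖ with he
  have hd0 : 0 < d := norm_pos_iff.2 (sub_ne_zero.2 hab)
  have he0 : 0 < e := norm_pos_iff.2 (sub_ne_zero.2 hac)
  have he2 : e ≤ 2 := (norm_sub_le _ _).trans (by linarith)
  have hd2 : d ≤ 2 := hle.trans he2
  set t := 1 - ‖a‖ with ht
  have hslope : ∀ x ∈ closedBall (0 : ℂ) 1, a ≠ x →
      ‖sl f a x - D ((1 - ‖a - x‖ / 2 : ℝ) * a)‖ ≤ 5 * M := by
    intro x hx hax
    have hx1 : ‖x‖ ≤ 1 := by simpa using hx
    have hr : 0 < ‖a - x‖ := norm_pos_iff.2 (sub_ne_zero.2 hax)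
    have hr2 : ‖a - x‖ ≤ 2 := (norm_sub_le _ _).trans (by linarith)
    have h1 := h.local_exp hM ha hx hr hr2 (by rw [norm_sub_rev])
    have hxa : x - a ≠ 0 := sub_ne_zero.2 hax.symm
    have h2 : sl f a x - D ((1 - ‖a - x‖ / 2 : ℝ) * a)
        = (f x - f a - D ((1 - ‖a - x‖ / 2 : ℝ) * a) * (x - a)) / (x - a) := by
      rw [sl]; field_simp
    rw [h2, norm_div, norm_sub_rev x a, div_le_iff₀ hr]
    exact h1
  have hlog0 : 0 ≤ max 0 (Real.log (e / max d t)) := le_max_left _ _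
  rcases lt_or_ge e t with het | het
  · -- close to `a` compared with the depth
    have hab' : a ∈ ball (0 : ℂ) 1 := by
      rw [mem_ball_zero_iff]; rw [ht] at het; linarith
    have ht0 : 0 < t := by linarith
    have key : ∀ x ∈ closedBall (0 : ℂ) 1, a ≠ x → ‖a - x‖ ≤ e → ‖sl f a x - D a‖ ≤ M := by
      intro x hx hax hxe
      have hr : 0 < ‖a - x‖ := norm_pos_iff.2 (sub_ne_zero.2 hax)
      have hxa : x - a ≠ 0 := sub_ne_zero.2 hax.symm
      have h1 := h a hab' x hx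
      rw [← ht] at h1
      have h2 : sl f a x - D a = (f x - f a - D a * (x - a)) / (x - a) := by
        rw [sl]; field_simp
      rw [h2, norm_div, norm_sub_rev x a, div_le_iff₀ hr]
      rw [norm_sub_rev x a] at h1
      refine h1.trans ?_
      rw [div_le_iff₀ ht0]
      have : ‖a - x‖ * ‖a - x‖ ≤ ‖a - x‖ * t := by
        gcongr; linarith
      nlinarith
    have k1 := key b hb hab hle
    have k2 := key c hc hac le_rfl
    calc ‖sl f a b - sl f a c‖ = ‖(sl f a b - D a) - (sl f a c - D a)‖ := by congr 1; ring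
      _ ≤ M + M := (norm_sub_le _ _).trans (by gcongr)
      _ ≤ _ := by nlinarith
  · set m := max d t with hm
    have hm0 : 0 < m := lt_of_lt_of_le hd0 (le_max_left _ _)
    have hme : m ≤ e := max_le hle het
    have k1 := hslope b hb hab
    have k2 := hslope c hc hac
    have k3 := h.deriv_radial_log hM ha hm0 hme he2
    have k4 : ‖D ((1 - m / 2 : ℝ) * a) - D ((1 - d / 2 : ℝ) * a)‖ ≤ 17 * M := by
      rcases le_total t d with htd | htd
      · have : m = d := max_eq_left htd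
        rw [this]; simp; linarith
      · have hmt : m = t := max_eq_right htd
        rw [hmt]
        have ht0 : 0 < t := by linarith
        have hpn : ∀ r : ℝ, r ≤ 2 → ‖((1 - r / 2 : ℝ) : ℂ) * a‖ = (1 - r / 2) * ‖a‖ := by
          intro r hr
          rw [norm_mul, Complex.norm_real, Real.norm_of_nonneg (by linarith)]
        have ht2 : t ≤ 2 := by linarith
        have hat : ‖a‖ = 1 - t := by rw [ht]; ring
        refine h.deriv_sub_le hM ?_ ?_ ?_ ?_
        · rw [mem_ball_zero_iff, hpn t ht2]; nlinarith [norm_nonneg a]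
        · rw [mem_ball_zero_iff, hpn d hd2]; nlinarith [norm_nonneg a]
        · have : ((1 - t / 2 : ℝ) : ℂ) * a - ((1 - d / 2 : ℝ) : ℂ) * a
              = -(((t - d) / 2 : ℝ) : ℂ) * a := by
            push_cast; ring
          rw [this, norm_mul, norm_neg, Complex.norm_real, Real.norm_of_nonneg (by linarith),
            hpn t ht2]
          nlinarith [norm_nonneg a]
        · rw [hpn t ht2, hpn d hd2, hat]
          have : 0 ≤ 1 - t := by rw [← hat]; exact norm_nonneg a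
          nlinarith
    have hlog : 0 ≤ Real.log (e / m) := Real.log_nonneg (by rw [one_le_div hm0]; exact hme)
    rw [max_eq_right hlog]
    calc ‖sl f a b - sl f a c‖
        = ‖(sl f a b - D ((1 - d / 2 : ℝ) * a)) - (sl f a c - D ((1 - e / 2 : ℝ) * a))
          - (D ((1 - e / 2 : ℝ) * a) - D ((1 - m / 2 : ℝ) * a))
          - (D ((1 - m / 2 : ℝ) * a) - D ((1 - d / 2 : ℝ) * a))‖ := by congr 1; ring
      _ ≤ 5 * M + 5 * M + 17 * M * (1 + 2 * Real.log (e / m)) + 17 * M := by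
          refine (norm_sub_le _ _).trans ?_
          gcongr
          refine (norm_sub_le _ _).trans ?_
          gcongr
          refine (norm_sub_le _ _).trans ?_
          gcongr
      _ ≤ 61 * M * (1 + Real.log (e / m)) := by nlinarith

end ZygInt
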