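import Mathlib
import Pool.Agent.ZygInt.Basic

namespace ZygInt.J7

open Complex Metric Set Filter Topology

/-- `x |log x - log y| ≤ 6 y` if `0 ≤ x ≤ 3 y`. -/
theorem mul_abs_log_sub_le {x y : ℝ} (hx : 0 ≤ x) (hy : 0 < y) (hxy : x ≤ 3 * y) :
    x * |Real.log x - Real.log y| ≤ 6 * y := by
  rcases hx.eq_or_lt with rfl | hx
  · simp [hy.le]
  · rcases le_total x y with h | h
    · have h1 : Real.log x ≤ Real.log y := Real.log_le_log hx h
      rw [abs_of_nonpos (by linarith)]
      have h2 : Real.log (y / x) ≤ y / x - 1 := Real.log_le_sub_one_of_pos (by positivity)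
      rw [Real.log_div hy.ne' hx.ne'] at h2
      have h3 : x * (-(Real.log x - Real.log y)) ≤ x * (y / x - 1) :=
        mul_le_mul_of_nonneg_left (by linarith) hx.le
      have h4 : x * (y / x - 1) = y - x := by field_simp
      linarith
    · have h1 : Real.log y ≤ Real.log x := Real.log_le_log hy h
      rw [abs_of_nonneg (by linarith)]
      have h2 : Real.log (x / y) ≤ x / y - 1 := Real.log_le_sub_one_of_pos (by positivity)
      rw [Real.log_div hx.ne' hy.ne'] at h2
      have h3 : x / y ≤ 3 := by rw [div_le_iff₀ hy]; exact hxy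
      have h4 : x * (Real.log x - Real.log y) ≤ x * 2 :=
        mul_le_mul_of_nonneg_left (by linarith) hx.le
      linarith

/-- the general form of the test function estimate, `T` is the identity or the conjugation. -/
theorem test_aux (T : ℂ → ℂ) (hT : ∀ w, ‖T w‖ = ‖w‖) (hadd : ∀ z h, T (z + h) + T (z - h) = 2 * T z)
    (G : ℝ → ℝ) (hG : ∀ s t, |G s - G t| ≤ |s - t|) (z h : ℂ) :
    ‖T (z + h) * (G (Real.log ‖z + h‖) : ℂ) + T (z - h) * (G (Real.log ‖z - h‖) : ℂ)
      - 2 * (T z * (G (Real.log ‖z‖) : ℂ))‖ ≤ 24 * ‖h‖ := by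
  have hterm : ∀ w v : ℂ, v ≠ 0 → ‖w‖ ≤ 3 * ‖v‖ →
      ‖T w * ((G (Real.log ‖w‖) : ℂ) - (G (Real.log ‖v‖) : ℂ))‖ ≤ 6 * ‖v‖ := by
    intro w v hv hw
    rw [norm_mul, hT, ← Complex.ofReal_sub, Complex.norm_real, Real.norm_eq_abs]
    refine le_trans (mul_le_mul_of_nonneg_left (hG _ _) (norm_nonneg _)) ?_
    exact mul_abs_log_sub_le (norm_nonneg _) (norm_pos_iff.2 hv) hw
  by_cases hh : h = 0
  · subst hh
    have h1 := hadd z 0
    simp only [add_zero, sub_zero, norm_zero, mul_zero]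
    have h2 : T z * (G (Real.log ‖z‖) : ℂ) + T z * (G (Real.log ‖z‖) : ℂ)
      - 2 * (T z * (G (Real.log ‖z‖) : ℂ)) = 0 := by ring
    rw [h2, norm_zero]
  have hhp : 0 < ‖h‖ := norm_pos_iff.2 hh
  rcases le_or_gt (2 * ‖h‖) ‖z‖ with hc | hc
  · -- near case
    have hz : 0 < ‖z‖ := by linarith
    have hterm2 : ∀ w : ℂ, ‖w - z‖ = ‖h‖ →
        ‖T w * ((G (Real.log ‖w‖) : ℂ) - (G (Real.log ‖z‖) : ℂ))‖ ≤ 3 * ‖h‖ := by
      intro w hw
      have h1 : |‖w‖ - ‖z‖| ≤ ‖h‖ := by rw [← hw]; exact abs_norm_sub_norm_le w z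
      obtain ⟨h2, h3⟩ := abs_le.1 h1
      have hwp : 0 < ‖w‖ := by linarith
      rw [norm_mul, hT, ← Complex.ofReal_sub, Complex.norm_real, Real.norm_eq_abs]
      refine le_trans (mul_le_mul_of_nonneg_left (hG _ _) (norm_nonneg _)) ?_
      rcases le_total ‖w‖ ‖z‖ with hw1 | hw1
      · have i1 : Real.log ‖w‖ ≤ Real.log ‖z‖ := Real.log_le_log hwp hw1
        rw [abs_of_nonpos (by linarith)]
        have i2 : Real.log (‖z‖ / ‖w‖) ≤ ‖z‖ / ‖w‖ - 1 := Real.log_le_sub_one_of_pos (by positivity)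
        rw [Real.log_div hz.ne' hwp.ne'] at i2
        have i3 : ‖w‖ * (-(Real.log ‖w‖ - Real.log ‖z‖)) ≤ ‖w‖ * (‖z‖ / ‖w‖ - 1) :=
          mul_le_mul_of_nonneg_left (by linarith) hwp.le
        have i4 : ‖w‖ * (‖z‖ / ‖w‖ - 1) = ‖z‖ - ‖w‖ := by field_simp
        linarith
      · have i1 : Real.log ‖z‖ ≤ Real.log ‖w‖ := Real.log_le_log hz hw1
        rw [abs_of_nonneg (by linarith)]
        have i2 : Real.log (‖w‖ / ‖z‖) ≤ ‖w‖ / ‖z‖ - 1 := Real.log_le_sub_one_of_pos (by positivity)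
        rw [Real.log_div hwp.ne' hz.ne'] at i2
        have i3 : ‖w‖ * (Real.log ‖w‖ - Real.log ‖z‖) ≤ ‖w‖ * (‖w‖ / ‖z‖ - 1) :=
          mul_le_mul_of_nonneg_left (by linarith) hwp.le
        have i4 : ‖w‖ * (‖w‖ / ‖z‖ - 1) = ‖w‖ / ‖z‖ * (‖w‖ - ‖z‖) := by field_simp
        have i5 : ‖w‖ / ‖z‖ ≤ 2 := by rw [div_le_iff₀ hz]; linarith
        have i6 : ‖w‖ / ‖z‖ * (‖w‖ - ‖z‖) ≤ 2 * ‖h‖ := by
          apply mul_le_mul i5 (by linarith) (by linarith) (by norm_num)
        linarith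
    have e : T (z + h) * (G (Real.log ‖z + h‖) : ℂ) + T (z - h) * (G (Real.log ‖z - h‖) : ℂ)
      - 2 * (T z * (G (Real.log ‖z‖) : ℂ)) =
      T (z + h) * ((G (Real.log ‖z + h‖) : ℂ) - (G (Real.log ‖z‖) : ℂ)) +
        T (z - h) * ((G (Real.log ‖z - h‖) : ℂ) - (G (Real.log ‖z‖) : ℂ)) := by
      have := hadd z h
      linear_combination (G (Real.log ‖z‖) : ℂ) * this
    rw [e]
    have j1 := hterm2 (z + h) (by simp)
    have j2 := hterm2 (z - h) (by simp)
    refine le_trans (norm_add_le _ _) ?_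
    linarith
  · have e : T (z + h) * (G (Real.log ‖z + h‖) : ℂ) + T (z - h) * (G (Real.log ‖z - h‖) : ℂ)
      - 2 * (T z * (G (Real.log ‖z‖) : ℂ)) =
      T (z + h) * ((G (Real.log ‖z + h‖) : ℂ) - (G (Real.log ‖h‖) : ℂ)) +
        T (z - h) * ((G (Real.log ‖z - h‖) : ℂ) - (G (Real.log ‖h‖) : ℂ)) +
        (-2) * (T z * ((G (Real.log ‖z‖) : ℂ) - (G (Real.log ‖h‖) : ℂ))) := by
      have := hadd z h
      linear_combination (G (Real.log ‖h‖) : ℂ) * this
    rw [e]
    have j1 := hterm (z + h) h hh (by linarith [norm_add_le z h])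
    have j2 := hterm (z - h) h hh (by linarith [norm_sub_le z h])
    have j3 := hterm z h hh (by linarith)
    refine le_trans norm_add₃_le ?_
    rw [norm_mul (-2 : ℂ), norm_neg, show ‖(2 : ℂ)‖ = 2 by simp]
    linarith

/-- J7a: test functions. If `G` is 1-Lipschitz then `z ↦ z G(log|z|)` and `z ↦ conj z G(log|z|)`
(value `0` at `0`) are in the Zygmund class with a universal constant. -/
theorem zygmund_test : ∃ C₁ : ℝ, 0 ≤ C₁ ∧ ∀ G : ℝ → ℝ, (∀ s t, |G s - G t| ≤ |s - t|) →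
    ∀ a z h : ℂ,
      ‖(z + h - a) * (G (Real.log ‖z + h - a‖) : ℂ) + (z - h - a) * (G (Real.log ‖z - h - a‖) : ℂ)
        - 2 * ((z - a) * (G (Real.log ‖z - a‖) : ℂ))‖ ≤ C₁ * ‖h‖ ∧
      ‖(starRingEnd ℂ) (z + h - a) * (G (Real.log ‖z + h - a‖) : ℂ)
        + (starRingEnd ℂ) (z - h - a) * (G (Real.log ‖z - h - a‖) : ℂ)
        - 2 * ((starRingEnd ℂ) (z - a) * (G (Real.log ‖z - a‖) : ℂ))‖ ≤ C₁ * ‖h‖ := by
  refine ⟨24, by norm_num, ?_⟩
  intro G hG a z h
  have e1 : z + h - a = (z - a) + h := by ring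
  have e2 : z - h - a = (z - a) - h := by ring
  rw [e1, e2]
  constructor
  · exact test_aux (fun w => w) (fun w => rfl) (fun z h => by ring) G hG (z - a) h
  · exact test_aux (fun w => (starRingEnd ℂ) w) (fun w => RCLike.norm_conj w)
      (fun z h => by simp only [map_add, map_sub]; ring) G hG (z - a) h

/-- continuity of the test functions -/
theorem test_cont (T : ℂ → ℂ) (hT : ∀ w, ‖T w‖ = ‖w‖) (hTc : Continuous T)
    (G : ℝ → ℝ) (hG : ∀ s t, |G s - G t| ≤ |s - t|) (a : ℂ) :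
    Continuous (fun z => T (z - a) * (G (Real.log ‖z - a‖) : ℂ)) := by
  have hGc : Continuous G := by
    have : LipschitzWith 1 G := LipschitzWith.of_dist_le_mul (fun s t => by
      rw [Real.dist_eq, Real.dist_eq]; simpa using hG s t)
    exact this.continuous
  have hmain : Continuous (fun w : ℂ => T w * (G (Real.log ‖w‖) : ℂ)) := by
    rw [continuous_iff_continuousAt]
    intro w
    by_cases hw : w = 0
    · subst hw
      have hT0 : T 0 = 0 := by
        have := hT 0
        simpa using this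
      rw [ContinuousAt, hT0, zero_mul, tendsto_zero_iff_norm_tendsto_zero]
      have hb : ∀ w : ℂ, ‖T w * (G (Real.log ‖w‖) : ℂ)‖ ≤ |G 0| * ‖w‖ + |‖w‖ * Real.log ‖w‖| := by
        intro w
        rw [norm_mul, hT, Complex.norm_real, Real.norm_eq_abs, abs_mul, abs_of_nonneg (norm_nonneg w)]
        have h1 : |G (Real.log ‖w‖)| ≤ |G 0| + |Real.log ‖w‖| := by
          have h2 := hG (Real.log ‖w‖) 0
          rw [sub_zero] at h2
          have h3 : |G (Real.log ‖w‖)| ≤ |G (Real.log ‖w‖) - G 0| + |G 0| := by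
            calc |G (Real.log ‖w‖)| = |(G (Real.log ‖w‖) - G 0) + G 0| := by ring_nf
              _ ≤ _ := abs_add_le _ _
          linarith
        nlinarith [norm_nonneg w, mul_le_mul_of_nonneg_left h1 (norm_nonneg w)]
      have hc : Continuous (fun w : ℂ => |G 0| * ‖w‖ + |‖w‖ * Real.log ‖w‖|) := by
        have h1 : Continuous (fun w : ℂ => ‖w‖ * Real.log ‖w‖) :=
          Real.continuous_mul_log.comp continuous_norm
        exact (continuous_const.mul continuous_norm).add h1.abs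
      have ht : Tendsto (fun w : ℂ => |G 0| * ‖w‖ + |‖w‖ * Real.log ‖w‖|) (𝓝 0) (𝓝 0) := by
        have := hc.tendsto 0
        simpa using this
      exact squeeze_zero (fun w => norm_nonneg _) hb ht
    · have hn : ‖w‖ ≠ 0 := norm_ne_zero_iff.2 hw
      have h1 : ContinuousAt (fun w : ℂ => Real.log ‖w‖) w :=
        (Real.continuousAt_log hn).comp continuous_norm.continuousAt
      have h2 : ContinuousAt (fun w : ℂ => (G (Real.log ‖w‖) : ℂ)) w :=
        Complex.continuous_ofReal.continuousAt.comp (hGc.continuousAt.comp h1)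
      exact hTc.continuousAt.mul h2
  exact hmain.comp (continuous_id.sub continuous_const)

/-- `x * (log D - log x)⁺ ≤ D` -/
theorem mul_log_bound {x D : ℝ} (hx : 0 ≤ x) (hD : 0 < D) :
    x * max 0 (Real.log D - Real.log x) ≤ D := by
  rcases hx.eq_or_lt with rfl | hx
  · simp [hD.le]
  · rcases le_total (Real.log D - Real.log x) 0 with h | h
    · rw [max_eq_left h]; simp [hD.le]
    · rw [max_eq_right h]
      have h2 : Real.log (D / x) ≤ D / x - 1 := Real.log_le_sub_one_of_pos (by positivity)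
      rw [Real.log_div hD.ne' hx.ne'] at h2
      have h3 : x * (Real.log D - Real.log x) ≤ x * (D / x - 1) :=
        mul_le_mul_of_nonneg_left h2 hx.le
      have h4 : x * (D / x - 1) = D - x := by field_simp
      linarith

/-- J7b: necessity of (T1) and (T2), from uniform interpolation `hU`, and the slope bound `hF`
for the class `ZClass` (both proved elsewhere). -/
theorem condT_of_uniform {X : Set ℂ} (hX : X ⊆ closedBall 0 1)
    (hU : ∀ (φ : ℕ → ℂ → ℂ) (C₀ : ℝ), (∀ n, Continuous (φ n)) →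
      (∀ n z h, ‖φ n (z + h) + φ n (z - h) - 2 * φ n z‖ ≤ C₀ * ‖h‖) →
      (∀ n z, ‖φ n z‖ ≤ C₀) →
      ∃ M : ℝ, ∀ n, ∃ f D : ℂ → ℂ, ZClass M f D ∧ ∀ x ∈ X, f x = φ n x)
    (hF : ∃ C₂ : ℝ, 0 ≤ C₂ ∧ ∀ (M : ℝ) (f D : ℂ → ℂ), 0 ≤ M → ZClass M f D →
      ∀ a ∈ closedBall (0 : ℂ) 1, ∀ b ∈ closedBall (0 : ℂ) 1, ∀ c ∈ closedBall (0 : ℂ) 1,
        a ≠ b → a ≠ c → ‖a - b‖ ≤ ‖a - c‖ →
        ‖sl f a b - sl f a c‖ ≤
          C₂ * M * (1 + max 0 (Real.log (‖a - c‖ / max ‖a - b‖ (1 - ‖a‖))))) :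
    CondT1 X ∧ CondT2 X := by
  -- uniform version
  have hU' : ∃ M : ℝ, 0 ≤ M ∧ ∀ φ : ℂ → ℂ, Continuous φ →
      (∀ z h, ‖φ (z + h) + φ (z - h) - 2 * φ z‖ ≤ 24 * ‖h‖) → (∀ z, ‖φ z‖ ≤ 24) →
      ∃ f D : ℂ → ℂ, ZClass M f D ∧ ∀ x ∈ X, f x = φ x := by
    by_contra hcon
    push Not at hcon
    have hcon' : ∀ n : ℕ, ∃ φ : ℂ → ℂ, Continuous φ ∧
      (∀ z h, ‖φ (z + h) + φ (z - h) - 2 * φ z‖ ≤ 24 * ‖h‖) ∧ (∀ z, ‖φ z‖ ≤ 24) ∧
      ∀ f D : ℂ → ℂ, ZClass n f D → ∃ x ∈ X, f x ≠ φ x := by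
      intro n
      obtain ⟨φ, h1, h2, h3, h4⟩ := hcon n (Nat.cast_nonneg n)
      exact ⟨φ, h1, h2, h3, h4⟩
    choose φ h1 h2 h3 h4 using hcon'
    obtain ⟨M, hM⟩ := hU φ 24 h1 h2 h3
    obtain ⟨n, hn⟩ := exists_nat_ge M
    obtain ⟨f, D, hf, hfx⟩ := hM n
    obtain ⟨x, hx, hne⟩ := h4 n f D (hf.mono hn)
    exact hne (hfx x hx)
  obtain ⟨M, hM0, hM⟩ := hU'
  obtain ⟨C₂, hC₂, hF⟩ := hF
  have hdist : ∀ a ∈ X, ∀ b ∈ X, ‖a - b‖ ≤ 2 := by
    intro a ha b hb
    have h1 : ‖a‖ ≤ 1 := by simpa using hX ha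
    have h2 : ‖b‖ ≤ 1 := by simpa using hX hb
    linarith [norm_sub_le a b]
  -- the basic T1 estimate
  have key1 : ∀ a ∈ X, ∀ b ∈ X, ∀ c ∈ X, a ≠ b → a ≠ c → ‖a - b‖ ≤ ‖b - c‖ → ‖a‖ < 1 →
      1 - ‖a‖ ≤ M * (‖a - b‖ + ‖a - c‖) := by
    intro a ha b hb c hc hab hac hbc ha1
    set ρ := ‖a - b‖ with hρ
    have hρ0 : 0 < ρ := norm_pos_iff.2 (sub_ne_zero.2 hab)
    let φ : ℂ → ℂ := fun z => ((max 0 (ρ - ‖z - b‖) : ℝ) : ℂ)
    have hφc : Continuous φ := by
      apply Complex.continuous_ofReal.comp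
      exact continuous_const.max (continuous_const.sub (continuous_id.sub continuous_const).norm)
    have hlip : ∀ z w : ℂ, ‖φ z - φ w‖ ≤ ‖z - w‖ := by
      intro z w
      show ‖((max 0 (ρ - ‖z - b‖) : ℝ) : ℂ) - ((max 0 (ρ - ‖w - b‖) : ℝ) : ℂ)‖ ≤ _
      rw [← Complex.ofReal_sub, Complex.norm_real, Real.norm_eq_abs]
      refine le_trans (abs_max_sub_max_le_max _ _ _ _) ?_
      simp only [sub_self, abs_zero]
      refine max_le (norm_nonneg _) ?_
      have : (ρ - ‖z - b‖) - (ρ - ‖w - b‖) = -(‖z - b‖ - ‖w - b‖) := by ring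
      rw [this, abs_neg]
      refine le_trans (abs_norm_sub_norm_le _ _) ?_
      simp
    have hφz : ∀ z h, ‖φ (z + h) + φ (z - h) - 2 * φ z‖ ≤ 24 * ‖h‖ := by
      intro z h
      have e : φ (z + h) + φ (z - h) - 2 * φ z = (φ (z + h) - φ z) + (φ (z - h) - φ z) := by ring
      rw [e]
      have i1 := hlip (z + h) z
      have i2 := hlip (z - h) z
      have i3 : z + h - z = h := by ring
      have i4 : z - h - z = -h := by ring
      rw [i3] at i1
      rw [i4, norm_neg] at i2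
      have := norm_add_le (φ (z + h) - φ z) (φ (z - h) - φ z)
      linarith [norm_nonneg h]
    have hφb : ∀ z, ‖φ z‖ ≤ 24 := by
      intro z
      show ‖((max 0 (ρ - ‖z - b‖) : ℝ) : ℂ)‖ ≤ 24
      rw [Complex.norm_real, Real.norm_of_nonneg (le_max_left _ _)]
      refine max_le (by norm_num) ?_
      linarith [hdist a ha b hb, norm_nonneg (z - b)]
    obtain ⟨f, D, hf, hfx⟩ := hM φ hφc hφz hφb
    have hap : a ∈ ball (0 : ℂ) 1 := by simpa using ha1
    have hpos : 0 < 1 - ‖a‖ := by linarith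
    have va : φ a = 0 := by
      show ((max 0 (ρ - ‖a - b‖) : ℝ) : ℂ) = 0
      rw [← hρ]; simp
    have vb : φ b = (ρ : ℂ) := by
      show ((max 0 (ρ - ‖b - b‖) : ℝ) : ℂ) = ρ
      rw [sub_self, norm_zero, sub_zero, max_eq_right hρ0.le]
    have vc : φ c = 0 := by
      show ((max 0 (ρ - ‖c - b‖) : ℝ) : ℂ) = 0
      rw [norm_sub_rev c b, max_eq_left (by linarith)]; simp
    have hb' := hf a hap b (hX hb)
    have hc' := hf a hap c (hX hc)
    rw [hfx a ha, hfx b hb, va, vb, sub_zero] at hb'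
    rw [hfx a ha, hfx c hc, va, vc, sub_zero, zero_sub, norm_neg, norm_mul] at hc'
    have hac0 : 0 < ‖c - a‖ := norm_pos_iff.2 (sub_ne_zero.2 hac.symm)
    have hDa : ‖D a‖ * (1 - ‖a‖) ≤ M * ‖c - a‖ := by
      rw [le_div_iff₀ hpos] at hc'
      have : ‖D a‖ * (1 - ‖a‖) * ‖c - a‖ ≤ M * ‖c - a‖ * ‖c - a‖ := by nlinarith
      exact le_of_mul_le_mul_right this hac0
    have hba : ‖b - a‖ = ρ := by rw [norm_sub_rev]
    rw [hba, le_div_iff₀ hpos] at hb'
    have h5 : ρ - ‖D a‖ * ρ ≤ ‖(ρ : ℂ) - D a * (b - a)‖ := by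
      have := norm_sub_norm_le (ρ : ℂ) (D a * (b - a))
      rw [norm_mul, hba, Complex.norm_real, Real.norm_of_nonneg hρ0.le] at this
      exact this
    have h6 : (ρ - ‖D a‖ * ρ) * (1 - ‖a‖) ≤ M * ρ ^ 2 :=
      le_trans (mul_le_mul_of_nonneg_right h5 hpos.le) hb'
    have h7 : (1 - ‖a‖) * ρ ≤ (M * (ρ + ‖a - c‖)) * ρ := by
      rw [norm_sub_rev a c]
      nlinarith
    exact le_of_mul_le_mul_right h7 hρ0
  refine ⟨⟨2 * M + 1, ?_⟩, ⟨2 * (C₂ * M), ?_⟩⟩
  · intro a ha b hb c hc hab hac hbc hle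
    have hac0 : 0 < ‖a - c‖ := norm_pos_iff.2 (sub_ne_zero.2 hac)
    rcases le_or_gt 1 ‖a‖ with h1 | h1
    · have : 0 ≤ (2 * M + 1) * ‖a - c‖ := by positivity
      linarith
    rcases le_or_gt ‖a - b‖ ‖b - c‖ with h2 | h2
    · have := key1 a ha b hb c hc hab hac h2 h1
      nlinarith
    · -- the closest pair is `b, c`
      rcases le_or_gt 1 ‖b‖ with h3 | h3
      · have h4 : ‖b‖ - ‖a‖ ≤ ‖a - b‖ := by
          have := norm_sub_norm_le b a
          rw [norm_sub_rev b a] at this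
          exact this
        nlinarith [mul_nonneg hM0 hac0.le]
      · have h4 := key1 b hb c hc a ha hbc hab.symm (by rw [norm_sub_rev c a]; linarith) h3
        have h5 : ‖b‖ - ‖a‖ ≤ ‖a - b‖ := by
          have := norm_sub_norm_le b a
          rw [norm_sub_rev b a] at this
          exact this
        rw [norm_sub_rev b a] at h4
        nlinarith [mul_nonneg hM0 hac0.le]
  · intro a ha b hb c hc hab hac hbc hle
    set d := ‖a - b‖ with hd
    set D := ‖a - c‖ with hD
    have hd0 : 0 < d := norm_pos_iff.2 (sub_ne_zero.2 hab)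
    have hD0 : 0 < D := norm_pos_iff.2 (sub_ne_zero.2 hac)
    have hD2 : D ≤ 2 := hdist a ha c hc
    set R := 1 + max 0 (Real.log (D / max d (1 - ‖a‖))) with hR
    have hba : ‖b - a‖ = d := by rw [norm_sub_rev]
    have hca : ‖c - a‖ = D := by rw [norm_sub_rev]
    have hbane : b - a ≠ 0 := sub_ne_zero.2 hab.symm
    have hcane : c - a ≠ 0 := sub_ne_zero.2 hac.symm
    have hlog : Real.log d ≤ Real.log D := Real.log_le_log hd0 hle
    have hlogD : Real.log D ≤ Real.log 2 := Real.log_le_log hD0 hD2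
    -- test (i)
    have t1 : Real.log (D / d) ≤ C₂ * M * R := by
      let G : ℝ → ℝ := fun s => max 0 (Real.log D - s)
      have hG : ∀ s t, |G s - G t| ≤ |s - t| := by
        intro s t
        refine le_trans (abs_max_sub_max_le_max _ _ _ _) ?_
        simp only [sub_self, abs_zero]
        refine max_le (abs_nonneg _) ?_
        have : Real.log D - s - (Real.log D - t) = -(s - t) := by ring
        rw [this, abs_neg]
      let φ : ℂ → ℂ := fun z => (z - a) * (G (Real.log ‖z - a‖) : ℂ)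
      have hφc : Continuous φ := test_cont (fun w => w) (fun _ => rfl) continuous_id G hG a
      have hφz : ∀ z h, ‖φ (z + h) + φ (z - h) - 2 * φ z‖ ≤ 24 * ‖h‖ := by
        intro z h
        have e1 : z + h - a = (z - a) + h := by ring
        have e2 : z - h - a = (z - a) - h := by ring
        show ‖(z + h - a) * (G (Real.log ‖z + h - a‖) : ℂ) +
          (z - h - a) * (G (Real.log ‖z - h - a‖) : ℂ) - 2 * ((z - a) * (G (Real.log ‖z - a‖) : ℂ))‖ ≤ _
        rw [e1, e2]
        exact test_aux (fun w => w) (fun w => rfl) (fun z h => by ring) G hG (z - a) h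
      have hφb : ∀ z, ‖φ z‖ ≤ 24 := by
        intro z
        show ‖(z - a) * (G (Real.log ‖z - a‖) : ℂ)‖ ≤ 24
        rw [norm_mul, Complex.norm_real, Real.norm_of_nonneg (le_max_left _ _)]
        have := mul_log_bound (norm_nonneg (z - a)) hD0
        linarith
      obtain ⟨f, E, hf, hfx⟩ := hM φ hφc hφz hφb
      have h1 := hF M f E hM0 hf a (hX ha) b (hX hb) c (hX hc) hab hac hle
      have va : φ a = 0 := by show (a - a) * _ = 0; simp
      have vb : φ b = (b - a) * (Real.log (D / d) : ℝ) := by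
        show (b - a) * ((max 0 (Real.log D - Real.log ‖b - a‖) : ℝ) : ℂ) = _
        rw [hba, max_eq_right (by linarith), Real.log_div hD0.ne' hd0.ne']
      have vc : φ c = 0 := by
        show (c - a) * ((max 0 (Real.log D - Real.log ‖c - a‖) : ℝ) : ℂ) = _
        rw [hca, sub_self, max_self]; simp
      have s1 : sl f a b = (Real.log (D / d) : ℝ) := by
        unfold sl
        rw [hfx a ha, hfx b hb, va, vb]
        field_simp
        simp
      have s2 : sl f a c = 0 := by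
        unfold sl
        rw [hfx a ha, hfx c hc, va, vc]
        simp
      rw [s1, s2, sub_zero, Complex.norm_real] at h1
      exact le_trans (Real.le_norm_self _) h1
    -- test (ii)
    have t2 : 2 * (sn a b c * Real.log (2 / D)) ≤ C₂ * M * R := by
      set L := Real.log (2 / D) with hL
      have hLe : L = Real.log 2 - Real.log D := by
        rw [hL, Real.log_div (by norm_num) hD0.ne']
      have hL0 : 0 ≤ L := by linarith
      let G : ℝ → ℝ := fun s => min L (max 0 (Real.log 2 - s))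
      have hG : ∀ s t, |G s - G t| ≤ |s - t| := by
        intro s t
        refine le_trans (abs_min_sub_min_le_max _ _ _ _) ?_
        simp only [sub_self, abs_zero]
        refine max_le (abs_nonneg _) ?_
        refine le_trans (abs_max_sub_max_le_max _ _ _ _) ?_
        simp only [sub_self, abs_zero]
        refine max_le (abs_nonneg _) ?_
        have : Real.log 2 - s - (Real.log 2 - t) = -(s - t) := by ring
        rw [this, abs_neg]
      let φ : ℂ → ℂ := fun z => (starRingEnd ℂ) (z - a) * (G (Real.log ‖z - a‖) : ℂ)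
      have hφc : Continuous φ := test_cont (fun w => (starRingEnd ℂ) w) (fun w => RCLike.norm_conj w)
        Complex.continuous_conj G hG a
      have hφz : ∀ z h, ‖φ (z + h) + φ (z - h) - 2 * φ z‖ ≤ 24 * ‖h‖ := by
        intro z h
        have e1 : z + h - a = (z - a) + h := by ring
        have e2 : z - h - a = (z - a) - h := by ring
        show ‖(starRingEnd ℂ) (z + h - a) * (G (Real.log ‖z + h - a‖) : ℂ) +
          (starRingEnd ℂ) (z - h - a) * (G (Real.log ‖z - h - a‖) : ℂ) -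
          2 * ((starRingEnd ℂ) (z - a) * (G (Real.log ‖z - a‖) : ℂ))‖ ≤ _
        rw [e1, e2]
        exact test_aux (fun w => (starRingEnd ℂ) w) (fun w => RCLike.norm_conj w)
          (fun z h => by simp only [map_add, map_sub]; ring) G hG (z - a) h
      have hφb : ∀ z, ‖φ z‖ ≤ 24 := by
        intro z
        show ‖(starRingEnd ℂ) (z - a) * (G (Real.log ‖z - a‖) : ℂ)‖ ≤ 24
        have hG0 : 0 ≤ G (Real.log ‖z - a‖) := le_min hL0 (le_max_left _ _)
        rw [norm_mul, Complex.norm_real, Real.norm_of_nonneg hG0, RCLike.norm_conj]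
        have h1 := mul_log_bound (norm_nonneg (z - a)) (show (0 : ℝ) < 2 by norm_num)
        have h2 : G (Real.log ‖z - a‖) ≤ max 0 (Real.log 2 - Real.log ‖z - a‖) := min_le_right _ _
        have h3 := mul_le_mul_of_nonneg_left h2 (norm_nonneg (z - a))
        linarith
      obtain ⟨f, E, hf, hfx⟩ := hM φ hφc hφz hφb
      have h1 := hF M f E hM0 hf a (hX ha) b (hX hb) c (hX hc) hab hac hle
      have va : φ a = 0 := by show (starRingEnd ℂ) (a - a) * _ = 0; simp
      have vb : φ b = (starRingEnd ℂ) (b - a) * (L : ℂ) := by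
        show (starRingEnd ℂ) (b - a) * ((min L (max 0 (Real.log 2 - Real.log ‖b - a‖)) : ℝ) : ℂ) = _
        rw [hba, max_eq_right (by linarith), min_eq_left (by linarith)]
      have vc : φ c = (starRingEnd ℂ) (c - a) * (L : ℂ) := by
        show (starRingEnd ℂ) (c - a) * ((min L (max 0 (Real.log 2 - Real.log ‖c - a‖)) : ℝ) : ℂ) = _
        rw [hca, max_eq_right (by linarith), min_eq_left (by linarith)]
      have s1 : sl f a b - sl f a c = (L : ℂ) *
          (((starRingEnd ℂ) (b - a) * (c - a) - (starRingEnd ℂ) (c - a) * (b - a)) /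
            ((b - a) * (c - a))) := by
        unfold sl
        rw [hfx a ha, hfx b hb, hfx c hc, va, vb, vc]
        field_simp
        ring
      have s2 : ‖(starRingEnd ℂ) (b - a) * (c - a) - (starRingEnd ℂ) (c - a) * (b - a)‖ =
          2 * |((b - a) * (starRingEnd ℂ) (c - a)).im| := by
        have : (starRingEnd ℂ) (b - a) * (c - a) - (starRingEnd ℂ) (c - a) * (b - a) =
            ((-2 * ((b - a) * (starRingEnd ℂ) (c - a)).im : ℝ) : ℂ) * I := by
          apply Complex.ext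
          · simp [Complex.mul_re, Complex.mul_im]
            try ring
          · simp [Complex.mul_re, Complex.mul_im]
            try ring
        rw [this, norm_mul, Complex.norm_I, mul_one, Complex.norm_real, Real.norm_eq_abs, abs_mul]
        simp
      rw [s1, norm_mul, norm_div, norm_mul, s2, Complex.norm_real, Real.norm_of_nonneg hL0] at h1
      unfold sn
      calc 2 * (|((b - a) * (starRingEnd ℂ) (c - a)).im| / (‖b - a‖ * ‖c - a‖) * L)
          = L * (2 * |((b - a) * (starRingEnd ℂ) (c - a)).im| / (‖b - a‖ * ‖c - a‖)) := by ring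
        _ ≤ _ := h1
    have hR0 : 0 ≤ C₂ * M * R := by
      have : 0 ≤ R := by
        rw [hR]
        linarith [le_max_left 0 (Real.log (D / max d (1 - ‖a‖)))]
      positivity
    linarith

end ZygInt.J7
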