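import Mathlib
import Pool.Agent.ZygInt.Basic

namespace ZygInt.J5

open Complex Metric Set Filter Topology

theorem exists_ultralim (u : ℕ → ℂ) (R : ℝ) (h : ∀ n, ‖u n‖ ≤ R) :
    ∃ x, Tendsto u (hyperfilter ℕ : Filter ℕ) (𝓝 x) := by
  have hc : IsCompact (closedBall (0 : ℂ) R) := isCompact_closedBall 0 R
  have hle : ((Ultrafilter.map u (hyperfilter ℕ) : Ultrafilter ℂ) : Filter ℂ) ≤
      𝓟 (closedBall (0 : ℂ) R) := by
    rw [le_principal_iff]
    refine Filter.mem_map.2 (Filter.univ_mem' ?_)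
    intro n
    simpa using h n
  obtain ⟨x, -, hx⟩ := hc.ultrafilter_le_nhds _ hle
  exact ⟨x, hx⟩

/-- J5a: pointwise limits (along an ultrafilter) of the class `ZClass M`. -/
theorem zclass_limit {M : ℝ} {f D : ℕ → ℂ → ℂ} (h : ∀ n, ZClass M (f n) (D n))
    (h0 : ∀ n, ‖f n 0‖ ≤ M) (h1 : ∀ n, ‖D n 0‖ ≤ M) :
    ∃ g E : ℂ → ℂ, ZClass M g E ∧ ‖g 0‖ ≤ M ∧ ‖E 0‖ ≤ M ∧
      ∀ z ∈ closedBall (0 : ℂ) 1, ∀ L : ℂ, Tendsto (fun n => f n z) atTop (𝓝 L) → g z = L := by
  have hM : 0 ≤ M := le_trans (norm_nonneg _) (h0 0)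
  have hz0 : (0 : ℂ) ∈ ball (0 : ℂ) 1 := by simp
  have hfb : ∀ z ∈ closedBall (0 : ℂ) 1, ∀ n, ‖f n z‖ ≤ 3 * M := by
    intro z hz n
    have hz' : ‖z‖ ≤ 1 := by simpa using hz
    have h2 := h n 0 hz0 z hz
    simp only [sub_zero, norm_zero, div_one] at h2
    have h3 : ‖f n z‖ ≤ ‖f n z - f n 0 - D n 0 * z‖ + ‖f n 0‖ + ‖D n 0 * z‖ := by
      calc ‖f n z‖ = ‖(f n z - f n 0 - D n 0 * z) + f n 0 + D n 0 * z‖ := by ring_nf
        _ ≤ _ := norm_add₃_le
    have h4 : ‖D n 0 * z‖ ≤ M := by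
      rw [norm_mul]
      calc ‖D n 0‖ * ‖z‖ ≤ M * 1 := mul_le_mul (h1 n) hz' (norm_nonneg _) hM
        _ = M := mul_one M
    have h5 : M * ‖z‖ ^ 2 ≤ M := by
      have : ‖z‖ ^ 2 ≤ 1 := pow_le_one₀ (norm_nonneg _) hz'
      nlinarith
    linarith [h0 n]
  have hDb : ∀ p ∈ ball (0 : ℂ) 1, ∀ n, ‖D n p‖ ≤ 6 * M + 4 * M / (1 - ‖p‖) := by
    intro p hp n
    have hp' : ‖p‖ < 1 := by simpa using hp
    have hpos : 0 < 1 - ‖p‖ := by linarith
    obtain ⟨z, hz, hzp⟩ : ∃ z : ℂ, z ∈ closedBall (0 : ℂ) 1 ∧ 1 ≤ ‖z - p‖ := by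
      by_cases hp0 : p = 0
      · refine ⟨1, by simp, by simp [hp0]⟩
      · refine ⟨-p / (‖p‖ : ℂ), ?_, ?_⟩
        · have : ‖p‖ ≠ 0 := norm_ne_zero_iff.2 hp0
          simp [this]
        · have hn : ‖p‖ ≠ 0 := norm_ne_zero_iff.2 hp0
          have hnc : (‖p‖ : ℂ) ≠ 0 := by exact_mod_cast hn
          have : -p / (‖p‖ : ℂ) - p = -(p / (‖p‖ : ℂ)) * ((1 + ‖p‖ : ℝ) : ℂ) := by
            push_cast
            field_simp
            ring
          rw [this, norm_mul, norm_neg, norm_div, Complex.norm_real, Complex.norm_real, norm_norm,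
            div_self hn, one_mul, Real.norm_of_nonneg (by positivity)]
          linarith [norm_nonneg p]
    have hz' : ‖z‖ ≤ 1 := by simpa using hz
    have h2 := h n p hp z hz
    have h3 : ‖D n p * (z - p)‖ ≤ ‖f n z‖ + ‖f n p‖ + ‖f n z - f n p - D n p * (z - p)‖ := by
      calc ‖D n p * (z - p)‖ = ‖f n z + -(f n p) + -(f n z - f n p - D n p * (z - p))‖ := by ring_nf
        _ ≤ ‖f n z‖ + ‖-(f n p)‖ + ‖-(f n z - f n p - D n p * (z - p))‖ := norm_add₃_le
        _ = _ := by rw [norm_neg, norm_neg]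
    have h4 : ‖D n p‖ ≤ ‖D n p * (z - p)‖ := by
      rw [norm_mul]
      nlinarith [norm_nonneg (D n p)]
    have h5 : M * ‖z - p‖ ^ 2 / (1 - ‖p‖) ≤ 4 * M / (1 - ‖p‖) := by
      have h6 : ‖z - p‖ ≤ 2 := by
        calc ‖z - p‖ ≤ ‖z‖ + ‖p‖ := norm_sub_le _ _
          _ ≤ 2 := by linarith
      have h7 : ‖z - p‖ ^ 2 ≤ 4 := by nlinarith [norm_nonneg (z - p)]
      apply div_le_div_of_nonneg_right _ hpos.le
      nlinarith
    have h8 := hfb z hz n
    have h9 := hfb p (ball_subset_closedBall hp) n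
    linarith
  have hgl : ∀ z ∈ closedBall (0 : ℂ) 1, Tendsto (fun n => f n z) (hyperfilter ℕ : Filter ℕ)
      (𝓝 (limUnder (hyperfilter ℕ : Filter ℕ) (fun n => f n z))) := by
    intro z hz
    exact tendsto_nhds_limUnder (exists_ultralim _ _ (hfb z hz))
  have hEl : ∀ p ∈ ball (0 : ℂ) 1, Tendsto (fun n => D n p) (hyperfilter ℕ : Filter ℕ)
      (𝓝 (limUnder (hyperfilter ℕ : Filter ℕ) (fun n => D n p))) := by
    intro z hz
    exact tendsto_nhds_limUnder (exists_ultralim _ _ (hDb z hz))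
  refine ⟨fun z => limUnder (hyperfilter ℕ : Filter ℕ) (fun n => f n z),
    fun z => limUnder (hyperfilter ℕ : Filter ℕ) (fun n => D n z), ?_, ?_, ?_, ?_⟩
  · intro p hp z hz
    have ht : Tendsto (fun n => ‖f n z - f n p - D n p * (z - p)‖) (hyperfilter ℕ : Filter ℕ)
        (𝓝 ‖limUnder (hyperfilter ℕ : Filter ℕ) (fun n => f n z) -
          limUnder (hyperfilter ℕ : Filter ℕ) (fun n => f n p) -
          limUnder (hyperfilter ℕ : Filter ℕ) (fun n => D n p) * (z - p)‖) :=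
      (((hgl z hz).sub (hgl p (ball_subset_closedBall hp))).sub
        ((hEl p hp).mul_const (z - p))).norm
    exact le_of_tendsto ht (Filter.Eventually.of_forall fun n => h n p hp z hz)
  · exact le_of_tendsto (hgl 0 (by simp)).norm (Filter.Eventually.of_forall h0)
  · exact le_of_tendsto (hEl 0 (by simp)).norm (Filter.Eventually.of_forall h1)
  · intro z hz L hL
    have hle : (hyperfilter ℕ : Filter ℕ) ≤ atTop := by
      rw [← Nat.cofinite_eq_atTop]
      exact hyperfilter_le_cofinite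
    exact tendsto_nhds_unique (hgl z hz) (hL.mono_left hle)

/-- J5b: uniform boundedness. The hypothesis `hint` says that `X` is an interpolation set. -/
theorem uniform_interp {X : Set ℂ} (hX : X ⊆ closedBall 0 1)
    (hint : ∀ φ : ℂ → ℂ, ZygmundPlane φ → ∃ (M : ℝ) (f D : ℂ → ℂ), ZClass M f D ∧ ∀ x ∈ X, f x = φ x)
    (φ : ℕ → ℂ → ℂ) (C₀ : ℝ) (hc : ∀ n, Continuous (φ n))
    (hz : ∀ n z h, ‖φ n (z + h) + φ n (z - h) - 2 * φ n z‖ ≤ C₀ * ‖h‖)
    (hb : ∀ n z, ‖φ n z‖ ≤ C₀) :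
    ∃ M : ℝ, ∀ n, ∃ f D : ℂ → ℂ, ZClass M f D ∧ ∀ x ∈ X, f x = φ n x := by
  have hC0 : 0 ≤ C₀ := le_trans (norm_nonneg _) (hb 0 0)
  let E := lp (fun _ : ℕ => ℂ) 1
  have hsum : ∀ c : E, Summable (fun n => ‖c n‖) := by
    intro c
    have := (lp.memℓp c).summable (by norm_num)
    simpa using this
  have hnorm : ∀ c : E, ‖c‖ = ∑' n, ‖c n‖ := by
    intro c
    have h := lp.norm_eq_tsum_rpow (p := 1) (by norm_num) c
    simpa using h
  let Φ : E → ℂ → ℂ := fun c z => ∑' n, c n * φ n z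
  have hs : ∀ (c : E) (z : ℂ), Summable (fun n => c n * φ n z) := by
    intro c z
    refine Summable.of_norm_bounded ((hsum c).mul_right C₀) ?_
    intro n
    rw [norm_mul]
    exact mul_le_mul_of_nonneg_left (hb n z) (norm_nonneg _)
  have hΦb : ∀ (c : E) (z : ℂ), ‖Φ c z‖ ≤ C₀ * ‖c‖ := by
    intro c z
    rw [hnorm, mul_comm, ← tsum_mul_right]
    refine tsum_of_norm_bounded ((hsum c).mul_right C₀).hasSum ?_
    intro n
    rw [norm_mul]
    exact mul_le_mul_of_nonneg_left (hb n z) (norm_nonneg _)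
  have hΦsub : ∀ (c d : E) (z : ℂ), Φ (c - d) z = Φ c z - Φ d z := by
    intro c d z
    simp only [Φ]
    rw [← (hs c z).tsum_sub (hs d z)]
    congr 1
    ext n
    simp [sub_mul]
  have hΦsmul : ∀ (a : ℂ) (c : E) (z : ℂ), Φ (a • c) z = a * Φ c z := by
    intro a c z
    simp only [Φ]
    rw [← tsum_mul_left]
    congr 1
    ext n
    have : (a • c : E) n = a * c n := rfl
    rw [this, mul_assoc]
  have hΦz : ∀ c : E, ZygmundPlane (Φ c) := by
    intro c
    refine ⟨?_, C₀ * ‖c‖, ?_⟩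
    · refine continuous_tsum (fun n => continuous_const.mul (hc n)) ((hsum c).mul_right C₀) ?_
      intro n z
      rw [norm_mul]
      exact mul_le_mul_of_nonneg_left (hb n z) (norm_nonneg _)
    · intro z h
      have he : Φ c (z + h) + Φ c (z - h) - 2 * Φ c z =
          ∑' n, c n * (φ n (z + h) + φ n (z - h) - 2 * φ n z) := by
        simp only [Φ]
        rw [← tsum_mul_left, ← (hs c (z + h)).tsum_add (hs c (z - h)),
          ← ((hs c (z + h)).add (hs c (z - h))).tsum_sub ((hs c z).mul_left 2)]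
        congr 1
        ext n
        ring
      rw [he, hnorm]
      have : C₀ * (∑' n, ‖c n‖) * ‖h‖ = ∑' n, ‖c n‖ * (C₀ * ‖h‖) := by
        rw [tsum_mul_right]; ring
      rw [this]
      refine tsum_of_norm_bounded ((hsum c).mul_right (C₀ * ‖h‖)).hasSum ?_
      intro n
      rw [norm_mul]
      exact mul_le_mul_of_nonneg_left (hz n z h) (norm_nonneg _)
  let F : ℕ → Set E := fun k => {c | ∃ f D : ℂ → ℂ, ZClass k f D ∧ ‖f 0‖ ≤ k ∧ ‖D 0‖ ≤ k ∧
    ∀ x ∈ X, f x = Φ c x}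
  have hFclosed : ∀ k, IsClosed (F k) := by
    intro k
    apply IsSeqClosed.isClosed
    intro c c₀ hcF hlim
    choose f D hfD hf0 hD0 hfx using hcF
    obtain ⟨g, G, hgG, hg0, hG0, hgl⟩ := zclass_limit hfD hf0 hD0
    refine ⟨g, G, hgG, hg0, hG0, ?_⟩
    intro x hx
    apply hgl x (hX hx)
    have h1 : Tendsto (fun n => Φ (c n) x) atTop (𝓝 (Φ c₀ x)) := by
      rw [tendsto_iff_norm_sub_tendsto_zero]
      have h2 : Tendsto (fun n => C₀ * ‖c n - c₀‖) atTop (𝓝 0) := by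
        have := (tendsto_iff_norm_sub_tendsto_zero.1 hlim).const_mul C₀
        simpa using this
      refine squeeze_zero (fun n => norm_nonneg _) (fun n => ?_) h2
      rw [← hΦsub]
      exact hΦb _ _
    refine h1.congr ?_
    intro n
    exact (hfx n x hx).symm
  have hFunion : (⋃ k, F k) = Set.univ := by
    rw [Set.eq_univ_iff_forall]
    intro c
    obtain ⟨M, f, D, h1, h2⟩ := hint (Φ c) (hΦz c)
    obtain ⟨k, hk⟩ := exists_nat_ge (max M (max ‖f 0‖ ‖D 0‖))
    refine Set.mem_iUnion.2 ⟨k, f, D, h1.mono ?_, ?_, ?_, h2⟩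
    · exact le_trans (le_max_left _ _) hk
    · exact le_trans (le_trans (le_max_left _ _) (le_max_right _ _)) hk
    · exact le_trans (le_trans (le_max_right _ _) (le_max_right _ _)) hk
  obtain ⟨k, c₀, hc₀⟩ := nonempty_interior_of_iUnion_of_closed hFclosed hFunion
  obtain ⟨r, hr, hball⟩ := Metric.isOpen_iff.1 isOpen_interior c₀ hc₀
  have hball' : ∀ v : E, ‖v‖ < r → v ∈ F k := by
    intro v hv
    have ha : c₀ + v ∈ F k := by
      apply interior_subset
      apply hball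
      simpa using hv
    have hb' : c₀ - v ∈ F k := by
      apply interior_subset
      apply hball
      simpa [dist_eq_norm] using hv
    obtain ⟨f, D, h1, h2, h3, h4⟩ := ha
    obtain ⟨f', D', h1', h2', h3', h4'⟩ := hb'
    refine ⟨fun z => (f z - f' z) / 2, fun z => (D z - D' z) / 2, ?_, ?_, ?_, ?_⟩
    · intro p hp z hz
      have ea : (f z - f' z) / 2 - (f p - f' p) / 2 - (D p - D' p) / 2 * (z - p) =
          ((f z - f p - D p * (z - p)) - (f' z - f' p - D' p * (z - p))) / 2 := by ring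
      rw [ea, norm_div, show ‖(2 : ℂ)‖ = 2 by simp]
      have := norm_sub_le (f z - f p - D p * (z - p)) (f' z - f' p - D' p * (z - p))
      have i1 := h1 p hp z hz
      have i2 := h1' p hp z hz
      linarith
    · show ‖(f 0 - f' 0) / 2‖ ≤ k
      rw [norm_div, show ‖(2 : ℂ)‖ = 2 by simp]
      linarith [norm_sub_le (f 0) (f' 0)]
    · show ‖(D 0 - D' 0) / 2‖ ≤ k
      rw [norm_div, show ‖(2 : ℂ)‖ = 2 by simp]
      linarith [norm_sub_le (D 0) (D' 0)]
    · intro x hx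
      show (f x - f' x) / 2 = Φ v x
      rw [h4 x hx, h4' x hx, ← hΦsub]
      have : (c₀ + v - (c₀ - v) : E) = (2 : ℂ) • v := by
        rw [two_smul]; abel
      rw [this, hΦsmul]
      ring
  refine ⟨2 / r * k, ?_⟩
  intro n
  have hv : ‖(lp.single 1 n (r / 2 : ℂ) : E)‖ < r := by
    rw [lp.norm_single (by norm_num)]
    rw [norm_div, Complex.norm_real, Real.norm_of_nonneg hr.le]
    simp
    linarith
  obtain ⟨f, D, h1, -, -, h4⟩ := hball' _ hv
  have hrc : (r : ℂ) ≠ 0 := by exact_mod_cast hr.ne'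
  refine ⟨fun z => (2 / r : ℂ) * f z, fun z => (2 / r : ℂ) * D z, ?_, ?_⟩
  · intro p hp z hz
    have ea : (2 / r : ℂ) * f z - (2 / r : ℂ) * f p - (2 / r : ℂ) * D p * (z - p) =
        (2 / r : ℂ) * (f z - f p - D p * (z - p)) := by ring
    rw [ea, norm_mul]
    have hn : ‖(2 / r : ℂ)‖ = 2 / r := by
      rw [norm_div, Complex.norm_real, Real.norm_of_nonneg hr.le]; simp
    rw [hn]
    have i1 := h1 p hp z hz
    calc 2 / r * ‖f z - f p - D p * (z - p)‖ ≤ 2 / r * (k * ‖z - p‖ ^ 2 / (1 - ‖p‖)) :=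
          mul_le_mul_of_nonneg_left i1 (by positivity)
      _ = _ := by ring
  · intro x hx
    show (2 / r : ℂ) * f x = φ n x
    rw [h4 x hx]
    have : Φ (lp.single 1 n (r / 2 : ℂ)) x = (r / 2 : ℂ) * φ n x := by
      simp only [Φ]
      rw [tsum_eq_single n]
      · simp
      · intro m hm
        simp [lp.single_apply, hm]
    rw [this]
    field_simp

end ZygInt.J5
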